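import Pool.Agent.Lib.MP_0170ef_an.Simd

/-!
Integer polynomials in two variables, their `ℓ¹` norm, and how to read it off from one integer
value of the polynomial.
-/

set_option autoImplicit false

open Finset

namespace LinNi

/-- integer polynomials in two variables -/
abbrev Pol := AddMonoidAlgebra ℤ (ℕ × ℕ)

/-- the `ℓ¹` norm -/
noncomputable def nrm (p : Pol) : ℤ := ∑ x ∈ p.coeff.support, |p.coeff x|

lemma nrm_eq (p : Pol) {s : Finset (ℕ × ℕ)} (hs : p.coeff.support ⊆ s) :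
    nrm p = ∑ x ∈ s, |p.coeff x| := by
  unfold nrm
  apply sum_subset hs
  intro x _ hx
  rw [Finsupp.notMem_support_iff.1 hx, abs_zero]

lemma nrm_nonneg (p : Pol) : 0 ≤ nrm p := sum_nonneg fun _ _ => abs_nonneg _

lemma nrm_zero : nrm 0 = 0 := by simp [nrm]

lemma nrm_add (p q : Pol) : nrm (p + q) ≤ nrm p + nrm q := by
  classical
  have h1 : (p + q).coeff.support ⊆ p.coeff.support ∪ q.coeff.support := by
    rw [AddMonoidAlgebra.coeff_add]
    exact Finsupp.support_add
  rw [nrm_eq (p + q) h1, nrm_eq p subset_union_left, nrm_eq q subset_union_right,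
    ← sum_add_distrib]
  apply sum_le_sum
  intro x _
  rw [AddMonoidAlgebra.coeff_add, Finsupp.add_apply]
  exact abs_add_le _ _

lemma nrm_sum {ι : Type*} (s : Finset ι) (f : ι → Pol) : nrm (∑ i ∈ s, f i) ≤ ∑ i ∈ s, nrm (f i) := by
  classical
  induction s using Finset.induction_on with
  | empty => simp [nrm_zero]
  | insert a s ha ih =>
    rw [sum_insert ha, sum_insert ha]
    exact (nrm_add _ _).trans (by linarith)

lemma nrm_single (x : ℕ × ℕ) (c : ℤ) : nrm (AddMonoidAlgebra.single x c) = |c| := by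
  classical
  rw [nrm_eq _ (s := {x}) (by
    rw [AddMonoidAlgebra.coeff_single]; exact Finsupp.support_single_subset)]
  simp

lemma nrm_mul (p q : Pol) : nrm (p * q) ≤ nrm p * nrm q := by
  rw [AddMonoidAlgebra.mul_def]
  unfold Finsupp.sum
  calc nrm (∑ a ∈ p.coeff.support, ∑ b ∈ q.coeff.support,
        AddMonoidAlgebra.single (a + b) (p.coeff a * q.coeff b))
      ≤ ∑ a ∈ p.coeff.support, nrm (∑ b ∈ q.coeff.support,
        AddMonoidAlgebra.single (a + b) (p.coeff a * q.coeff b)) := nrm_sum _ _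
    _ ≤ ∑ a ∈ p.coeff.support, ∑ b ∈ q.coeff.support, nrm (
        AddMonoidAlgebra.single (a + b) (p.coeff a * q.coeff b)) := sum_le_sum fun _ _ => nrm_sum _ _
    _ = nrm p * nrm q := by
      unfold nrm
      rw [sum_mul_sum]
      apply sum_congr rfl
      intro a _
      apply sum_congr rfl
      intro b _
      rw [← abs_mul]
      exact nrm_single _ _

/-- evaluation -/
noncomputable def ev {A : Type*} [CommRing A] (x y : A) : Pol →+* A :=
  (AddMonoidAlgebra.lift ℤ A (ℕ × ℕ)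
    { toFun := fun a => x ^ (Multiplicative.toAdd a).1 * y ^ (Multiplicative.toAdd a).2
      map_one' := by simp
      map_mul' := fun a b => by simp [pow_add]; ring }).toRingHom

lemma ev_single {A : Type*} [CommRing A] (x y : A) (a : ℕ × ℕ) (c : ℤ) :
    ev x y (AddMonoidAlgebra.single a c) = (c : A) * (x ^ a.1 * y ^ a.2) := by
  simp [ev]

lemma ev_eq {A : Type*} [CommRing A] (x y : A) (p : Pol) :
    ev x y p = ∑ a ∈ p.coeff.support, (p.coeff a : A) * (x ^ a.1 * y ^ a.2) := by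
  unfold ev
  simp only [AlgHom.toRingHom_eq_coe, RingHom.coe_coe]
  rw [AddMonoidAlgebra.lift_apply]
  unfold Finsupp.sum
  apply sum_congr rfl
  intro a _
  simp

lemma abs_ev_le {x y : ℝ} (hx : |x| ≤ 1) (hy : |y| ≤ 1) (p : Pol) : |ev x y p| ≤ nrm p := by
  rw [ev_eq]
  refine (abs_sum_le_sum_abs _ _).trans ?_
  unfold nrm
  push_cast
  apply sum_le_sum
  intro a _
  rw [abs_mul, abs_mul, abs_pow, abs_pow]
  have h1 : |x| ^ a.1 ≤ 1 := pow_le_one₀ (abs_nonneg _) hx
  have h2 : |y| ^ a.2 ≤ 1 := pow_le_one₀ (abs_nonneg _) hy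
  have h3 : |x| ^ a.1 * |y| ^ a.2 ≤ 1 := mul_le_one₀ h1 (by positivity) h2
  calc |(p.coeff a : ℝ)| * (|x| ^ a.1 * |y| ^ a.2) ≤ |(p.coeff a : ℝ)| * 1 := by gcongr
    _ = |(p.coeff a : ℝ)| := mul_one _

/-- the first variable -/
noncomputable def PX : Pol := AddMonoidAlgebra.single (1, 0) 1
/-- the second variable -/
noncomputable def PY : Pol := AddMonoidAlgebra.single (0, 1) 1

lemma ev_PX {A : Type*} [CommRing A] (x y : A) : ev x y PX = x := by
  simp [PX, ev_single]

lemma ev_PY {A : Type*} [CommRing A] (x y : A) : ev x y PY = y := by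
  simp [PY, ev_single]

/-- degree and norm bounds -/
def Bnd (p : Pol) (n m : ℕ) (B : ℤ) : Prop :=
  (∀ x ∈ p.coeff.support, x.1 ≤ n ∧ x.2 ≤ m) ∧ nrm p ≤ B

lemma Bnd.mono {p : Pol} {n m n' m' : ℕ} {B B' : ℤ} (h : Bnd p n m B) (hn : n ≤ n') (hm : m ≤ m')
    (hB : B ≤ B') : Bnd p n' m' B' :=
  ⟨fun x hx => ⟨(h.1 x hx).1.trans hn, (h.1 x hx).2.trans hm⟩, h.2.trans hB⟩

lemma Bnd.nonneg {p : Pol} {n m : ℕ} {B : ℤ} (h : Bnd p n m B) : 0 ≤ B := (nrm_nonneg p).trans h.2

lemma Bnd.add {p q : Pol} {n m n' m' : ℕ} {B B' : ℤ} (h : Bnd p n m B) (h' : Bnd q n' m' B') :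
    Bnd (p + q) (max n n') (max m m') (B + B') := by
  classical
  refine ⟨fun x hx => ?_, (nrm_add _ _).trans (add_le_add h.2 h'.2)⟩
  have h1 : (p + q).coeff.support ⊆ p.coeff.support ∪ q.coeff.support := by
    rw [AddMonoidAlgebra.coeff_add]
    exact Finsupp.support_add
  rcases mem_union.1 (h1 hx) with h2 | h2
  · have := h.1 x h2; omega
  · have := h'.1 x h2; omega

lemma Bnd.mul {p q : Pol} {n m n' m' : ℕ} {B B' : ℤ} (h : Bnd p n m B) (h' : Bnd q n' m' B') :
    Bnd (p * q) (n + n') (m + m') (B * B') := by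
  classical
  refine ⟨fun x hx => ?_, (nrm_mul _ _).trans (mul_le_mul h.2 h'.2 (nrm_nonneg _) h.nonneg)⟩
  have h1 := AddMonoidAlgebra.support_coeff_mul_subset p q hx
  obtain ⟨a, ha, b, hb, rfl⟩ := Finset.mem_add.1 h1
  have h2 := h.1 a ha
  have h3 := h'.1 b hb
  exact ⟨add_le_add h2.1 h3.1, add_le_add h2.2 h3.2⟩

lemma Bnd.single (x : ℕ × ℕ) (c : ℤ) : Bnd (AddMonoidAlgebra.single x c) x.1 x.2 |c| := by
  classical
  refine ⟨fun y hy => ?_, (nrm_single x c).le⟩
  rw [AddMonoidAlgebra.coeff_single] at hy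
  have := mem_singleton.1 (Finsupp.support_single_subset hy)
  rw [this]
  exact ⟨le_rfl, le_rfl⟩

lemma Bnd.X : Bnd PX 1 0 1 := by
  unfold PX; simpa using Bnd.single (1, 0) 1
lemma Bnd.Y : Bnd PY 0 1 1 := by
  unfold PY; simpa using Bnd.single (0, 1) 1

lemma intCast_eq (c : ℤ) : (c : Pol) = AddMonoidAlgebra.single 0 c := by
  rw [AddMonoidAlgebra.intCast_def]
  simp

lemma Bnd.int (c : ℤ) : Bnd (c : Pol) 0 0 |c| := by
  rw [intCast_eq]; exact Bnd.single 0 c

lemma Bnd.neg {p : Pol} {n m : ℕ} {B : ℤ} (h : Bnd p n m B) : Bnd (-p) n m B := by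
  have := (Bnd.int (-1)).mul h
  simpa using this

lemma Bnd.sub {p q : Pol} {n m n' m' : ℕ} {B B' : ℤ} (h : Bnd p n m B) (h' : Bnd q n' m' B') :
    Bnd (p - q) (max n n') (max m m') (B + B') := by
  rw [sub_eq_add_neg]; exact h.add h'.neg

lemma Bnd.zero : Bnd 0 0 0 0 := by simpa using Bnd.int 0

/-- reading off the norm -/
theorem simd_ev {p : Pol} {n m b h R S : ℕ} {B : ℤ} (hp : Bnd p n m B) (hB : B < 2 ^ h)
    (hn : n < R) (hm : m < S) (hb : R * S * 2 ^ (h + 1) < 2 ^ b - 1) :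
    (simd b h (R * S) (ev (2 ^ (b * S) : ℤ) (2 ^ b) p + 2 ^ h * ∑ k ∈ range (R * S), 2 ^ (b * k)).toNat : ℤ)
      = nrm p := by
  have hS : 0 < S := by omega
  let g : ℕ → ℤ := fun k => p.coeff (k / S, k % S)
  have hsub : p.coeff.support ⊆ range R ×ˢ range S := by
    intro x hx
    rw [mem_product, mem_range, mem_range]
    have := hp.1 x hx
    omega
  have hrei : ∀ f : ℕ × ℕ → ℤ, ∑ k ∈ range (R * S), f (k / S, k % S) =
      ∑ x ∈ range R ×ˢ range S, f x := by
    intro f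
    apply sum_nbij' (fun k => (k / S, k % S)) (fun x => S * x.1 + x.2)
    · intro k hk
      rw [mem_range] at hk
      rw [mem_product, mem_range, mem_range]
      exact ⟨Nat.div_lt_of_lt_mul (by rw [mul_comm]; exact hk), Nat.mod_lt _ hS⟩
    · intro x hx
      rw [mem_product, mem_range, mem_range] at hx
      rw [mem_range]
      calc S * x.1 + x.2 < S * x.1 + S := by omega
        _ = (x.1 + 1) * S := by ring
        _ ≤ R * S := by gcongr; omega
    · intro k _
      exact Nat.div_add_mod k S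
    · intro x hx
      rw [mem_product, mem_range, mem_range] at hx
      have h1 : (S * x.1 + x.2) / S = x.1 := by
        rw [Nat.mul_add_div hS, Nat.div_eq_of_lt hx.2, add_zero]
      have h2 : (S * x.1 + x.2) % S = x.2 := by
        rw [Nat.mul_add_mod, Nat.mod_eq_of_lt hx.2]
      rw [h1, h2]
    · intro k _
      rfl
  have hnrm : nrm p = ∑ k ∈ range (R * S), |g k| := by
    rw [hrei (fun x => |p.coeff x|), nrm_eq p hsub]
  have hev : ev (2 ^ (b * S) : ℤ) (2 ^ b) p = ∑ k ∈ range (R * S), g k * 2 ^ (b * k) := by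
    have e1 : ∑ k ∈ range (R * S), g k * 2 ^ (b * k) =
        ∑ k ∈ range (R * S), (fun x : ℕ × ℕ => p.coeff x * 2 ^ (b * (S * x.1 + x.2)))
          (k / S, k % S) := by
      apply sum_congr rfl
      intro k _
      simp only [g]
      rw [Nat.div_add_mod k S]
    rw [e1, hrei (fun x : ℕ × ℕ => p.coeff x * 2 ^ (b * (S * x.1 + x.2))), ev_eq]
    rw [sum_subset hsub (by
      intro x _ hx
      rw [Finsupp.notMem_support_iff.1 hx]
      simp)]
    apply sum_congr rfl
    intro x _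
    simp only [Int.cast_id]
    rw [← pow_mul, ← pow_mul, ← pow_add]
    congr 2
    ring
  rw [hev, hnrm]
  apply simd_enc hb
  intro k hk
  have h1 : |g k| ≤ nrm p := by
    rw [hnrm]
    exact single_le_sum (f := fun k => |g k|) (fun _ _ => abs_nonneg _) (mem_range.2 hk)
  exact h1.trans_lt (hp.2.trans_lt hB)

end LinNi
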