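import Pool.Agent.Lib.MP_0170ef_an.End
import Pool.Agent.Lib.MP_0170ef_an.D.A
import Pool.Agent.Lib.MP_0170ef_an.D.B
import Pool.Agent.Lib.MP_0170ef_an.D.C
import Pool.Agent.Lib.MP_0170ef_an.D.Dw
import Pool.Agent.Lib.MP_0170ef_an.D.E1
import Pool.Agent.Lib.MP_0170ef_an.D.E2
import Pool.Agent.Lib.MP_0170ef_an.D.E3
import Pool.Agent.Lib.MP_0170ef_an.D.Fw
import Pool.Agent.Lib.MP_0170ef_an.D.G
import Pool.Agent.Lib.MP_0170ef_an.D.H

/-!
Assembly of the windows.
-/

set_option autoImplicit false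

open Set Filter Topology

namespace LinNi

open H93

lemma le_wl {F : First} {n m : ℕ} (h : cov F n m = true) {x : ℕ}
    (hx : x * 2 ^ F.C.k ≤ (F.a0 - F.a1) * 10 ^ 4) : (x:ℝ) / 10 ^ 4 ≤ F.wl := by
  obtain ⟨-, -, h3, h4, h5, h6, h7⟩ := cov_iff h
  have hU := F.C.U_pos
  unfold First.wl
  rw [ini_eq, div_le_div_iff₀ (by positivity) hU]
  have : ((x * 2 ^ F.C.k : ℕ) : ℝ) ≤ (((F.a0 - F.a1) * 10 ^ 4 : ℕ) : ℝ) := by exact_mod_cast hx
  push_cast [Nat.cast_sub h4.le] at this
  unfold Cfg.U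
  linarith

lemma wr_le {F : First} {x : ℕ} (hx : (F.a0 + F.a1) * 10 ^ 4 ≤ x * 2 ^ F.C.k) :
    F.wr ≤ (x:ℝ) / 10 ^ 4 := by
  have hU := F.C.U_pos
  unfold First.wr
  rw [ini_eq, div_le_div_iff₀ hU (by positivity)]
  have : (((F.a0 + F.a1) * 10 ^ 4 : ℕ) : ℝ) ≤ ((x * 2 ^ F.C.k : ℕ) : ℝ) := by exact_mod_cast hx
  push_cast at this
  unfold Cfg.U
  linarith

/-- small initial values -/
theorem wA {a : ℝ} (h0 : 0 < a) (h : a ≤ 79 / 100) : LocL a := by
  have h3 : a ^ 3 ≤ (79 / 100) ^ 3 := pow_le_pow_left₀ h0.le h 3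
  rcases le_or_gt (a ^ 3) (3 / 10) with h1 | h1
  · exact win_A dA1_F dA1_h0 dA1_C h0 (by norm_num; positivity) (by norm_num; exact h1)
  · exact win_A dA2_F dA2_h0 dA2_C h0 (by norm_num; exact h1.le) (by norm_num at h3 ⊢; linarith)

/-- initial values below the first critical window -/
theorem wC {a : ℝ} (h0 : 105 / 100 ≤ a) (h : a ≤ 15263 / 10 ^ 4) : LocR a := by
  norm_num at h
  rcases le_or_gt a (124 / 100) with h1 | h1
  · exact win_R dC1_F dC1_h0 dC1_C (by norm_num; linarith) (by norm_num; linarith)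
  rcases le_or_gt a (144 / 100) with h2 | h2
  · exact win_R dC2_F dC2_h0 dC2_C (by norm_num; linarith) (by norm_num; linarith)
  rcases le_or_gt a (151 / 100) with h3 | h3
  · exact win_R dC3_F dC3_h0 dC3_C (by norm_num; linarith) (by norm_num; linarith)
  · exact win_R dC4_F dC4_h0 dC4_C (by norm_num; linarith) (by norm_num; linarith)

theorem wABC {a : ℝ} (h0 : 0 < a) (h : a ≤ 15263 / 10 ^ 4) : Crosses a ∧ LocQ a := by
  rcases le_or_gt a (79 / 100) with h1 | h1
  · exact (wA h0 h1).locQ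
  rcases le_or_gt a (935 / 1000) with h2 | h2
  · exact win_W dB1_F dB1_h0 dB1_C (by norm_num; linarith) (by norm_num; linarith)
  rcases le_or_gt a (105 / 100) with h3 | h3
  · exact win_W dB2_F dB2_h0 dB2_C (by norm_num; linarith) (by norm_num; linarith)
  · exact (wC h3.le h).locQ

/-- initial values above the first critical window -/
theorem wE {a : ℝ} (h0 : 15394 / 10 ^ 4 ≤ a) (h : a ≤ 16524 / 10 ^ 4) : LocL a := by
  norm_num at h0 h
  rcases le_or_gt a (15410 / 10000) with h1 | h1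
  · exact win_L dE1_F dE1_h0 dE1_C (by norm_num; linarith) (by norm_num; linarith)
  rcases le_or_gt a (15434 / 10000) with h2 | h2
  · exact win_L dE2_F dE2_h0 dE2_C (by norm_num; linarith) (by norm_num; linarith)
  rcases le_or_gt a (15470 / 10000) with h3 | h3
  · exact win_L dE3_F dE3_h0 dE3_C (by norm_num; linarith) (by norm_num; linarith)
  rcases le_or_gt a (15522 / 10000) with h4 | h4
  · exact win_L dE4_F dE4_h0 dE4_C (by norm_num; linarith) (by norm_num; linarith)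
  rcases le_or_gt a (15616 / 10000) with h5 | h5
  · exact win_L dE5_F dE5_h0 dE5_C (by norm_num; linarith) (by norm_num; linarith)
  rcases le_or_gt a (15770 / 10000) with h6 | h6
  · exact win_L dE6_F dE6_h0 dE6_C (by norm_num; linarith) (by norm_num; linarith)
  rcases le_or_gt a (16018 / 10000) with h7 | h7
  · exact win_L dE7_F dE7_h0 dE7_C (by norm_num; linarith) (by norm_num; linarith)
  rcases le_or_gt a (16340 / 10000) with h8 | h8
  · exact win_L dE8_F dE8_h0 dE8_C (by norm_num; linarith) (by norm_num; linarith)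
  · exact win_L dE9_F dE9_h0 dE9_C (by norm_num; linarith) (by norm_num; linarith)

theorem wG {a : ℝ} (h0 : 17050 / 10 ^ 4 ≤ a) (h : a ≤ 18310 / 10 ^ 4) : LocR a := by
  norm_num at h0 h
  rcases le_or_gt a (17850 / 10000) with h1 | h1
  · exact win_R dG1_F dG1_h0 dG1_C (by norm_num; linarith) (by norm_num; linarith)
  · exact win_R dG2_F dG2_h0 dG2_C (by norm_num; linarith) (by norm_num; linarith)

theorem wEFG {a : ℝ} (h0 : 15394 / 10 ^ 4 ≤ a) (h : a ≤ 18310 / 10 ^ 4) : Crosses a ∧ LocQ a := by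
  rcases le_or_gt a (16524 / 10 ^ 4) with h1 | h1
  · exact (wE h0 h1).locQ
  rcases le_or_gt a (17050 / 10 ^ 4) with h2 | h2
  · exact win_W dF1_F dF1_h0 dF1_C (by norm_num at h1 ⊢; linarith) (by norm_num at h2 ⊢; linarith)
  · exact (wG h2.le h).locQ

/-- the analytic main statement -/
theorem mainFact : MainFact := by
  -- the limiting equation
  have hL := (dL_h0.valid dL_F).main
  have hHE : HE (lastB dL_0 dL_l0) tau := hL.2
  -- first critical window
  have hlast : 1000 ≤ lastB dD1_0 dD1_l0 := by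
    have h1 : lastP dD1_0 dD1_l0 = dD1_48 := rfl
    rw [lastB_eq, h1]
    have h2 : 1000 * dD1_48.D ≤ dD1_48.A + dD1_48.H := by decide +kernel
    have h3 : 0 < dD1_48.D := by decide +kernel
    have h2' : ((1000 * dD1_48.D : ℕ) : ℝ) ≤ ((dD1_48.A + dD1_48.H : ℕ) : ℝ) := by exact_mod_cast h2
    have h3' : (0:ℝ) < dD1_48.D := by exact_mod_cast h3
    push_cast at h2'
    unfold Patch.b
    rw [le_div_iff₀ h3']
    exact h2'
  obtain ⟨α₁, h1, h1c, h1R, h1L⟩ := corrL dD1_F dD1_h0 dD1_C (by decide +kernel) hlast hL.1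
    tau_pos hHE
  obtain ⟨α₂, h2, h2c, h2R⟩ := corrR dH1_F dH1_h0 dH1_C (by decide +kernel)
  have d1 := wl_le dD1_C
  have d2 := le_wr dD1_C
  have d3 := wl_le dH1_C
  have d4 := wr_lt dH1_C
  have d5 : (15000:ℕ) / (10:ℝ) ^ 4 ≤ dD1F.wl := le_wl dD1_C (by decide +kernel)
  have d6 : dD1F.wr ≤ (15500:ℕ) / (10:ℝ) ^ 4 := wr_le (by decide +kernel)
  have d7 : (18000:ℕ) / (10:ℝ) ^ 4 ≤ dH1F.wl := le_wl dH1_C (by decide +kernel)
  norm_num at d1 d2 d3 d5 d6 d7
  refine ⟨α₁, α₂, by linarith [h1.1], by linarith [h1.2, h2.1], by linarith [h2.2], h1c, h2c,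
    ?_, ?_, ?_⟩
  · intro a ha0 ha2 hne
    rcases lt_or_ge a dD1F.wl with c1 | c1
    · exact wABC ha0 (by norm_num; linarith)
    rcases lt_or_gt_of_ne hne with c2 | c2
    · exact (h1R a ⟨c1, c2⟩).locQ
    rcases le_or_gt a dD1F.wr with c3 | c3
    · exact (h1L a ⟨c2, c3⟩).locQ
    rcases lt_or_ge a dH1F.wl with c4 | c4
    · exact wEFG (by norm_num; linarith) (by norm_num; linarith)
    · exact (h2R a ⟨c4, ha2⟩).locQ
  · exact vee_of (a := 1 / 2) (b := 12 / 10) (wA (by norm_num) (by norm_num))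
      (wC (by norm_num) (by norm_num)) (by norm_num) (by norm_num) (by linarith [h1.1])
  · exact vee_of (a := 16 / 10) (b := 175 / 100) (wE (by norm_num) (by norm_num))
      (wG (by norm_num) (by norm_num)) (by linarith [h1.2]) (by norm_num) (by linarith [h2.1])

end LinNi
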