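import Mathlib

/-!
Basic facts about the nonlinearity `f c v = v ^ 4 + c * v ^ 7` and its truncation.
-/

set_option autoImplicit false

open Set

namespace LinNi

/-- the nonlinearity -/
noncomputable def f (c v : ℝ) : ℝ := v ^ 4 + c * v ^ 7

/-- truncation to `[-1/2, 2]` -/
noncomputable def cl (v : ℝ) : ℝ := max (-1/2) (min v 2)

/-- truncated nonlinearity -/
noncomputable def F (c v : ℝ) : ℝ := f c (cl v)

lemma cl_mem (v : ℝ) : cl v ∈ Icc (-1/2 : ℝ) 2 :=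
  ⟨le_max_left _ _, max_le (by norm_num) (min_le_right _ _)⟩

lemma cl_of_mem {v : ℝ} (h : v ∈ Icc (-1/2 : ℝ) 2) : cl v = v := by
  unfold cl
  rw [min_eq_left h.2, max_eq_right h.1]

lemma abs_cl_sub_le (v w : ℝ) : |cl v - cl w| ≤ |v - w| := by
  unfold cl
  rw [max_comm (-1/2) (min v 2), max_comm (-1/2) (min w 2)]
  refine (abs_max_sub_max_le_abs _ _ _).trans ?_
  have := abs_min_sub_min_le_max v 2 w 2
  simpa using this

lemma F_of_mem {c v : ℝ} (h : v ∈ Icc (-1/2 : ℝ) 2) : F c v = f c v := by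
  unfold F; rw [cl_of_mem h]

lemma f_nonneg {c v : ℝ} (hc : c ∈ Icc (0:ℝ) 1) (h : v ∈ Icc (-1/2 : ℝ) 2) : 0 ≤ f c v := by
  unfold f
  have h1 : 0 ≤ 1 + c * v ^ 3 := by
    have h2 : -(1/8) ≤ v ^ 3 := by
      nlinarith [h.1, h.2, sq_nonneg (v - 1/2), sq_nonneg (v + 1/2), mul_nonneg (sub_nonneg.2 h.1) (sq_nonneg (v - 1/4))]
    nlinarith [hc.1, hc.2]
  have : v ^ 4 + c * v ^ 7 = v ^ 4 * (1 + c * v ^ 3) := by ring
  rw [this]
  positivity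

lemma abs_le_two {v : ℝ} (h : v ∈ Icc (-1/2 : ℝ) 2) : |v| ≤ 2 := abs_le.2 ⟨by linarith [h.1], h.2⟩

lemma f_le {c v : ℝ} (hc : c ∈ Icc (0:ℝ) 1) (h : v ∈ Icc (-1/2 : ℝ) 2) : f c v ≤ 144 := by
  have h0 := abs_le_two h
  have h1 : |f c v| ≤ 144 := by
    unfold f
    calc |v ^ 4 + c * v ^ 7| ≤ |v ^ 4| + |c * v ^ 7| := abs_add_le _ _
      _ = |v| ^ 4 + |c| * |v| ^ 7 := by rw [abs_mul, abs_pow, abs_pow]
      _ ≤ 2 ^ 4 + 1 * 2 ^ 7 := by
          gcongr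
          rw [abs_of_nonneg hc.1]; exact hc.2
      _ = 144 := by norm_num
  exact (le_abs_self _).trans h1

lemma F_nonneg {c : ℝ} (hc : c ∈ Icc (0:ℝ) 1) (v : ℝ) : 0 ≤ F c v := f_nonneg hc (cl_mem v)

lemma F_le {c : ℝ} (hc : c ∈ Icc (0:ℝ) 1) (v : ℝ) : F c v ≤ 144 := f_le hc (cl_mem v)

lemma abs_F_le {c : ℝ} (hc : c ∈ Icc (0:ℝ) 1) (v : ℝ) : |F c v| ≤ 144 := by
  rw [abs_of_nonneg (F_nonneg hc v)]; exact F_le hc v

lemma f_sub (c v w : ℝ) : f c v - f c w =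
    ((v + w) * (v ^ 2 + w ^ 2) + c * (v ^ 6 + v ^ 5 * w + v ^ 4 * w ^ 2 + v ^ 3 * w ^ 3 +
      v ^ 2 * w ^ 4 + v * w ^ 5 + w ^ 6)) * (v - w) := by
  unfold f; ring

lemma abs_f_sub_le {c v w : ℝ} (hc : c ∈ Icc (0:ℝ) 1) (hv : v ∈ Icc (-1/2 : ℝ) 2)
    (hw : w ∈ Icc (-1/2 : ℝ) 2) : |f c v - f c w| ≤ 480 * |v - w| := by
  rw [f_sub, abs_mul]
  have h1 := abs_le_two hv
  have h2 := abs_le_two hw
  have hc' : |c| ≤ 1 := by rw [abs_of_nonneg hc.1]; exact hc.2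
  refine mul_le_mul_of_nonneg_right ?_ (abs_nonneg _)
  have e1 : |(v + w) * (v ^ 2 + w ^ 2)| ≤ 32 := by
    rw [abs_mul]
    calc |v + w| * |v ^ 2 + w ^ 2| ≤ (|v| + |w|) * (|v ^ 2| + |w ^ 2|) := by
          gcongr <;> exact abs_add_le _ _
      _ = (|v| + |w|) * (|v| ^ 2 + |w| ^ 2) := by rw [abs_pow, abs_pow]
      _ ≤ (2 + 2) * (2 ^ 2 + 2 ^ 2) := by gcongr
      _ = 32 := by norm_num
  have e2 : |v ^ 6 + v ^ 5 * w + v ^ 4 * w ^ 2 + v ^ 3 * w ^ 3 +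
      v ^ 2 * w ^ 4 + v * w ^ 5 + w ^ 6| ≤ 448 := by
    calc |v ^ 6 + v ^ 5 * w + v ^ 4 * w ^ 2 + v ^ 3 * w ^ 3 +
      v ^ 2 * w ^ 4 + v * w ^ 5 + w ^ 6| ≤ |v ^ 6| + |v ^ 5 * w| + |v ^ 4 * w ^ 2| + |v ^ 3 * w ^ 3| +
      |v ^ 2 * w ^ 4| + |v * w ^ 5| + |w ^ 6| := by
          refine (abs_add_le _ _).trans ?_
          gcongr
          refine (abs_add_le _ _).trans ?_
          gcongr
          refine (abs_add_le _ _).trans ?_
          gcongr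
          refine (abs_add_le _ _).trans ?_
          gcongr
          refine (abs_add_le _ _).trans ?_
          gcongr
          exact abs_add_le _ _
      _ = |v| ^ 6 + |v| ^ 5 * |w| + |v| ^ 4 * |w| ^ 2 + |v| ^ 3 * |w| ^ 3 +
      |v| ^ 2 * |w| ^ 4 + |v| * |w| ^ 5 + |w| ^ 6 := by simp only [abs_mul, abs_pow]
      _ ≤ 2 ^ 6 + 2 ^ 5 * 2 + 2 ^ 4 * 2 ^ 2 + 2 ^ 3 * 2 ^ 3 + 2 ^ 2 * 2 ^ 4 + 2 * 2 ^ 5 + 2 ^ 6 := by
          gcongr
      _ = 448 := by norm_num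
  calc _ ≤ |(v + w) * (v ^ 2 + w ^ 2)| + |c * (v ^ 6 + v ^ 5 * w + v ^ 4 * w ^ 2 + v ^ 3 * w ^ 3 +
      v ^ 2 * w ^ 4 + v * w ^ 5 + w ^ 6)| := abs_add_le _ _
    _ ≤ 32 + 1 * 448 := by
        rw [abs_mul c]
        gcongr
    _ = 480 := by norm_num

lemma abs_F_sub_le {c : ℝ} (hc : c ∈ Icc (0:ℝ) 1) (v w : ℝ) : |F c v - F c w| ≤ 480 * |v - w| := by
  unfold F
  refine (abs_f_sub_le hc (cl_mem v) (cl_mem w)).trans ?_
  exact mul_le_mul_of_nonneg_left (abs_cl_sub_le v w) (by norm_num)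

lemma continuous_F (c : ℝ) : Continuous (F c) := by
  unfold F f cl
  fun_prop

/-- the vector field of the equation `z'' = -t F(z/t)` -/
noncomputable def g (c t z : ℝ) : ℝ := t * F c (z / t)

lemma abs_g_le {c : ℝ} (hc : c ∈ Icc (0:ℝ) 1) (t z : ℝ) : |g c t z| ≤ 144 * |t| := by
  unfold g
  rw [abs_mul]
  nlinarith [abs_F_le hc (z / t), abs_nonneg t]

lemma abs_g_sub_le {c : ℝ} (hc : c ∈ Icc (0:ℝ) 1) (t z w : ℝ) :
    |g c t z - g c t w| ≤ 480 * |z - w| := by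
  unfold g
  rcases eq_or_ne t 0 with rfl | ht
  · simp
  · rw [← mul_sub, abs_mul]
    have h1 := abs_F_sub_le hc (z / t) (w / t)
    have h2 : |z / t - w / t| = |z - w| / |t| := by rw [← sub_div, abs_div]
    rw [h2] at h1
    have h3 : 0 < |t| := abs_pos.2 ht
    calc |t| * |F c (z / t) - F c (w / t)| ≤ |t| * (480 * (|z - w| / |t|)) := by gcongr
      _ = 480 * |z - w| := by field_simp

lemma continuous_g_left {c : ℝ} (hc : c ∈ Icc (0:ℝ) 1) (φ : ℝ → ℝ) (hφ : Continuous φ) :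
    Continuous (fun t => g c t (φ t)) := by
  rw [continuous_iff_continuousAt]
  intro t
  rcases eq_or_ne t 0 with rfl | ht
  · have h1 : Filter.Tendsto (fun t => g c t (φ t)) (nhds 0) (nhds 0) := by
      apply squeeze_zero_norm (a := fun t => 144 * |t|)
      · intro t
        exact abs_g_le hc t _
      · have : Continuous (fun t : ℝ => 144 * |t|) := by fun_prop
        simpa using this.tendsto 0
    have h2 : g c 0 (φ 0) = 0 := by simp [g]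
    show Filter.Tendsto (fun t => g c t (φ t)) (nhds 0) (nhds (g c 0 (φ 0)))
    rw [h2]
    exact h1
  · unfold g
    apply ContinuousAt.mul continuousAt_id
    apply (continuous_F c).continuousAt.comp
    exact hφ.continuousAt.div continuousAt_id ht

end LinNi
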