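import Pool.Agent.Lib.MP_0170ef_an.Link

/-!
Chains of patches.
-/

set_option autoImplicit false

open Set Filter Topology

namespace LinNi

/-- verified chain for `v` -/
def ChV : Patch → List Patch → Prop
  | p, [] => p.ckV = true
  | p, q :: l => p.ckV = true ∧ (lnk p q = true ∧ lnkV p q = true) ∧ ChV q l

/-- verified chain for `Q` -/
def ChW : Patch → List Patch → Prop
  | p, [] => p.ckW = true
  | p, q :: l => p.ckW = true ∧ lnkW p q = true ∧ ChW q l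

/-- verified chain for `Y` -/
def ChY : Patch → List Patch → Prop
  | p, [] => p.ckY = true
  | p, q :: l => p.ckY = true ∧ lnkY p q = true ∧ ChY q l

/-- right end of a chain -/
noncomputable def lastB : Patch → List Patch → ℝ
  | p, [] => p.b
  | _, q :: l => lastB q l

/-- last patch of a chain -/
def lastP : Patch → List Patch → Patch
  | p, [] => p
  | _, q :: l => lastP q l

lemma lastB_eq (p : Patch) (l : List Patch) : lastB p l = (lastP p l).b := by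
  induction l generalizing p with
  | nil => rfl
  | cons q l ih => exact ih q

lemma lastP_mem (p : Patch) (l : List Patch) : lastP p l ∈ p :: l := by
  induction l generalizing p with
  | nil => simp [lastP]
  | cons q l ih => exact List.mem_cons_of_mem _ (ih q)

lemma ChV.head {p : Patch} {l : List Patch} (h : ChV p l) : p.ckV = true := by
  cases l with
  | nil => exact h
  | cons q l => exact h.1

lemma ChV.ck {p : Patch} {l : List Patch} (h : ChV p l) : ∀ q ∈ p :: l, q.ckV = true := by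
  induction l generalizing p with
  | nil =>
    intro q hq
    rw [List.mem_singleton] at hq
    rw [hq]; exact h
  | cons r l ih =>
    intro q hq
    rcases List.mem_cons.1 hq with rfl | hq
    · exact h.1
    · exact ih h.2.2 q hq

lemma lnk_ab {p q : Patch} (hp : p.Geo) (hq : q.Geo) (h : lnk p q = true) : p.b = q.a := by
  simp only [lnk, Bool.and_eq_true, Nat.beq_eq, Nat.ble_eq] at h
  have htime := h.1.2
  have htime' : ((p.A:ℝ) + p.H) * q.D = ((q.A:ℝ) - q.H) * p.D := by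
    have h1 : (((p.A + p.H) * q.D : ℕ) : ℝ) = (((q.A - q.H) * p.D : ℕ) : ℝ) := by rw [htime]
    push_cast [Nat.cast_sub hq.hHA.le] at h1
    exact h1
  unfold Patch.b Patch.a
  rw [div_eq_div_iff hp.D.ne' hq.D.ne']
  exact htime'

lemma lnk_c {p q : Patch} (h : lnk p q = true) (e : ℝ) : p.C.c e = q.C.c e := by
  simp only [lnk, Bool.and_eq_true, Nat.beq_eq, Nat.ble_eq] at h
  exact same_c h.1.1 e

lemma ChV.le_last {p : Patch} {l : List Patch} (h : ChV p l) : p.b ≤ lastB p l := by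
  induction l generalizing p with
  | nil => exact le_rfl
  | cons q l ih =>
    have hp := (Patch.of_ckV h.1).1
    have hq := (Patch.of_ckV h.2.2.head).1
    have h1 := lnk_ab hp hq h.2.1.1
    have h2 := ih h.2.2
    have h3 := hq.ab
    show p.b ≤ lastB q l
    linarith

lemma ChV.c_eq {p : Patch} {l : List Patch} (h : ChV p l) (e : ℝ) :
    ∀ q ∈ p :: l, q.C.c e = p.C.c e := by
  induction l generalizing p with
  | nil =>
    intro q hq
    rw [List.mem_singleton] at hq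
    rw [hq]
  | cons r l ih =>
    intro q hq
    rcases List.mem_cons.1 hq with rfl | hq
    · rfl
    · rw [ih h.2.2 q hq, lnk_c h.2.1.1 e]

lemma ChV.mem_le {p : Patch} {l : List Patch} (h : ChV p l) :
    ∀ q ∈ p :: l, p.a ≤ q.a ∧ q.b ≤ lastB p l := by
  induction l generalizing p with
  | nil =>
    intro q hq
    rw [List.mem_singleton] at hq
    rw [hq]; exact ⟨le_rfl, le_rfl⟩
  | cons r l ih =>
    intro q hq
    rcases List.mem_cons.1 hq with rfl | hq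
    · exact ⟨le_rfl, h.le_last⟩
    · have h1 := ih h.2.2 q hq
      have hp := (Patch.of_ckV h.1).1
      have hq := (Patch.of_ckV h.2.2.head).1
      have h2 := lnk_ab hp hq h.2.1.1
      exact ⟨by linarith [hp.ab], h1.2⟩

lemma ChV.cover {p : Patch} {l : List Patch} (h : ChV p l) {s : ℝ} (hs : s ∈ Icc p.a (lastB p l)) :
    ∃ q ∈ p :: l, s ∈ Icc q.a q.b := by
  induction l generalizing p with
  | nil => exact ⟨p, by simp, hs⟩
  | cons r l ih =>
    rcases le_or_gt s p.b with h1 | h1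
    · exact ⟨p, by simp, hs.1, h1⟩
    · have hp := (Patch.of_ckV h.1).1
      have hq := (Patch.of_ckV h.2.2.head).1
      have h2 := lnk_ab hp hq h.2.1.1
      obtain ⟨q, hq, h3⟩ := ih h.2.2 ⟨by linarith, hs.2⟩
      exact ⟨q, List.mem_cons_of_mem _ hq, h3⟩

lemma LinI.mono {c : ℝ} {v : ℝ → ℝ} {a b a' b' τ : ℝ} {G u μ : ℝ → ℝ} (h : LinI c v a b τ G u μ)
    (ha : a ≤ a') (hb : b' ≤ b) : LinI c v a' b' τ G u μ :=
  ⟨fun s hs => h.du s ⟨ha.trans hs.1, hs.2.trans hb⟩,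
    fun s hs => h.dμ s ⟨ha.trans hs.1, hs.2.trans hb⟩,
    fun s hs => h.hG s ⟨ha.trans hs.1, hs.2.trans hb⟩⟩

lemma Lin2I.mono {c : ℝ} {v : ℝ → ℝ} {a b a' b' τ : ℝ} {g u₁ u₂ G u μ : ℝ → ℝ}
    (h : Lin2I c v a b τ g u₁ u₂ G u μ) (ha : a ≤ a') (hb : b' ≤ b) :
    Lin2I c v a' b' τ g u₁ u₂ G u μ :=
  ⟨fun s hs => h.du s ⟨ha.trans hs.1, hs.2.trans hb⟩,
    fun s hs => h.dμ s ⟨ha.trans hs.1, hs.2.trans hb⟩,
    fun s hs => h.hG s ⟨ha.trans hs.1, hs.2.trans hb⟩,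
    fun s hs => h.hg s ⟨ha.trans hs.1, hs.2.trans hb⟩⟩

/-- enclosure of `v` along a chain -/
theorem chainV {p : Patch} {l : List Patch} (h : ChV p l) {e : ℝ} (he : |e| ≤ 1) {v m : ℝ → ℝ}
    (hs : ∀ s ∈ Icc p.a (lastB p l), SolAt (p.C.c e) v m s)
    (h0 : p.err p.P e v m p.a ≤ (p.m0 / p.C.U) ^ 2) :
    ∀ q ∈ p :: l, ∀ s ∈ Icc q.a q.b, q.err q.P e v m s ≤ (q.mm / q.C.U) ^ 2 := by
  induction l generalizing p with
  | nil =>
    intro q hq
    rw [List.mem_singleton] at hq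
    rw [hq]
    exact (Patch.stepV h he hs h0).1
  | cons r l ih =>
    have hp := (Patch.of_ckV h.1).1
    have hr := (Patch.of_ckV h.2.2.head).1
    have hab := lnk_ab hp hr h.2.1.1
    have hst := Patch.stepV h.1 he (fun s hs' => hs s ⟨hs'.1, hs'.2.trans h.le_last⟩) h0
    intro q hq
    rcases List.mem_cons.1 hq with rfl | hq
    · exact hst.1
    · refine ih h.2.2 (fun s hs' => ?_) (link_sound hp hr h.2.1.1 h.2.1.2 he hst.2) q hq
      rw [← lnk_c h.2.1.1 e]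
      exact hs s ⟨by linarith [hs'.1, hp.ab], hs'.2⟩

/-- enclosure of the first variation along a chain -/
theorem chainW {p : Patch} {l : List Patch} (h : ChV p l) (hw : ChW p l) {e : ℝ} (he : |e| ≤ 1)
    {v : ℝ → ℝ} (hv : ∀ q ∈ p :: l, ∀ s ∈ Icc q.a q.b, |v s - q.apx q.P e s| ≤ q.mm / q.C.U)
    {G u μ : ℝ → ℝ} (hl : LinI (p.C.c e) v p.a (lastB p l) tau G u μ)
    (h0 : p.err p.Q e u μ p.a ≤ (p.w0 / p.C.U) ^ 2) :
    ∀ q ∈ p :: l, ∀ s ∈ Icc q.a q.b, q.err q.Q e u μ s ≤ (q.ww / q.C.U) ^ 2 := by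
  induction l generalizing p with
  | nil =>
    intro q hq
    rw [List.mem_singleton] at hq
    rw [hq]
    exact (Patch.stepW h hw he (hv p (by simp)) hl h0).1
  | cons r l ih =>
    have hp := (Patch.of_ckV h.1).1
    have hr := (Patch.of_ckV h.2.2.head).1
    have hab := lnk_ab hp hr h.2.1.1
    have hst := Patch.stepW h.1 hw.1 he (hv p (by simp)) (hl.mono le_rfl h.le_last) h0
    intro q hq
    rcases List.mem_cons.1 hq with rfl | hq
    · exact hst.1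
    · refine ih h.2.2 hw.2.2 (fun q hq => hv q (List.mem_cons_of_mem _ hq)) ?_
        (link_sound hp hr h.2.1.1 hw.2.1 he hst.2) q hq
      rw [← lnk_c h.2.1.1 e]
      exact hl.mono (by linarith [hp.ab]) le_rfl

/-- enclosure of the second variation along a chain -/
theorem chainY {p : Patch} {l : List Patch} (h : ChV p l) (hw : ChW p l) (hy : ChY p l)
    {e : ℝ} (he : |e| ≤ 1)
    {v : ℝ → ℝ} (hv : ∀ q ∈ p :: l, ∀ s ∈ Icc q.a q.b, |v s - q.apx q.P e s| ≤ q.mm / q.C.U)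
    {g u₁ u₂ G u μ : ℝ → ℝ}
    (h1 : ∀ q ∈ p :: l, ∀ s ∈ Icc q.a q.b, |u₁ s - q.apx q.Q e s| ≤ q.ww / q.C.U)
    (h2 : ∀ q ∈ p :: l, ∀ s ∈ Icc q.a q.b, |u₂ s - q.apx q.Q e s| ≤ q.ww / q.C.U)
    (hl : Lin2I (p.C.c e) v p.a (lastB p l) tau g u₁ u₂ G u μ)
    (h0 : p.err p.Y e u μ p.a ≤ (p.y0 / p.C.U) ^ 2) :
    ∀ q ∈ p :: l, ∀ s ∈ Icc q.a q.b, q.err q.Y e u μ s ≤ (q.yy / q.C.U) ^ 2 := by
  induction l generalizing p with
  | nil =>
    intro q hq
    rw [List.mem_singleton] at hq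
    rw [hq]
    exact (Patch.stepY h hw hy he (hv p (by simp)) (h1 p (by simp)) (h2 p (by simp)) hl h0).1
  | cons r l ih =>
    have hp := (Patch.of_ckV h.1).1
    have hr := (Patch.of_ckV h.2.2.head).1
    have hab := lnk_ab hp hr h.2.1.1
    have hst := Patch.stepY h.1 hw.1 hy.1 he (hv p (by simp)) (h1 p (by simp)) (h2 p (by simp))
      (hl.mono le_rfl h.le_last) h0
    intro q hq
    rcases List.mem_cons.1 hq with rfl | hq
    · exact hst.1
    · refine ih h.2.2 hw.2.2 hy.2.2 (fun q hq => hv q (List.mem_cons_of_mem _ hq))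
        (fun q hq => h1 q (List.mem_cons_of_mem _ hq))
        (fun q hq => h2 q (List.mem_cons_of_mem _ hq)) ?_
        (link_sound hp hr h.2.1.1 hy.2.1 he hst.2) q hq
      rw [← lnk_c h.2.1.1 e]
      exact hl.mono (by linarith [hp.ab]) le_rfl

lemma Patch.bound_of_err {q : Patch} {L w : ℕ} {e s : ℝ} {u μ : ℝ → ℝ}
    (h : q.err L e u μ s ≤ (w / q.C.U) ^ 2) : |u s - q.apx L e s| ≤ w / q.C.U := by
  have := q.C.U_pos
  exact abs_le_of_en (by positivity) h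

/-! ### whole chains -/

/-- verified data for `v` -/
structure ValidV (F : First) (p : Patch) (l : List Patch) : Prop where
  hF : F.ckV = true
  hm : 1 ≤ F.C.m
  hl : lnf F p = true
  hlV : lnfV F p = true
  hc : ChV p l

/-- verified data for `Q` -/
structure ValidW (F : First) (p : Patch) (l : List Patch) : Prop where
  hF : F.ckW = true
  hl : lnfW F p = true
  hc : ChW p l

/-- verified data for `Y` -/
structure ValidY (F : First) (p : Patch) (l : List Patch) : Prop where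
  hF : F.ckY = true
  hl : lnfY F p = true
  hc : ChY p l

/-- initial value of the family -/
noncomputable def First.ini (F : First) (e : ℝ) : ℝ := F.alr e / F.C.U

section whole
variable {F : First} {p : Patch} {l : List Patch} (hv : ValidV F p l)
include hv

lemma ValidV.ab : F.b = p.a := by
  have hF := (First.of_ckV hv.hF).1
  have hp := (Patch.of_ckV hv.hc.head).1
  have h := hv.hl
  simp only [lnf, Bool.and_eq_true, Nat.beq_eq, Nat.ble_eq] at h
  have htime := h.1.2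
  have htime' : (F.H:ℝ) * p.D = ((p.A:ℝ) - p.H) * F.D := by
    have h1 : ((F.H * p.D : ℕ) : ℝ) = (((p.A - p.H) * F.D : ℕ) : ℝ) := by rw [htime]
    push_cast [Nat.cast_sub hp.hHA.le] at h1
    exact h1
  unfold First.b Patch.a
  rw [div_eq_div_iff hF.D.ne' hp.D.ne']
  exact htime'

lemma ValidV.c_eq (e : ℝ) : F.C.c e = p.C.c e := by
  have h := hv.hl
  simp only [lnf, Bool.and_eq_true, Nat.beq_eq, Nat.ble_eq] at h
  exact same_c h.1.1 e

lemma ValidV.c_eq' (e : ℝ) : ∀ q ∈ p :: l, q.C.c e = F.C.c e := by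
  intro q hq
  rw [hv.c_eq e]
  exact hv.hc.c_eq e q hq

lemma ValidV.c_mem {e : ℝ} (he : |e| ≤ 1) : F.C.c e ∈ Icc (0:ℝ) 1 :=
  (First.of_ckV hv.hF).1.hC.c_mem he

lemma ValidV.b_pos : 0 < F.b := (First.of_ckV hv.hF).1.b_pos

lemma ValidV.last_gt : F.b < lastB p l := by
  have hp := (Patch.of_ckV hv.hc.head).1
  have := hv.hc.le_last
  rw [hv.ab]
  linarith [hp.ab]

/-- enclosure of the solution -/
theorem ValidV.main {e : ℝ} (he : |e| ≤ 1) :
    (∀ s ∈ Ioc 0 F.b, |V (F.C.c e) (F.ini e) s - F.apx (F.alr e) F.P e s| ≤ F.m / F.C.U) ∧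
    ∀ q ∈ p :: l, ∀ s ∈ Icc q.a q.b,
      q.err q.P e (V (F.C.c e) (F.ini e)) (M (F.C.c e) (F.ini e)) s ≤ (q.mm / q.C.U) ^ 2 := by
  have hce := hv.c_mem he
  have h1 := First.firstV hv.hF hv.hm he (radOn_VM hce (F.ini e) F.b)
  have hF := (First.of_ckV hv.hF).1
  have hp := (Patch.of_ckV hv.hc.head).1
  refine ⟨h1.1, ?_⟩
  refine chainV hv.hc he (fun s hs => ?_) ?_
  · rw [← hv.c_eq e]
    exact solAt_VM hce _ (hp.a_pos.trans_le hs.1).ne'
  · exact linkf_sound hF hp hv.hl hv.hlV he (First.al_eq F) ((First.bnd_aP F).mono le_rfl le_rfl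
      (by push_cast; linarith [show (0:ℤ) ≤ 2 ^ F.C.k by positivity])) (First.ev_aP F 1 e) h1.2

lemma ValidV.close {e : ℝ} (he : |e| ≤ 1) : ∀ q ∈ p :: l, ∀ s ∈ Icc q.a q.b,
    |V (F.C.c e) (F.ini e) s - q.apx q.P e s| ≤ q.mm / q.C.U :=
  fun q hq s hs => Patch.bound_of_err ((hv.main he).2 q hq s hs)

/-- range of the solution -/
lemma ValidV.rng {e : ℝ} (he : |e| ≤ 1) : ∀ q ∈ p :: l, ∀ s ∈ Icc q.a q.b,
    q.lo / q.C.U ≤ V (F.C.c e) (F.ini e) s ∧ V (F.C.c e) (F.ini e) s ≤ q.hi / q.C.U := by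
  intro q hq s hs
  have hg := (Patch.of_ckV (hv.hc.ck q hq)).1
  exact Patch.mem_lohi hg hs he (hv.close he q hq s hs)

/-- enclosure of the first variation -/
theorem ValidV.mainW (hw : ValidW F p l) {e : ℝ} (he : |e| ≤ 1) {G u μ : ℝ → ℝ}
    (hl : Lin (F.C.c e) (V (F.C.c e) (F.ini e)) (lastB p l) tau G u μ) :
    (∀ s ∈ Ioc 0 F.b, |u s - F.apx F.C.U F.Q e s| ≤ F.w / F.C.U) ∧
    ∀ q ∈ p :: l, ∀ s ∈ Icc q.a q.b, q.err q.Q e u μ s ≤ (q.ww / q.C.U) ^ 2 := by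
  have hF := (First.of_ckV hv.hF).1
  have hp := (Patch.of_ckV hv.hc.head).1
  have h1 := First.firstW hv.hF hw.hF hv.hm he (hv.main he).1 (hl.mono hv.last_gt.le)
  refine ⟨h1.1, chainW hv.hc hw.hc he (hv.close he) (G := G) ?_ ?_⟩
  · rw [← hv.c_eq e]
    exact hl.linI hp.a_pos
  · have hU : (((2 ^ F.C.k : ℕ)) : ℝ) = F.C.U := by unfold Cfg.U; push_cast; rfl
    refine linkf_sound hF hp hv.hl hw.hl he (αP := ((2 ^ F.C.k : ℕ) : Pol)) (by
      rw [map_natCast]; rfl) ((Bnd.nat _).mono le_rfl (by omega) ?_) (by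
      rw [map_natCast]; exact hU) h1.2
    have : (0:ℤ) ≤ (F.a0:ℤ) + F.a1 := by positivity
    push_cast
    linarith

lemma ValidV.closeW (hw : ValidW F p l) {e : ℝ} (he : |e| ≤ 1) {G u μ : ℝ → ℝ}
    (hl : Lin (F.C.c e) (V (F.C.c e) (F.ini e)) (lastB p l) tau G u μ) :
    ∀ q ∈ p :: l, ∀ s ∈ Icc q.a q.b, |u s - q.apx q.Q e s| ≤ q.ww / q.C.U :=
  fun q hq s hs => Patch.bound_of_err ((hv.mainW hw he hl).2 q hq s hs)

/-- enclosure of the second variation -/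
theorem ValidV.mainY (hw : ValidW F p l) (hy : ValidY F p l) {e : ℝ} (he : |e| ≤ 1)
    {g u₁ u₂ G u μ G₁ μ₁ G₂ μ₂ : ℝ → ℝ}
    (hl₁ : Lin (F.C.c e) (V (F.C.c e) (F.ini e)) (lastB p l) tau G₁ u₁ μ₁)
    (hl₂ : Lin (F.C.c e) (V (F.C.c e) (F.ini e)) (lastB p l) tau G₂ u₂ μ₂)
    (hl : Lin2 (F.C.c e) (V (F.C.c e) (F.ini e)) (lastB p l) tau g u₁ u₂ G u μ) :
    ∀ q ∈ p :: l, ∀ s ∈ Icc q.a q.b, |u s - q.apx q.Y e s| ≤ q.yy / q.C.U := by
  have hF := (First.of_ckV hv.hF).1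
  have hp := (Patch.of_ckV hv.hc.head).1
  have hb := hv.last_gt.le
  have hl' : Lin2 (F.C.c e) (V (F.C.c e) (F.ini e)) F.b tau g u₁ u₂ G u μ :=
    ⟨fun s hs => hl.du s ⟨hs.1, hs.2.trans hb⟩, fun s hs => hl.dμ s ⟨hs.1, hs.2.trans hb⟩,
      hl.u0, hl.μ0, fun s hs => hl.hG s ⟨hs.1, hs.2.trans hb⟩,
      fun s hs => hl.hg s ⟨hs.1, hs.2.trans hb⟩⟩
  have h1 := First.firstY hv.hF hw.hF hy.hF hv.hm he (hv.main he).1 (hv.mainW hw he hl₁).1
    (hv.mainW hw he hl₂).1 hl'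
  have key : ∀ q ∈ p :: l, ∀ s ∈ Icc q.a q.b, q.err q.Y e u μ s ≤ (q.yy / q.C.U) ^ 2 := by
    refine chainY hv.hc hw.hc hy.hc he (hv.close he) (hv.closeW hw he hl₁) (hv.closeW hw he hl₂)
      (G := G) (g := g) ?_ ?_
    · rw [← hv.c_eq e]
      exact hl.lin2I hp.a_pos
    · refine linkf_sound hF hp hv.hl hy.hl he (αP := ((0 : ℕ) : Pol)) (by
        rw [map_natCast]; rfl) ((Bnd.nat _).mono le_rfl (by omega) ?_) (by
        rw [map_natCast]; simp) h1.2
      have : (0:ℤ) ≤ (F.a0:ℤ) + F.a1 := by positivity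
      push_cast
      have h2 : (0:ℤ) ≤ 2 ^ F.C.k := by positivity
      linarith
  exact fun q hq s hs => Patch.bound_of_err (key q hq s hs)

end whole

/-! ### signs -/

namespace Patch
variable {q : Patch}

lemma toNat_pos {x : ℤ} (h : 1 ≤ Int.toNat x) : 0 < x := by omega

lemma pos_of {v : ℝ} (h : q.fpos = true) (h1 : q.lo / q.C.U ≤ v) : 0 < v := by
  have hU := q.C.U_pos
  have h2 : 0 < q.lo := by
    simp only [fpos, Nat.ble_eq] at h
    exact toNat_pos h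
  have h3 : (0:ℝ) < q.lo := by exact_mod_cast h2
  exact lt_of_lt_of_le (by positivity) h1

lemma neg_of {v : ℝ} (h : q.fneg = true) (h1 : v ≤ q.hi / q.C.U) : v < 0 := by
  have hU := q.C.U_pos
  have h2 : q.hi < 0 := by
    simp only [fneg, Nat.ble_eq] at h
    have := toNat_pos h
    have e : Int.neg q.hi = - q.hi := rfl
    rw [e] at this
    linarith
  have h3 : (q.hi:ℝ) < 0 := by exact_mod_cast h2
  exact lt_of_le_of_lt h1 (div_neg_of_neg_of_pos h3 hU)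

lemma L_of (hg : q.Geo) {e s u : ℝ} (hs : s ∈ Icc q.a q.b) (he : |e| ≤ 1) (h : q.fL = true)
    (h1 : |u - q.apx q.Q e s| ≤ q.ww / q.C.U) : u < 0 := by
  have hU := q.C.U_pos
  have h2 : cen q.C q.Q + ((nu q.C q.Q + q.ww : ℕ) : ℤ) < 0 := by
    simp only [fL, Nat.ble_eq] at h
    have := toNat_pos h
    have e : Int.neg (Int.add (cen q.C q.Q) (Int.ofNat (nu q.C q.Q + q.ww))) =
      - (cen q.C q.Q + ((nu q.C q.Q + q.ww : ℕ) : ℤ)) := rfl
    rw [e] at this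
    linarith
  have h3 : (cen q.C q.Q : ℝ) + (nu q.C q.Q + q.ww) < 0 := by exact_mod_cast h2
  have h4 := abs_le.1 (hg.abs_sub hs he q.Q)
  have h5 := (abs_le.1 h1).2
  have h6 : q.apx q.Q e s ≤ (cen q.C q.Q + nu q.C q.Q) / q.C.U := by
    rw [le_div_iff₀ hU]; linarith
  have h7 : u ≤ (cen q.C q.Q + (nu q.C q.Q + q.ww)) / q.C.U := by
    have : ((cen q.C q.Q : ℝ) + (nu q.C q.Q + q.ww)) / q.C.U =
      (cen q.C q.Q + nu q.C q.Q) / q.C.U + q.ww / q.C.U := by ring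
    linarith
  exact lt_of_le_of_lt h7 (div_neg_of_neg_of_pos h3 hU)

lemma R_of (hg : q.Geo) {e s u : ℝ} (hs : s ∈ Icc q.a q.b) (he : |e| ≤ 1) (h : q.fR = true)
    (h1 : |u - q.apx q.Q e s| ≤ q.ww / q.C.U) : 0 < u := by
  have hU := q.C.U_pos
  have h2 : 0 < cen q.C q.Q - ((nu q.C q.Q + q.ww : ℕ) : ℤ) := by
    simp only [fR, Nat.ble_eq] at h
    exact toNat_pos h
  have h3 : 0 < (cen q.C q.Q : ℝ) - (nu q.C q.Q + q.ww) := by exact_mod_cast h2
  have h4 := abs_le.1 (hg.abs_sub hs he q.Q)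
  have h5 := (abs_le.1 h1).1
  have h6 : (cen q.C q.Q - nu q.C q.Q) / q.C.U ≤ q.apx q.Q e s := by
    rw [div_le_iff₀ hU]; linarith
  have h7 : (cen q.C q.Q - (nu q.C q.Q + q.ww)) / q.C.U ≤ u := by
    have : ((cen q.C q.Q : ℝ) - (nu q.C q.Q + q.ww)) / q.C.U =
      (cen q.C q.Q - nu q.C q.Q) / q.C.U - q.ww / q.C.U := by ring
    linarith
  exact lt_of_lt_of_le (by positivity) h7

lemma Y_of (hg : q.Geo) {e s u : ℝ} (hs : s ∈ Icc q.a q.b) (he : |e| ≤ 1) (h : q.fY = true)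
    (h1 : |u - q.apx q.Y e s| ≤ q.yy / q.C.U) : 0 < u := by
  have hU := q.C.U_pos
  have h2 : 0 < cen q.C q.Y - ((nu q.C q.Y + q.yy : ℕ) : ℤ) := by
    simp only [fY, Nat.ble_eq] at h
    exact toNat_pos h
  have h3 : 0 < (cen q.C q.Y : ℝ) - (nu q.C q.Y + q.yy) := by exact_mod_cast h2
  have h4 := abs_le.1 (hg.abs_sub hs he q.Y)
  have h5 := (abs_le.1 h1).1
  have h6 : (cen q.C q.Y - nu q.C q.Y) / q.C.U ≤ q.apx q.Y e s := by
    rw [div_le_iff₀ hU]; linarith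
  have h7 : (cen q.C q.Y - (nu q.C q.Y + q.yy)) / q.C.U ≤ u := by
    have : ((cen q.C q.Y : ℝ) - (nu q.C q.Y + q.yy)) / q.C.U =
      (cen q.C q.Y - nu q.C q.Y) / q.C.U - q.yy / q.C.U := by ring
    linarith
  exact lt_of_lt_of_le (by positivity) h7

end Patch

/-- the conclusion for the zero -/
theorem ValidV.zero {F : First} {p : Patch} {l : List Patch} (hv : ValidV F p l)
    (hneg : (lastP p l).fneg = true) {e : ℝ} (he : |e| ≤ 1) (hini : 0 < F.ini e) :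
    ∃ T, 0 < T ∧ T < lastB p l ∧ V (F.C.c e) (F.ini e) T = 0 ∧
      -(1/2) < V (F.C.c e) (F.ini e) (lastB p l) ∧
      ∃ q ∈ p :: l, T ∈ Icc q.a q.b ∧ q.fpos = false := by
  have hce := hv.c_mem he
  have hF := (First.of_ckV hv.hF).1
  have hlast := hv.rng he (lastP p l) (lastP_mem p l) (lastB p l)
    (by
      have := (Patch.of_ckV (hv.hc.ck _ (lastP_mem p l))).1.ab
      rw [lastB_eq]; exact ⟨this.le, le_rfl⟩)
  have hnegV := Patch.neg_of hneg hlast.2
  have hlb : 0 < lastB p l := hv.b_pos.trans hv.last_gt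
  have hcont := (V_cont hce (F.ini e)).continuousOn (s := Icc 0 (lastB p l))
  have h0 : V (F.C.c e) (F.ini e) 0 = F.ini e := V_zero hce _
  obtain ⟨T, hT, hTz⟩ := intermediate_value_Icc' hlb.le hcont
    (show (0:ℝ) ∈ Icc _ _ from ⟨hnegV.le, by rw [h0]; exact hini.le⟩)
  have hT0 : T ≠ 0 := by
    rintro rfl
    rw [h0] at hTz
    linarith
  have hTl : T ≠ lastB p l := by
    rintro rfl
    linarith
  have hTpos : 0 < T := lt_of_le_of_ne hT.1 (Ne.symm hT0)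
  have hTlt : T < lastB p l := lt_of_le_of_ne hT.2 hTl
  have hmin : -(1/2) < V (F.C.c e) (F.ini e) (lastB p l) := by
    have hr := (Patch.of_ckV (hv.hc.ck _ (lastP_mem p l))).2.1
    have hU := (lastP p l).C.U_pos
    have h1 := (Patch.range hr hlast).2.2.2
    have l1 : (2:ℝ) * (lastP p l).ln < (lastP p l).C.U := by
      have := hr.ln
      unfold Cfg.U; exact_mod_cast this
    have a3 : ((lastP p l).ln:ℝ) / (lastP p l).C.U < 1 / 2 := by
      rw [div_lt_iff₀ hU]; linarith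
    have a5 : (0:ℝ) ≤ (lastP p l).lp / (lastP p l).C.U := by positivity
    linarith
  refine ⟨T, hTpos, hTlt, hTz, hmin, ?_⟩
  have hTb : F.b ≤ T := by
    by_contra hcon
    push Not at hcon
    have h1 := V_strictAntiOn hce hini (mem_Ici.2 hTpos.le) (mem_Ici.2 hF.b_pos.le) hcon
    rw [hTz] at h1
    have h2 := ((hF.rng (v := V (F.C.c e) (F.ini e) F.b) ⟨hF.b_pos, le_rfl⟩ he
      ((hv.main he).1 F.b ⟨hF.b_pos, le_rfl⟩)))
    -- `v ≥ 0` on the first patch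
    have hU := F.C.U_pos
    have h3 := abs_le.1 (hF.abs_apx (α := F.alr e) (s := F.b) ⟨hF.b_pos, le_rfl⟩ he F.P)
    have h4 := First.abs_al (p := F) he
    have h5 := abs_le.1 ((hv.main he).1 F.b ⟨hF.b_pos, le_rfl⟩)
    have l1 : (F.a1:ℝ) + kn F.C (v0 F.C F.P) + F.m ≤ F.a0 := by exact_mod_cast hF.lo
    have e1 : 0 ≤ (F.alr e - kn F.C (v0 F.C F.P) - F.m) / F.C.U := by
      apply div_nonneg _ hU.le
      linarith [h4.1]
    have e2 : (F.alr e - kn F.C (v0 F.C F.P) - F.m) / F.C.U =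
        F.alr e / F.C.U - kn F.C (v0 F.C F.P) / F.C.U - F.m / F.C.U := by ring
    linarith [h3.1, h5.1]
  rw [hv.ab] at hTb
  obtain ⟨q, hq, hTq⟩ := hv.hc.cover ⟨hTb, hTlt.le⟩
  refine ⟨q, hq, hTq, ?_⟩
  by_contra hcon
  rw [Bool.not_eq_false] at hcon
  have := Patch.pos_of hcon (hv.rng he q hq T hTq).1
  linarith

/-- criterion: negative first variation at the zero -/
theorem ValidV.critL {F : First} {p : Patch} {l : List Patch} (hv : ValidV F p l)
    (hw : ValidW F p l) (hneg : (lastP p l).fneg = true)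
    (hfl : ∀ q ∈ p :: l, (q.fpos || q.fL) = true) {e : ℝ} (he : |e| ≤ 1) (hini : 0 < F.ini e) :
    ∃ T, 0 < T ∧ T < lastB p l ∧ V (F.C.c e) (F.ini e) T = 0 ∧
      -(1/2) < V (F.C.c e) (F.ini e) (lastB p l) ∧
      ∀ G u μ, Lin (F.C.c e) (V (F.C.c e) (F.ini e)) (lastB p l) tau G u μ → u T < 0 := by
  obtain ⟨T, h1, h2, h3, h4, q, hq, hTq, hpos⟩ := hv.zero hneg he hini
  refine ⟨T, h1, h2, h3, h4, fun G u μ hl => ?_⟩
  have h5 := hfl q hq
  rw [hpos, Bool.false_or] at h5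
  exact Patch.L_of (Patch.of_ckV (hv.hc.ck q hq)).1 hTq he h5 (hv.closeW hw he hl q hq T hTq)

/-- criterion: positive first variation at the zero -/
theorem ValidV.critR {F : First} {p : Patch} {l : List Patch} (hv : ValidV F p l)
    (hw : ValidW F p l) (hneg : (lastP p l).fneg = true)
    (hfl : ∀ q ∈ p :: l, (q.fpos || q.fR) = true) {e : ℝ} (he : |e| ≤ 1) (hini : 0 < F.ini e) :
    ∃ T, 0 < T ∧ T < lastB p l ∧ V (F.C.c e) (F.ini e) T = 0 ∧
      -(1/2) < V (F.C.c e) (F.ini e) (lastB p l) ∧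
      ∀ G u μ, Lin (F.C.c e) (V (F.C.c e) (F.ini e)) (lastB p l) tau G u μ → 0 < u T := by
  obtain ⟨T, h1, h2, h3, h4, q, hq, hTq, hpos⟩ := hv.zero hneg he hini
  refine ⟨T, h1, h2, h3, h4, fun G u μ hl => ?_⟩
  have h5 := hfl q hq
  rw [hpos, Bool.false_or] at h5
  exact Patch.R_of (Patch.of_ckV (hv.hc.ck q hq)).1 hTq he h5 (hv.closeW hw he hl q hq T hTq)

/-- criterion: positive second variation at the zero -/
theorem ValidV.critY {F : First} {p : Patch} {l : List Patch} (hv : ValidV F p l)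
    (hw : ValidW F p l) (hy : ValidY F p l) (hneg : (lastP p l).fneg = true)
    (hfl : ∀ q ∈ p :: l, (q.fpos || q.fY) = true) {e : ℝ} (he : |e| ≤ 1) (hini : 0 < F.ini e) :
    ∃ T, 0 < T ∧ T < lastB p l ∧ V (F.C.c e) (F.ini e) T = 0 ∧
      -(1/2) < V (F.C.c e) (F.ini e) (lastB p l) ∧
      ∀ g u₁ u₂ G u μ G₁ μ₁ G₂ μ₂,
        Lin (F.C.c e) (V (F.C.c e) (F.ini e)) (lastB p l) tau G₁ u₁ μ₁ →
        Lin (F.C.c e) (V (F.C.c e) (F.ini e)) (lastB p l) tau G₂ u₂ μ₂ →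
        Lin2 (F.C.c e) (V (F.C.c e) (F.ini e)) (lastB p l) tau g u₁ u₂ G u μ → 0 < u T := by
  obtain ⟨T, h1, h2, h3, h4, q, hq, hTq, hpos⟩ := hv.zero hneg he hini
  refine ⟨T, h1, h2, h3, h4, fun g u₁ u₂ G u μ G₁ μ₁ G₂ μ₂ hl₁ hl₂ hl => ?_⟩
  have h5 := hfl q hq
  rw [hpos, Bool.false_or] at h5
  exact Patch.Y_of (Patch.of_ckV (hv.hc.ck q hq)).1 hTq he h5
    (hv.mainY hw hy he hl₁ hl₂ hl q hq T hTq)

end LinNi
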