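import Pool.Agent.Lib.MP_0170ef_an.Growth

/-!
The growth lemma with the numerical condition in integers.
-/

set_option autoImplicit false

open Set Filter Topology

namespace LinNi

/-- numerical condition for a step `s ∈ [(A - H) / D, (A + H) / D]` -/
def gchk (A H κ m0 m2 r : ℕ) : Bool :=
  (Nat.ble 1 m0 && Nat.ble 1 m2) &&
  Nat.ble ((1024 * (A - H) * (A + H)) * (m0 + r) + (κ - 1024) * H * (A + H) * max m0 m2 + 1)
    ((1024 * (A - H) * (A + H)) * m2 + (1024 - κ) * H * (A - H) * min m0 m2)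

theorem step {A H D κ m0 m2 r : ℕ} {U ρ : ℝ} (hU : 0 < U) (hH : 0 < H) (hHA : H < A) (hD : 0 < D)
    (hg : gchk A H κ m0 m2 r = true) {δ ν g : ℝ → ℝ} {a b : ℝ} (ha : a = ((A:ℝ) - H) / D)
    (hb : b = ((A:ℝ) + H) / D)
    (hδ : ∀ s ∈ Icc a b, HasDerivAt δ (ν s / s ^ 2) s)
    (hν : ∀ s ∈ Icc a b, HasDerivAt ν (-(s ^ 2 * g s)) s)
    (hk : ∀ s ∈ Icc a b, |δ s| ≤ (max m0 m2 : ℕ) / U →
      ∃ k x : ℝ, g s = k * δ s + x / s ∧ |5 / 4 - s ^ 2 * k| ≤ (κ:ℝ) / 1024 ∧ |x| ≤ ρ)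
    (hρ : ρ * (2 * H / D) ≤ r / U)
    (h0 : en (δ a) (ν a) a ≤ (m0 / U) ^ 2) :
    (∀ s ∈ Icc a b, en (δ s) (ν s) s ≤ ((max m0 m2 : ℕ) / U) ^ 2) ∧ en (δ b) (ν b) b ≤ (m2 / U) ^ 2 := by
  have hHr : (0:ℝ) < H := by exact_mod_cast hH
  have hDr : (0:ℝ) < D := by exact_mod_cast hD
  have hHAr : (H:ℝ) < A := by exact_mod_cast hHA
  have hAH : (0:ℝ) < A - H := by linarith
  have hAH' : (0:ℝ) < A + H := by linarith
  have ha0 : 0 < a := by rw [ha]; positivity
  have hab : a < b := by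
    rw [ha, hb]
    gcongr
    linarith
  have hba : b - a = 2 * H / D := by rw [ha, hb]; field_simp; ring
  simp only [gchk, Bool.and_eq_true, Nat.ble_eq] at hg
  obtain ⟨⟨hm0, hm2⟩, hg⟩ := hg
  have hm0r : (0:ℝ) < m0 := by exact_mod_cast hm0
  have hm2r : (0:ℝ) < m2 := by exact_mod_cast hm2
  have hmaxe : (max ((m0:ℝ) / U) ((m2:ℝ) / U)) = ((max m0 m2 : ℕ) : ℝ) / U := by
    rw [max_div_div_right hU.le]
    push_cast
    rfl
  have hmine : (min ((m0:ℝ) / U) ((m2:ℝ) / U)) = ((min m0 m2 : ℕ) : ℝ) / U := by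
    rw [min_div_div_right hU.le]
    push_cast
    rfl
  have hmin0 : (0:ℝ) < ((min m0 m2 : ℕ) : ℝ) := by
    push_cast
    exact lt_min hm0r hm2r
  obtain ⟨upn, hupn⟩ : ∃ n, n = κ - 1024 := ⟨_, rfl⟩
  obtain ⟨dnn, hdnn⟩ : ∃ n, n = 1024 - κ := ⟨_, rfl⟩
  rw [← hupn, ← hdnn] at hg
  have hud' : κ + dnn = 1024 + upn := by omega
  clear hupn hdnn
  generalize max m0 m2 = mxn at *
  generalize min m0 m2 = mnn at *
  -- the integer inequality
  have hg' : (1024 * ((A:ℝ) - H) * (A + H)) * (m0 + r) +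
      (upn : ℝ) * H * (A + H) * (mxn : ℝ) <
      (1024 * ((A:ℝ) - H) * (A + H)) * m2 + (dnn : ℝ) * H * (A - H) * (mnn : ℝ) := by
    have h1 := Nat.lt_of_succ_le hg
    have h2 : (((1024 * (A - H) * (A + H)) * (m0 + r) + upn * H * (A + H) * mxn : ℕ) : ℝ)
      < (((1024 * (A - H) * (A + H)) * m2 + dnn * H * (A - H) * mnn : ℕ) : ℝ) := by
      exact_mod_cast h1
    push_cast [Nat.cast_sub hHA.le] at h2
    exact h2
  clear hg
  set up : ℝ := (upn : ℝ) with hup
  set dn : ℝ := (dnn : ℝ) with hdn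
  have hud : (κ:ℝ) - 1024 = up - dn := by
    have : (κ:ℝ) + dnn = 1024 + upn := by exact_mod_cast hud'
    rw [hup, hdn]
    linarith
  have hup0 : 0 ≤ up := by positivity
  have hdn0 : 0 ≤ dn := by positivity
  set mx : ℝ := (mxn : ℝ) with hmx
  set mn : ℝ := (mnn : ℝ) with hmn
  have hmx0 : 0 ≤ mx := by positivity
  set θ : ℝ := (up / 1024 * (mx / U) * (H / (A - H)) - dn / 1024 * (mn / U) * (H / (A + H))) with hθ
  have hgr := growth (a := a) (b := b) (m0 := m0 / U) (m2 := m2 / U) (κ := κ / 1024) (ρ := ρ)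
    (θ := θ) ha0 hab (by positivity) (by positivity) (δ := δ) (ν := ν) (g := g) hδ hν
    (by rw [hmaxe]; exact hk)
    (by
      rw [hmaxe, hmine, hba]
      intro s hs B hB
      have hs0 : 0 < s := ha0.trans_le hs.1
      have hB0 : 0 < B := lt_of_lt_of_le (by positivity) hB.1
      have e1 : ((κ:ℝ) / 1024 - 1) * B / (2 * s) * (2 * H / D) =
          up / 1024 * B * (H / (s * D)) - dn / 1024 * B * (H / (s * D)) := by
        have : (κ:ℝ) / 1024 - 1 = (up - dn) / 1024 := by rw [← hud]; ring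
        rw [this]
        field_simp
      rw [e1, hθ]
      have hsD1 : (A:ℝ) - H ≤ s * D := by
        have := hs.1
        rw [ha, div_le_iff₀ hDr] at this
        exact this
      have hsD2 : s * D ≤ (A:ℝ) + H := by
        have := hs.2
        rw [hb, le_div_iff₀ hDr] at this
        exact this
      have t1 : up / 1024 * B * (H / (s * D)) ≤ up / 1024 * (mx / U) * (H / (A - H)) := by
        gcongr
        exact hB.2
      have t2 : dn / 1024 * (mn / U) * (H / (A + H)) ≤ dn / 1024 * B * (H / (s * D)) := by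
        gcongr
        exact hB.1
      linarith)
    (by
      rw [hba]
      have e2 : m2 / U - m0 / U - r / U - θ =
          ((1024 * ((A:ℝ) - H) * (A + H)) * m2 + dn * H * (A - H) * mn -
          ((1024 * ((A:ℝ) - H) * (A + H)) * (m0 + r) + up * H * (A + H) * mx)) /
            (1024 * (A - H) * (A + H) * U) := by
        rw [hθ]
        field_simp
        ring
      have e3 : 0 < m2 / U - m0 / U - r / U - θ := by
        rw [e2]
        apply div_pos (by linarith) (by positivity)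
      linarith)
    h0
  rw [hmaxe] at hgr
  exact hgr

end LinNi
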