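import Pool.Agent.Lib.MP_0170ef_an.Expr
import Pool.Agent.Lib.MP_0170ef_an.Step

/-!
The numerical data of an approximate solution and its verification in the kernel.
-/

set_option autoImplicit false

namespace LinNi

/-- a huge number -/
@[irreducible] def tt : ℕ := Nat.pow 2 1000

/-- data on `s = (A + H r) / D`, `|r| ≤ 1` -/
structure Patch where
  C : Cfg
  A : ℕ
  H : ℕ
  D : ℕ
  P : ℕ
  Q : ℕ
  Y : ℕ
  κ : ℕ
  m0 : ℕ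
  m2 : ℕ
  w0 : ℕ
  w2 : ℕ
  y0 : ℕ
  y2 : ℕ

/-- data on `s = H r / D`, `0 ≤ r ≤ 1` -/
structure First where
  C : Cfg
  H : ℕ
  D : ℕ
  a0 : ℕ
  a1 : ℕ
  P : ℕ
  Q : ℕ
  Y : ℕ
  m : ℕ
  w : ℕ
  y : ℕ

/-- value of a packed polynomial -/
def v0 (C : Cfg) (L : ℕ) : ℤ := khor L C.m (kX C) (kY C) (Nat.succ C.n)
/-- value of the derivative -/
def v1 (C : Cfg) (L : ℕ) : ℤ := kdhor L C.m (kX C) (kY C) (Nat.succ C.n)
/-- value of half the second derivative -/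
def v2 (C : Cfg) (L : ℕ) : ℤ := kddhor L C.m (kX C) (kY C) (Nat.succ C.n)

/-- constant coefficient -/
def cen (C : Cfg) (L : ℕ) : ℤ :=
  Int.subNatNat (kdig L (Nat.add (Nat.mul C.n (Nat.succ C.m)) C.m)) 9223372036854775808

/-- norm of the non-constant part -/
def nu (C : Cfg) (L : ℕ) : ℕ := kn C (Int.sub (v0 C L) (cen C L))
/-- norm -/
def nN (C : Cfg) (L : ℕ) : ℕ := nu C L + Int.natAbs (cen C L)

/-- a priori bounds -/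
def b0 (C : Cfg) : ℕ := (C.n + 1) * ((C.m + 1) * 2 ^ 63)
/-- a priori bounds -/
def b1 (C : Cfg) : ℕ := (C.n + 1) * b0 C
/-- a priori bounds -/
def b2 (C : Cfg) : ℕ := (C.n + 1) * b1 C
/-- a priori bounds -/
def nbf (C : Cfg) (B : ℕ) : ℕ := B * B * (B * B) * (2 ^ (4 * C.k) + (C.c0 + C.c1) * (B * B * B))
/-- a priori bounds -/
def nbfp (C : Cfg) (B : ℕ) : ℕ := B * B * B * (4 * 2 ^ (4 * C.k) + 7 * (C.c0 + C.c1) * (B * B * B))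
/-- a priori bounds -/
def nbhf (C : Cfg) (B : ℕ) : ℕ := B * B * (6 * 2 ^ (4 * C.k) + 21 * (C.c0 + C.c1) * (B * B * B))
/-- a priori bounds -/
def nbg (C : Cfg) (a h d : ℕ) (Bf : ℕ) : ℕ :=
  (a + h) * (2 ^ (7 * C.k + 1) * (d * d) * b2 C + h * h * Bf) +
    2 ^ (7 * C.k + 1) * (h * (d * d)) * b1 C
/-- a priori bounds -/
def nbz (C : Cfg) (h d : ℕ) (Bf : ℕ) : ℕ :=
  2 ^ (7 * C.k + 1) * (d * d) * (3 * b0 C + 3 * b1 C + b2 C) + h * h * Bf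

/-- validity of a configuration -/
def Cfg.chk (C : Cfg) : Bool :=
  (Nat.ble 1 C.b && Nat.ble (C.R * C.S * 2 ^ (C.h + 1) + 2) (2 ^ C.b)) &&
  ((Nat.ble (7 * C.n + 2) C.R && Nat.ble (7 * C.m + 2) C.S) &&
  ((Nat.ble (b2 C + 2 ^ 64 + 1) (2 ^ C.h) && Nat.ble (C.c0 + C.c1) (2 ^ C.k)) &&
  Nat.ble C.c1 C.c0))

namespace Patch
variable (p : Patch)

/-- bound for the error of `v` -/
def mm : ℕ := max p.m0 p.m2
/-- bound for the error of `Q` -/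
def ww : ℕ := max p.w0 p.w2
/-- bound for the error of `Y` -/
def yy : ℕ := max p.y0 p.y2
/-- lower bound for `v` -/
def lo : ℤ := Int.sub (cen p.C p.P) (Int.ofNat (nu p.C p.P + p.mm))
/-- upper bound for `v` -/
def hi : ℤ := Int.add (cen p.C p.P) (Int.ofNat (nu p.C p.P + p.mm))
/-- positive part of `lo` -/
def lp : ℕ := Int.toNat p.lo
/-- negative part of `lo` -/
def ln : ℕ := Int.toNat (Int.neg p.lo)
/-- positive part of `hi` -/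
def hp : ℕ := Int.toNat p.hi
/-- absolute bound -/
def X : ℕ := max p.hp p.ln
/-- bound for `f''` -/
def F2 : ℕ := 12 * (p.X * p.X) * 2 ^ (4 * p.C.k) + 42 * (p.C.c0 + p.C.c1) * (p.X * p.X * p.X * p.X * p.X)
/-- bound for `f'''` -/
def F3 : ℕ := 24 * p.X * 2 ^ (4 * p.C.k) + 210 * (p.C.c0 + p.C.c1) * (p.X * p.X * p.X * p.X)
/-- norm of the residual for `v` -/
def N1 : ℕ := kn p.C (kgE p.C p.A p.H p.D (kX p.C) (v1 p.C p.P) (v2 p.C p.P)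
  (kfE p.C (kY p.C) (v0 p.C p.P)))
/-- norm of the residual for `Q` -/
def N2 : ℕ := kn p.C (kgE p.C p.A p.H p.D (kX p.C) (v1 p.C p.Q) (v2 p.C p.Q)
  (Int.mul (kfpE p.C (kY p.C) (v0 p.C p.P)) (v0 p.C p.Q)))
/-- norm of the residual for `Y` -/
def N3 : ℕ := kn p.C (kgE p.C p.A p.H p.D (kX p.C) (v1 p.C p.Y) (v2 p.C p.Y)
  (Int.add (Int.mul (kfpE p.C (kY p.C) (v0 p.C p.P)) (v0 p.C p.Y))
    (Int.mul (khfE p.C (kY p.C) (v0 p.C p.P)) (Int.mul (v0 p.C p.Q) (v0 p.C p.Q)))))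
/-- common denominator -/
def den : ℕ := p.D * p.D * p.H * 2 ^ (7 * p.C.k)
/-- error per step -/
def r1 : ℕ := 2 * p.N1 / p.den + 1
/-- error per step -/
def r2 : ℕ := (2 * p.N2 + 2 * (p.H * p.H) * (p.A + p.H) * p.F2 * p.mm * nN p.C p.Q) / p.den + 2
/-- error per step -/
def r3 : ℕ := (2 * p.N3 + 2 * (p.H * p.H) * (p.A + p.H) * p.F2 * p.mm * nN p.C p.Y +
  (p.H * p.H) * (p.A + p.H) * (p.F3 * p.mm * ((nN p.C p.Q + p.ww) * (nN p.C p.Q + p.ww)) +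
    p.F2 * (2 * nN p.C p.Q + p.ww) * p.ww)) / p.den + 2

/-- verification for `v` -/
def ckV : Bool :=
  (p.C.chk && ((Nat.ble 1 p.H && Nat.ble (p.H + 1) p.A) && Nat.ble 1 p.D)) &&
  ((Nat.ble (2 * p.ln + 1) (2 ^ p.C.k) && Nat.ble (p.hp + 1) (2 * 2 ^ p.C.k)) &&
  ((Nat.ble (1024 * ((p.A + p.H) * (p.A + p.H)) * (4 * (p.hp * p.hp * p.hp) * 2 ^ (4 * p.C.k) +
      7 * (p.C.c0 + p.C.c1) * (p.X * p.X * p.X * p.X * p.X * p.X)))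
      ((1280 + p.κ) * (p.D * p.D) * 2 ^ (7 * p.C.k)) &&
    Nat.ble (1280 * (p.D * p.D) * 2 ^ (3 * p.C.k) +
        4096 * ((p.A + p.H) * (p.A + p.H)) * (p.ln * p.ln * p.ln))
      (p.κ * (p.D * p.D) * 2 ^ (3 * p.C.k) +
        4096 * ((p.A - p.H) * (p.A - p.H)) * (p.lp * p.lp * p.lp))) &&
  (Nat.ble (nbg p.C p.A p.H p.D (nbf p.C (nN p.C p.P)) + 1) (2 ^ p.C.h) &&
  gchk p.A p.H p.κ p.m0 p.m2 p.r1)))

/-- verification for `Q` -/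
def ckW : Bool :=
  (Nat.ble (nbg p.C p.A p.H p.D (nbfp p.C (nN p.C p.P) * nN p.C p.Q) + 1) (2 ^ p.C.h) &&
  gchk p.A p.H (p.κ + 1) p.w0 p.w2 p.r2) &&
  Nat.ble (2 * ((p.A + p.H) * (p.A + p.H)) * (nN p.C p.Q + 1024)) tt

/-- verification for `Y` -/
def ckY : Bool :=
  (Nat.ble (nbg p.C p.A p.H p.D (nbfp p.C (nN p.C p.P) * nN p.C p.Y +
    nbhf p.C (nN p.C p.P) * (nN p.C p.Q * nN p.C p.Q)) + 1) (2 ^ p.C.h) &&
  gchk p.A p.H (p.κ + 1) p.y0 p.y2 p.r3) &&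
  Nat.ble (2 * ((p.A + p.H) * (p.A + p.H)) *
    (nN p.C p.Y + (nN p.C p.Q + p.ww) * (nN p.C p.Q + p.ww))) tt

/-- `v > 0` -/
def fpos : Bool := Nat.ble 1 p.lp
/-- `v < 0` -/
def fneg : Bool := Nat.ble 1 (Int.toNat (Int.neg p.hi))
/-- `Q < 0` -/
def fL : Bool := Nat.ble 1 (Int.toNat (Int.neg (Int.add (cen p.C p.Q) (Int.ofNat (nu p.C p.Q + p.ww)))))
/-- `Q > 0` -/
def fR : Bool := Nat.ble 1 (Int.toNat (Int.sub (cen p.C p.Q) (Int.ofNat (nu p.C p.Q + p.ww))))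
/-- `Y > 0` -/
def fY : Bool := Nat.ble 1 (Int.toNat (Int.sub (cen p.C p.Y) (Int.ofNat (nu p.C p.Y + p.yy))))

end Patch

/-- configuration for polynomials in `e` only -/
def Cfg.one (C : Cfg) : Cfg := ⟨C.n, C.m, C.k, C.b, C.h, 1, C.S, C.c0, C.c1⟩

/-- jump of the value -/
def lk0 (C C' : Cfg) (L L' : ℕ) : ℕ :=
  kn C.one (Int.sub (khor L C.m (Int.ofNat 1) (kY C) (Nat.succ C.n))
    (khor L' C'.m (Int.neg (Int.ofNat 1)) (kY C) (Nat.succ C'.n)))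

/-- jump of the derivative, times `x`, `y` -/
def lk1 (C C' : Cfg) (x y L L' : ℕ) : ℕ :=
  kn C.one (Int.sub (Int.mul (Int.ofNat x) (kdhor L C.m (Int.ofNat 1) (kY C) (Nat.succ C.n)))
    (Int.mul (Int.ofNat y) (kdhor L' C'.m (Int.neg (Int.ofNat 1)) (kY C) (Nat.succ C'.n))))

/-- same `c` and scale -/
def same (C C' : Cfg) : Bool :=
  (Nat.beq C.k C'.k && Nat.beq C.c0 C'.c0) && (Nat.beq C.c1 C'.c1 && Nat.ble (C'.m + 1) C.S)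

/-- condition on the jump -/
def jmp (h m2 m0 l0 l1 : ℕ) : Bool := Nat.ble (2 * h * m2 + 2 * l1 + 3 * h * l0) (2 * h * m0)

/-- link between consecutive patches: data independent of the polynomials -/
def lnk (p q : Patch) : Bool :=
  (same p.C q.C && Nat.beq ((p.A + p.H) * q.D) ((q.A - q.H) * p.D)) &&
  (Nat.ble (b0 p.C + b0 q.C + 1) (2 ^ p.C.h) &&
   Nat.ble ((p.A + p.H) * q.H * b1 p.C + (q.A - q.H) * p.H * b1 q.C + 1) (2 ^ p.C.h))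

/-- link for `v` -/
def lnkV (p q : Patch) : Bool :=
  jmp (p.H * q.H) p.m2 q.m0 (lk0 p.C q.C p.P q.P)
    (lk1 p.C q.C ((p.A + p.H) * q.H) ((q.A - q.H) * p.H) p.P q.P)
/-- link for `Q` -/
def lnkW (p q : Patch) : Bool :=
  jmp (p.H * q.H) p.w2 q.w0 (lk0 p.C q.C p.Q q.Q)
    (lk1 p.C q.C ((p.A + p.H) * q.H) ((q.A - q.H) * p.H) p.Q q.Q)
/-- link for `Y` -/
def lnkY (p q : Patch) : Bool :=
  jmp (p.H * q.H) p.y2 q.y0 (lk0 p.C q.C p.Y q.Y)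
    (lk1 p.C q.C ((p.A + p.H) * q.H) ((q.A - q.H) * p.H) p.Y q.Y)

namespace First
variable (p : First)

/-- value of `a0 + a1 e` -/
def al : ℤ := Int.add (Int.ofNat p.a0) (Int.mul (Int.ofNat p.a1) (Int.ofNat (kY p.C)))
/-- `α + x ^ 2 h` -/
def z0 (α : ℤ) (L : ℕ) : ℤ := Int.add α (Int.mul (Int.mul (kX p.C) (kX p.C)) (v0 p.C L))
/-- norm of `P` -/
def np : ℕ := p.a0 + p.a1 + kn p.C (v0 p.C p.P)
/-- norm of `Q` -/
def nq : ℕ := 2 ^ p.C.k + kn p.C (v0 p.C p.Q)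
/-- norm of `Y` -/
def ny : ℕ := kn p.C (v0 p.C p.Y)
/-- absolute bound for `v` -/
def X : ℕ := p.np + p.m
/-- bound for `f'` -/
def K : ℕ := 4 * (p.X * p.X * p.X) * 2 ^ (4 * p.C.k) +
  7 * (p.C.c0 + p.C.c1) * (p.X * p.X * p.X * p.X * p.X * p.X)
/-- bound for `f''` -/
def F2 : ℕ := 12 * (p.X * p.X) * 2 ^ (4 * p.C.k) + 42 * (p.C.c0 + p.C.c1) * (p.X * p.X * p.X * p.X * p.X)
/-- bound for `f'''` -/
def F3 : ℕ := 24 * p.X * 2 ^ (4 * p.C.k) + 210 * (p.C.c0 + p.C.c1) * (p.X * p.X * p.X * p.X)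
/-- norm of the residual for `v` -/
def N1 : ℕ := kn p.C (kzE p.C p.H p.D (kX p.C) (v0 p.C p.P) (v1 p.C p.P) (v2 p.C p.P)
  (kfE p.C (kY p.C) (p.z0 p.al p.P)))
/-- norm of the residual for `Q` -/
def N2 : ℕ := kn p.C (kzE p.C p.H p.D (kX p.C) (v0 p.C p.Q) (v1 p.C p.Q) (v2 p.C p.Q)
  (Int.mul (kfpE p.C (kY p.C) (p.z0 p.al p.P)) (p.z0 (Int.ofNat (Nat.pow 2 p.C.k)) p.Q)))
/-- norm of the residual for `Y` -/
def N3 : ℕ := kn p.C (kzE p.C p.H p.D (kX p.C) (v0 p.C p.Y) (v1 p.C p.Y) (v2 p.C p.Y)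
  (Int.add (Int.mul (kfpE p.C (kY p.C) (p.z0 p.al p.P)) (p.z0 (Int.ofNat 0) p.Y))
    (Int.mul (khfE p.C (kY p.C) (p.z0 p.al p.P))
      (Int.mul (p.z0 (Int.ofNat (Nat.pow 2 p.C.k)) p.Q) (p.z0 (Int.ofNat (Nat.pow 2 p.C.k)) p.Q)))))

/-- verification for `v` -/
def ckV : Bool :=
  (p.C.chk && ((Nat.ble 1 p.H && Nat.ble 1 p.m) && Nat.ble 1 p.D)) &&
  ((Nat.ble (p.a1 + kn p.C (v0 p.C p.P) + p.m) p.a0 && Nat.ble (p.X + 1) (2 * 2 ^ p.C.k)) &&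
  ((Nat.ble (nbz p.C p.H p.D (nbf p.C p.np) + 1) (2 ^ p.C.h) && Nat.ble (7 * p.C.n + 16) p.C.R) &&
  Nat.ble (p.K * p.m * (p.H * p.H) + p.N1 + 1) (6 * p.m * (p.D * p.D) * 2 ^ (7 * p.C.k))))

/-- verification for `Q` -/
def ckW : Bool :=
  (Nat.ble 1 p.w && Nat.ble (nbz p.C p.H p.D (nbfp p.C p.np * p.nq) + 1) (2 ^ p.C.h)) &&
  (Nat.ble ((p.K + 1) * p.w * (p.H * p.H) + p.N2 + p.H * p.H * p.F2 * p.m * p.nq + p.H * p.H + 1)
    (6 * p.w * (p.D * p.D) * 2 ^ (7 * p.C.k)) &&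
  Nat.ble ((p.nq + 1) * 2 ^ (7 * p.C.k)) tt)

/-- verification for `Y` -/
def ckY : Bool :=
  (Nat.ble 1 p.y && Nat.ble (nbz p.C p.H p.D (nbfp p.C p.np * p.ny + nbhf p.C p.np * (p.nq * p.nq))
    + 1) (2 ^ p.C.h)) &&
  (Nat.ble (2 * (p.K + 1) * p.y * (p.H * p.H) + 2 * p.N3 + 2 * (p.H * p.H) * p.F2 * p.m * p.ny +
    (p.H * p.H) * (p.F3 * p.m * ((p.nq + p.w) * (p.nq + p.w)) + p.F2 * (2 * p.nq + p.w) * p.w) +
      2 * (p.H * p.H) + 1)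
    (12 * p.y * (p.D * p.D) * 2 ^ (7 * p.C.k)) &&
  Nat.ble ((p.ny + (p.nq + p.w) * (p.nq + p.w)) * 2 ^ (7 * p.C.k)) tt)

end First

/-- jump of the value at the first link -/
def lf0 (C C' : Cfg) (α : ℤ) (L L' : ℕ) : ℕ :=
  kn C.one (Int.sub (Int.add α (khor L C.m (Int.ofNat 1) (kY C) (Nat.succ C.n)))
    (khor L' C'.m (Int.neg (Int.ofNat 1)) (kY C) (Nat.succ C'.n)))

/-- jump of the derivative at the first link -/
def lf1 (C C' : Cfg) (x y L L' : ℕ) : ℕ :=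
  kn C.one (Int.sub (Int.mul (Int.ofNat x)
      (Int.add (Int.mul (Int.ofNat 2) (khor L C.m (Int.ofNat 1) (kY C) (Nat.succ C.n)))
        (kdhor L C.m (Int.ofNat 1) (kY C) (Nat.succ C.n))))
    (Int.mul (Int.ofNat y) (kdhor L' C'.m (Int.neg (Int.ofNat 1)) (kY C) (Nat.succ C'.n))))

/-- first link: data independent of the polynomials -/
def lnf (p : First) (q : Patch) : Bool :=
  (same p.C q.C && Nat.beq (p.H * q.D) ((q.A - q.H) * p.D)) &&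
  (Nat.ble (p.a0 + p.a1 + 2 ^ p.C.k + b0 p.C + b0 q.C + 1) (2 ^ p.C.h) &&
   Nat.ble (q.H * (2 * b0 p.C + b1 p.C) + (q.A - q.H) * b1 q.C + 1) (2 ^ p.C.h))

/-- first link for `v` -/
def lnfV (p : First) (q : Patch) : Bool :=
  jmp q.H (4 * p.m) q.m0 (lf0 p.C q.C p.al p.P q.P) (lf1 p.C q.C q.H (q.A - q.H) p.P q.P)
/-- first link for `Q` -/
def lnfW (p : First) (q : Patch) : Bool :=
  jmp q.H (4 * p.w) q.w0 (lf0 p.C q.C (Int.ofNat (Nat.pow 2 p.C.k)) p.Q q.Q)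
    (lf1 p.C q.C q.H (q.A - q.H) p.Q q.Q)
/-- first link for `Y` -/
def lnfY (p : First) (q : Patch) : Bool :=
  jmp q.H (4 * p.y) q.y0 (lf0 p.C q.C (Int.ofNat 0) p.Y q.Y) (lf1 p.C q.C q.H (q.A - q.H) p.Y q.Y)

end LinNi
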