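import Pool.Agent.Lib.MP_0170ef_an.CheckE

/-!
Verified chains of patches as inductive predicates, and the conditions at the end of a chain.
-/

set_option autoImplicit false

namespace LinNi

/-- verification of a patch; `kind = 0, 1, 2, 3`: no condition, `Q < 0`, `Q > 0`, `Y > 0` at zeros -/
def okP (kind : ℕ) (p : Patch) : Bool :=
  (p.ckV && p.ckW) &&
  (Nat.beq kind 0 || ((Nat.beq kind 1 && (p.fpos || p.fL)) || ((Nat.beq kind 2 && (p.fpos || p.fR)) ||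
    (Nat.beq kind 3 && (p.ckY && (p.fpos || p.fY))))))

/-- verification of a link -/
def okL (kind : ℕ) (p q : Patch) : Bool :=
  (lnk p q && (lnkV p q && lnkW p q)) && (Nat.ble kind 2 || lnkY p q)

/-- verification of the first patch -/
def okF (kind : ℕ) (F : First) (p : Patch) : Bool :=
  ((F.ckV && F.ckW) && (lnf F p && (lnfV F p && lnfW F p))) &&
  (Nat.ble 1 F.C.m && (Nat.ble kind 2 || (F.ckY && lnfY F p)))

/-- verified chain -/
inductive Chn (kind : ℕ) (E : Patch → Bool) : Patch → List Patch → Prop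
  | nil {p : Patch} : okP kind p = true → E p = true → Chn kind E p []
  | cons {p q : Patch} {l : List Patch} : okP kind p = true → okL kind p q = true →
      Chn kind E q l → Chn kind E p (q :: l)

/-- verification of a patch for the limiting equation -/
def okPE (tv tw : ℕ) (p : Patch) : Bool :=
  (p.ckV && p.ckVE tv tw) && ((p.ckWE tw && p.sw.ckWE tw) && p.fEE)

/-- verification of a link for the limiting equation -/
def okLE (p q : Patch) : Bool := (lnk p q && lnkV p q) && (lnkW p q && lnkW p.sw q.sw)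

/-- verified chain for the limiting equation -/
inductive ChnE (tv tw : ℕ) : Patch → List Patch → Prop
  | nil {p : Patch} : okPE tv tw p = true → p.fneg = true → ChnE tv tw p []
  | cons {p q : Patch} {l : List Patch} : okPE tv tw p = true → okLE p q = true →
      ChnE tv tw q l → ChnE tv tw p (q :: l)

/-- initial conditions for the limiting equation -/
def okFE (p : Patch) : Bool :=
  ini p p.P p.m0 30 (-3) 3 && (ini p p.Q p.w0 100 (-15) 0 && ini p p.Y p.w0 100 10 0)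

/-- the window contains `[n / 10 ^ 4, m / 10 ^ 4]` (physical solutions) -/
def cov (F : First) (n m : ℕ) : Bool :=
  ((Nat.beq F.C.c0 (2 ^ F.C.k) && Nat.beq F.C.c1 0) && (Nat.ble 1 F.a1 && Nat.ble (F.a1 + 1) F.a0)) &&
  ((Nat.ble ((F.a0 - F.a1) * 10 ^ 4) (n * 2 ^ F.C.k) && Nat.ble (m * 2 ^ F.C.k) ((F.a0 + F.a1) * 10 ^ 4)) &&
   Nat.ble (F.a0 + F.a1 + 1) (2 * 2 ^ F.C.k))

/-- the window contains the values `[n / 10 ^ 4, m / 10 ^ 4]` of `c` (normalized solutions) -/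
def covA (F : First) (n m : ℕ) : Bool :=
  ((Nat.beq F.a0 (2 ^ F.C.k) && Nat.beq F.a1 0) && (Nat.ble 1 F.C.c1 && Nat.ble F.C.c1 F.C.c0)) &&
  ((Nat.ble ((F.C.c0 - F.C.c1) * 10 ^ 4) (n * 2 ^ F.C.k) &&
    Nat.ble (m * 2 ^ F.C.k) ((F.C.c0 + F.C.c1) * 10 ^ 4)) && Nat.ble m (10 ^ 4))

/-! ### end of a chain -/

/-- `x H P (1, e) + y (A + H) P_r (1, e)`, value at `kY` -/
def lcv (p : Patch) (L : ℕ) (x y : ℤ) : ℤ :=
  Int.add (Int.mul (Int.mul x (Int.ofNat p.H)) (khor L p.C.m (Int.ofNat 1) (kY p.C) (Nat.succ p.C.n)))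
    (Int.mul (Int.mul y (Int.ofNat (Nat.add p.A p.H)))
      (kdhor L p.C.m (Int.ofNat 1) (kY p.C) (Nat.succ p.C.n)))

/-- distance to `c0 + c1 e` -/
def lcn (p : Patch) (L : ℕ) (x y c0 c1 : ℤ) : ℕ :=
  kn p.C.one (Int.sub (lcv p L x y) (Int.add c0 (Int.mul c1 (Int.ofNat (kY p.C)))))

/-- a priori bound -/
def lcb (p : Patch) (x y c0 c1 : ℤ) : Bool :=
  Nat.ble (x.natAbs * p.H * b0 p.C + y.natAbs * (p.A + p.H) * b1 p.C + c0.natAbs + c1.natAbs + 1)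
    (2 ^ p.C.h)

/-- error of the combination, twice -/
def lce (p : Patch) (L w : ℕ) (x y c0 c1 : ℤ) : ℕ :=
  2 * lcn p L x y c0 c1 + (2 * x.natAbs + 3 * y.natAbs) * (p.H * w)

/-- data at the end of a chain: `V`, `3 z' - V`, `u`, `3 u + 20 s u'`, `u - 10 s u'`, `z'`,
`20 z' - V` -/
structure EndD where
  a0 : ℤ
  a1 : ℤ
  b0 : ℤ
  b1 : ℤ
  d0 : ℤ
  d1 : ℤ
  e0 : ℤ
  e1 : ℤ
  f0 : ℤ
  f1 : ℤ
  g0 : ℤ
  g1 : ℤ
  h0 : ℤ
  h1 : ℤ
  un : ℕ

/-- upper bound for `V H U` -/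
def EndD.X (E : EndD) (p : Patch) : ℕ :=
  E.a0.natAbs + E.a1.natAbs + (lce p p.P p.mm 1 0 E.a0 E.a1 + 1) / 2

/-- verification of the conditions at the end -/
def endOk (E : EndD) (p : Patch) : Bool :=
  ((lcb p 1 0 E.a0 E.a1 && (lcb p 2 3 E.b0 E.b1 && lcb p 1 0 E.d0 E.d1)) &&
   (lcb p 3 20 E.e0 E.e1 && (lcb p 1 (-10) E.f0 E.f1 && (lcb p 1 1 E.g0 E.g1 && lcb p 19 20 E.h0 E.h1)))) &&
  (((decide (lce p p.P p.mm 1 0 E.a0 E.a1 + 2 * |E.a1| < 2 * E.a0) &&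
     decide (20 * E.X p ≤ p.H * 2 ^ p.C.k)) &&
    (decide (lce p p.P p.mm 2 3 E.b0 E.b1 + 2 * |E.b1| + 2 * E.b0 ≤ 0) &&
     decide (1000 * ((p.A + p.H) * (p.A + p.H)) * (E.X p ^ 3 * (p.H * 2 ^ p.C.k) ^ 3 + E.X p ^ 6) ≤
       E.un * (p.D * p.D) * (p.H * 2 ^ p.C.k) ^ 6))) &&
   ((decide (lce p p.Q p.ww 1 0 E.d0 E.d1 + 2 * |E.d1| < 2 * E.d0) &&
     decide (lce p p.Q p.ww 3 20 E.e0 E.e1 + 2 * |E.e1| < 2 * E.e0)) &&
    (decide (lce p p.Q p.ww 1 (-10) E.f0 E.f1 + 2 * |E.f1| < 2 * E.f0) &&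
     (decide (lce p p.P p.mm 1 1 E.g0 E.g1 + 2 * (E.g0 - E.g1) < 0) &&
      decide (lce p p.P p.mm 19 20 E.h0 E.h1 < 2 * (E.h0 + E.h1))))))

end LinNi
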