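import Pool.Agent.Lib.MP_0170ef_an.Check

/-!
Verification of an approximate solution of the limiting equation `c = 0`, started at `s = 1`, with
a tolerance for small `c`. The two first variations are stored in `Q` and `Y`.
-/

set_option autoImplicit false

namespace LinNi

namespace Patch

/-- same patch, with the second linear solution -/
def sw (p : Patch) : Patch :=
  ⟨p.C, p.A, p.H, p.D, p.P, p.Y, p.Y, p.κ, p.m0, p.m2, p.w0, p.w2, p.y0, p.y2⟩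

variable (p : Patch)

/-- error per step -/
def r1E (tv : ℕ) : ℕ := p.r1 + 2 * p.H * (p.A + p.H) * tv / (p.D * p.D) + 1
/-- error per step -/
def r2E (tw : ℕ) : ℕ :=
  (2 * p.N2 + 2 * (p.H * p.H) * (p.A + p.H) * p.F2 * p.mm * nN p.C p.Q) / p.den +
    2 * p.H * (p.A + p.H) * tw * nN p.C p.Q / (p.D * p.D * 2 ^ p.C.k) + 2

/-- verification for `v` -/
def ckVE (tv tw : ℕ) : Bool :=
  (Nat.beq p.C.c0 0 && Nat.beq p.C.c1 0) &&
  ((Nat.ble (2 * p.X) (2 ^ p.C.k) &&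
    (Nat.ble (2 ^ p.C.k) (10 ^ 10 * tv) && Nat.ble (11 * 2 ^ p.C.k) (10 ^ 10 * tw))) &&
  (Nat.ble (1024 * ((p.A + p.H) * (p.A + p.H)) * tw) (p.D * p.D * 2 ^ p.C.k) &&
    gchk p.A p.H p.κ p.m0 p.m2 (p.r1E tv)))

/-- verification for `Q` -/
def ckWE (tw : ℕ) : Bool :=
  Nat.ble (nbg p.C p.A p.H p.D (nbfp p.C (nN p.C p.P) * nN p.C p.Q) + 1) (2 ^ p.C.h) &&
  gchk p.A p.H (p.κ + 1) p.w0 p.w2 (p.r2E tw)

/-- `Q < 0` or `v > 0` -/
def fEE : Bool := p.fpos || (p.fL && p.sw.fL)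

end Patch

/-- error of the initial value `i / 100` -/
def st0 (C : Cfg) (i : ℤ) (L : ℕ) : ℕ :=
  kn C.one (Int.sub (Int.mul (Int.ofNat 100) (khor L C.m (Int.neg (Int.ofNat 1)) (kY C) (Nat.succ C.n)))
    (Int.mul i (Int.ofNat (Nat.pow 2 C.k))))

/-- error of the initial derivative `(i + j e) / 100` -/
def st1 (C : Cfg) (i j : ℤ) (D H L : ℕ) : ℕ :=
  kn C.one (Int.sub (Int.mul (Int.ofNat (100 * D))
      (kdhor L C.m (Int.neg (Int.ofNat 1)) (kY C) (Nat.succ C.n)))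
    (Int.mul (Int.add i (Int.mul j (Int.ofNat (kY C)))) (Int.ofNat (Nat.mul H (Nat.pow 2 C.k)))))

/-- verification of an initial condition `u = i0 / 100`, `u' = (i1 + j1 e) / 100` at `s = 1` -/
def ini (p : Patch) (L m0 : ℕ) (i0 i1 j1 : ℤ) : Bool :=
  (Nat.beq (p.A - p.H) p.D &&
   Nat.ble (100 * b0 p.C + Int.natAbs i0 * 2 ^ p.C.k + 1) (2 ^ p.C.h)) &&
  (Nat.ble (100 * p.D * b1 p.C + (Int.natAbs i1 + Int.natAbs j1) * (p.H * 2 ^ p.C.k) + 1) (2 ^ p.C.h) &&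
   Nat.ble (2 * st1 p.C i1 j1 p.D p.H L + 3 * p.H * st0 p.C i0 L) (200 * p.H * m0))

end LinNi
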