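import Pool.Agent.Lib.MP_0170ef_an.CheckE
import Pool.Agent.Lib.MP_0170ef_an.Chain

/-!
Soundness of the verification for the limiting equation.
-/

set_option autoImplicit false

open Set Filter Topology

namespace LinNi

lemma gchk_mono {A H κ m0 m2 r r' : ℕ} (h : gchk A H κ m0 m2 r' = true) (hr : r ≤ r') :
    gchk A H κ m0 m2 r = true := by
  simp only [gchk, Bool.and_eq_true, Nat.ble_eq] at h ⊢
  refine ⟨h.1, le_trans ?_ h.2⟩
  gcongr

lemma tau_small : tau ≤ 1 / 10 ^ 12 := by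
  unfold tau
  have h1 : 10 ^ 12 ≤ tt := by
    unfold tt
    calc 10 ^ 12 ≤ 2 ^ 40 := by norm_num
      _ ≤ 2 ^ 1000 := Nat.pow_le_pow_right (by norm_num) (by norm_num)
  have h2 : ((10:ℝ) ^ 12) ≤ (tt : ℝ) := by exact_mod_cast h1
  exact one_div_le_one_div_of_le (by positivity) h2

namespace Patch
variable {p : Patch}

/-- conclusions of the check -/
structure EOk (p : Patch) (tv tw : ℕ) : Prop where
  c0 : p.C.c0 = 0
  c1 : p.C.c1 = 0
  hX : 2 * p.X ≤ 2 ^ p.C.k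
  htv : 2 ^ p.C.k ≤ 10 ^ 10 * tv
  htw : 11 * 2 ^ p.C.k ≤ 10 ^ 10 * tw
  hw : 1024 * ((p.A + p.H) * (p.A + p.H)) * tw ≤ p.D * p.D * 2 ^ p.C.k
  ck : gchk p.A p.H p.κ p.m0 p.m2 (p.r1E tv) = true

lemma of_ckVE {tv tw : ℕ} (h : p.ckVE tv tw = true) : p.EOk tv tw := by
  simp only [ckVE, Bool.and_eq_true, Nat.ble_eq, Nat.beq_eq] at h
  obtain ⟨⟨h1, h2⟩, ⟨h3, h4, h5⟩, h6, h7⟩ := h
  exact ⟨h1, h2, h3, h4, h5, h6, h7⟩

section E
variable {tv tw : ℕ} (hE : p.EOk tv tw)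
include hE

lemma EOk.c_eq (e : ℝ) : p.C.c e = 0 := by
  unfold Cfg.c; rw [hE.c0, hE.c1]; simp

lemma EOk.tvU : 1 / 10 ^ 10 ≤ (tv : ℝ) / p.C.U := by
  have h : ((2 ^ p.C.k : ℕ) : ℝ) ≤ ((10 ^ 10 * tv : ℕ) : ℝ) := by exact_mod_cast hE.htv
  push_cast at h
  rw [div_le_div_iff₀ (by positivity) p.C.U_pos]
  unfold Cfg.U
  linarith

lemma EOk.twU : 11 / 10 ^ 10 ≤ (tw : ℝ) / p.C.U := by
  have h : ((11 * 2 ^ p.C.k : ℕ) : ℝ) ≤ ((10 ^ 10 * tw : ℕ) : ℝ) := by exact_mod_cast hE.htw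
  push_cast at h
  rw [div_le_div_iff₀ (by positivity) p.C.U_pos]
  unfold Cfg.U
  linarith

lemma EOk.half (hr : p.Rng) {v : ℝ} (h : p.lo / p.C.U ≤ v ∧ v ≤ p.hi / p.C.U) : |v| ≤ 1 / 2 := by
  refine (range hr h).2.1.trans ?_
  have h1 : ((2 * p.X : ℕ) : ℝ) ≤ ((2 ^ p.C.k : ℕ) : ℝ) := by exact_mod_cast hE.hX
  push_cast at h1
  rw [div_le_div_iff₀ p.C.U_pos (by norm_num)]
  unfold Cfg.U
  linarith

lemma EOk.F_sub (hr : p.Rng) {c v : ℝ} (hc : c ∈ Icc (0:ℝ) (1 / 10 ^ 8))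
    (h : p.lo / p.C.U ≤ v ∧ v ≤ p.hi / p.C.U) : |F c v - F 0 v| ≤ tv / p.C.U := by
  refine le_trans ?_ hE.tvU
  have hv := hE.half hr h
  rw [F_of_mem (range hr h).1, F_of_mem (range hr h).1]
  have e : f c v - f 0 v = c * v ^ 7 := by unfold f; ring
  rw [e, abs_mul, abs_pow, abs_of_nonneg hc.1]
  calc c * |v| ^ 7 ≤ (1 / 10 ^ 8) * (1 / 2) ^ 7 := by
        have := hc.2
        gcongr
    _ ≤ _ := by norm_num

lemma EOk.fp_sub (hr : p.Rng) {c v G : ℝ} (hc : c ∈ Icc (0:ℝ) (1 / 10 ^ 8))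
    (h : p.lo / p.C.U ≤ v ∧ v ≤ p.hi / p.C.U) (hG : |G - fp c v| ≤ tau) (e : ℝ) :
    |G - fp (p.C.c e) v| ≤ tw / p.C.U := by
  refine le_trans ?_ hE.twU
  rw [hE.c_eq]
  have hv := hE.half hr h
  have e : G - fp 0 v = (G - fp c v) + 7 * c * v ^ 6 := by unfold fp; ring
  rw [e]
  refine (abs_add_le _ _).trans ?_
  have h2 : |7 * c * v ^ 6| ≤ 7 * (1 / 10 ^ 8) * (1 / 2) ^ 6 := by
    rw [abs_mul, abs_mul, abs_pow, abs_of_nonneg hc.1]
    have := hc.2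
    have h7 : |(7:ℝ)| = 7 := by norm_num
    rw [h7]
    gcongr
  have := tau_small
  norm_num at *
  linarith

/-- the step for `v` -/
theorem stepVE (h : p.ckV = true) {e : ℝ} (he : |e| ≤ 1) {c : ℝ}
    (hc : c ∈ Icc (0:ℝ) (1 / 10 ^ 8)) {v m : ℝ → ℝ}
    (hs : ∀ s ∈ Icc p.a p.b, SolAt c v m s)
    (h0 : p.err p.P e v m p.a ≤ (p.m0 / p.C.U) ^ 2) :
    (∀ s ∈ Icc p.a p.b, p.err p.P e v m s ≤ (p.mm / p.C.U) ^ 2) ∧
      p.err p.P e v m p.b ≤ (p.m2 / p.C.U) ^ 2 := by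
  obtain ⟨hg, hr, hB, -⟩ := of_ckV h
  have hU := p.C.U_pos
  have hH := hg.H
  have hD := hg.D
  refine step_gen hg (L := p.P) (e := e) (φ := fun s => F c (v s)) hE.ck
    (fun s hs' => (hs s hs').1) (fun s hs' => (hs s hs').2)
    (ρ := p.N1 / (p.D * p.H ^ 2 * p.C.U ^ 8) + ((p.A:ℝ) + p.H) / p.D * (tv / p.C.U))
    (fun s hs' hd => ?_) ?_ h0
  · have hv := mem_lohi hg hs' he hd
    have hP : p.lo / p.C.U ≤ p.apx p.P e s ∧ p.apx p.P e s ≤ p.hi / p.C.U := by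
      apply mem_lohi hg hs' he
      rw [sub_self, abs_zero]
      positivity
    refine ⟨dd (p.C.c e) (v s) (p.apx p.P e s), f (p.C.c e) (p.apx p.P e s) +
      (F c (v s) - F (p.C.c e) (v s)), ?_, ?_, ?_⟩
    · have := F_eq_dd (c := p.C.c e) (range hr hv).1 (range hr hP).1
      rw [F_of_mem (range hr hP).1] at this
      linarith
    · exact kappa hg hr hs' he hv hP
    · have e1 : f (p.C.c e) (p.apx p.P e s) =
          fE p.C e (hor p.P p.C.m (p.loc s) e (p.C.n + 1)) / p.C.U ^ 8 := by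
        unfold f fE cc Cfg.c Patch.apx
        push_cast
        rw [pow4]
        field_simp
      have e2 : s * p.ddapx p.P e s + 2 * p.dapx p.P e s + s * (f (p.C.c e) (p.apx p.P e s) +
          (F c (v s) - F (p.C.c e) (v s))) = (s * p.ddapx p.P e s + 2 * p.dapx p.P e s +
          s * (f (p.C.c e) (p.apx p.P e s))) + s * (F c (v s) - F (p.C.c e) (v s)) := by ring
      rw [e2, e1, res_eq hg]
      have hq := (Bnd.fE p.C (bnd_nN hg.hC p.P))
      have h1 := abs_gE_le hg.hC p.A p.H p.D p.P (q := fE p.C PY (pl p.C p.P))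
        (Bf := nbf p.C (nN p.C p.P)) (by rw [nbf_eq]; exact hq) hB
        (z := kfE p.C (kY p.C) (v0 p.C p.P)) (by
          rw [kfE_eq, map_fE, ev_PY, v0_eq]) (hg.loc_mem hs') he
      rw [map_fE, ev_PY, ev_pl] at h1
      have hs0 : 0 < s := hg.a_pos.trans_le hs'.1
      have h4 := s_le hs'
      have h5 := hE.F_sub hr hc hv
      rw [← hE.c_eq e] at h5
      refine (abs_add_le _ _).trans (add_le_add ?_ ?_)
      · rw [abs_div, abs_of_pos (by positivity : 0 < (p.D:ℝ) * p.H ^ 2 * p.C.U ^ 8)]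
        gcongr
        exact h1
      · rw [abs_mul, abs_of_pos hs0]
        gcongr
  · have h1 := nat_div_real (n := 2 * p.N1) (den_pos hg)
    have hDD : 0 < p.D * p.D := Nat.mul_pos hg.hD hg.hD
    have h1' := nat_div_real (n := 2 * p.H * (p.A + p.H) * tv) hDD
    have h2 : (p.r1E tv : ℝ) = ((2 * p.N1 / p.den + 1 : ℕ) : ℝ) +
        ((2 * p.H * (p.A + p.H) * tv / (p.D * p.D) + 1 : ℕ) : ℝ) := by
      unfold r1E r1
      push_cast
      ring
    rw [h2]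
    have h3 : ((p.N1:ℝ) / (p.D * p.H ^ 2 * p.C.U ^ 8) + ((p.A:ℝ) + p.H) / p.D * (tv / p.C.U)) *
        (2 * p.H / p.D) =
        (((2 * p.N1 : ℕ) : ℝ) / p.den + ((2 * p.H * (p.A + p.H) * tv : ℕ) : ℝ) /
          ((p.D * p.D : ℕ) : ℝ)) / p.C.U := by
      rw [den_eq]
      push_cast
      field_simp
    rw [h3]
    gcongr

end E

/-- `|5 / 4 - s ^ 2 G|` -/
lemma kappaE (hg : p.Geo) (hr : p.Rng) {e s v G : ℝ} {tw : ℕ} (hs : s ∈ Icc p.a p.b) (he : |e| ≤ 1)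
    (hv : |v - p.apx p.P e s| ≤ p.mm / p.C.U) (hG : |G - fp (p.C.c e) v| ≤ tw / p.C.U)
    (hw : 1024 * ((p.A + p.H) * (p.A + p.H)) * tw ≤ p.D * p.D * 2 ^ p.C.k) :
    |5 / 4 - s ^ 2 * G| ≤ ((p.κ + 1 : ℕ) : ℝ) / 1024 := by
  have hU := p.C.U_pos
  have hD := hg.D
  have hv' := mem_lohi hg hs he hv
  have h1 := kappa hg hr hs he hv' hv'
  rw [dd_self] at h1
  have h2 : (((p.A:ℝ) + p.H) / p.D) ^ 2 * (tw / p.C.U) ≤ 1 / 1024 := by
    have h3 : ((1024 * ((p.A + p.H) * (p.A + p.H)) * tw : ℕ) : ℝ) ≤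
      ((p.D * p.D * 2 ^ p.C.k : ℕ) : ℝ) := by exact_mod_cast hw
    push_cast at h3
    have e1 : (((p.A:ℝ) + p.H) / p.D) ^ 2 * (tw / p.C.U) =
      (((p.A:ℝ) + p.H) * (p.A + p.H) * tw) / (p.D * p.D * p.C.U) := by field_simp
    rw [e1, div_le_div_iff₀ (by positivity) (by norm_num)]
    unfold Cfg.U
    linarith
  have hs0 : 0 < s := hg.a_pos.trans_le hs.1
  have h4 : s ^ 2 ≤ (((p.A:ℝ) + p.H) / p.D) ^ 2 := pow_le_pow_left₀ hs0.le (s_le hs) 2
  have h5 : |s ^ 2 * (fp (p.C.c e) v - G)| ≤ 1 / 1024 := by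
    rw [abs_mul, abs_of_nonneg (by positivity : 0 ≤ s ^ 2), abs_sub_comm]
    calc s ^ 2 * |G - fp (p.C.c e) v| ≤ (((p.A:ℝ) + p.H) / p.D) ^ 2 * (tw / p.C.U) := by gcongr
      _ ≤ 1 / 1024 := h2
  push_cast
  calc |5 / 4 - s ^ 2 * G| = |(5 / 4 - s ^ 2 * fp (p.C.c e) v) + s ^ 2 * (fp (p.C.c e) v - G)| := by
        ring_nf
    _ ≤ |5 / 4 - s ^ 2 * fp (p.C.c e) v| + |s ^ 2 * (fp (p.C.c e) v - G)| := abs_add_le _ _
    _ ≤ (p.κ:ℝ) / 1024 + 1 / 1024 := by linarith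
    _ = _ := by ring

/-- residual of `Q` -/
lemma resE (hg : p.Geo) (hr : p.Rng) {tw : ℕ}
    (hB : nbg p.C p.A p.H p.D (nbfp p.C (nN p.C p.P) * nN p.C p.Q) < 2 ^ p.C.h)
    {e s v G : ℝ} (hs' : s ∈ Icc p.a p.b) (he : |e| ≤ 1)
    (hv : |v - p.apx p.P e s| ≤ p.mm / p.C.U) (hG : |G - fp (p.C.c e) v| ≤ tw / p.C.U) :
    |s * p.ddapx p.Q e s + 2 * p.dapx p.Q e s + s * (G * p.apx p.Q e s)| ≤
      p.N2 / (p.D * p.H ^ 2 * p.C.U ^ 8) +
      (((p.A:ℝ) + p.H) / p.D) * (tw / p.C.U + p.F2 / p.C.U ^ 6 * (p.mm / p.C.U)) *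
        (nN p.C p.Q / p.C.U) := by
  have hU := p.C.U_pos
  have hH := hg.H
  have hD := hg.D
  have e1 : fp (p.C.c e) (p.apx p.P e s) * p.apx p.Q e s =
      (fpE p.C e (hor p.P p.C.m (p.loc s) e (p.C.n + 1)) *
        hor p.Q p.C.m (p.loc s) e (p.C.n + 1)) / p.C.U ^ 8 := by
    unfold fp fpE cc Cfg.c Patch.apx
    push_cast
    rw [pow4]
    field_simp
  have e2 : s * p.ddapx p.Q e s + 2 * p.dapx p.Q e s + s * (G * p.apx p.Q e s) =
      (s * p.ddapx p.Q e s + 2 * p.dapx p.Q e s +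
        s * (fp (p.C.c e) (p.apx p.P e s) * p.apx p.Q e s)) +
      s * (G - fp (p.C.c e) (p.apx p.P e s)) * p.apx p.Q e s := by ring
  rw [e2, e1, res_eq hg]
  have hq := (Bnd.fpE p.C (bnd_nN hg.hC p.P)).mul (bnd_nN hg.hC p.Q)
  have h1 := abs_gE_le hg.hC p.A p.H p.D p.Q (q := fpE p.C PY (pl p.C p.P) * pl p.C p.Q)
    (Bf := nbfp p.C (nN p.C p.P) * nN p.C p.Q) (by
      refine hq.mono (by omega) (by omega) ?_
      push_cast; rw [nbfp_eq]) hB
    (z := Int.mul (kfpE p.C (kY p.C) (v0 p.C p.P)) (v0 p.C p.Q)) (by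
      rw [kfpE_eq, map_mul, map_fpE, ev_PY, v0_eq, v0_eq]; rfl) (hg.loc_mem hs') he
  rw [map_mul, map_fpE, ev_PY, ev_pl, ev_pl] at h1
  have hs0 : 0 < s := hg.a_pos.trans_le hs'.1
  have h2 := G_sub hg hr hs' he hv hG
  have h3 := hg.abs_apx hs' he p.Q
  have h4 := s_le hs'
  refine (abs_add_le _ _).trans (add_le_add ?_ ?_)
  · rw [abs_div, abs_of_pos (by positivity : 0 < (p.D:ℝ) * p.H ^ 2 * p.C.U ^ 8)]
    gcongr
    exact h1
  · rw [abs_mul, abs_mul, abs_of_pos hs0]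
    have hb0 : 0 ≤ ((p.A:ℝ) + p.H) / p.D * (tw / p.C.U + p.F2 / p.C.U ^ 6 * (p.mm / p.C.U)) := by
      positivity
    gcongr

lemma rho_le (hg : p.Geo) (tw : ℕ) : (p.N2 / (p.D * p.H ^ 2 * p.C.U ^ 8) +
      (((p.A:ℝ) + p.H) / p.D) * (tw / p.C.U + p.F2 / p.C.U ^ 6 * (p.mm / p.C.U)) *
        (nN p.C p.Q / p.C.U)) * (2 * p.H / p.D) ≤ p.r2E tw / p.C.U := by
  have hU := p.C.U_pos
  have hH := hg.H
  have hD := hg.D
  have h1 := nat_div_real (n := 2 * p.N2 + 2 * (p.H * p.H) * (p.A + p.H) * p.F2 * p.mm * nN p.C p.Q)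
    (den_pos hg)
  have hDD : 0 < p.D * p.D * 2 ^ p.C.k := Nat.mul_pos (Nat.mul_pos hg.hD hg.hD) (by positivity)
  have h1' := nat_div_real (n := 2 * p.H * (p.A + p.H) * tw * nN p.C p.Q) hDD
  have h2 : (p.r2E tw : ℝ) = (((2 * p.N2 + 2 * (p.H * p.H) * (p.A + p.H) * p.F2 * p.mm * nN p.C p.Q) /
      p.den + 1 : ℕ) : ℝ) +
      ((2 * p.H * (p.A + p.H) * tw * nN p.C p.Q / (p.D * p.D * 2 ^ p.C.k) + 1 : ℕ) : ℝ) := by
    unfold r2E; push_cast; ring
  have h6 : (p.N2 / (p.D * p.H ^ 2 * p.C.U ^ 8) +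
      (((p.A:ℝ) + p.H) / p.D) * (tw / p.C.U + p.F2 / p.C.U ^ 6 * (p.mm / p.C.U)) *
        (nN p.C p.Q / p.C.U)) * (2 * p.H / p.D) =
      ((((2 * p.N2 + 2 * (p.H * p.H) * (p.A + p.H) * p.F2 * p.mm * nN p.C p.Q : ℕ) : ℝ)) / p.den +
      ((2 * p.H * (p.A + p.H) * tw * nN p.C p.Q : ℕ) : ℝ) / ((p.D * p.D * 2 ^ p.C.k : ℕ) : ℝ)) /
        p.C.U := by
    rw [den_eq]
    push_cast
    have : (2:ℝ) ^ p.C.k = p.C.U := rfl
    rw [this]
    field_simp
    ring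
  rw [h6, h2]
  gcongr

/-- combination of two approximate solutions -/
noncomputable def apc (p : Patch) (lam e s : ℝ) : ℝ := (1 - lam) * p.apx p.Q e s + lam * p.apx p.Y e s
/-- its derivative -/
noncomputable def dapc (p : Patch) (lam e s : ℝ) : ℝ :=
  (1 - lam) * p.dapx p.Q e s + lam * p.dapx p.Y e s
/-- energy of the error -/
noncomputable def errc (p : Patch) (lam e : ℝ) (u μ : ℝ → ℝ) (s : ℝ) : ℝ :=
  en (u s - p.apc lam e s) (μ s - s ^ 2 * p.dapc lam e s) s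

lemma cvx {lam x y z : ℝ} (hl : lam ∈ Icc (0:ℝ) 1) (hx : |x| ≤ z) (hy : |y| ≤ z) :
    |(1 - lam) * x + lam * y| ≤ z := by
  have h1 : 0 ≤ 1 - lam := by linarith [hl.2]
  calc |(1 - lam) * x + lam * y| ≤ |(1 - lam) * x| + |lam * y| := abs_add_le _ _
    _ = (1 - lam) * |x| + lam * |y| := by rw [abs_mul, abs_mul, abs_of_nonneg h1, abs_of_nonneg hl.1]
    _ ≤ (1 - lam) * z + lam * z := by
      have := hl.1
      gcongr
    _ = z := by ring

/-- the step for a combination -/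
theorem stepC (h : p.ckV = true) {tv tw : ℕ} (hE : p.EOk tv tw) (hQ : p.ckWE tw = true)
    (hY : p.sw.ckWE tw = true) {lam : ℝ} (hlam : lam ∈ Icc (0:ℝ) 1) {e : ℝ} (he : |e| ≤ 1) {c : ℝ}
    (hc : c ∈ Icc (0:ℝ) (1 / 10 ^ 8)) {v : ℝ → ℝ}
    (hv : ∀ s ∈ Icc p.a p.b, |v s - p.apx p.P e s| ≤ p.mm / p.C.U) {G u μ : ℝ → ℝ}
    (hl : LinI c v p.a p.b tau G u μ) (h0 : p.errc lam e u μ p.a ≤ (p.w0 / p.C.U) ^ 2) :
    (∀ s ∈ Icc p.a p.b, p.errc lam e u μ s ≤ (p.ww / p.C.U) ^ 2) ∧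
      p.errc lam e u μ p.b ≤ (p.w2 / p.C.U) ^ 2 := by
  obtain ⟨hg, hr, -, -⟩ := of_ckV h
  have hgs : p.sw.Geo := ⟨hg.hC, hg.hH, hg.hHA, hg.hD⟩
  have hrs : p.sw.Rng := ⟨hr.ln, hr.hp, hr.up, hr.dn⟩
  simp only [ckWE, Bool.and_eq_true, Nat.ble_eq] at hQ hY
  obtain ⟨hBQ, hckQ⟩ := hQ
  obtain ⟨hBY, hckY⟩ := hY
  have hU := p.C.U_pos
  have hH := hg.H
  have hD := hg.D
  have hG : ∀ s ∈ Icc p.a p.b, |G s - fp (p.C.c e) (v s)| ≤ tw / p.C.U := fun s hs =>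
    hE.fp_sub hr hc (mem_lohi hg hs he (hv s hs)) (hl.hG s hs) e
  -- bounds for both residuals
  set r := max (p.r2E tw) (p.sw.r2E tw) with hrdef
  have hck : gchk p.A p.H (p.κ + 1) p.w0 p.w2 r = true := by
    rcases max_choice (p.r2E tw) (p.sw.r2E tw) with h1 | h1
    · rw [hrdef, h1]; exact hckQ
    · rw [hrdef, h1]; exact hckY
  have k1 := rho_le hg tw
  have k2 := rho_le hgs tw
  have hq1 : ∀ s ∈ Icc p.a p.b, |s * p.ddapx p.Q e s + 2 * p.dapx p.Q e s +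
      s * (G s * p.apx p.Q e s)| * (2 * p.H / p.D) ≤ r / p.C.U := by
    intro s hs
    have h1 := resE hg hr hBQ hs he (hv s hs) (hG s hs)
    calc _ ≤ _ := mul_le_mul_of_nonneg_right h1 (by positivity)
      _ ≤ _ := k1
      _ ≤ _ := by
        gcongr
        exact_mod_cast le_max_left _ _
  have hq2 : ∀ s ∈ Icc p.a p.b, |s * p.ddapx p.Y e s + 2 * p.dapx p.Y e s +
      s * (G s * p.apx p.Y e s)| * (2 * p.H / p.D) ≤ r / p.C.U := by
    intro s hs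
    have h1 := resE hgs hrs hBY (tw := tw) (e := e) (s := s) (v := v s) (G := G s) hs he (hv s hs)
      (hG s hs)
    calc _ ≤ _ := mul_le_mul_of_nonneg_right h1 (by
            show 0 ≤ 2 * (p.H:ℝ) / p.D
            positivity)
      _ ≤ _ := k2
      _ ≤ _ := by
        show (p.sw.r2E tw : ℝ) / p.C.U ≤ r / p.C.U
        gcongr
        exact_mod_cast le_max_right _ _
  have hst := step (δ := fun s => u s - p.apc lam e s) (ν := fun s => μ s - s ^ 2 * p.dapc lam e s)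
    (g := fun s => G s * u s + 2 * p.dapc lam e s / s +
      ((1 - lam) * p.ddapx p.Q e s + lam * p.ddapx p.Y e s)) (a := p.a) (b := p.b)
    (ρ := r / p.C.U / (2 * p.H / p.D))
    hU hg.hH hg.hHA hg.hD hck rfl rfl (fun s hs => by
      have hs0 : s ≠ 0 := (hg.a_pos.trans_le hs.1).ne'
      refine ((hl.du s hs).fun_sub (((hasDerivAt_apx p.Q e s).const_mul (1 - lam)).fun_add
        ((hasDerivAt_apx p.Y e s).const_mul lam))).congr_deriv ?_
      unfold dapc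
      field_simp) (fun s hs => by
      have hs0 : s ≠ 0 := (hg.a_pos.trans_le hs.1).ne'
      refine ((hl.dμ s hs).fun_sub ((hasDerivAt_pow 2 s).fun_mul
        (((hasDerivAt_dapx p.Q e s).const_mul (1 - lam)).fun_add
        ((hasDerivAt_dapx p.Y e s).const_mul lam)))).congr_deriv ?_
      unfold dapc
      field_simp
      norm_num
      ring) (fun s hs hd => by
      have hs0 : s ≠ 0 := (hg.a_pos.trans_le hs.1).ne'
      refine ⟨G s, (1 - lam) * (s * p.ddapx p.Q e s + 2 * p.dapx p.Q e s + s * (G s * p.apx p.Q e s))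
        + lam * (s * p.ddapx p.Y e s + 2 * p.dapx p.Y e s + s * (G s * p.apx p.Y e s)), ?_,
        kappaE hg hr hs he (hv s hs) (hG s hs) hE.hw, ?_⟩
      · unfold apc dapc
        field_simp
        ring
      · apply cvx hlam
        · rw [le_div_iff₀ (by positivity)]; exact hq1 s hs
        · rw [le_div_iff₀ (by positivity)]; exact hq2 s hs) (by
      rw [div_mul_cancel₀ _ (by positivity)]) h0
  exact hst

end Patch

/-- verified chain for the limiting equation -/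
def ChE (tv tw : ℕ) : Patch → List Patch → Prop
  | p, [] => p.ckV = true ∧ p.ckVE tv tw = true ∧ p.ckWE tw = true ∧ p.sw.ckWE tw = true
  | p, q :: l => (p.ckV = true ∧ p.ckVE tv tw = true ∧ p.ckWE tw = true ∧ p.sw.ckWE tw = true) ∧
      (lnk p q = true ∧ lnkV p q = true ∧ lnkW p q = true ∧ lnkW p.sw q.sw = true) ∧ ChE tv tw q l

lemma ChE.chV {tv tw : ℕ} {p : Patch} {l : List Patch} (h : ChE tv tw p l) : ChV p l := by
  induction l generalizing p with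
  | nil => exact h.1
  | cons q l ih => exact ⟨h.1.1, ⟨h.2.1.1, h.2.1.2.1⟩, ih h.2.2⟩

/-- link for a combination -/
theorem link_c {p q : Patch} (hp : p.Geo) (hq : q.Geo) (h : lnk p q = true)
    (h1 : lnkW p q = true) (h2 : lnkW p.sw q.sw = true) {lam : ℝ} (hlam : lam ∈ Icc (0:ℝ) 1)
    {e : ℝ} (he : |e| ≤ 1) {u μ : ℝ → ℝ} (h0 : p.errc lam e u μ p.b ≤ (p.w2 / p.C.U) ^ 2) :
    q.errc lam e u μ q.a ≤ (q.w0 / q.C.U) ^ 2 := by
  have hU := p.C.U_pos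
  obtain ⟨hab, hUU, c0, c1⟩ := link_bounds hp hq h p.Q q.Q he
  obtain ⟨-, -, d0, d1⟩ := link_bounds hp hq h p.Y q.Y he
  have hbp : 0 < p.b := hp.a_pos.trans hp.ab
  have j1 := jmp_real hU (Nat.mul_pos hp.hH hq.hH) h1
  have j2 := jmp_real hU (Nat.mul_pos hp.hH hq.hH) h2
  rw [← hab, ← hUU]
  set A1 : ℝ := (lk1 p.C q.C ((p.A + p.H) * q.H) ((q.A - q.H) * p.H) p.Q q.Q : ℝ) /
          (((p.H * q.H : ℕ) : ℝ) * p.C.U) + 3 / 2 * ((lk0 p.C q.C p.Q q.Q : ℝ) / p.C.U) with hA1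
  set A2 : ℝ := (lk1 p.C q.C ((p.A + p.H) * q.H) ((q.A - q.H) * p.H) p.Y q.Y : ℝ) /
          (((p.H * q.H : ℕ) : ℝ) * p.C.U) + 3 / 2 * ((lk0 p.C q.C p.Y q.Y : ℝ) / p.C.U) with hA2
  have j2' : (p.w2:ℝ) / p.C.U + A2 ≤ q.w0 / p.C.U := j2
  have j1' : (p.w2:ℝ) / p.C.U + A1 ≤ q.w0 / p.C.U := j1
  refine link_gen (m2 := p.w2 / p.C.U) (m0 := q.w0 / p.C.U) (d := (1 - lam) * A1 + lam * A2)
    (by positivity) ?_ hbp h0 ?_
  · have h3 : 0 ≤ 1 - lam := by linarith [hlam.2]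
    have h4 := mul_le_mul_of_nonneg_left j1' h3
    have h5 := mul_le_mul_of_nonneg_left j2' hlam.1
    linarith
  · have h3 : 0 ≤ 1 - lam := by linarith [hlam.2]
    have e1 : p.b * p.dapc lam e p.b - p.b * q.dapc lam e p.b =
        (1 - lam) * (p.b * p.dapx p.Q e p.b - p.b * q.dapx q.Q e p.b) +
        lam * (p.b * p.dapx p.Y e p.b - p.b * q.dapx q.Y e p.b) := by
      unfold Patch.dapc; ring
    have e2 : p.apc lam e p.b - q.apc lam e p.b =
        (1 - lam) * (p.apx p.Q e p.b - q.apx q.Q e p.b) +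
        lam * (p.apx p.Y e p.b - q.apx q.Y e p.b) := by
      unfold Patch.apc; ring
    have t1 : |p.b * p.dapc lam e p.b - p.b * q.dapc lam e p.b| ≤
        (1 - lam) * |p.b * p.dapx p.Q e p.b - p.b * q.dapx q.Q e p.b| +
        lam * |p.b * p.dapx p.Y e p.b - p.b * q.dapx q.Y e p.b| := by
      rw [e1]
      refine (abs_add_le _ _).trans ?_
      rw [abs_mul, abs_mul, abs_of_nonneg h3, abs_of_nonneg hlam.1]
    have t2 : |p.apc lam e p.b - q.apc lam e p.b| ≤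
        (1 - lam) * |p.apx p.Q e p.b - q.apx q.Q e p.b| +
        lam * |p.apx p.Y e p.b - q.apx q.Y e p.b| := by
      rw [e2]
      refine (abs_add_le _ _).trans ?_
      rw [abs_mul, abs_mul, abs_of_nonneg h3, abs_of_nonneg hlam.1]
    have m1 := mul_le_mul_of_nonneg_left c0 h3
    have m2 := mul_le_mul_of_nonneg_left c1 h3
    have m3 := mul_le_mul_of_nonneg_left d0 hlam.1
    have m4 := mul_le_mul_of_nonneg_left d1 hlam.1
    rw [hA1, hA2]
    linarith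

/-- enclosure of `v` along a chain -/
theorem chainVE {tv tw : ℕ} {p : Patch} {l : List Patch} (h : ChE tv tw p l) {e : ℝ} (he : |e| ≤ 1)
    {c : ℝ} (hc : c ∈ Icc (0:ℝ) (1 / 10 ^ 8)) {v m : ℝ → ℝ}
    (hs : ∀ s ∈ Icc p.a (lastB p l), SolAt c v m s)
    (h0 : p.err p.P e v m p.a ≤ (p.m0 / p.C.U) ^ 2) :
    ∀ q ∈ p :: l, ∀ s ∈ Icc q.a q.b, q.err q.P e v m s ≤ (q.mm / q.C.U) ^ 2 := by
  induction l generalizing p with
  | nil =>
    intro q hq
    rw [List.mem_singleton] at hq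
    rw [hq]
    exact (Patch.stepVE (Patch.of_ckVE h.2.1) h.1 he hc hs h0).1
  | cons r l ih =>
    have hp := (Patch.of_ckV h.1.1).1
    have hr := (Patch.of_ckV h.2.2.chV.head).1
    have hab := lnk_ab hp hr h.2.1.1
    have hst := Patch.stepVE (Patch.of_ckVE h.1.2.1) h.1.1 he hc
      (fun s hs' => hs s ⟨hs'.1, hs'.2.trans h.chV.le_last⟩) h0
    intro q hq
    rcases List.mem_cons.1 hq with rfl | hq
    · exact hst.1
    · exact ih h.2.2 (fun s hs' => hs s ⟨by linarith [hs'.1, hp.ab], hs'.2⟩)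
        (link_sound hp hr h.2.1.1 h.2.1.2.1 he hst.2) q hq

/-- enclosure of the first variation along a chain -/
theorem chainC {tv tw : ℕ} {p : Patch} {l : List Patch} (h : ChE tv tw p l) {lam : ℝ}
    (hlam : lam ∈ Icc (0:ℝ) 1) {e : ℝ} (he : |e| ≤ 1)
    {c : ℝ} (hc : c ∈ Icc (0:ℝ) (1 / 10 ^ 8))
    {v : ℝ → ℝ} (hv : ∀ q ∈ p :: l, ∀ s ∈ Icc q.a q.b, |v s - q.apx q.P e s| ≤ q.mm / q.C.U)
    {G u μ : ℝ → ℝ} (hl : LinI c v p.a (lastB p l) tau G u μ)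
    (h0 : p.errc lam e u μ p.a ≤ (p.w0 / p.C.U) ^ 2) :
    ∀ q ∈ p :: l, ∀ s ∈ Icc q.a q.b, q.errc lam e u μ s ≤ (q.ww / q.C.U) ^ 2 := by
  induction l generalizing p with
  | nil =>
    intro q hq
    rw [List.mem_singleton] at hq
    rw [hq]
    exact (Patch.stepC h.1 (Patch.of_ckVE h.2.1) h.2.2.1 h.2.2.2 hlam he hc (hv p (by simp)) hl h0).1
  | cons r l ih =>
    have hp := (Patch.of_ckV h.1.1).1
    have hr := (Patch.of_ckV h.2.2.chV.head).1
    have hab := lnk_ab hp hr h.2.1.1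
    have hst := Patch.stepC h.1.1 (Patch.of_ckVE h.1.2.1) h.1.2.2.1 h.1.2.2.2 hlam he hc
      (hv p (by simp)) (hl.mono le_rfl h.chV.le_last) h0
    intro q hq
    rcases List.mem_cons.1 hq with rfl | hq
    · exact hst.1
    · exact ih h.2.2 (fun q hq => hv q (List.mem_cons_of_mem _ hq))
        (hl.mono (by linarith [hp.ab]) le_rfl)
        (link_c hp hr h.2.1.1 h.2.1.2.2.1 h.2.1.2.2.2 hlam he hst.2) q hq

/-! ### initial conditions -/

section start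
variable {p : Patch} (hg : p.Geo)
include hg

/-- bounds for the initial errors -/
theorem ini_bounds {L m0 : ℕ} {i0 i1 j1 : ℤ} (h : ini p L m0 i0 i1 j1 = true) {e : ℝ}
    (he : |e| ≤ 1) : p.a = 1 ∧
      |((i1:ℝ) + j1 * e) / 100 - p.dapx L e 1| + 3 / 2 * |(i0:ℝ) / 100 - p.apx L e 1| ≤
        m0 / p.C.U := by
  simp only [ini, Bool.and_eq_true, Nat.beq_eq, Nat.ble_eq] at h
  obtain ⟨⟨ht, hb0⟩, hb1, hj⟩ := h
  have hU := p.C.U_pos
  have hH := hg.H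
  have hD := hg.D
  have hUk : ((2 ^ p.C.k : ℕ) : ℝ) = p.C.U := by unfold Cfg.U; push_cast; rfl
  have htime : (p.A:ℝ) - p.H = p.D := by
    have h1 : ((p.A - p.H : ℕ) : ℝ) = ((p.D : ℕ) : ℝ) := by rw [ht]
    push_cast [Nat.cast_sub hg.hHA.le] at h1
    exact h1
  have ha : p.a = 1 := by
    unfold Patch.a
    rw [htime, div_self hD.ne']
  have lp : p.loc 1 = -1 := by
    unfold Patch.loc
    rw [div_eq_iff hH.ne']
    linarith
  have hm : p.C.m < p.C.S := by have := hg.hC.hS; omega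
  have hb0' : ((100 * b0 p.C + Int.natAbs i0 * 2 ^ p.C.k : ℕ) : ℤ) < 2 ^ p.C.h := by
    have : ((100 * b0 p.C + Int.natAbs i0 * 2 ^ p.C.k : ℕ) : ℤ) < ((2 ^ p.C.h : ℕ) : ℤ) := by
      exact_mod_cast hb0
    rw [Nat.cast_pow 2 p.C.h] at this; exact this
  have hb1' : ((100 * p.D * b1 p.C + (Int.natAbs i1 + Int.natAbs j1) * (p.H * 2 ^ p.C.k) : ℕ) : ℤ) <
      2 ^ p.C.h := by
    have : ((100 * p.D * b1 p.C + (Int.natAbs i1 + Int.natAbs j1) * (p.H * 2 ^ p.C.k) : ℕ) : ℤ) <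
      ((2 ^ p.C.h : ℕ) : ℤ) := by exact_mod_cast hb1
    rw [Nat.cast_pow 2 p.C.h] at this; exact this
  have c0 : |(i0:ℝ) / 100 - p.apx L e 1| ≤ (st0 p.C i0 L : ℝ) / (100 * p.C.U) := by
    have h1 := kn_one hg.hC
      (p := ((100 : ℕ) : Pol) * hor L p.C.m (-1 : Pol) PY (p.C.n + 1) -
        ((i0 : ℤ) : Pol) * ((2 ^ p.C.k : ℕ) : Pol))
      (m := p.C.m) (B := ((100 * b0 p.C + Int.natAbs i0 * 2 ^ p.C.k : ℕ) : ℤ))
      ((((Bnd.nat 100).mul (Bnd.hor Bnd.negone L p.C.m p.C.n)).sub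
        ((Bnd.int i0).mul (Bnd.nat (2 ^ p.C.k)))).mono
        (by omega) (by omega) (by unfold b0; push_cast; rfl)) hb0' hm
      (z := Int.sub (Int.mul (Int.ofNat 100)
          (khor L p.C.m (Int.neg (Int.ofNat 1)) (kY p.C) (Nat.succ p.C.n)))
        (Int.mul i0 (Int.ofNat (Nat.pow 2 p.C.k)))) (by
        rw [map_sub, map_mul, map_mul, map_hor, map_natCast, map_natCast, map_intCast, map_neg,
          map_one, ev_PY, khor_eq]; rfl)
      (r := 1) (by norm_num) he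
    rw [map_sub, map_mul, map_mul, map_hor, map_natCast, map_natCast, map_intCast, map_neg,
      map_one, ev_PY, hUk] at h1
    have e1 : (i0:ℝ) / 100 - p.apx L e 1 = -((((100 : ℕ) : ℝ) * hor L p.C.m (-1:ℝ) e (p.C.n + 1) -
        i0 * p.C.U) / (100 * p.C.U)) := by
      unfold Patch.apx; rw [lp]; push_cast; field_simp; ring
    rw [e1, abs_neg, abs_div, abs_of_pos (by positivity : 0 < 100 * p.C.U)]
    gcongr
    exact h1
  have c1 : |((i1:ℝ) + j1 * e) / 100 - p.dapx L e 1| ≤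
      (st1 p.C i1 j1 p.D p.H L : ℝ) / (100 * p.H * p.C.U) := by
    have h1 := kn_one hg.hC
      (p := ((100 * p.D : ℕ) : Pol) * dhor L p.C.m (-1 : Pol) PY (p.C.n + 1) -
        (((i1 : ℤ) : Pol) + ((j1 : ℤ) : Pol) * PY) * ((p.H * 2 ^ p.C.k : ℕ) : Pol))
      (m := max 1 p.C.m)
      (B := ((100 * p.D * b1 p.C + (Int.natAbs i1 + Int.natAbs j1) * (p.H * 2 ^ p.C.k) : ℕ) : ℤ))
      ((((Bnd.nat (100 * p.D)).mul (Bnd.dhor Bnd.negone L p.C.m p.C.n)).sub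
        (((Bnd.int i1).add ((Bnd.int j1).mul Bnd.Y)).mul (Bnd.nat (p.H * 2 ^ p.C.k)))).mono
        (by omega) (by omega) (by unfold b1 b0; push_cast; simp)) hb1'
      (by have := hg.hC.hS; omega)
      (z := Int.sub (Int.mul (Int.ofNat (100 * p.D))
          (kdhor L p.C.m (Int.neg (Int.ofNat 1)) (kY p.C) (Nat.succ p.C.n)))
        (Int.mul (Int.add i1 (Int.mul j1 (Int.ofNat (kY p.C))))
          (Int.ofNat (Nat.mul p.H (Nat.pow 2 p.C.k))))) (by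
        rw [map_sub, map_mul, map_mul, map_dhor, map_natCast, map_natCast, map_add, map_mul,
          map_intCast, map_intCast, map_neg, map_one, ev_PY, kdhor_eq]; rfl)
      (r := 1) (by norm_num) he
    rw [map_sub, map_mul, map_mul, map_dhor, map_natCast, map_natCast, map_add, map_mul,
          map_intCast, map_intCast, map_neg, map_one, ev_PY] at h1
    have e1 : ((i1:ℝ) + j1 * e) / 100 - p.dapx L e 1 =
        -((((100 * p.D : ℕ) : ℝ) * dhor L p.C.m (-1:ℝ) e (p.C.n + 1) -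
        (i1 + j1 * e) * ((p.H * 2 ^ p.C.k : ℕ) : ℝ)) / (100 * p.H * p.C.U)) := by
      unfold Patch.dapx; rw [lp]; push_cast
      have : (2:ℝ) ^ p.C.k = p.C.U := rfl
      rw [this]
      field_simp
      ring
    rw [e1, abs_neg, abs_div, abs_of_pos (by positivity : 0 < 100 * (p.H:ℝ) * p.C.U)]
    gcongr
    exact h1
  refine ⟨ha, ?_⟩
  have hj' : ((2 * st1 p.C i1 j1 p.D p.H L + 3 * p.H * st0 p.C i0 L : ℕ) : ℝ) ≤
    ((200 * p.H * m0 : ℕ) : ℝ) := by exact_mod_cast hj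
  push_cast at hj'
  calc _ ≤ (st1 p.C i1 j1 p.D p.H L : ℝ) / (100 * p.H * p.C.U) +
        3 / 2 * ((st0 p.C i0 L : ℝ) / (100 * p.C.U)) := by linarith
    _ = (2 * st1 p.C i1 j1 p.D p.H L + 3 * p.H * st0 p.C i0 L) / (200 * p.H * p.C.U) := by
      field_simp
      ring
    _ ≤ m0 / p.C.U := by
      rw [div_le_div_iff₀ (by positivity) hU]
      calc _ ≤ (200 * (p.H:ℝ) * m0) * p.C.U := by gcongr
        _ = _ := by ring

omit hg in
lemma en_of_bounds {u u' x x' m : ℝ} (h : |u' - x'| + 3 / 2 * |u - x| ≤ m) :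
    en (u - x) (u' - 1 ^ 2 * x') 1 ≤ m ^ 2 := by
  have h1 := en_jump (x := 0) (y := 0) (x' := u' - x') (y' := u - x) (m := 0) (d := m) le_rfl
    (by norm_num) h
  unfold en
  have e1 : (u' - 1 ^ 2 * x') / 1 + (u - x) / 2 = 0 + (u' - x') + (0 + (u - x)) / 2 := by ring
  rw [e1]
  simpa using h1

end start

/-- all the data -/
structure ValidE (tv tw : ℕ) (p : Patch) (l : List Patch) : Prop where
  hc : ChE tv tw p l
  hV : ini p p.P p.m0 30 (-3) 3 = true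
  hQ : ini p p.Q p.w0 100 (-15) 0 = true
  hY : ini p p.Y p.w0 100 10 0 = true
  hneg : (lastP p l).fneg = true
  hfl : ∀ q ∈ p :: l, q.fEE = true

/-- conclusion for the limiting equation -/
theorem ValidE.main {tv tw : ℕ} {p : Patch} {l : List Patch} (h : ValidE tv tw p l) :
    1 < lastB p l ∧ ∀ c ∈ Icc (0:ℝ) (1 / 10 ^ 8), ∀ g ∈ Icc (8 / 10 : ℝ) 1, ∀ v m : ℝ → ℝ,
      (∀ s ∈ Icc (1:ℝ) (lastB p l), SolAt c v m s) → v 1 = 3 / 10 → m 1 = 3 / 10 * (g - 1) →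
      v (lastB p l) < 0 ∧ -1/2 < v (lastB p l) ∧
      ∀ G u μ, LinI c v 1 (lastB p l) tau G u μ → u 1 = 1 → -15/100 ≤ μ 1 → μ 1 ≤ 1/10 →
        ∀ T ∈ Icc 1 (lastB p l), v T = 0 → u T < 0 := by
  have hg := (Patch.of_ckV h.hc.chV.head).1
  have ha : p.a = 1 := (ini_bounds hg h.hV (e := 0) (by norm_num)).1
  have h1 : 1 < lastB p l := by
    have := h.hc.chV.le_last
    rw [← ha]
    linarith [hg.ab]
  refine ⟨h1, fun c hc g hgg v m hs hv1 hm1 => ?_⟩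
  set e : ℝ := 10 * g - 9 with hedef
  have he : |e| ≤ 1 := by
    rw [abs_le]
    constructor
    · linarith [hgg.1]
    · linarith [hgg.2]
  have h0 : p.err p.P e v m p.a ≤ (p.m0 / p.C.U) ^ 2 := by
    have hb := (ini_bounds hg h.hV he).2
    rw [ha]
    unfold Patch.err
    refine en_of_bounds ?_
    rw [hv1, hm1]
    have e1 : (((-3 : ℤ) : ℝ) + ((3 : ℤ) : ℝ) * e) / 100 = 3 / 10 * (g - 1) := by
      rw [hedef]; push_cast; ring
    have e2 : ((30 : ℤ) : ℝ) / 100 = 3 / 10 := by norm_num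
    rw [e1, e2] at hb
    exact hb
  have hmain := chainVE h.hc he hc (by rw [ha]; exact hs) h0
  have hclose : ∀ q ∈ p :: l, ∀ s ∈ Icc q.a q.b, |v s - q.apx q.P e s| ≤ q.mm / q.C.U :=
    fun q hq s hs => Patch.bound_of_err (hmain q hq s hs)
  have hrng : ∀ q ∈ p :: l, ∀ s ∈ Icc q.a q.b, q.lo / q.C.U ≤ v s ∧ v s ≤ q.hi / q.C.U :=
    fun q hq s hs => Patch.mem_lohi (Patch.of_ckV (h.hc.chV.ck q hq)).1 hs he (hclose q hq s hs)
  have hlastg := (Patch.of_ckV (h.hc.chV.ck _ (lastP_mem p l))).1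
  have hlast := hrng (lastP p l) (lastP_mem p l) (lastB p l)
    (by
      have := hlastg.ab
      rw [lastB_eq]; exact ⟨this.le, le_rfl⟩)
  refine ⟨Patch.neg_of h.hneg hlast.2, ?_, ?_⟩
  · have hr := (Patch.of_ckV (h.hc.chV.ck _ (lastP_mem p l))).2.1
    have hU := (lastP p l).C.U_pos
    have h1 := (Patch.range hr hlast).2.2.2
    have l1 : (2:ℝ) * (lastP p l).ln < (lastP p l).C.U := by
      have := hr.ln
      unfold Cfg.U; exact_mod_cast this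
    have a3 : ((lastP p l).ln:ℝ) / (lastP p l).C.U < 1 / 2 := by
      rw [div_lt_iff₀ hU]; linarith
    have a5 : (0:ℝ) ≤ (lastP p l).lp / (lastP p l).C.U := by positivity
    linarith
  · intro G u μ hl hu1 hm1 hm2 T hT hvT
    set lam : ℝ := (μ 1 + 15 / 100) * 4 with hlamdef
    have hlam : lam ∈ Icc (0:ℝ) 1 := by
      constructor
      · linarith
      · linarith
    have hc0 : p.errc lam e u μ p.a ≤ (p.w0 / p.C.U) ^ 2 := by
      have b1 := (ini_bounds hg h.hQ he).2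
      have b2 := (ini_bounds hg h.hY he).2
      rw [ha]
      unfold Patch.errc
      refine en_of_bounds ?_
      have h3 : 0 ≤ 1 - lam := by linarith [hlam.2]
      have e1 : μ 1 - p.dapc lam e 1 =
          (1 - lam) * ((((-15 : ℤ) : ℝ) + ((0 : ℤ) : ℝ) * e) / 100 - p.dapx p.Q e 1) +
          lam * ((((10 : ℤ) : ℝ) + ((0 : ℤ) : ℝ) * e) / 100 - p.dapx p.Y e 1) := by
        unfold Patch.dapc
        push_cast
        rw [hlamdef]
        ring
      have e2 : u 1 - p.apc lam e 1 =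
          (1 - lam) * (((100 : ℤ) : ℝ) / 100 - p.apx p.Q e 1) +
          lam * (((100 : ℤ) : ℝ) / 100 - p.apx p.Y e 1) := by
        unfold Patch.apc
        push_cast
        rw [hu1]
        ring
      rw [e1, e2]
      set x1 := (((-15 : ℤ) : ℝ) + ((0 : ℤ) : ℝ) * e) / 100 - p.dapx p.Q e 1
      set x2 := (((10 : ℤ) : ℝ) + ((0 : ℤ) : ℝ) * e) / 100 - p.dapx p.Y e 1
      set y1 := ((100 : ℤ) : ℝ) / 100 - p.apx p.Q e 1
      set y2 := ((100 : ℤ) : ℝ) / 100 - p.apx p.Y e 1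
      have t1 : |(1 - lam) * x1 + lam * x2| ≤ (1 - lam) * |x1| + lam * |x2| := by
        refine (abs_add_le _ _).trans ?_
        rw [abs_mul, abs_mul, abs_of_nonneg h3, abs_of_nonneg hlam.1]
      have t2 : |(1 - lam) * y1 + lam * y2| ≤ (1 - lam) * |y1| + lam * |y2| := by
        refine (abs_add_le _ _).trans ?_
        rw [abs_mul, abs_mul, abs_of_nonneg h3, abs_of_nonneg hlam.1]
      have m1 := mul_le_mul_of_nonneg_left b1 h3
      have m2 := mul_le_mul_of_nonneg_left b2 hlam.1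
      linarith
    have hmc := chainC h.hc hlam he hc hclose (G := G) (by rw [ha]; exact hl) hc0
    obtain ⟨q, hq, hTq⟩ := h.hc.chV.cover (s := T) (by rw [ha]; exact hT)
    have hfl := h.hfl q hq
    have hqg := (Patch.of_ckV (h.hc.chV.ck q hq)).1
    have hqs : q.sw.Geo := ⟨hqg.hC, hqg.hH, hqg.hHA, hqg.hD⟩
    have hqU := q.C.U_pos
    simp only [Patch.fEE, Bool.or_eq_true, Bool.and_eq_true] at hfl
    rcases hfl with hfl | ⟨hf1, hf2⟩
    · have := Patch.pos_of hfl (hrng q hq T hTq).1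
      linarith
    · have herr := hmc q hq T hTq
      have hb : |u T - q.apc lam e T| ≤ q.ww / q.C.U := abs_le_of_en (by positivity) herr
      -- both are negative
      have n1 : (q.apx q.Q e T + q.ww / q.C.U) < 0 := by
        refine Patch.L_of hqg hTq he hf1 ?_
        rw [add_sub_cancel_left, abs_of_nonneg (by positivity)]
      have n2 : (q.sw.apx q.sw.Q e T + q.sw.ww / q.sw.C.U) < 0 := by
        refine Patch.L_of hqs hTq he hf2 ?_
        rw [add_sub_cancel_left, abs_of_nonneg]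
        exact div_nonneg (Nat.cast_nonneg _) q.C.U_pos.le
      have n2' : (q.apx q.Y e T + q.ww / q.C.U) < 0 := n2
      have h5 := (abs_le.1 hb).2
      have h3 : 0 ≤ 1 - lam := by linarith [hlam.2]
      unfold Patch.apc at h5
      have hle : (1 - lam) * (q.apx q.Q e T + q.ww / q.C.U) +
          lam * (q.apx q.Y e T + q.ww / q.C.U) < 0 := by
        rcases eq_or_lt_of_le hlam.1 with h6 | h6
        · rw [← h6]; linarith
        · have a1 : lam * (q.apx q.Y e T + q.ww / q.C.U) < 0 := mul_neg_of_pos_of_neg h6 n2'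
          have a2 : (1 - lam) * (q.apx q.Q e T + q.ww / q.C.U) ≤ 0 :=
            mul_nonpos_of_nonneg_of_nonpos h3 n1.le
          linarith
      nlinarith

end LinNi
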