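import Pool.Agent.Lib.MP_0170ef_an.Win
import Pool.Agent.Lib.MP_0170ef_an_h54.Corridor3
import Pool.Agent.Lib.MP_0170ef_an_helper93.Bounce

/-!
The conditions at the end of a chain in a window around a critical initial value.
-/

set_option autoImplicit false

open Set Filter Topology

namespace LinNi

open H93

/-- enclosure of a combination at the end of a patch -/
theorem lc_bound {p : Patch} (hg : p.Geo) {L w : ℕ} {x y c0 c1 : ℤ} (hb : lcb p x y c0 c1 = true)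
    {e : ℝ} (he : |e| ≤ 1) {u μ : ℝ → ℝ} (h0 : p.err L e u μ p.b ≤ (w / p.C.U) ^ 2) :
    |(x:ℝ) * u p.b + y * (μ p.b / p.b) - (c0 + c1 * e) / (p.H * p.C.U)| ≤
      lce p L w x y c0 c1 / (2 * (p.H * p.C.U)) := by
  have hU := p.C.U_pos
  have hH := hg.H
  have hD := hg.D
  have hbp : 0 < p.b := hg.a_pos.trans hg.ab
  have lp : p.loc p.b = 1 := by
    unfold Patch.loc Patch.b
    field_simp
    ring
  have hm : p.C.m < p.C.S := by have := hg.hC.hS; omega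
  simp only [lcb, Nat.ble_eq] at hb
  have hb' : ((x.natAbs * p.H * b0 p.C + y.natAbs * (p.A + p.H) * b1 p.C + c0.natAbs + c1.natAbs : ℕ)
      : ℤ) < 2 ^ p.C.h := by
    have : ((x.natAbs * p.H * b0 p.C + y.natAbs * (p.A + p.H) * b1 p.C + c0.natAbs + c1.natAbs : ℕ)
      : ℤ) < ((2 ^ p.C.h : ℕ) : ℤ) := by exact_mod_cast hb
    rw [Nat.cast_pow 2 p.C.h] at this; exact this
  have h1 := kn_one hg.hC
    (p := (((x : ℤ) : Pol) * ((p.H : ℕ) : Pol)) * hor L p.C.m (1 : Pol) PY (p.C.n + 1) +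
      (((y : ℤ) : Pol) * ((p.A + p.H : ℕ) : Pol)) * dhor L p.C.m (1 : Pol) PY (p.C.n + 1) -
      (((c0 : ℤ) : Pol) + ((c1 : ℤ) : Pol) * PY))
    (m := max 1 p.C.m)
    (B := ((x.natAbs * p.H * b0 p.C + y.natAbs * (p.A + p.H) * b1 p.C + c0.natAbs + c1.natAbs : ℕ)
      : ℤ))
    ((((((Bnd.int x).mul (Bnd.nat p.H)).mul (Bnd.hor Bnd.one L p.C.m p.C.n)).add
      (((Bnd.int y).mul (Bnd.nat (p.A + p.H))).mul (Bnd.dhor Bnd.one L p.C.m p.C.n))).sub
      ((Bnd.int c0).add ((Bnd.int c1).mul Bnd.Y))).mono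
      (by omega) (by omega) (by unfold b1 b0; push_cast; simp; linarith)) hb'
    (by have := hg.hC.hS; omega)
    (z := Int.sub (lcv p L x y) (Int.add c0 (Int.mul c1 (Int.ofNat (kY p.C))))) (by
      rw [map_sub, map_add, map_add, map_mul, map_mul, map_mul, map_mul, map_mul, map_hor, map_dhor,
        map_natCast, map_natCast, map_intCast, map_intCast, map_intCast, map_intCast, map_one,
        ev_PY]
      unfold lcv
      rw [khor_eq, kdhor_eq]; rfl)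
    (r := 1) (by norm_num) he
  rw [map_sub, map_add, map_add, map_mul, map_mul, map_mul, map_mul, map_mul, map_hor, map_dhor,
    map_natCast, map_natCast, map_intCast, map_intCast, map_intCast, map_intCast, map_one,
    ev_PY] at h1
  -- the polynomial part
  have e1 : (x:ℝ) * p.apx L e p.b + y * (p.b * p.dapx L e p.b) - (c0 + c1 * e) / (p.H * p.C.U) =
      ((((x : ℤ) : ℝ) * ((p.H : ℕ) : ℝ)) * hor L p.C.m (1 : ℝ) e (p.C.n + 1) +
      (((y : ℤ) : ℝ) * ((p.A + p.H : ℕ) : ℝ)) * dhor L p.C.m (1 : ℝ) e (p.C.n + 1) -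
      (((c0 : ℤ) : ℝ) + ((c1 : ℤ) : ℝ) * e)) / (p.H * p.C.U) := by
    unfold Patch.dapx Patch.apx
    rw [lp]
    have e3 : p.b * (p.D:ℝ) = (p.A:ℝ) + p.H := by
      unfold Patch.b; field_simp
    push_cast
    rw [← e3]
    field_simp
  have b1 : |(x:ℝ) * p.apx L e p.b + y * (p.b * p.dapx L e p.b) - (c0 + c1 * e) / (p.H * p.C.U)| ≤
      lcn p L x y c0 c1 / (p.H * p.C.U) := by
    rw [e1, abs_div, abs_of_pos (by positivity : 0 < (p.H:ℝ) * p.C.U)]
    gcongr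
    exact h1
  -- the error part
  have b2 := abs_le_of_en (m := w / p.C.U) (by positivity) h0
  have b3 := abs_nu_of_en (m := w / p.C.U) (by positivity) h0
  have e2 : (μ p.b - p.b ^ 2 * p.dapx L e p.b) / p.b = μ p.b / p.b - p.b * p.dapx L e p.b := by
    field_simp
  rw [e2] at b3
  have hx : |(x:ℝ)| = (x.natAbs : ℝ) := by
    rw [Nat.cast_natAbs]; push_cast; rfl
  have hy : |(y:ℝ)| = (y.natAbs : ℝ) := by
    rw [Nat.cast_natAbs]; push_cast; rfl
  have b4 : |(x:ℝ) * (u p.b - p.apx L e p.b) + y * (μ p.b / p.b - p.b * p.dapx L e p.b)| ≤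
      x.natAbs * (w / p.C.U) + y.natAbs * (3 / 2 * (w / p.C.U)) := by
    refine (abs_add_le _ _).trans ?_
    rw [abs_mul, abs_mul, hx, hy]
    gcongr
  have e3 : (x:ℝ) * u p.b + y * (μ p.b / p.b) - (c0 + c1 * e) / (p.H * p.C.U) =
      ((x:ℝ) * p.apx L e p.b + y * (p.b * p.dapx L e p.b) - (c0 + c1 * e) / (p.H * p.C.U)) +
      ((x:ℝ) * (u p.b - p.apx L e p.b) + y * (μ p.b / p.b - p.b * p.dapx L e p.b)) := by ring
  rw [e3]
  refine ((abs_add_le _ _).trans (add_le_add b1 b4)).trans ?_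
  apply le_of_eq
  unfold lce
  push_cast
  field_simp

/-- consequences of the bound for one sign -/
lemma lc_pos {p : Patch} (hg : p.Geo) {L w : ℕ} {x y c0 c1 : ℤ} (hb : lcb p x y c0 c1 = true)
    {e : ℝ} (he : |e| ≤ 1) {u μ : ℝ → ℝ} (h0 : p.err L e u μ p.b ≤ (w / p.C.U) ^ 2)
    (h : (lce p L w x y c0 c1 : ℤ) + 2 * |c1| < 2 * c0) :
    0 < (x:ℝ) * u p.b + y * (μ p.b / p.b) := by
  have hU := p.C.U_pos
  have hH := hg.H
  have h1 := (abs_le.1 (lc_bound hg hb he h0)).1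
  have h2 : (lce p L w x y c0 c1 : ℝ) + 2 * |(c1:ℝ)| < 2 * c0 := by exact_mod_cast h
  have h3 : -|(c1:ℝ)| ≤ c1 * e := by
    have : |(c1:ℝ) * e| ≤ |(c1:ℝ)| := by
      rw [abs_mul]; exact mul_le_of_le_one_right (abs_nonneg _) he
    linarith [(abs_le.1 this).1]
  have h4 : (c0 + c1 * e) / (p.H * p.C.U) - lce p L w x y c0 c1 / (2 * (p.H * p.C.U)) =
      (2 * (c0 + c1 * e) - lce p L w x y c0 c1) / (2 * (p.H * p.C.U)) := by
    field_simp
  have h5 : 0 < (2 * (c0 + c1 * e) - lce p L w x y c0 c1) / (2 * (p.H * p.C.U)) := by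
    apply div_pos (by linarith) (by positivity)
  linarith

/-- conditions at the end of the chain -/
structure EndOk (E : EndD) (p : Patch) : Prop where
  ba : lcb p 1 0 E.a0 E.a1 = true
  bb : lcb p 2 3 E.b0 E.b1 = true
  bd : lcb p 1 0 E.d0 E.d1 = true
  be : lcb p 3 20 E.e0 E.e1 = true
  bf : lcb p 1 (-10) E.f0 E.f1 = true
  bg : lcb p 1 1 E.g0 E.g1 = true
  bh : lcb p 19 20 E.h0 E.h1 = true
  V0 : (lce p p.P p.mm 1 0 E.a0 E.a1 : ℤ) + 2 * |E.a1| < 2 * E.a0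
  V1 : 20 * E.X p ≤ p.H * 2 ^ p.C.k
  z : (lce p p.P p.mm 2 3 E.b0 E.b1 : ℤ) + 2 * |E.b1| + 2 * E.b0 ≤ 0
  w : 1000 * ((p.A + p.H) * (p.A + p.H)) * (E.X p ^ 3 * (p.H * 2 ^ p.C.k) ^ 3 + E.X p ^ 6) ≤
       E.un * (p.D * p.D) * (p.H * 2 ^ p.C.k) ^ 6
  u0 : (lce p p.Q p.ww 1 0 E.d0 E.d1 : ℤ) + 2 * |E.d1| < 2 * E.d0
  u1 : (lce p p.Q p.ww 3 20 E.e0 E.e1 : ℤ) + 2 * |E.e1| < 2 * E.e0
  u2 : (lce p p.Q p.ww 1 (-10) E.f0 E.f1 : ℤ) + 2 * |E.f1| < 2 * E.f0
  zl : (lce p p.P p.mm 1 1 E.g0 E.g1 : ℤ) + 2 * (E.g0 - E.g1) < 0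
  zr : (lce p p.P p.mm 19 20 E.h0 E.h1 : ℤ) < 2 * (E.h0 + E.h1)

lemma endOk_iff {E : EndD} {p : Patch} (h : endOk E p = true) : EndOk E p := by
  simp only [endOk, Bool.and_eq_true, decide_eq_true_eq] at h
  obtain ⟨⟨⟨h1, h2, h3⟩, h4, h5, h6, h7⟩, ⟨⟨h8, h9⟩, h10, h11⟩, ⟨h12, h13⟩, h14, h15, h16⟩ := h
  exact ⟨h1, h2, h3, h4, h5, h6, h7, h8, h9, h10, h11, h12, h13, h14, h15, h16⟩

section corr
variable {F : First} {p : Patch} {l : List Patch} {n m : ℕ} {E : EndD}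

/-- the window around a critical initial value -/
theorem corr (hF : okF 0 F p = true) (h : Chn 0 (endOk E) p l) (hc : cov F n m = true)
    (hun : (E.un:ℝ) / 1000 ≤ 0.029) :
    ∃ a₀ ∈ Ioo F.wl F.wr, ¬ Crosses a₀ ∧ (∀ a ∈ Ico F.wl a₀, LocR a) ∧
      ∀ a ∈ Ioc a₀ F.wr, ∃ t₂, lastB p l ≤ t₂ ∧
        (∀ s ∈ Icc (lastB p l) t₂, 0 < V 1 a s ∧ 0 ≤ V 1 a s + M 1 a s / s ∧
          3 * (V 1 a s + M 1 a s / s) ≤ V 1 a s ∧
          s ^ 2 * (V 1 a s ^ 3 + V 1 a s ^ 6) ≤ (E.un:ℝ) / 1000) ∧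
        3 * (V 1 a t₂ + M 1 a t₂ / t₂) = V 1 a t₂ ∧
        ∃ τ' > 0, ∀ G u μ, Lin 1 (V 1 a) t₂ τ' G u μ →
          0 < u t₂ ∧ 0.85 * u t₂ < u t₂ + μ t₂ / t₂ ∧ u t₂ + μ t₂ / t₂ < 1.1 * u t₂ := by
  have hv := okF_V hF h
  have hw := okF_W hF h
  have hE := endOk_iff h.last
  have hlm := lastP_mem p l
  have hg := (Patch.of_ckV (h.chV.ck _ hlm)).1
  have hlb : lastB p l = (lastP p l).b := lastB_eq p l
  have hb : (lastP p l).b ∈ Icc (lastP p l).a (lastP p l).b := ⟨hg.ab.le, le_rfl⟩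
  have hU := (lastP p l).C.U_pos
  have hH := hg.H
  have hD := hg.D
  have hHU : (0:ℝ) < (lastP p l).H * (lastP p l).C.U := by positivity
  have ht : 0 < lastB p l := hv.b_pos.trans hv.last_gt
  -- errors
  have herr : ∀ e : ℝ, |e| ≤ 1 → (lastP p l).err (lastP p l).P e (V 1 (F.ini e)) (M 1 (F.ini e))
      (lastP p l).b ≤ ((lastP p l).mm / (lastP p l).C.U) ^ 2 := by
    intro e he
    have := (hv.main he).2 _ hlm _ hb
    rw [cov_c hc] at this
    exact this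
  have herw : ∀ e : ℝ, |e| ≤ 1 → ∀ G u μ, Lin 1 (V 1 (F.ini e)) (lastB p l) tau G u μ →
      (lastP p l).err (lastP p l).Q e u μ (lastP p l).b ≤
        ((lastP p l).ww / (lastP p l).C.U) ^ 2 := by
    intro e he G u μ hl
    refine (hv.mainW hw he (G := G) (u := u) (μ := μ) ?_).2 _ hlm _ hb
    rw [cov_c hc]
    exact hl
  have hVpos : ∀ e : ℝ, |e| ≤ 1 → 0 < V 1 (F.ini e) (lastB p l) := by
    intro e he
    have := lc_pos hg hE.ba he (herr e he) hE.V0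
    rw [hlb]
    simpa using this
  have hVX : ∀ e : ℝ, |e| ≤ 1 → V 1 (F.ini e) (lastB p l) ≤
      E.X (lastP p l) / ((lastP p l).H * (lastP p l).C.U) := by
    intro e he
    have h1 := (abs_le.1 (lc_bound hg hE.ba he (herr e he))).2
    have h3 : |(E.a1:ℝ) * e| ≤ |(E.a1:ℝ)| := by
      rw [abs_mul]; exact mul_le_of_le_one_right (abs_nonneg _) he
    have h3' := (abs_le.1 h3).2
    have hx : |(E.a0:ℝ)| = (E.a0.natAbs : ℝ) := by
      rw [Nat.cast_natAbs]; push_cast; rfl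
    have hy : |(E.a1:ℝ)| = (E.a1.natAbs : ℝ) := by
      rw [Nat.cast_natAbs]; push_cast; rfl
    have h4 : (lce (lastP p l) (lastP p l).P (lastP p l).mm 1 0 E.a0 E.a1 : ℝ) / 2 ≤
        (((lce (lastP p l) (lastP p l).P (lastP p l).mm 1 0 E.a0 E.a1 + 1) / 2 : ℕ) : ℝ) := by
      have : lce (lastP p l) (lastP p l).P (lastP p l).mm 1 0 E.a0 E.a1 ≤
          2 * ((lce (lastP p l) (lastP p l).P (lastP p l).mm 1 0 E.a0 E.a1 + 1) / 2) := by omega
      have h5 : (lce (lastP p l) (lastP p l).P (lastP p l).mm 1 0 E.a0 E.a1 : ℝ) ≤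
          2 * (((lce (lastP p l) (lastP p l).P (lastP p l).mm 1 0 E.a0 E.a1 + 1) / 2 : ℕ) : ℝ) := by
        exact_mod_cast this
      linarith
    have h6 := le_abs_self (E.a0:ℝ)
    rw [hlb, le_div_iff₀ hHU]
    have h7 : V 1 (F.ini e) (lastP p l).b ≤ (E.a0 + E.a1 * e) /
        ((lastP p l).H * (lastP p l).C.U) +
        lce (lastP p l) (lastP p l).P (lastP p l).mm 1 0 E.a0 E.a1 /
          (2 * ((lastP p l).H * (lastP p l).C.U)) := by
      have e0 : ((1:ℤ):ℝ) = 1 := by norm_num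
      have e1 : ((0:ℤ):ℝ) = 0 := by norm_num
      rw [e0, e1, one_mul, zero_mul, add_zero] at h1
      linarith
    have h8 : (E.a0 + E.a1 * e) / ((lastP p l).H * (lastP p l).C.U) +
        lce (lastP p l) (lastP p l).P (lastP p l).mm 1 0 E.a0 E.a1 /
          (2 * ((lastP p l).H * (lastP p l).C.U)) =
        ((E.a0 + E.a1 * e) + lce (lastP p l) (lastP p l).P (lastP p l).mm 1 0 E.a0 E.a1 / 2) /
          ((lastP p l).H * (lastP p l).C.U) := by
      field_simp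
    rw [h8, le_div_iff₀ hHU] at h7
    unfold EndD.X
    push_cast at h4 ⊢
    rw [← hx, ← hy]
    linarith
  have hX : (E.X (lastP p l) : ℝ) / ((lastP p l).H * (lastP p l).C.U) ≤ 1 / 20 := by
    have h1 : ((20 * E.X (lastP p l) : ℕ) : ℝ) ≤ (((lastP p l).H * 2 ^ (lastP p l).C.k : ℕ) : ℝ) := by
      exact_mod_cast hE.V1
    push_cast at h1
    rw [div_le_div_iff₀ hHU (by norm_num)]
    unfold Cfg.U
    linarith
  have hun' : (E.un:ℝ) / 1000 ≤ 0.029 := hun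
  refine H54.corridor (τ := tau) (wl_pos hc) (wl_lt_wr hc) (wr_lt hc) ht hun tau_pos ?_ ?_ ?_ ?_ ?_ ?_
  · intro a ha
    obtain ⟨e, he, rfl⟩ := exists_e hc ha
    exact ⟨hVpos e he, (hVX e he).trans hX⟩
  · intro a ha
    obtain ⟨e, he, rfl⟩ := exists_e hc ha
    have h1 := (abs_le.1 (lc_bound hg hE.bb he (herr e he))).2
    have h2 : (lce (lastP p l) (lastP p l).P (lastP p l).mm 2 3 E.b0 E.b1 : ℝ) + 2 * |(E.b1:ℝ)| +
        2 * E.b0 ≤ 0 := by exact_mod_cast hE.z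
    have h3 : |(E.b1:ℝ) * e| ≤ |(E.b1:ℝ)| := by
      rw [abs_mul]; exact mul_le_of_le_one_right (abs_nonneg _) he
    have h3' := (abs_le.1 h3).2
    have h4 : (E.b0 + E.b1 * e) / ((lastP p l).H * (lastP p l).C.U) +
        lce (lastP p l) (lastP p l).P (lastP p l).mm 2 3 E.b0 E.b1 /
          (2 * ((lastP p l).H * (lastP p l).C.U)) =
        (2 * (E.b0 + E.b1 * e) + lce (lastP p l) (lastP p l).P (lastP p l).mm 2 3 E.b0 E.b1) /
          (2 * ((lastP p l).H * (lastP p l).C.U)) := by field_simp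
    have h5 : (2 * (E.b0 + E.b1 * e) + lce (lastP p l) (lastP p l).P (lastP p l).mm 2 3 E.b0 E.b1) /
          (2 * ((lastP p l).H * (lastP p l).C.U)) ≤ 0 := by
      apply div_nonpos_of_nonpos_of_nonneg (by linarith) (by positivity)
    rw [hlb]
    push_cast at h1
    linarith
  · intro a ha
    obtain ⟨e, he, rfl⟩ := exists_e hc ha
    have h1 := hVX e he
    have h0 := hVpos e he
    have hb2 : (lastP p l).b = ((lastP p l).A + (lastP p l).H) / (lastP p l).D := rfl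
    have h2 : ((1000 * (((lastP p l).A + (lastP p l).H) * ((lastP p l).A + (lastP p l).H)) *
        (E.X (lastP p l) ^ 3 * ((lastP p l).H * 2 ^ (lastP p l).C.k) ^ 3 + E.X (lastP p l) ^ 6) : ℕ)
          : ℝ) ≤ ((E.un * ((lastP p l).D * (lastP p l).D) *
            ((lastP p l).H * 2 ^ (lastP p l).C.k) ^ 6 : ℕ) : ℝ) := by exact_mod_cast hE.w
    push_cast at h2
    have hUe : (2:ℝ) ^ (lastP p l).C.k = (lastP p l).C.U := rfl
    rw [hUe] at h2
    calc lastB p l ^ 2 * (V 1 (F.ini e) (lastB p l) ^ 3 + V 1 (F.ini e) (lastB p l) ^ 6) ≤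
        lastB p l ^ 2 * ((E.X (lastP p l) / ((lastP p l).H * (lastP p l).C.U)) ^ 3 +
          (E.X (lastP p l) / ((lastP p l).H * (lastP p l).C.U)) ^ 6) := by gcongr
      _ = (1000 * (((lastP p l).A + (lastP p l).H) * ((lastP p l).A + (lastP p l).H)) *
        (E.X (lastP p l) ^ 3 * ((lastP p l).H * (lastP p l).C.U) ^ 3 + E.X (lastP p l) ^ 6)) /
          (1000 * ((lastP p l).D * (lastP p l).D) * ((lastP p l).H * (lastP p l).C.U) ^ 6) := by
        rw [hlb, hb2]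
        field_simp
      _ ≤ (E.un:ℝ) / 1000 := by
        rw [div_le_div_iff₀ (by positivity) (by norm_num)]
        calc _ ≤ ((E.un:ℝ) * ((lastP p l).D * (lastP p l).D) *
            ((lastP p l).H * (lastP p l).C.U) ^ 6) * 1000 := by gcongr
          _ = _ := by ring
  · intro a ha
    obtain ⟨e, he, rfl⟩ := exists_e hc ha
    intro G u μ hl
    have k0 := lc_pos hg hE.bd he (herw e he G u μ hl) hE.u0
    have k1 := lc_pos hg hE.be he (herw e he G u μ hl) hE.u1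
    have k2 := lc_pos hg hE.bf he (herw e he G u μ hl) hE.u2
    rw [hlb]
    push_cast at k0 k1 k2
    refine ⟨by linarith, ?_, ?_⟩
    · norm_num
      linarith
    · norm_num
      linarith
  · have h1 := (abs_le.1 (lc_bound hg hE.bg (e := -1) (by norm_num) (herr (-1) (by norm_num)))).2
    have h2 : (lce (lastP p l) (lastP p l).P (lastP p l).mm 1 1 E.g0 E.g1 : ℝ) +
        2 * (E.g0 - E.g1) < 0 := by exact_mod_cast hE.zl
    have h4 : (E.g0 + E.g1 * (-1)) / ((lastP p l).H * (lastP p l).C.U) +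
        lce (lastP p l) (lastP p l).P (lastP p l).mm 1 1 E.g0 E.g1 /
          (2 * ((lastP p l).H * (lastP p l).C.U)) =
        (2 * (E.g0 - E.g1) + lce (lastP p l) (lastP p l).P (lastP p l).mm 1 1 E.g0 E.g1) /
          (2 * ((lastP p l).H * (lastP p l).C.U)) := by
      field_simp
      ring
    have h5 : (2 * (E.g0 - E.g1) + lce (lastP p l) (lastP p l).P (lastP p l).mm 1 1 E.g0 E.g1) /
          (2 * ((lastP p l).H * (lastP p l).C.U)) < 0 := by
      apply div_neg_of_neg_of_pos (by linarith) (by positivity)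
    rw [hlb]
    show V 1 (F.ini (-1)) _ + M 1 (F.ini (-1)) _ / _ < 0
    push_cast at h1
    linarith
  · have h1 := (abs_le.1 (lc_bound hg hE.bh (e := 1) (by norm_num) (herr 1 (by norm_num)))).1
    have h2 : (lce (lastP p l) (lastP p l).P (lastP p l).mm 19 20 E.h0 E.h1 : ℝ) <
        2 * (E.h0 + E.h1) := by exact_mod_cast hE.zr
    have h4 : (E.h0 + E.h1 * 1) / ((lastP p l).H * (lastP p l).C.U) -
        lce (lastP p l) (lastP p l).P (lastP p l).mm 19 20 E.h0 E.h1 /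
          (2 * ((lastP p l).H * (lastP p l).C.U)) =
        (2 * (E.h0 + E.h1) - lce (lastP p l) (lastP p l).P (lastP p l).mm 19 20 E.h0 E.h1) /
          (2 * ((lastP p l).H * (lastP p l).C.U)) := by
      field_simp
    have h5 : 0 < (2 * (E.h0 + E.h1) - lce (lastP p l) (lastP p l).P (lastP p l).mm 19 20 E.h0 E.h1) /
          (2 * ((lastP p l).H * (lastP p l).C.U)) := by
      apply div_pos (by linarith) (by positivity)
    rw [hlb]
    show 0.05 * V 1 (F.ini 1) _ < V 1 (F.ini 1) _ + M 1 (F.ini 1) _ / _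
    push_cast at h1
    norm_num
    linarith

/-- the window around the first critical value -/
theorem corrL (hF : okF 0 F p = true) (h : Chn 0 (endOk E) p l) (hc : cov F n m = true)
    (hun : E.un ≤ 3) (hlb : 1000 ≤ lastB p l) {NE τE : ℝ} (hNE : 1 < NE) (hτE : 0 < τE)
    (hE : HE NE τE) :
    ∃ a₀ ∈ Ioo F.wl F.wr, ¬ Crosses a₀ ∧ (∀ a ∈ Ico F.wl a₀, LocR a) ∧
      ∀ a ∈ Ioc a₀ F.wr, LocL a := by
  have hun' : (E.un:ℝ) ≤ 3 := by exact_mod_cast hun
  obtain ⟨a₀, h1, h2, h3, h4⟩ := corr hF h hc (by norm_num; linarith)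
  refine ⟨a₀, h1, h2, h3, fun a ha => ?_⟩
  obtain ⟨t₂, ht, h5, h6, τ', hτ', h7⟩ := h4 a ha
  obtain ⟨h8, h9, h10, h11⟩ := h5 t₂ ⟨ht, le_rfl⟩
  refine bounce ((wl_pos hc).trans (h1.1.trans ha.1)) (ha.2.trans_lt (wr_lt hc)) (hlb.trans ht) h8
    (by linarith) (h11.trans (by linarith)) hτ' (fun G u μ hl => ?_) hNE hτE hE
  obtain ⟨h12, h13, h14⟩ := h7 G u μ hl
  norm_num at h13 h14 ⊢
  exact ⟨h12, h13.le, h14.le⟩

/-- the window around the second critical value -/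
theorem corrR (hF : okF 0 F p = true) (h : Chn 0 (endOk E) p l) (hc : cov F n m = true)
    (hun : E.un ≤ 29) :
    ∃ a₀ ∈ Ioo F.wl F.wr, ¬ Crosses a₀ ∧ (∀ a ∈ Ico F.wl a₀, LocR a) := by
  have hun' : (E.un:ℝ) ≤ 29 := by exact_mod_cast hun
  obtain ⟨a₀, h1, h2, h3, -⟩ := corr hF h hc (by norm_num; linarith)
  exact ⟨a₀, h1, h2, h3⟩

end corr

end LinNi
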