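import Pool.Agent.Lib.MP_0170ef_an.Basic

/-!
Global existence and uniqueness for `z'' = -t F(z/t)`, `z 0 = 0`, `z' 0 = a`.
-/

set_option autoImplicit false

open Set
open scoped NNReal

namespace LinNi

/-- auxiliary bounded vector field (variation of constants) -/
noncomputable def W (c : ℝ) (t : ℝ) (x : ℝ × ℝ) : ℝ × ℝ :=
  (t * g c t (x.1 + t * x.2), - g c t (x.1 + t * x.2))

/-- the vector field for `(z, z')` -/
noncomputable def G (c : ℝ) (t : ℝ) (x : ℝ × ℝ) : ℝ × ℝ := (x.2, - g c t x.1)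

lemma lipschitz_G {c : ℝ} (hc : c ∈ Icc (0:ℝ) 1) (t : ℝ) : LipschitzWith 480 (G c t) := by
  refine LipschitzWith.of_dist_le_mul (fun x y => ?_)
  rw [Prod.dist_eq, Prod.dist_eq]
  simp only [G, Real.dist_eq]
  have h1 := abs_g_sub_le hc t x.1 y.1
  have h2 : |(-g c t x.1) - (-g c t y.1)| = |g c t x.1 - g c t y.1| := by
    rw [← abs_neg]; congr 1; ring
  rw [h2]
  have e : ((480 : ℝ≥0) : ℝ) = 480 := by norm_num
  rw [e]
  apply max_le
  · have := le_max_right |x.1 - y.1| |x.2 - y.2|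
    have h0 := abs_nonneg (x.2 - y.2)
    linarith
  · have := le_max_left |x.1 - y.1| |x.2 - y.2|
    linarith

lemma exists_on {c : ℝ} (hc : c ∈ Icc (0:ℝ) 1) (a : ℝ) {N : ℝ} (hN : 1 ≤ N) :
    ∃ z p : ℝ → ℝ, z 0 = 0 ∧ p 0 = a ∧ ∀ t ∈ Ioo (-N) N, HasDerivAt z (p t) t ∧
      HasDerivAt p (-(g c t (z t))) t := by
  have hN0 : 0 ≤ N := by linarith
  let L : ℝ≥0 := ⟨144 * N ^ 2, by positivity⟩
  let A : ℝ≥0 := ⟨144 * N ^ 2 * N, by positivity⟩
  let K : ℝ≥0 := ⟨480 * (1 + N) * N, by positivity⟩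
  have h0 : (0:ℝ) ∈ Icc (-N) N := ⟨by linarith, hN0⟩
  have hP : IsPicardLindelof (W c) (tmin := -N) (tmax := N) ⟨0, h0⟩ ((0, a) : ℝ × ℝ) A 0 L K := by
    constructor
    · intro t ht
      apply LipschitzWith.lipschitzOnWith
      refine LipschitzWith.of_dist_le_mul (fun x y => ?_)
      rw [Prod.dist_eq, Prod.dist_eq]
      simp only [W, Real.dist_eq]
      have ht' : |t| ≤ N := abs_le.2 ht
      have h1 := abs_g_sub_le hc t (x.1 + t * x.2) (y.1 + t * y.2)
      have h3 : |x.1 + t * x.2 - (y.1 + t * y.2)| ≤ (1 + N) * max |x.1 - y.1| |x.2 - y.2| := by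
        have : x.1 + t * x.2 - (y.1 + t * y.2) = (x.1 - y.1) + t * (x.2 - y.2) := by ring
        rw [this]
        refine (abs_add_le _ _).trans ?_
        rw [abs_mul]
        have a1 := le_max_left |x.1 - y.1| |x.2 - y.2|
        have a2 := le_max_right |x.1 - y.1| |x.2 - y.2|
        have a3 : |t| * |x.2 - y.2| ≤ N * max |x.1 - y.1| |x.2 - y.2| := by
          apply mul_le_mul ht' a2 (abs_nonneg _) hN0
        linarith
      have h4 : |g c t (x.1 + t * x.2) - g c t (y.1 + t * y.2)| ≤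
          480 * (1 + N) * max |x.1 - y.1| |x.2 - y.2| := by linarith
      have h5 : 0 ≤ |g c t (x.1 + t * x.2) - g c t (y.1 + t * y.2)| := abs_nonneg _
      have eK : (K : ℝ) = 480 * (1 + N) * N := rfl
      rw [eK]
      apply max_le
      · rw [← mul_sub, abs_mul]
        calc |t| * |g c t (x.1 + t * x.2) - g c t (y.1 + t * y.2)|
            ≤ N * (480 * (1 + N) * max |x.1 - y.1| |x.2 - y.2|) := by gcongr
          _ = 480 * (1 + N) * N * max |x.1 - y.1| |x.2 - y.2| := by ring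
      · have h2 : |(-g c t (x.1 + t * x.2)) - (-g c t (y.1 + t * y.2))| =
            |g c t (x.1 + t * x.2) - g c t (y.1 + t * y.2)| := by
          rw [← abs_neg]; congr 1; ring
        rw [h2]
        refine h4.trans ?_
        have h6 : 0 ≤ max |x.1 - y.1| |x.2 - y.2| := le_max_of_le_left (abs_nonneg _)
        nlinarith
    · intro x _
      apply Continuous.continuousOn
      have h1 : Continuous (fun t => g c t (x.1 + t * x.2)) :=
        continuous_g_left hc (fun t => x.1 + t * x.2) (by fun_prop)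
      unfold W
      exact (continuous_id.mul h1).prodMk h1.neg
    · intro t ht x _
      have ht' : |t| ≤ N := abs_le.2 ht
      have h1 := abs_g_le hc t (x.1 + t * x.2)
      have h2 : |g c t (x.1 + t * x.2)| ≤ 144 * N := by linarith
      have eL : (L : ℝ) = 144 * N ^ 2 := rfl
      rw [eL, Prod.norm_def]
      simp only [W, Real.norm_eq_abs]
      apply max_le
      · rw [abs_mul]
        calc |t| * |g c t (x.1 + t * x.2)| ≤ N * (144 * N) := by gcongr
          _ = 144 * N ^ 2 := by ring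
      · rw [abs_neg]
        nlinarith
    · have e1 : (L : ℝ) = 144 * N ^ 2 := rfl
      have e2 : (A : ℝ) = 144 * N ^ 2 * N := rfl
      rw [e1, e2]
      have e3 : max (N - 0) (0 - -N) = N := by
        rw [sub_zero, zero_sub, neg_neg, max_self]
      show 144 * N ^ 2 * max (N - 0) (0 - -N) ≤ 144 * N ^ 2 * N - ((0:ℝ≥0) : ℝ)
      rw [e3, NNReal.coe_zero, sub_zero]
  obtain ⟨α, hα0, hα⟩ := hP.exists_eq_forall_mem_Icc_hasDerivWithinAt₀
  refine ⟨fun t => (α t).1 + t * (α t).2, fun t => (α t).2, ?_, ?_, ?_⟩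
  · simp only at hα0
    simp [hα0]
  · simp only at hα0
    simp [hα0]
  · intro t ht
    have h1 := (hα t (Ioo_subset_Icc_self ht)).hasDerivAt (Icc_mem_nhds ht.1 ht.2)
    have h2 : HasDerivAt (fun t => (α t).1) (t * g c t ((α t).1 + t * (α t).2)) t := by
      have := h1.hasFDerivAt.fst.hasDerivAt
      simpa [W] using this
    have h3 : HasDerivAt (fun t => (α t).2) (- g c t ((α t).1 + t * (α t).2)) t := by
      have := h1.hasFDerivAt.snd.hasDerivAt
      simpa [W] using this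
    refine ⟨?_, h3⟩
    have h4 := h2.fun_add ((hasDerivAt_id' t).fun_mul h3)
    exact h4.congr_deriv (by ring)

/-- uniqueness on a symmetric interval -/
lemma unique_on {c : ℝ} (hc : c ∈ Icc (0:ℝ) 1) {N : ℝ} (hN : 0 < N) {z p z' p' : ℝ → ℝ}
    (h : ∀ t ∈ Ioo (-N) N, HasDerivAt z (p t) t ∧ HasDerivAt p (-(g c t (z t))) t)
    (h' : ∀ t ∈ Ioo (-N) N, HasDerivAt z' (p' t) t ∧ HasDerivAt p' (-(g c t (z' t))) t)
    (h0 : z 0 = z' 0) (h1 : p 0 = p' 0) : ∀ t ∈ Ioo (-N) N, z t = z' t ∧ p t = p' t := by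
  have key : EqOn (fun t => (z t, p t)) (fun t => (z' t, p' t)) (Ioo (-N) N) := by
    apply ODE_solution_unique_of_mem_Ioo (v := G c) (K := 480) (s := fun _ => univ) (t₀ := 0)
    · exact fun t _ => (lipschitz_G hc t).lipschitzOnWith
    · exact ⟨by linarith, hN⟩
    · intro t ht
      exact ⟨(h t ht).1.prodMk (h t ht).2, trivial⟩
    · intro t ht
      exact ⟨(h' t ht).1.prodMk (h' t ht).2, trivial⟩
    · simp [h0, h1]
  intro t ht
  have := key ht
  simpa using this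

/-- global solution -/
theorem exists_global {c : ℝ} (hc : c ∈ Icc (0:ℝ) 1) (a : ℝ) :
    ∃ z p : ℝ → ℝ, z 0 = 0 ∧ p 0 = a ∧ ∀ t, HasDerivAt z (p t) t ∧
      HasDerivAt p (-(g c t (z t))) t := by
  have hex : ∀ n : ℕ, ∃ z p : ℝ → ℝ, z 0 = 0 ∧ p 0 = a ∧ ∀ t ∈ Ioo (-((n:ℝ) + 1)) ((n:ℝ) + 1),
      HasDerivAt z (p t) t ∧ HasDerivAt p (-(g c t (z t))) t := by
    intro n
    exact exists_on hc a (by linarith [Nat.cast_nonneg (α := ℝ) n])
  choose Z P hZ0 hP0 hZP using hex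
  have hagree : ∀ m n : ℕ, m ≤ n → ∀ t ∈ Ioo (-((m:ℝ) + 1)) ((m:ℝ) + 1),
      Z m t = Z n t ∧ P m t = P n t := by
    intro m n hmn
    have hmn' : (m:ℝ) ≤ n := by exact_mod_cast hmn
    refine unique_on hc (by linarith [Nat.cast_nonneg (α := ℝ) m]) (hZP m) ?_ ?_ ?_
    · intro t ht
      exact hZP n t ⟨by linarith [ht.1], by linarith [ht.2]⟩
    · rw [hZ0, hZ0]
    · rw [hP0, hP0]
  let ν : ℝ → ℕ := fun t => ⌈|t|⌉₊
  have hν : ∀ t : ℝ, |t| < (ν t : ℝ) + 1 := fun t => by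
    have := Nat.le_ceil |t|
    simp only [ν]; linarith
  have hloc : ∀ t : ℝ, ∃ n : ℕ, t ∈ Ioo (-((n:ℝ) + 1)) ((n:ℝ) + 1) ∧
      (∀ᶠ s in nhds t, Z (ν s) s = Z n s) ∧ (∀ᶠ s in nhds t, P (ν s) s = P n s) ∧
      Z (ν t) t = Z n t ∧ P (ν t) t = P n t := by
    intro t
    have key : ∀ s : ℝ, |s| < (ν t : ℝ) + 1 → Z (ν s) s = Z (ν t + 1) s ∧ P (ν s) s = P (ν t + 1) s := by
      intro s hs
      have h1 : ν s ≤ ν t + 1 := by
        simp only [ν]
        apply Nat.ceil_le.2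
        push_cast
        exact hs.le
      exact hagree _ _ h1 s (abs_lt.1 (hν s))
    have hev : ∀ᶠ s in nhds t, |s| < (ν t : ℝ) + 1 := by
      have : Continuous (fun s : ℝ => |s|) := continuous_abs
      exact (this.tendsto t).eventually (gt_mem_nhds (hν t))
    refine ⟨ν t + 1, ?_, ?_, ?_, (key t (hν t)).1, (key t (hν t)).2⟩
    · have := abs_lt.1 (hν t)
      push_cast
      exact ⟨by linarith [this.1], by linarith [this.2]⟩
    · filter_upwards [hev] with s hs using (key s hs).1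
    · filter_upwards [hev] with s hs using (key s hs).2
  refine ⟨fun t => Z (ν t) t, fun t => P (ν t) t, hZ0 _, hP0 _, fun t => ?_⟩
  obtain ⟨n, hn, h1, h2, h3, h4⟩ := hloc t
  obtain ⟨d1, d2⟩ := hZP n t hn
  constructor
  · show HasDerivAt (fun t => Z (ν t) t) (P (ν t) t) t
    rw [h4]
    exact d1.congr_of_eventuallyEq h1
  · show HasDerivAt (fun t => P (ν t) t) (-g c t (Z (ν t) t)) t
    rw [h3]
    exact d2.congr_of_eventuallyEq h2

/-- Lipschitz dependence on the initial slope -/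
theorem lipschitz_dep {c : ℝ} (hc : c ∈ Icc (0:ℝ) 1) {z p z' p' : ℝ → ℝ} {N : ℝ}
    (h : ∀ t ∈ Icc 0 N, HasDerivAt z (p t) t ∧ HasDerivAt p (-(g c t (z t))) t)
    (h' : ∀ t ∈ Icc 0 N, HasDerivAt z' (p' t) t ∧ HasDerivAt p' (-(g c t (z' t))) t)
    (h0 : z 0 = z' 0) :
    ∀ t ∈ Icc 0 N, |z t - z' t| ≤ |p 0 - p' 0| * Real.exp (480 * N) ∧
      |p t - p' t| ≤ |p 0 - p' 0| * Real.exp (480 * N) := by
  have key := dist_le_of_trajectories_ODE (v := G c) (K := 480) (f := fun t => (z t, p t))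
    (g := fun t => (z' t, p' t)) (a := 0) (b := N) (δ := |p 0 - p' 0|)
    (fun t => lipschitz_G hc t)
    (fun t ht => ((h t ht).1.prodMk (h t ht).2).continuousAt.continuousWithinAt)
    (fun t ht => ((h t (Ico_subset_Icc_self ht)).1.prodMk
      (h t (Ico_subset_Icc_self ht)).2).hasDerivWithinAt)
    (fun t ht => ((h' t ht).1.prodMk (h' t ht).2).continuousAt.continuousWithinAt)
    (fun t ht => ((h' t (Ico_subset_Icc_self ht)).1.prodMk
      (h' t (Ico_subset_Icc_self ht)).2).hasDerivWithinAt)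
    (by rw [Prod.dist_eq]; simp [h0, Real.dist_eq])
  intro t ht
  have h1 := key t ht
  have e : ((480 : ℝ≥0) : ℝ) = 480 := by norm_num
  rw [Prod.dist_eq, e] at h1
  simp only [Real.dist_eq] at h1
  have h2 : |p 0 - p' 0| * Real.exp (480 * (t - 0)) ≤ |p 0 - p' 0| * Real.exp (480 * N) := by
    gcongr
    linarith [ht.2]
  exact ⟨(le_max_left _ _).trans (h1.trans h2), (le_max_right _ _).trans (h1.trans h2)⟩

end LinNi
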