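import Pool.Agent.Lib.MP_0170ef_an.Horner

/-!
The residual polynomials of an approximate solution, in a commutative ring and in the kernel, and
their norms.
-/

set_option autoImplicit false

open Finset

namespace LinNi

/-- parameters of a chain: `n`, `m` degrees, `2 ^ k` scale, `b`, `h`, `R`, `S` encoding,
`c = (c0 + c1 e) / 2 ^ k` -/
structure Cfg where
  n : ℕ
  m : ℕ
  k : ℕ
  b : ℕ
  h : ℕ
  R : ℕ
  S : ℕ
  c0 : ℕ
  c1 : ℕ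

section generic
variable {A : Type*} [CommRing A] (C : Cfg)

/-- `2 ^ k c` -/
def cc (y : A) : A := (C.c0 : A) + (C.c1 : A) * y

/-- `2 ^ (8 k) f (v / 2 ^ k)` -/
def fE (y v : A) : A := (v * v * (v * v)) * (((2 ^ (4 * C.k) : ℕ) : A) + cc C y * (v * v * v))

/-- `2 ^ (7 k) f' (v / 2 ^ k)` -/
def fpE (y v : A) : A :=
  (v * v * v) * (((4 * 2 ^ (4 * C.k) : ℕ) : A) + ((7 : ℕ) : A) * cc C y * (v * v * v))

/-- `2 ^ (6 k) f'' (v / 2 ^ k) / 2` -/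
def hfE (y v : A) : A :=
  (v * v) * (((6 * 2 ^ (4 * C.k) : ℕ) : A) + ((21 : ℕ) : A) * cc C y * (v * v * v))

/-- residual, multiplied by `D H ^ 2 2 ^ (8 k)` -/
def gE (a h d : ℕ) (x d1 d2 f : A) : A :=
  ((a : A) + (h : A) * x) * (((2 ^ (7 * C.k + 1) * (d * d) : ℕ) : A) * d2 + ((h * h : ℕ) : A) * f) +
    ((2 ^ (7 * C.k + 1) * (h * (d * d)) : ℕ) : A) * d1

/-- residual at the origin, multiplied by `H ^ 2 2 ^ (8 k)` -/
def zE (h d : ℕ) (x p0 p1 p2 f : A) : A :=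
  ((2 ^ (7 * C.k + 1) * (d * d) : ℕ) : A) * (((3 : ℕ) : A) * p0 + ((3 : ℕ) : A) * x * p1 + x * x * p2)
    + ((h * h : ℕ) : A) * f

variable {B : Type*} [CommRing B] (φ : A →+* B)

lemma map_cc (y : A) : φ (cc C y) = cc C (φ y) := by
  simp only [cc, map_add, map_mul, map_natCast]
lemma map_fE (y v : A) : φ (fE C y v) = fE C (φ y) (φ v) := by
  simp only [fE, map_add, map_mul, map_natCast, map_cc]
lemma map_fpE (y v : A) : φ (fpE C y v) = fpE C (φ y) (φ v) := by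
  simp only [fpE, map_add, map_mul, map_natCast, map_cc]
lemma map_hfE (y v : A) : φ (hfE C y v) = hfE C (φ y) (φ v) := by
  simp only [hfE, map_add, map_mul, map_natCast, map_cc]
lemma map_gE (a h d : ℕ) (x d1 d2 f : A) :
    φ (gE C a h d x d1 d2 f) = gE C a h d (φ x) (φ d1) (φ d2) (φ f) := by
  simp only [gE, map_add, map_mul, map_natCast]
lemma map_zE (h d : ℕ) (x p0 p1 p2 f : A) :
    φ (zE C h d x p0 p1 p2 f) = zE C h d (φ x) (φ p0) (φ p1) (φ p2) (φ f) := by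
  simp only [zE, map_add, map_mul, map_natCast]

end generic

/-! ### degree and norm bounds -/

lemma Bnd.nat (c : ℕ) : Bnd ((c : ℕ) : Pol) 0 0 c := by
  have := Bnd.int (c : ℤ)
  simpa using this

/-- a priori bounds -/
def bf (C : Cfg) (B : ℤ) : ℤ := B * B * (B * B) * (2 ^ (4 * C.k) + (C.c0 + C.c1) * (B * B * B))
/-- a priori bounds -/
def bfp (C : Cfg) (B : ℤ) : ℤ := B * B * B * (4 * 2 ^ (4 * C.k) + 7 * (C.c0 + C.c1) * (B * B * B))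
/-- a priori bounds -/
def bhf (C : Cfg) (B : ℤ) : ℤ := B * B * (6 * 2 ^ (4 * C.k) + 21 * (C.c0 + C.c1) * (B * B * B))
/-- a priori bounds -/
def bg (C : Cfg) (a h d : ℕ) (B1 B2 Bf : ℤ) : ℤ :=
  (a + h) * (2 ^ (7 * C.k + 1) * (d * d) * B2 + h * h * Bf) + 2 ^ (7 * C.k + 1) * (h * (d * d)) * B1
/-- a priori bounds -/
def bz (C : Cfg) (h d : ℕ) (B0 B1 B2 Bf : ℤ) : ℤ :=
  2 ^ (7 * C.k + 1) * (d * d) * (3 * B0 + 3 * B1 + B2) + h * h * Bf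

lemma Bnd.cc (C : Cfg) : Bnd (cc C PY) 0 1 (C.c0 + C.c1) := by
  refine ((Bnd.nat C.c0).add ((Bnd.nat C.c1).mul Bnd.Y)).mono (by omega) (by omega) (by simp)

lemma Bnd.fE (C : Cfg) {v : Pol} {n m : ℕ} {B : ℤ} (h : Bnd v n m B) :
    Bnd (fE C PY v) (7 * n) (7 * m + 1) (bf C B) := by
  refine (((h.mul h).mul (h.mul h)).mul
    ((Bnd.nat _).add ((Bnd.cc C).mul ((h.mul h).mul h)))).mono (by omega) (by omega) ?_
  unfold bf; push_cast; rfl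

lemma Bnd.fpE (C : Cfg) {v : Pol} {n m : ℕ} {B : ℤ} (h : Bnd v n m B) :
    Bnd (fpE C PY v) (6 * n) (6 * m + 1) (bfp C B) := by
  refine (((h.mul h).mul h).mul
    ((Bnd.nat _).add (((Bnd.nat 7).mul (Bnd.cc C)).mul ((h.mul h).mul h)))).mono
    (by omega) (by omega) ?_
  unfold bfp; push_cast; rfl

lemma Bnd.hfE (C : Cfg) {v : Pol} {n m : ℕ} {B : ℤ} (h : Bnd v n m B) :
    Bnd (hfE C PY v) (5 * n) (5 * m + 1) (bhf C B) := by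
  refine ((h.mul h).mul
    ((Bnd.nat _).add (((Bnd.nat 21).mul (Bnd.cc C)).mul ((h.mul h).mul h)))).mono
    (by omega) (by omega) ?_
  unfold bhf; push_cast; rfl

lemma Bnd.gE (C : Cfg) (a h d : ℕ) {d1 d2 f : Pol} {n1 m1 n2 m2 nf mf : ℕ} {B1 B2 Bf : ℤ}
    (h1 : Bnd d1 n1 m1 B1) (h2 : Bnd d2 n2 m2 B2) (hf : Bnd f nf mf Bf) {N M : ℕ}
    (hN1 : n1 ≤ N) (hN2 : n2 + 1 ≤ N) (hNf : nf + 1 ≤ N) (hM1 : m1 ≤ M) (hM2 : m2 ≤ M)
    (hMf : mf ≤ M) :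
    Bnd (gE C a h d PX d1 d2 f) N M (bg C a h d B1 B2 Bf) := by
  refine ((((Bnd.nat a).add ((Bnd.nat h).mul Bnd.X)).mul
    (((Bnd.nat _).mul h2).add ((Bnd.nat _).mul hf))).add ((Bnd.nat _).mul h1)).mono
    (by omega) (by omega) ?_
  unfold bg; push_cast; simp

lemma Bnd.zE (C : Cfg) (h d : ℕ) {p0 p1 p2 f : Pol} {n0 m0 n1 m1 n2 m2 nf mf : ℕ}
    {B0 B1 B2 Bf : ℤ} (h0 : Bnd p0 n0 m0 B0)
    (h1 : Bnd p1 n1 m1 B1) (h2 : Bnd p2 n2 m2 B2) (hf : Bnd f nf mf Bf) {N M : ℕ}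
    (hN0 : n0 ≤ N) (hN1 : n1 + 1 ≤ N) (hN2 : n2 + 2 ≤ N) (hNf : nf ≤ N) (hM0 : m0 ≤ M)
    (hM1 : m1 ≤ M) (hM2 : m2 ≤ M) (hMf : mf ≤ M) :
    Bnd (zE C h d PX p0 p1 p2 f) N M (bz C h d B0 B1 B2 Bf) := by
  refine (((Bnd.nat _).mul ((((Bnd.nat 3).mul h0).add (((Bnd.nat 3).mul Bnd.X).mul h1)).add
    ((Bnd.X.mul Bnd.X).mul h2))).add ((Bnd.nat _).mul hf)).mono
    (by omega) (by omega) ?_
  unfold bz; push_cast; simp

/-! ### kernel versions -/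

/-- kernel version of `cc` -/
def kcc (C : Cfg) (y : ℤ) : ℤ := Int.add (Int.ofNat C.c0) (Int.mul (Int.ofNat C.c1) y)
/-- kernel version of `fE` -/
def kfE (C : Cfg) (y v : ℤ) : ℤ :=
  Int.mul (Int.mul (Int.mul v v) (Int.mul v v))
    (Int.add (Int.ofNat (Nat.pow 2 (Nat.mul 4 C.k))) (Int.mul (kcc C y) (Int.mul (Int.mul v v) v)))
/-- kernel version of `fpE` -/
def kfpE (C : Cfg) (y v : ℤ) : ℤ :=
  Int.mul (Int.mul (Int.mul v v) v)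
    (Int.add (Int.ofNat (Nat.mul 4 (Nat.pow 2 (Nat.mul 4 C.k))))
      (Int.mul (Int.mul (Int.ofNat 7) (kcc C y)) (Int.mul (Int.mul v v) v)))
/-- kernel version of `hfE` -/
def khfE (C : Cfg) (y v : ℤ) : ℤ :=
  Int.mul (Int.mul v v)
    (Int.add (Int.ofNat (Nat.mul 6 (Nat.pow 2 (Nat.mul 4 C.k))))
      (Int.mul (Int.mul (Int.ofNat 21) (kcc C y)) (Int.mul (Int.mul v v) v)))
/-- kernel version of `gE` -/
def kgE (C : Cfg) (a h d : ℕ) (x d1 d2 f : ℤ) : ℤ :=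
  Int.add (Int.mul (Int.add (Int.ofNat a) (Int.mul (Int.ofNat h) x))
    (Int.add (Int.mul (Int.ofNat (Nat.mul (Nat.pow 2 (Nat.succ (Nat.mul 7 C.k))) (Nat.mul d d))) d2)
      (Int.mul (Int.ofNat (Nat.mul h h)) f)))
    (Int.mul (Int.ofNat (Nat.mul (Nat.pow 2 (Nat.succ (Nat.mul 7 C.k))) (Nat.mul h (Nat.mul d d)))) d1)
/-- kernel version of `zE` -/
def kzE (C : Cfg) (h d : ℕ) (x p0 p1 p2 f : ℤ) : ℤ :=
  Int.add (Int.mul (Int.ofNat (Nat.mul (Nat.pow 2 (Nat.succ (Nat.mul 7 C.k))) (Nat.mul d d)))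
    (Int.add (Int.add (Int.mul (Int.ofNat 3) p0) (Int.mul (Int.mul (Int.ofNat 3) x) p1))
      (Int.mul (Int.mul x x) p2)))
    (Int.mul (Int.ofNat (Nat.mul h h)) f)

lemma kcc_eq (C : Cfg) (y : ℤ) : kcc C y = cc C y := rfl
lemma kfE_eq (C : Cfg) (y v : ℤ) : kfE C y v = fE C y v := rfl
lemma kfpE_eq (C : Cfg) (y v : ℤ) : kfpE C y v = fpE C y v := rfl
lemma khfE_eq (C : Cfg) (y v : ℤ) : khfE C y v = hfE C y v := rfl
lemma kgE_eq (C : Cfg) (a h d : ℕ) (x d1 d2 f : ℤ) : kgE C a h d x d1 d2 f = gE C a h d x d1 d2 f :=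
  rfl
lemma kzE_eq (C : Cfg) (h d : ℕ) (x p0 p1 p2 f : ℤ) : kzE C h d x p0 p1 p2 f = zE C h d x p0 p1 p2 f :=
  rfl

/-- kernel version of `simd` -/
def ksimd (h n B1 ones N : ℕ) : ℕ :=
  (fun s => Nat.sub (Nat.add (Nat.mul 2 (Nat.mod (Nat.land N (Nat.mul s B1)) B1))
      (Nat.mul (Nat.pow 2 h) n))
    (Nat.add (Nat.mod N B1) (Nat.mul (Nat.pow 2 (Nat.succ h)) (Nat.mod s B1))))
  (Nat.land (Nat.shiftRight N h) ones)

/-- `x` -/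
def kX (C : Cfg) : ℤ := Int.ofNat (Nat.pow 2 (Nat.mul C.b C.S))
/-- `y` -/
def kY (C : Cfg) : ℕ := Nat.pow 2 C.b
/-- number of digits -/
def kN (C : Cfg) : ℕ := Nat.mul C.R C.S
/-- `2 ^ b - 1` -/
def kB (C : Cfg) : ℕ := Nat.sub (Nat.pow 2 C.b) 1
/-- all digits one -/
def kO (C : Cfg) : ℕ := Nat.div (Nat.sub (Nat.pow 2 (Nat.mul C.b (kN C))) 1) (kB C)
/-- `ℓ¹` norm of the polynomial with value `z` -/
def kn (C : Cfg) (z : ℤ) : ℕ :=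
  ksimd C.h (kN C) (kB C) (kO C) (Int.toNat (Int.add z (Int.ofNat (Nat.mul (Nat.pow 2 C.h) (kO C)))))

/-- validity of the encoding -/
def Cfg.Ok (C : Cfg) : Prop := 0 < C.b ∧ C.R * C.S * 2 ^ (C.h + 1) < 2 ^ C.b - 1

theorem kn_eq {C : Cfg} (hC : C.Ok) {p : Pol} {n m : ℕ} {B : ℤ} (hp : Bnd p n m B)
    (hB : B < 2 ^ C.h) (hn : n < C.R) (hm : m < C.S) {z : ℤ}
    (hz : z = ev (kX C) (kY C : ℤ) p) : (kn C z : ℤ) = nrm p := by
  have h1 := simd_ev hp hB hn hm hC.2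
  have e1 : kX C = 2 ^ (C.b * C.S) := by
    unfold kX; simp
  have e2 : (kY C : ℤ) = 2 ^ C.b := by
    unfold kY; simp
  have e3 : kO C = ∑ k ∈ range (C.R * C.S), 2 ^ (C.b * k) := by
    have := enc_ones C.b (C.R * C.S) hC.1
    show (2 ^ (C.b * (C.R * C.S)) - 1) / (2 ^ C.b - 1) = _
    simpa [enc] using this
  have e4 : kn C z = simd C.b C.h (C.R * C.S) (z + 2 ^ C.h * ∑ k ∈ range (C.R * C.S), 2 ^ (C.b * k)).toNat := by
    have e5 : Int.add z (Int.ofNat (Nat.mul (Nat.pow 2 C.h) (kO C))) =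
        z + 2 ^ C.h * ∑ k ∈ range (C.R * C.S), 2 ^ (C.b * k) := by
      show z + ((2 ^ C.h * kO C : ℕ) : ℤ) = _
      rw [e3]
      push_cast
      rfl
    unfold kn
    rw [e5]
    rfl
  rw [e4, hz, e1, e2]
  exact h1

end LinNi
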