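import Pool.Agent.Lib.MP_0170ef_an.PatchW

/-!
Soundness of the verification on the first patch.
-/

set_option autoImplicit false

open Set Filter Topology

namespace LinNi

/-- second variation on `(0, N]`: see `Lin2` -/
lemma Lin2.lin2I {c : ℝ} {v : ℝ → ℝ} {N τ a : ℝ} {g u₁ u₂ G u μ : ℝ → ℝ}
    (h : Lin2 c v N τ g u₁ u₂ G u μ) (ha : 0 < a) : Lin2I c v a N τ g u₁ u₂ G u μ :=
  ⟨fun s hs => h.du s ⟨ha.trans_le hs.1, hs.2⟩, fun s hs => h.dμ s ⟨ha.trans_le hs.1, hs.2⟩,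
    fun s hs => h.hG s ⟨ha.trans_le hs.1, hs.2⟩, fun s hs => h.hg s ⟨ha.trans_le hs.1, hs.2⟩⟩

namespace First
variable (p : First)

/-- right end -/
noncomputable def b : ℝ := (p.H:ℝ) / p.D
/-- local variable -/
noncomputable def loc (s : ℝ) : ℝ := p.D * s / p.H
/-- approximate solution -/
noncomputable def apx (α : ℝ) (L : ℕ) (e s : ℝ) : ℝ :=
  (α + p.loc s ^ 2 * hor L p.C.m (p.loc s) e (p.C.n + 1)) / p.C.U
/-- its derivative -/
noncomputable def dapx (L : ℕ) (e s : ℝ) : ℝ :=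
  (2 * p.loc s * hor L p.C.m (p.loc s) e (p.C.n + 1) +
    p.loc s ^ 2 * dhor L p.C.m (p.loc s) e (p.C.n + 1)) * (p.D / p.H) / p.C.U
/-- its second derivative -/
noncomputable def ddapx (L : ℕ) (e s : ℝ) : ℝ :=
  (2 * hor L p.C.m (p.loc s) e (p.C.n + 1) + 4 * p.loc s * dhor L p.C.m (p.loc s) e (p.C.n + 1) +
    p.loc s ^ 2 * (2 * ddhor L p.C.m (p.loc s) e (p.C.n + 1))) * (p.D / p.H) ^ 2 / p.C.U

/-- initial value, scaled -/
noncomputable def alr (e : ℝ) : ℝ := p.a0 + p.a1 * e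

variable {p}

lemma hasDerivAt_loc (s : ℝ) : HasDerivAt p.loc ((p.D:ℝ) / p.H) s := by
  have := ((hasDerivAt_id' s).const_mul (p.D:ℝ)).div_const (p.H:ℝ)
  exact this.congr_deriv (by ring)

lemma hasDerivAt_apx (α : ℝ) (L : ℕ) (e s : ℝ) : HasDerivAt (p.apx α L e) (p.dapx L e s) s := by
  have h1 := hasDerivAt_loc (p := p) s
  have h2 := (hasDerivAt_hor L p.C.m (p.loc s) e (p.C.n + 1)).comp s h1
  refine ((((h1.fun_pow 2).fun_mul h2).const_add α).div_const p.C.U).congr_deriv ?_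
  unfold dapx
  simp only [Function.comp]
  norm_num
  ring

lemma hasDerivAt_dapx (L : ℕ) (e s : ℝ) : HasDerivAt (p.dapx L e) (p.ddapx L e s) s := by
  have h1 := hasDerivAt_loc (p := p) s
  have h2 := (hasDerivAt_hor L p.C.m (p.loc s) e (p.C.n + 1)).comp s h1
  have h3 := (hasDerivAt_dhor L p.C.m (p.loc s) e (p.C.n + 1)).comp s h1
  refine (((((h1.const_mul 2).fun_mul h2).fun_add ((h1.fun_pow 2).fun_mul h3)).mul_const
    ((p.D:ℝ) / p.H)).div_const p.C.U).congr_deriv ?_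
  unfold ddapx
  simp only [Function.comp]
  norm_num
  ring

/-- geometric facts -/
structure Geo (p : First) : Prop where
  hC : p.C.Good
  hH : 0 < p.H
  hm : 0 < p.m
  hD : 0 < p.D
  lo : p.a1 + kn p.C (v0 p.C p.P) + p.m ≤ p.a0
  hi : p.X < 2 * 2 ^ p.C.k
  hR : 7 * p.C.n + 15 < p.C.R

section geo
variable (hg : p.Geo)
include hg

lemma Geo.H : (0:ℝ) < p.H := by exact_mod_cast hg.hH
lemma Geo.D : (0:ℝ) < p.D := by exact_mod_cast hg.hD
lemma Geo.m : (0:ℝ) < p.m := by exact_mod_cast hg.hm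
lemma Geo.b_pos : 0 < p.b := by
  have h1 := hg.H
  have h2 := hg.D
  unfold First.b
  positivity
lemma Geo.loc_mem {s : ℝ} (hs : s ∈ Ioc 0 p.b) : 0 ≤ p.loc s ∧ |p.loc s| ≤ 1 := by
  have h1 := hg.H
  have h2 := hg.D
  have h0 := hs.1
  unfold First.b at hs
  have e2 := (le_div_iff₀ h2).1 hs.2
  have h3 : 0 ≤ p.loc s := by unfold First.loc; positivity
  refine ⟨h3, ?_⟩
  rw [abs_of_nonneg h3]
  unfold First.loc
  rw [div_le_one h1]
  linarith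
lemma Geo.s_eq (s : ℝ) : s = (p.H:ℝ) * p.loc s / p.D := by
  have h1 := hg.H
  have h2 := hg.D
  unfold First.loc
  field_simp

lemma Geo.abs_apx {s e α : ℝ} (hs : s ∈ Ioc 0 p.b) (he : |e| ≤ 1) (L : ℕ) :
    |p.apx α L e s - α / p.C.U| ≤ kn p.C (v0 p.C L) / p.C.U := by
  have h := abs_hor_le' hg.hC L (hg.loc_mem hs).2 he
  have hU := p.C.U_pos
  have e1 : p.apx α L e s - α / p.C.U =
      (p.loc s ^ 2 * hor L p.C.m (p.loc s) e (p.C.n + 1)) / p.C.U := by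
    unfold First.apx; ring
  rw [e1, abs_div, abs_of_pos hU, abs_mul, abs_pow]
  have h3 : |p.loc s| ^ 2 ≤ 1 := pow_le_one₀ (abs_nonneg _) (hg.loc_mem hs).2
  gcongr
  calc |p.loc s| ^ 2 * |hor L p.C.m (p.loc s) e (p.C.n + 1)| ≤ 1 * kn p.C (v0 p.C L) := by gcongr
    _ = _ := one_mul _

omit hg in
lemma abs_al {e : ℝ} (he : |e| ≤ 1) : (p.a0:ℝ) - p.a1 ≤ p.alr e ∧ p.alr e ≤ p.a0 + p.a1 := by
  have h3 : (0:ℝ) ≤ p.a1 := by positivity
  have := abs_le.1 he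
  unfold First.alr
  constructor <;> nlinarith

/-- range of the solution -/
lemma Geo.rng {s e v : ℝ} (hs : s ∈ Ioc 0 p.b) (he : |e| ≤ 1)
    (hv : |v - p.apx (p.alr e) p.P e s| ≤ p.m / p.C.U) :
    v ∈ Icc (-1/2:ℝ) 2 ∧ |v| ≤ p.X / p.C.U := by
  have hU := p.C.U_pos
  have h1 := abs_le.1 (hg.abs_apx (α := p.alr e) hs he p.P)
  have h2 := abs_al (p := p) he
  have h3 := abs_le.1 hv
  have l1 : (p.a1:ℝ) + kn p.C (v0 p.C p.P) + p.m ≤ p.a0 := by exact_mod_cast hg.lo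
  have l2 : (p.X:ℝ) < 2 * p.C.U := by
    have := hg.hi
    unfold Cfg.U; exact_mod_cast this
  have l3 : (p.X:ℝ) = p.a0 + p.a1 + kn p.C (v0 p.C p.P) + p.m := by
    unfold First.X First.np; push_cast; ring
  have l4 : 0 ≤ v := by
    have e1 : 0 ≤ (p.alr e - kn p.C (v0 p.C p.P) - p.m) / p.C.U := by
      apply div_nonneg _ hU.le
      linarith [h2.1]
    have e2 : (p.alr e - kn p.C (v0 p.C p.P) - p.m) / p.C.U =
        p.alr e / p.C.U - kn p.C (v0 p.C p.P) / p.C.U - p.m / p.C.U := by ring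
    linarith [h1.1, h3.1]
  have l5 : v ≤ p.X / p.C.U := by
    have e1 : (p.alr e + kn p.C (v0 p.C p.P) + p.m) / p.C.U ≤ p.X / p.C.U := by
      rw [l3]
      gcongr
      exact h2.2
    have e2 : (p.alr e + kn p.C (v0 p.C p.P) + p.m) / p.C.U =
        p.alr e / p.C.U + kn p.C (v0 p.C p.P) / p.C.U + p.m / p.C.U := by ring
    linarith [h1.2, h3.2]
  have l6 : (p.X:ℝ) / p.C.U < 2 := by rw [div_lt_iff₀ hU]; linarith
  exact ⟨⟨by linarith, by linarith⟩, by rw [abs_of_nonneg l4]; exact l5⟩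
end geo

lemma res_eq (hg : p.Geo) (L : ℕ) (e : ℝ) {s : ℝ} (hs : s ∈ Ioc 0 p.b) (F : ℝ) :
    p.ddapx L e s + 2 * p.dapx L e s / s + F / p.C.U ^ 8 =
      zE p.C p.H p.D (p.loc s) (hor L p.C.m (p.loc s) e (p.C.n + 1))
        (dhor L p.C.m (p.loc s) e (p.C.n + 1))
        (ddhor L p.C.m (p.loc s) e (p.C.n + 1)) F / (p.H ^ 2 * p.C.U ^ 8) := by
  have h1 := hg.H
  have h2 := hg.D
  have hU := p.C.U_pos
  have hs0 : 0 < s := hs.1
  have hr0 : 0 < p.loc s := by unfold First.loc; positivity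
  unfold First.ddapx First.dapx zE
  push_cast
  rw [pow_succ (2:ℝ) (7 * p.C.k), pow7]
  set r := p.loc s with hr
  have hs : s = (p.H:ℝ) * r / p.D := hg.s_eq s
  rw [hs]
  field_simp
  ring

/-- energy of the error -/
noncomputable def err (p : First) (α : ℝ) (L : ℕ) (e : ℝ) (u μ : ℝ → ℝ) (s : ℝ) : ℝ :=
  en (u s - p.apx α L e s) (μ s - s ^ 2 * p.dapx L e s) s

/-- general form of the first step -/
theorem first_gen (hg : p.Geo) {w L : ℕ} (hw : 0 < w) {e α a : ℝ} (ha : a = α / p.C.U)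
    {u μ φ : ℝ → ℝ} {ρ K : ℝ} (hK : 0 ≤ K) (hρ : 0 ≤ ρ)
    (hu0 : Tendsto u (𝓝[>] 0) (𝓝 a)) (hμ0 : Tendsto μ (𝓝[>] 0) (𝓝 0))
    (hu : ∀ s ∈ Ioc 0 p.b, HasDerivAt u (μ s / s ^ 2) s)
    (hμ : ∀ s ∈ Ioc 0 p.b, HasDerivAt μ (-(s ^ 2 * φ s)) s)
    (hk : ∀ s ∈ Ioc 0 p.b, |u s - p.apx α L e s| ≤ w / p.C.U →
      |φ s + 2 * p.dapx L e s / s + p.ddapx L e s| ≤ K * |u s - p.apx α L e s| + ρ)
    (hc : (K * (w / p.C.U) + ρ) * p.b ^ 2 / 6 < w / p.C.U) :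
    (∀ s ∈ Ioc 0 p.b, |u s - p.apx α L e s| ≤ w / p.C.U) ∧
      p.err α L e u μ p.b ≤ ((4 * w : ℕ) / p.C.U) ^ 2 := by
  have hU := p.C.U_pos
  have hwr : (0:ℝ) < w := by exact_mod_cast hw
  have hcont : ContinuousAt p.loc 0 := by
    unfold First.loc; fun_prop
  have hl0 : p.loc 0 = 0 := by unfold First.loc; simp
  have t1 : Tendsto (fun s => u s - p.apx α L e s) (𝓝[>] 0) (𝓝 0) := by
    have h1 : Tendsto (p.apx α L e) (𝓝[>] 0) (𝓝 a) := by
      have h2 := (hasDerivAt_apx (p := p) α L e 0).continuousAt.tendsto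
      have h3 : p.apx α L e 0 = a := by
        unfold First.apx; rw [hl0, ha]; simp
      rw [h3] at h2
      exact h2.mono_left nhdsWithin_le_nhds
    have := hu0.sub h1
    simpa using this
  have t2 : Tendsto (fun s => μ s - s ^ 2 * p.dapx L e s) (𝓝[>] 0) (𝓝 0) := by
    have h1 : Tendsto (fun s => s ^ 2 * p.dapx L e s) (𝓝[>] 0) (𝓝 0) := by
      have h2 : ContinuousAt (fun s => s ^ 2 * p.dapx L e s) 0 :=
        ((hasDerivAt_pow 2 0).fun_mul (hasDerivAt_dapx (p := p) L e 0)).continuousAt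
      have h3 := h2.tendsto
      simp only [ne_eq, OfNat.ofNat_ne_zero, not_false_eq_true, zero_pow, zero_mul] at h3
      exact h3.mono_left nhdsWithin_le_nhds
    have := hμ0.sub h1
    simpa using this
  have key := first (s0 := p.b) (M := w / p.C.U) (K := K) (ρ := ρ) (by positivity) hK hρ
    (δ := fun s => u s - p.apx α L e s) (ν := fun s => μ s - s ^ 2 * p.dapx L e s)
    (g := fun s => φ s + 2 * p.dapx L e s / s + p.ddapx L e s) t1 t2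
    (fun s hs => by
      have hs0 : s ≠ 0 := hs.1.ne'
      refine ((hu s hs).fun_sub (hasDerivAt_apx α L e s)).congr_deriv ?_
      field_simp)
    (fun s hs => by
      have hs0 : s ≠ 0 := hs.1.ne'
      refine ((hμ s hs).fun_sub ((hasDerivAt_pow 2 s).fun_mul (hasDerivAt_dapx L e s))).congr_deriv ?_
      field_simp
      norm_num
      ring) hk hc
  refine ⟨fun s hs => (key s hs).1, ?_⟩
  have hb := hg.b_pos
  obtain ⟨k1, k2⟩ := key p.b ⟨hb, le_rfl⟩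
  unfold First.err en
  set δ := u p.b - p.apx α L e p.b with hδ
  set ν := μ p.b - p.b ^ 2 * p.dapx L e p.b with hν
  set M : ℝ := w / p.C.U with hM
  have hM0 : 0 < M := by positivity
  have e1 : |ν / p.b| ≤ 2 * M := by
    rw [abs_div, abs_of_pos hb, div_le_iff₀ hb]
    calc |ν| ≤ (K * M + ρ) * p.b ^ 3 / 3 := k2
      _ = 2 * ((K * M + ρ) * p.b ^ 2 / 6) * p.b := by ring
      _ ≤ 2 * M * p.b := by gcongr
  have e2 : |ν / p.b + δ / 2| ≤ 5 / 2 * M := by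
    calc |ν / p.b + δ / 2| ≤ |ν / p.b| + |δ / 2| := abs_add_le _ _
      _ = |ν / p.b| + |δ| / 2 := by rw [abs_div δ, abs_two]
      _ ≤ 5 / 2 * M := by linarith
  have e3 : (ν / p.b + δ / 2) ^ 2 ≤ (5 / 2 * M) ^ 2 := by
    rw [← sq_abs]; exact pow_le_pow_left₀ (abs_nonneg _) e2 2
  have e4 : δ ^ 2 ≤ M ^ 2 := by
    rw [← sq_abs]; exact pow_le_pow_left₀ (abs_nonneg _) k1 2
  have e5 : (((4 * w : ℕ) : ℝ) / p.C.U) = 4 * M := by rw [hM]; push_cast; ring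
  rw [e5]
  nlinarith [sq_nonneg M]

lemma of_ckV (h : p.ckV = true) : p.Geo ∧
    nbz p.C p.H p.D (nbf p.C p.np) < 2 ^ p.C.h ∧
    p.K * p.m * (p.H * p.H) + p.N1 < 6 * p.m * (p.D * p.D) * 2 ^ (7 * p.C.k) := by
  simp only [ckV, Bool.and_eq_true, Nat.ble_eq] at h
  obtain ⟨⟨h1, ⟨h2, h3⟩, h4⟩, ⟨h5, h6⟩, ⟨h7, h8⟩, h9⟩ := h
  exact ⟨⟨Cfg.good h1, h2, h3, h4, h5, h6, by omega⟩, h7, h9⟩

/-- polynomial `α + x ^ 2 h` -/
noncomputable def zP (p : First) (α : Pol) (L : ℕ) : Pol := α + PX * PX * pl p.C L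

lemma ev_zP {A : Type*} [CommRing A] (p : First) (α : Pol) (L : ℕ) (x y : A) :
    ev x y (p.zP α L) = ev x y α + x * x * hor L p.C.m x y (p.C.n + 1) := by
  unfold zP; rw [map_add, map_mul, map_mul, ev_PX, ev_pl]

lemma z0_eq (p : First) {α : Pol} {a : ℤ} (ha : a = ev (kX p.C) (kY p.C : ℤ) α) (L : ℕ) :
    p.z0 a L = ev (kX p.C) (kY p.C : ℤ) (p.zP α L) := by
  rw [ev_zP, ← ha]
  have := v0_eq p.C L
  rw [ev_pl] at this
  rw [← this]
  rfl

/-- the polynomial `a0 + a1 e` -/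
noncomputable def aP (p : First) : Pol := (p.a0 : Pol) + (p.a1 : Pol) * PY

lemma al_eq (p : First) : p.al = ev (kX p.C) (kY p.C : ℤ) p.aP := by
  unfold aP; rw [map_add, map_mul, map_natCast, map_natCast, ev_PY]; rfl

lemma ev_aP (p : First) (x e : ℝ) : ev x e p.aP = p.alr e := by
  unfold aP; rw [map_add, map_mul, map_natCast, map_natCast, ev_PY]; rfl

lemma bnd_zP (hg : p.Geo) {α : Pol} {B : ℕ} (hα : Bnd α 0 1 B) (L : ℕ) :
    Bnd (p.zP α L) (p.C.n + 2) (max 1 p.C.m) ((B + kn p.C (v0 p.C L) : ℕ) : ℤ) := by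
  refine (hα.add ((Bnd.X.mul Bnd.X).mul (bnd_kn hg.hC L))).mono (by omega) (by omega) ?_
  push_cast
  linarith

lemma bnd_aP (p : First) : Bnd p.aP 0 1 ((p.a0 + p.a1 : ℕ) : ℤ) := by
  refine ((Bnd.nat p.a0).add ((Bnd.nat p.a1).mul Bnd.Y)).mono (by omega) (by omega) (by simp)

lemma F2_eq (p : First) : (p.F2 : ℝ) / p.C.U ^ 6 =
    12 * ((p.X:ℝ) / p.C.U) ^ 2 + 42 * (((p.C.c0:ℝ) + p.C.c1) / p.C.U) * ((p.X:ℝ) / p.C.U) ^ 5 := by
  have hU := p.C.U_pos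
  unfold F2
  push_cast
  rw [pow4]
  field_simp

lemma F3_eq (p : First) : (p.F3 : ℝ) / p.C.U ^ 5 / 2 =
    12 * ((p.X:ℝ) / p.C.U) + 105 * (((p.C.c0:ℝ) + p.C.c1) / p.C.U) * ((p.X:ℝ) / p.C.U) ^ 4 := by
  have hU := p.C.U_pos
  unfold F3
  push_cast
  rw [pow4]
  field_simp
  ring

lemma K_eq (p : First) : (p.K : ℝ) / p.C.U ^ 7 =
    4 * ((p.X:ℝ) / p.C.U) ^ 3 + 7 * (((p.C.c0:ℝ) + p.C.c1) / p.C.U) * ((p.X:ℝ) / p.C.U) ^ 6 := by
  have hU := p.C.U_pos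
  unfold K
  push_cast
  rw [pow4]
  field_simp

/-- the first step for `v` -/
theorem firstV (h : p.ckV = true) (hM : 1 ≤ p.C.m) {e : ℝ} (he : |e| ≤ 1) {v m : ℝ → ℝ}
    (hs : RadOn (p.C.c e) (p.alr e / p.C.U) p.b v m) :
    (∀ s ∈ Ioc 0 p.b, |v s - p.apx (p.alr e) p.P e s| ≤ p.m / p.C.U) ∧
      p.err (p.alr e) p.P e v m p.b ≤ ((4 * p.m : ℕ) / p.C.U) ^ 2 := by
  obtain ⟨hg, hB, hck⟩ := of_ckV h
  have hU := p.C.U_pos
  have hH := hg.H
  have hD := hg.D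
  have hm := hg.m
  have hce := hg.hC.c_mem he
  have hcl := p.C.c_le he
  refine first_gen hg hg.hm rfl (φ := fun s => F (p.C.c e) (v s)) (K := p.K / p.C.U ^ 7)
    (ρ := p.N1 / (p.H ^ 2 * p.C.U ^ 8)) (by positivity) (by positivity) hs.v0 hs.m0
    (fun s hs' => (hs.sol s hs').1) (fun s hs' => (hs.sol s hs').2) (fun s hs' hd => ?_) ?_
  · have hv := hg.rng hs' he hd
    have hP := hg.rng (v := p.apx (p.alr e) p.P e s) hs' he (by rw [sub_self, abs_zero]; positivity)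
    have h1 := F_eq_dd (c := p.C.c e) hv.1 hP.1
    rw [F_of_mem hP.1] at h1
    have h2 := abs_dd_le hce.1 hv.2 hP.2
    have h3 : |dd (p.C.c e) (v s) (p.apx (p.alr e) p.P e s)| ≤ p.K / p.C.U ^ 7 := by
      refine h2.trans ?_
      rw [K_eq]
      gcongr
    have e1 : f (p.C.c e) (p.apx (p.alr e) p.P e s) =
        fE p.C e (ev (p.loc s) e (p.zP p.aP p.P)) / p.C.U ^ 8 := by
      rw [ev_zP, ev_aP]
      unfold f fE cc Cfg.c First.apx
      push_cast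
      rw [pow4]
      field_simp
    have e2 : F (p.C.c e) (v s) + 2 * p.dapx p.P e s / s + p.ddapx p.P e s =
        dd (p.C.c e) (v s) (p.apx (p.alr e) p.P e s) * (v s - p.apx (p.alr e) p.P e s) +
        (p.ddapx p.P e s + 2 * p.dapx p.P e s / s + f (p.C.c e) (p.apx (p.alr e) p.P e s)) := by
      linarith
    rw [e2, e1, res_eq hg _ _ hs']
    have hq := Bnd.fE p.C (bnd_zP hg p.bnd_aP p.P)
    have h4 := abs_zE_le hg.hC hg.hR p.H p.D p.P (q := fE p.C PY (p.zP p.aP p.P))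
      (Bf := nbf p.C p.np) (by
        refine hq.mono (by omega) (by omega) ?_
        rw [nbf_eq]; rfl) hB
      (z := kfE p.C (kY p.C) (p.z0 p.al p.P)) (by
        rw [kfE_eq, map_fE, ev_PY, ← z0_eq p p.al_eq]) (hg.loc_mem hs').2 he
    rw [map_fE, ev_PY] at h4
    refine (abs_add_le _ _).trans (add_le_add ?_ ?_)
    · rw [abs_mul]; gcongr
    · rw [abs_div, abs_of_pos (by positivity : 0 < (p.H:ℝ) ^ 2 * p.C.U ^ 8)]
      gcongr
      exact h4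
  · have h1 : ((p.K * p.m * (p.H * p.H) + p.N1 : ℕ) : ℝ) <
        ((6 * p.m * (p.D * p.D) * 2 ^ (7 * p.C.k) : ℕ) : ℝ) := by exact_mod_cast hck
    push_cast at h1
    rw [pow7] at h1
    have e : (p.K / p.C.U ^ 7 * (p.m / p.C.U) + p.N1 / (p.H ^ 2 * p.C.U ^ 8)) * p.b ^ 2 / 6 =
        (p.K * p.m * (p.H * p.H) + p.N1) / (6 * (p.D * p.D) * p.C.U ^ 8) := by
      unfold First.b
      field_simp
    rw [e, div_lt_iff₀ (by positivity)]
    calc (p.K:ℝ) * p.m * (p.H * p.H) + p.N1 < 6 * p.m * (p.D * p.D) * p.C.U ^ 7 := h1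
      _ = _ := by field_simp

/-- `G` is close to `f' (P)` -/
lemma G_sub (hg : p.Geo) {e s v G τ : ℝ} (hs : s ∈ Ioc 0 p.b) (he : |e| ≤ 1)
    (hv : |v - p.apx (p.alr e) p.P e s| ≤ p.m / p.C.U) (hG : |G - fp (p.C.c e) v| ≤ τ) :
    |G - fp (p.C.c e) (p.apx (p.alr e) p.P e s)| ≤ τ + p.F2 / p.C.U ^ 6 * (p.m / p.C.U) := by
  have hU := p.C.U_pos
  have hc := hg.hC.c_mem he
  have hv' := hg.rng hs he hv
  have hm := hg.m
  have hP := hg.rng (v := p.apx (p.alr e) p.P e s) hs he (by rw [sub_self, abs_zero]; positivity)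
  have h1 := abs_fp_sub_le hc.1 hv'.2 hP.2
  have h2 : (12 * ((p.X:ℝ) / p.C.U) ^ 2 + 42 * p.C.c e * ((p.X:ℝ) / p.C.U) ^ 5) *
      |v - p.apx (p.alr e) p.P e s| ≤ p.F2 / p.C.U ^ 6 * (p.m / p.C.U) := by
    rw [F2_eq]
    have := p.C.c_le he
    gcongr
  calc |G - fp (p.C.c e) (p.apx (p.alr e) p.P e s)| = |(G - fp (p.C.c e) v) +
        (fp (p.C.c e) v - fp (p.C.c e) (p.apx (p.alr e) p.P e s))| := by ring_nf
    _ ≤ |G - fp (p.C.c e) v| + |fp (p.C.c e) v - fp (p.C.c e) (p.apx (p.alr e) p.P e s)| :=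
      abs_add_le _ _
    _ ≤ _ := by linarith

lemma abs_G (hg : p.Geo) {e s v G : ℝ} (hs : s ∈ Ioc 0 p.b) (he : |e| ≤ 1)
    (hv : |v - p.apx (p.alr e) p.P e s| ≤ p.m / p.C.U) (hG : |G - fp (p.C.c e) v| ≤ tau)
    (ht : p.C.U ^ 7 * tau ≤ 1) : |G| ≤ (p.K + 1) / p.C.U ^ 7 := by
  have hU := p.C.U_pos
  have hc := hg.hC.c_mem he
  have hcl := p.C.c_le he
  have hv' := hg.rng hs he hv
  have h1 := abs_dd_le hc.1 hv'.2 hv'.2
  rw [dd_self] at h1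
  have h3 : |fp (p.C.c e) v| ≤ p.K / p.C.U ^ 7 := by
    refine h1.trans ?_
    rw [K_eq]
    gcongr
  have h4 : tau ≤ 1 / p.C.U ^ 7 := by
    rw [le_div_iff₀ (by positivity)]; linarith
  calc |G| = |(G - fp (p.C.c e) v) + fp (p.C.c e) v| := by ring_nf
    _ ≤ |G - fp (p.C.c e) v| + |fp (p.C.c e) v| := abs_add_le _ _
    _ ≤ 1 / p.C.U ^ 7 + p.K / p.C.U ^ 7 := by linarith
    _ = _ := by ring

/-- the first step for the first variation -/
theorem firstW (h : p.ckV = true) (hW : p.ckW = true) (hM : 1 ≤ p.C.m) {e : ℝ} (he : |e| ≤ 1)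
    {v : ℝ → ℝ} (hv : ∀ s ∈ Ioc 0 p.b, |v s - p.apx (p.alr e) p.P e s| ≤ p.m / p.C.U)
    {G u μ : ℝ → ℝ} (hl : Lin (p.C.c e) v p.b tau G u μ) :
    (∀ s ∈ Ioc 0 p.b, |u s - p.apx p.C.U p.Q e s| ≤ p.w / p.C.U) ∧
      p.err p.C.U p.Q e u μ p.b ≤ ((4 * p.w : ℕ) / p.C.U) ^ 2 := by
  obtain ⟨hg, -, -⟩ := of_ckV h
  simp only [ckW, Bool.and_eq_true, Nat.ble_eq] at hW
  obtain ⟨⟨hw, hB⟩, hck, hsl⟩ := hW
  have hU := p.C.U_pos
  have hH := hg.H
  have hD := hg.D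
  have hm := hg.m
  have hwr : (0:ℝ) < p.w := by exact_mod_cast hw
  have ht0 := tau_pos.le
  have htau : ((p.nq:ℝ) + 1) * p.C.U ^ 7 * tau ≤ 1 := by
    have := tau_mul hsl
    push_cast at this
    rw [pow7] at this
    exact this
  have htau1 : p.C.U ^ 7 * tau ≤ 1 := by
    refine le_trans ?_ htau
    have : (0:ℝ) ≤ p.nq := by positivity
    have h2 : 0 ≤ p.C.U ^ 7 * tau := by positivity
    nlinarith
  have htau2 : (p.nq:ℝ) * p.C.U ^ 7 * tau ≤ 1 := by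
    refine le_trans ?_ htau
    have h2 : 0 ≤ p.C.U ^ 7 * tau := by positivity
    nlinarith
  have hqe : (((2 ^ p.C.k : ℕ)) : ℝ) = p.C.U := by unfold Cfg.U; push_cast; rfl
  have hqb : ∀ s ∈ Ioc 0 p.b, |p.apx p.C.U p.Q e s| ≤ p.nq / p.C.U := by
    intro s hs'
    have h1 := hg.abs_apx (α := p.C.U) hs' he p.Q
    rw [div_self hU.ne'] at h1
    have e1 : (p.nq:ℝ) / p.C.U = 1 + kn p.C (v0 p.C p.Q) / p.C.U := by
      unfold First.nq; push_cast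
      have : (2:ℝ) ^ p.C.k = p.C.U := rfl
      rw [this]; field_simp
    rw [e1]
    calc |p.apx p.C.U p.Q e s| = |1 + (p.apx p.C.U p.Q e s - 1)| := by ring_nf
      _ ≤ |(1:ℝ)| + |p.apx p.C.U p.Q e s - 1| := abs_add_le _ _
      _ ≤ _ := by rw [abs_one]; linarith
  set ρ : ℝ := p.N2 / (p.H ^ 2 * p.C.U ^ 8) +
    (tau + p.F2 / p.C.U ^ 6 * (p.m / p.C.U)) * (p.nq / p.C.U) with hρ
  refine first_gen hg hw (a := 1) (by rw [div_self hU.ne']) (φ := fun s => G s * u s)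
    (K := (p.K + 1) / p.C.U ^ 7) (ρ := ρ) (by positivity) (by positivity) hl.u0 hl.μ0
    hl.du hl.dμ (fun s hs' _ => ?_) ?_
  · have hG := G_sub hg hs' he (hv s hs') (hl.hG s hs')
    have hG2 := abs_G hg hs' he (hv s hs') (hl.hG s hs') htau1
    have e1 : fp (p.C.c e) (p.apx (p.alr e) p.P e s) * p.apx p.C.U p.Q e s =
        (fpE p.C e (ev (p.loc s) e (p.zP p.aP p.P)) *
          ev (p.loc s) e (p.zP ((2 ^ p.C.k : ℕ) : Pol) p.Q)) / p.C.U ^ 8 := by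
      rw [ev_zP, ev_zP, ev_aP, map_natCast, hqe]
      unfold fp fpE cc Cfg.c First.apx
      push_cast
      rw [pow4]
      field_simp
    have e2 : G s * u s + 2 * p.dapx p.Q e s / s + p.ddapx p.Q e s =
        G s * (u s - p.apx p.C.U p.Q e s) +
        ((p.ddapx p.Q e s + 2 * p.dapx p.Q e s / s +
          fp (p.C.c e) (p.apx (p.alr e) p.P e s) * p.apx p.C.U p.Q e s) +
        (G s - fp (p.C.c e) (p.apx (p.alr e) p.P e s)) * p.apx p.C.U p.Q e s) := by ring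
    rw [e2, e1, res_eq hg _ _ hs']
    have hq := (Bnd.fpE p.C (bnd_zP hg p.bnd_aP p.P)).mul
      (bnd_zP hg (((Bnd.nat (2 ^ p.C.k)).mono le_rfl (by omega) le_rfl)) p.Q)
    have h4 := abs_zE_le hg.hC hg.hR p.H p.D p.Q
      (q := fpE p.C PY (p.zP p.aP p.P) * p.zP ((2 ^ p.C.k : ℕ) : Pol) p.Q)
      (Bf := nbfp p.C p.np * p.nq) (by
        refine hq.mono (by omega) (by omega) ?_
        push_cast
        rw [nbfp_eq]
        unfold First.np First.nq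
        push_cast
        rfl) hB
      (z := Int.mul (kfpE p.C (kY p.C) (p.z0 p.al p.P)) (p.z0 (Int.ofNat (Nat.pow 2 p.C.k)) p.Q)) (by
        rw [kfpE_eq, map_mul, map_fpE, ev_PY, ← z0_eq p p.al_eq,
          ← z0_eq p (α := ((2 ^ p.C.k : ℕ) : Pol)) (a := Int.ofNat (Nat.pow 2 p.C.k)) (by rw [map_natCast]; rfl)]; rfl)
      (hg.loc_mem hs').2 he
    rw [map_mul, map_fpE, ev_PY] at h4
    have h5 := hqb s hs'
    refine (abs_add_le _ _).trans (add_le_add ?_ ((abs_add_le _ _).trans (add_le_add ?_ ?_)))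
    · rw [abs_mul]; gcongr
    · rw [abs_div, abs_of_pos (by positivity : 0 < (p.H:ℝ) ^ 2 * p.C.U ^ 8)]
      gcongr
      exact h4
    · rw [abs_mul]; gcongr
  · have h1 : (((p.K + 1) * p.w * (p.H * p.H) + p.N2 + p.H * p.H * p.F2 * p.m * p.nq + p.H * p.H
        : ℕ) : ℝ) < ((6 * p.w * (p.D * p.D) * 2 ^ (7 * p.C.k) : ℕ) : ℝ) := by exact_mod_cast hck
    push_cast at h1
    rw [pow7] at h1
    have e : ((p.K + 1) / p.C.U ^ 7 * (p.w / p.C.U) + ρ) * p.b ^ 2 / 6 =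
        ((p.K + 1) * p.w * (p.H * p.H) + p.N2 + p.H * p.H * p.F2 * p.m * p.nq +
          p.H * p.H * (p.nq * p.C.U ^ 7 * tau)) / (6 * (p.D * p.D) * p.C.U ^ 8) := by
      rw [hρ]
      unfold First.b
      field_simp
      ring
    rw [e, div_lt_iff₀ (by positivity)]
    calc ((p.K:ℝ) + 1) * p.w * (p.H * p.H) + p.N2 + p.H * p.H * p.F2 * p.m * p.nq +
          p.H * p.H * (p.nq * p.C.U ^ 7 * tau) ≤
          ((p.K:ℝ) + 1) * p.w * (p.H * p.H) + p.N2 + p.H * p.H * p.F2 * p.m * p.nq +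
          p.H * p.H * 1 := by gcongr
      _ < 6 * p.w * (p.D * p.D) * p.C.U ^ 7 := by linarith
      _ = _ := by field_simp

/-- the first step for the second variation -/
theorem firstY (h : p.ckV = true) (hW : p.ckW = true) (hY : p.ckY = true) (hM : 1 ≤ p.C.m)
    {e : ℝ} (he : |e| ≤ 1)
    {v : ℝ → ℝ} (hv : ∀ s ∈ Ioc 0 p.b, |v s - p.apx (p.alr e) p.P e s| ≤ p.m / p.C.U)
    {g u₁ u₂ G u μ : ℝ → ℝ}
    (h1 : ∀ s ∈ Ioc 0 p.b, |u₁ s - p.apx p.C.U p.Q e s| ≤ p.w / p.C.U)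
    (h2 : ∀ s ∈ Ioc 0 p.b, |u₂ s - p.apx p.C.U p.Q e s| ≤ p.w / p.C.U)
    (hl : Lin2 (p.C.c e) v p.b tau g u₁ u₂ G u μ) :
    (∀ s ∈ Ioc 0 p.b, |u s - p.apx 0 p.Y e s| ≤ p.y / p.C.U) ∧
      p.err 0 p.Y e u μ p.b ≤ ((4 * p.y : ℕ) / p.C.U) ^ 2 := by
  obtain ⟨hg, -, -⟩ := of_ckV h
  simp only [ckW, Bool.and_eq_true, Nat.ble_eq] at hW
  obtain ⟨⟨hw, -⟩, -, hslW⟩ := hW
  simp only [ckY, Bool.and_eq_true, Nat.ble_eq] at hY
  obtain ⟨⟨hy, hB⟩, hck, hsl⟩ := hY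
  have hU := p.C.U_pos
  have hU1 : 1 ≤ p.C.U := by unfold Cfg.U; exact one_le_pow₀ (by norm_num)
  have hH := hg.H
  have hD := hg.D
  have hm := hg.m
  have hyr : (0:ℝ) < p.y := by exact_mod_cast hy
  have ht0 := tau_pos.le
  have htau1 : p.C.U ^ 7 * tau ≤ 1 := by
    have h3 : ((p.nq:ℝ) + 1) * p.C.U ^ 7 * tau ≤ 1 := by
      have := tau_mul hslW
      push_cast at this
      rw [pow7] at this
      exact this
    refine le_trans ?_ h3
    have : (0:ℝ) ≤ p.nq := by positivity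
    have h2 : 0 ≤ p.C.U ^ 7 * tau := by positivity
    nlinarith
  have htau2 : ((p.ny:ℝ) + (p.nq + p.w) ^ 2) * p.C.U ^ 7 * tau ≤ 1 := by
    have := tau_mul hsl
    push_cast at this
    rw [pow7] at this
    rw [sq]
    exact this
  have hqe : (((2 ^ p.C.k : ℕ)) : ℝ) = p.C.U := by unfold Cfg.U; push_cast; rfl
  have hqb : ∀ s ∈ Ioc 0 p.b, |p.apx p.C.U p.Q e s| ≤ p.nq / p.C.U := by
    intro s hs'
    have h1 := hg.abs_apx (α := p.C.U) hs' he p.Q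
    rw [div_self hU.ne'] at h1
    have e1 : (p.nq:ℝ) / p.C.U = 1 + kn p.C (v0 p.C p.Q) / p.C.U := by
      unfold First.nq; push_cast
      have : (2:ℝ) ^ p.C.k = p.C.U := rfl
      rw [this]; field_simp
    rw [e1]
    calc |p.apx p.C.U p.Q e s| = |1 + (p.apx p.C.U p.Q e s - 1)| := by ring_nf
      _ ≤ |(1:ℝ)| + |p.apx p.C.U p.Q e s - 1| := abs_add_le _ _
      _ ≤ _ := by rw [abs_one]; linarith
  have hyb : ∀ s ∈ Ioc 0 p.b, |p.apx 0 p.Y e s| ≤ p.ny / p.C.U := by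
    intro s hs'
    have h1 := hg.abs_apx (α := 0) hs' he p.Y
    rw [zero_div, sub_zero] at h1
    exact h1
  set ρ : ℝ := p.N3 / (p.H ^ 2 * p.C.U ^ 8) +
    ((tau + p.F2 / p.C.U ^ 6 * (p.m / p.C.U)) * (p.ny / p.C.U) +
      ((tau + p.F3 / p.C.U ^ 5 / 2 * (p.m / p.C.U)) * (((p.nq:ℝ) + p.w) / p.C.U) ^ 2 +
      p.F2 / p.C.U ^ 6 / 2 * ((2 * p.nq + p.w) * p.w / p.C.U ^ 2))) with hρ
  refine first_gen hg hy (a := 0) (by rw [zero_div])
    (φ := fun s => G s * u s + g s * (u₁ s * u₂ s))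
    (K := (p.K + 1) / p.C.U ^ 7) (ρ := ρ) (by positivity) (by positivity) hl.u0 hl.μ0
    hl.du hl.dμ (fun s hs' _ => ?_) ?_
  · have hG := G_sub hg hs' he (hv s hs') (hl.hG s hs')
    have hG2 := abs_G hg hs' he (hv s hs') (hl.hG s hs') htau1
    have e1 : fp (p.C.c e) (p.apx (p.alr e) p.P e s) * p.apx 0 p.Y e s +
        hfp (p.C.c e) (p.apx (p.alr e) p.P e s) * (p.apx p.C.U p.Q e s * p.apx p.C.U p.Q e s) =
        (fpE p.C e (ev (p.loc s) e (p.zP p.aP p.P)) *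
          ev (p.loc s) e (p.zP ((0 : ℕ) : Pol) p.Y) +
        hfE p.C e (ev (p.loc s) e (p.zP p.aP p.P)) *
          (ev (p.loc s) e (p.zP ((2 ^ p.C.k : ℕ) : Pol) p.Q) *
          ev (p.loc s) e (p.zP ((2 ^ p.C.k : ℕ) : Pol) p.Q))) / p.C.U ^ 8 := by
      rw [ev_zP, ev_zP, ev_zP, ev_aP, map_natCast, map_natCast, hqe]
      unfold fp fpE hfp hfE cc Cfg.c First.apx
      push_cast
      rw [pow4]
      field_simp
    have e2 : G s * u s + g s * (u₁ s * u₂ s) + 2 * p.dapx p.Y e s / s + p.ddapx p.Y e s =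
        G s * (u s - p.apx 0 p.Y e s) +
        ((p.ddapx p.Y e s + 2 * p.dapx p.Y e s / s +
          (fp (p.C.c e) (p.apx (p.alr e) p.P e s) * p.apx 0 p.Y e s +
        hfp (p.C.c e) (p.apx (p.alr e) p.P e s) *
          (p.apx p.C.U p.Q e s * p.apx p.C.U p.Q e s))) +
        ((G s - fp (p.C.c e) (p.apx (p.alr e) p.P e s)) * p.apx 0 p.Y e s +
          ((g s - hfp (p.C.c e) (p.apx (p.alr e) p.P e s)) * (u₁ s * u₂ s) +
          hfp (p.C.c e) (p.apx (p.alr e) p.P e s) *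
            (u₁ s * u₂ s - p.apx p.C.U p.Q e s * p.apx p.C.U p.Q e s)))) := by ring
    rw [e2, e1, res_eq hg _ _ hs']
    have hqq := (bnd_zP hg (((Bnd.nat (2 ^ p.C.k)).mono le_rfl (by omega : 0 ≤ 1) le_rfl)) p.Q)
    have hq := ((Bnd.fpE p.C (bnd_zP hg p.bnd_aP p.P)).mul
      (bnd_zP hg (((Bnd.nat 0).mono le_rfl (by omega : 0 ≤ 1) le_rfl)) p.Y)).add
      ((Bnd.hfE p.C (bnd_zP hg p.bnd_aP p.P)).mul (hqq.mul hqq))
    have h4 := abs_zE_le hg.hC hg.hR p.H p.D p.Y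
      (q := fpE p.C PY (p.zP p.aP p.P) * p.zP ((0 : ℕ) : Pol) p.Y +
        hfE p.C PY (p.zP p.aP p.P) * (p.zP ((2 ^ p.C.k : ℕ) : Pol) p.Q *
          p.zP ((2 ^ p.C.k : ℕ) : Pol) p.Q))
      (Bf := nbfp p.C p.np * p.ny + nbhf p.C p.np * (p.nq * p.nq)) (by
        refine hq.mono (by omega) (by omega) ?_
        push_cast
        rw [nbfp_eq, nbhf_eq]
        unfold First.np First.nq First.ny
        push_cast
        rw [zero_add]) hB
      (z := Int.add (Int.mul (kfpE p.C (kY p.C) (p.z0 p.al p.P)) (p.z0 (Int.ofNat 0) p.Y))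
        (Int.mul (khfE p.C (kY p.C) (p.z0 p.al p.P))
        (Int.mul (p.z0 (Int.ofNat (Nat.pow 2 p.C.k)) p.Q)
          (p.z0 (Int.ofNat (Nat.pow 2 p.C.k)) p.Q)))) (by
        rw [kfpE_eq, khfE_eq, map_add, map_mul, map_mul, map_mul, map_fpE, map_hfE, ev_PY,
          ← z0_eq p p.al_eq,
          ← z0_eq p (α := ((2 ^ p.C.k : ℕ) : Pol)) (a := Int.ofNat (Nat.pow 2 p.C.k)) (by rw [map_natCast]; rfl),
          ← z0_eq p (α := ((0 : ℕ) : Pol)) (a := Int.ofNat 0) (by rw [map_natCast]; rfl)]; rfl)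
      (hg.loc_mem hs').2 he
    rw [map_add, map_mul, map_mul, map_mul, map_fpE, map_hfE, ev_PY] at h4
    have h5 := hqb s hs'
    have h6 := hyb s hs'
    -- bounds for `f''`
    have hv' := hg.rng hs' he (hv s hs')
    have hP := hg.rng (v := p.apx (p.alr e) p.P e s) hs' he (by rw [sub_self, abs_zero]; positivity)
    have hce := hg.hC.c_mem he
    have hcl := p.C.c_le he
    have h7 : |hfp (p.C.c e) (p.apx (p.alr e) p.P e s)| ≤ p.F2 / p.C.U ^ 6 / 2 := by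
      refine (abs_hfp_le hce.1 hP.2).trans ?_
      rw [F2_eq]
      have : 21 * p.C.c e * ((p.X:ℝ) / p.C.U) ^ 5 ≤
          21 * (((p.C.c0:ℝ) + p.C.c1) / p.C.U) * ((p.X:ℝ) / p.C.U) ^ 5 := by gcongr
      linarith
    have h8 : |g s - hfp (p.C.c e) (p.apx (p.alr e) p.P e s)| ≤
        tau + p.F3 / p.C.U ^ 5 / 2 * (p.m / p.C.U) := by
      have a1 := abs_hfp_sub_le hce.1 hv'.2 hP.2
      have a2 : (12 * ((p.X:ℝ) / p.C.U) + 105 * p.C.c e * ((p.X:ℝ) / p.C.U) ^ 4) *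
          |v s - p.apx (p.alr e) p.P e s| ≤ p.F3 / p.C.U ^ 5 / 2 * (p.m / p.C.U) := by
        rw [F3_eq]
        have := hv s hs'
        gcongr
      calc |g s - hfp (p.C.c e) (p.apx (p.alr e) p.P e s)| = |(g s - hfp (p.C.c e) (v s)) +
            (hfp (p.C.c e) (v s) - hfp (p.C.c e) (p.apx (p.alr e) p.P e s))| := by ring_nf
        _ ≤ |g s - hfp (p.C.c e) (v s)| +
            |hfp (p.C.c e) (v s) - hfp (p.C.c e) (p.apx (p.alr e) p.P e s)| := abs_add_le _ _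
        _ ≤ _ := by linarith [hl.hg s hs']
    have b1 : |u₁ s| ≤ ((p.nq:ℝ) + p.w) / p.C.U := by
      calc |u₁ s| = |p.apx p.C.U p.Q e s + (u₁ s - p.apx p.C.U p.Q e s)| := by ring_nf
        _ ≤ |p.apx p.C.U p.Q e s| + |u₁ s - p.apx p.C.U p.Q e s| := abs_add_le _ _
        _ ≤ p.nq / p.C.U + p.w / p.C.U := add_le_add h5 (h1 s hs')
        _ = _ := by ring
    have b2 : |u₂ s| ≤ ((p.nq:ℝ) + p.w) / p.C.U := by
      calc |u₂ s| = |p.apx p.C.U p.Q e s + (u₂ s - p.apx p.C.U p.Q e s)| := by ring_nf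
        _ ≤ |p.apx p.C.U p.Q e s| + |u₂ s - p.apx p.C.U p.Q e s| := abs_add_le _ _
        _ ≤ p.nq / p.C.U + p.w / p.C.U := add_le_add h5 (h2 s hs')
        _ = _ := by ring
    have b3 : |u₁ s * u₂ s| ≤ (((p.nq:ℝ) + p.w) / p.C.U) ^ 2 := by
      rw [abs_mul, sq]
      gcongr
    have b4 : |u₁ s * u₂ s - p.apx p.C.U p.Q e s * p.apx p.C.U p.Q e s| ≤
        (2 * p.nq + p.w) * p.w / p.C.U ^ 2 := by
      calc |u₁ s * u₂ s - p.apx p.C.U p.Q e s * p.apx p.C.U p.Q e s| =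
            |u₁ s * (u₂ s - p.apx p.C.U p.Q e s) +
              (u₁ s - p.apx p.C.U p.Q e s) * p.apx p.C.U p.Q e s| := by ring_nf
        _ ≤ |u₁ s * (u₂ s - p.apx p.C.U p.Q e s)| +
            |(u₁ s - p.apx p.C.U p.Q e s) * p.apx p.C.U p.Q e s| := abs_add_le _ _
        _ = |u₁ s| * |u₂ s - p.apx p.C.U p.Q e s| +
            |u₁ s - p.apx p.C.U p.Q e s| * |p.apx p.C.U p.Q e s| := by
          rw [abs_mul, abs_mul]
        _ ≤ (((p.nq:ℝ) + p.w) / p.C.U) * (p.w / p.C.U) + (p.w / p.C.U) * (p.nq / p.C.U) := by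
          have := h1 s hs'
          have := h2 s hs'
          gcongr
        _ = _ := by field_simp; ring
    refine (abs_add_le _ _).trans (add_le_add ?_ ((abs_add_le _ _).trans (add_le_add ?_
      ((abs_add_le _ _).trans (add_le_add ?_ ((abs_add_le _ _).trans (add_le_add ?_ ?_)))))))
    · rw [abs_mul]; gcongr
    · rw [abs_div, abs_of_pos (by positivity : 0 < (p.H:ℝ) ^ 2 * p.C.U ^ 8)]
      gcongr
      exact h4
    · rw [abs_mul]; gcongr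
    · rw [abs_mul]; gcongr
    · rw [abs_mul]; gcongr
  · have h1 : ((2 * (p.K + 1) * p.y * (p.H * p.H) + 2 * p.N3 + 2 * (p.H * p.H) * p.F2 * p.m * p.ny +
    (p.H * p.H) * (p.F3 * p.m * ((p.nq + p.w) * (p.nq + p.w)) + p.F2 * (2 * p.nq + p.w) * p.w) +
      2 * (p.H * p.H) : ℕ) : ℝ) < ((12 * p.y * (p.D * p.D) * 2 ^ (7 * p.C.k) : ℕ) : ℝ) := by
      exact_mod_cast hck
    push_cast at h1
    rw [pow7] at h1
    have e : ((p.K + 1) / p.C.U ^ 7 * (p.y / p.C.U) + ρ) * p.b ^ 2 / 6 =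
        (2 * (p.K + 1) * p.y * (p.H * p.H) + 2 * p.N3 + 2 * (p.H * p.H) * p.F2 * p.m * p.ny +
          (p.H * p.H) * (p.F3 * p.m * ((p.nq + p.w) * (p.nq + p.w)) +
            p.F2 * (2 * p.nq + p.w) * p.w) +
          2 * (p.H * p.H) * ((p.ny + (p.nq + p.w) ^ 2 / p.C.U) * p.C.U ^ 7 * tau)) /
            (12 * (p.D * p.D) * p.C.U ^ 8) := by
      rw [hρ]
      unfold First.b
      field_simp
      ring
    have e3 : ((p.ny:ℝ) + (p.nq + p.w) ^ 2 / p.C.U) * p.C.U ^ 7 * tau ≤ 1 := by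
      refine le_trans ?_ htau2
      have : ((p.nq:ℝ) + p.w) ^ 2 / p.C.U ≤ ((p.nq:ℝ) + p.w) ^ 2 :=
        div_le_self (by positivity) hU1
      gcongr
    rw [e, div_lt_iff₀ (by positivity)]
    calc 2 * ((p.K:ℝ) + 1) * p.y * (p.H * p.H) + 2 * p.N3 + 2 * (p.H * p.H) * p.F2 * p.m * p.ny +
          (p.H * p.H) * (p.F3 * p.m * ((p.nq + p.w) * (p.nq + p.w)) +
            p.F2 * (2 * p.nq + p.w) * p.w) +
          2 * (p.H * p.H) * ((p.ny + (p.nq + p.w) ^ 2 / p.C.U) * p.C.U ^ 7 * tau) ≤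
          2 * ((p.K:ℝ) + 1) * p.y * (p.H * p.H) + 2 * p.N3 + 2 * (p.H * p.H) * p.F2 * p.m * p.ny +
          (p.H * p.H) * (p.F3 * p.m * ((p.nq + p.w) * (p.nq + p.w)) +
            p.F2 * (2 * p.nq + p.w) * p.w) +
          2 * (p.H * p.H) * 1 := by gcongr
      _ < 12 * p.y * (p.D * p.D) * p.C.U ^ 7 := by linarith
      _ = _ := by field_simp

end First

end LinNi
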