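import Mathlib

/-!
Growth of the error of an approximate solution.
-/

set_option autoImplicit false

open Set Filter Topology

namespace LinNi

/-- energy of `δ`, `ν = s ^ 2 δ'` -/
noncomputable def en (δ ν s : ℝ) : ℝ := (ν / s + δ / 2) ^ 2 + δ ^ 2

lemma abs_le_of_en {δ ν s m : ℝ} (hm : 0 ≤ m) (h : en δ ν s ≤ m ^ 2) : |δ| ≤ m := by
  unfold en at h
  exact abs_le_of_sq_le_sq (by nlinarith [sq_nonneg (ν / s + δ / 2)]) hm

lemma abs_nu_of_en {δ ν s m : ℝ} (hm : 0 ≤ m) (h : en δ ν s ≤ m ^ 2) : |ν / s| ≤ 3 / 2 * m := by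
  have h1 := abs_le_of_en hm h
  unfold en at h
  have h2 : |ν / s + δ / 2| ≤ m := abs_le_of_sq_le_sq (by nlinarith [sq_nonneg δ]) hm
  rw [abs_le] at *
  constructor <;> linarith

lemma en_jump {x y x' y' m d : ℝ} (hm : 0 ≤ m) (h : (x + y / 2) ^ 2 + y ^ 2 ≤ m ^ 2)
    (hj : |x'| + 3 / 2 * |y'| ≤ d) :
    ((x + x') + (y + y') / 2) ^ 2 + (y + y') ^ 2 ≤ (m + d) ^ 2 := by
  have hd : 0 ≤ d := le_trans (by positivity) hj
  set a := x + y / 2 with ha
  set a' := x' + y' / 2 with ha'
  have h1 : a' ^ 2 + y' ^ 2 ≤ d ^ 2 := by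
    have e1 : |a'| ≤ |x'| + |y'| / 2 := by
      rw [ha']
      calc |x' + y' / 2| ≤ |x'| + |y' / 2| := abs_add_le _ _
        _ = |x'| + |y'| / 2 := by rw [abs_div, abs_two]
    have e2 : |a'| + |y'| ≤ d := by linarith
    have e3 : a' ^ 2 + y' ^ 2 ≤ (|a'| + |y'|) ^ 2 := by
      nlinarith [sq_abs a', sq_abs y', abs_nonneg a', abs_nonneg y', mul_nonneg (abs_nonneg a') (abs_nonneg y')]
    exact e3.trans (pow_le_pow_left₀ (by positivity) e2 2)
  have h2 : a * a' + y * y' ≤ m * d := by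
    have e1 : (a * a' + y * y') ^ 2 ≤ (m * d) ^ 2 := by
      have : (a * a' + y * y') ^ 2 ≤ (a ^ 2 + y ^ 2) * (a' ^ 2 + y' ^ 2) := by
        linarith only [sq_nonneg (a * y' - a' * y)]
      calc (a * a' + y * y') ^ 2 ≤ (a ^ 2 + y ^ 2) * (a' ^ 2 + y' ^ 2) := this
        _ ≤ m ^ 2 * d ^ 2 := by gcongr
        _ = (m * d) ^ 2 := by ring
    exact le_of_abs_le (abs_le_of_sq_le_sq e1 (by positivity))
  have e : x + x' + (y + y') / 2 = a + a' := by rw [ha, ha']; ring
  rw [e]
  linarith only [h, h1, h2]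

/-- the main growth lemma -/
theorem growth {a b m0 m2 κ ρ θ : ℝ} (ha : 0 < a) (hab : a < b) (hm0 : 0 < m0) (hm2 : 0 < m2)
    {δ ν g : ℝ → ℝ}
    (hδ : ∀ s ∈ Icc a b, HasDerivAt δ (ν s / s ^ 2) s)
    (hν : ∀ s ∈ Icc a b, HasDerivAt ν (-(s ^ 2 * g s)) s)
    (hk : ∀ s ∈ Icc a b, |δ s| ≤ max m0 m2 →
      ∃ k r, g s = k * δ s + r / s ∧ |5 / 4 - s ^ 2 * k| ≤ κ ∧ |r| ≤ ρ)
    (hθ : ∀ s ∈ Icc a b, ∀ B ∈ Icc (min m0 m2) (max m0 m2), (κ - 1) * B / (2 * s) * (b - a) ≤ θ)
    (hs : ρ * (b - a) + θ < m2 - m0) (h0 : en (δ a) (ν a) a ≤ m0 ^ 2) :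
    (∀ s ∈ Icc a b, en (δ s) (ν s) s ≤ (max m0 m2) ^ 2) ∧ en (δ b) (ν b) b ≤ m2 ^ 2 := by
  have hba : 0 < b - a := by linarith
  have hsum := hs
  set sl := (m2 - m0) / (b - a) with hsl
  let Bf : ℝ → ℝ := fun s => m0 + sl * (s - a)
  have hBf : ∀ s ∈ Icc a b, Bf s ∈ Icc (min m0 m2) (max m0 m2) := by
    intro s hs
    have h1 : Bf s = m0 * ((b - s) / (b - a)) + m2 * ((s - a) / (b - a)) := by
      simp only [Bf, hsl]
      field_simp
      ring
    have hw1 : 0 ≤ (b - s) / (b - a) := div_nonneg (by linarith [hs.2]) hba.le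
    have hw2 : 0 ≤ (s - a) / (b - a) := div_nonneg (by linarith [hs.1]) hba.le
    have hw : (b - s) / (b - a) + (s - a) / (b - a) = 1 := by field_simp; ring
    rw [h1]
    constructor
    · calc min m0 m2 = min m0 m2 * ((b - s) / (b - a)) + min m0 m2 * ((s - a) / (b - a)) := by
            rw [← mul_add, hw, mul_one]
        _ ≤ _ := by gcongr <;> simp
    · calc m0 * ((b - s) / (b - a)) + m2 * ((s - a) / (b - a)) ≤
          max m0 m2 * ((b - s) / (b - a)) + max m0 m2 * ((s - a) / (b - a)) := by gcongr <;> simp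
        _ = _ := by rw [← mul_add, hw, mul_one]
  have hmin : 0 < min m0 m2 := lt_min hm0 hm2
  have hf : ∀ s ∈ Icc a b, HasDerivAt (fun s => en (δ s) (ν s) s)
      (2 * (ν s / s + δ s / 2) *
        (((-(s ^ 2 * g s)) * s - ν s * 1) / s ^ 2 + (ν s / s ^ 2) / 2) +
        2 * δ s * (ν s / s ^ 2)) s := by
    intro s hs
    have hs0 : s ≠ 0 := (ha.trans_le hs.1).ne'
    have h1 := (((hν s hs).fun_div (hasDerivAt_id' s) hs0).fun_add ((hδ s hs).div_const 2)).fun_pow 2
    have h2 := (hδ s hs).fun_pow 2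
    refine (h1.fun_add h2).congr_deriv ?_
    simp
  have key := image_le_of_deriv_right_lt_deriv_boundary
    (f := fun s => en (δ s) (ν s) s) (a := a) (b := b)
    (fun s hs => (hf s hs).continuousAt.continuousWithinAt)
    (fun s hs => (hf s (Ico_subset_Icc_self hs)).hasDerivWithinAt)
    (B := fun s => Bf s ^ 2) (B' := fun s => 2 * Bf s * sl)
    (by simpa [Bf] using h0)
    (fun s => by
      have h1 : HasDerivAt Bf sl s := by
        exact ((((hasDerivAt_id' s).sub_const a).const_mul sl).const_add m0).congr_deriv (by ring)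
      refine (h1.fun_pow 2).congr_deriv ?_
      simp)
    (by
      intro s hs heq
      have hs' := Ico_subset_Icc_self hs
      have hsp : 0 < s := ha.trans_le hs.1
      have hB := hBf s hs'
      have hBpos : 0 < Bf s := hmin.trans_le hB.1
      have hen : en (δ s) (ν s) s = Bf s ^ 2 := heq
      have hd : |δ s| ≤ max m0 m2 := (abs_le_of_en hBpos.le hen.le).trans hB.2
      obtain ⟨k, r, hgs, hk1, hr1⟩ := hk s hs' hd
      have hθ1 := hθ s hs' _ hB
      set A1 := ν s / s + δ s / 2 with hA1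
      have hA1' : |A1| ≤ Bf s := by
        apply abs_le_of_sq_le_sq _ hBpos.le
        rw [← hen]
        unfold en
        rw [← hA1]
        linarith only [sq_nonneg (δ s)]
      have e1 : 2 * A1 * (((-(s ^ 2 * g s)) * s - ν s * 1) / s ^ 2 +
          (ν s / s ^ 2) / 2) + 2 * δ s * (ν s / s ^ 2) =
          -(en (δ s) (ν s) s) / s + 2 * (A1 * δ s) * (5 / 4 - s ^ 2 * k) / s - 2 * A1 * r := by
        unfold en
        rw [hA1, hgs]
        field_simp
        ring
      rw [e1, hen]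
      have e2 : |A1 * δ s| * 2 ≤ Bf s ^ 2 := by
        rw [← hen, abs_mul]
        unfold en
        rw [← hA1, ← sq_abs A1, ← sq_abs (δ s)]
        linarith only [sq_nonneg (|A1| - |δ s|)]
      have e3 : 2 * (A1 * δ s) * (5 / 4 - s ^ 2 * k) ≤ Bf s ^ 2 * κ := by
        calc 2 * (A1 * δ s) * (5 / 4 - s ^ 2 * k) ≤ |2 * (A1 * δ s) * (5 / 4 - s ^ 2 * k)| :=
              le_abs_self _
          _ = (|A1 * δ s| * 2) * |5 / 4 - s ^ 2 * k| := by
              rw [abs_mul, abs_mul, abs_two]; ring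
          _ ≤ Bf s ^ 2 * κ := by gcongr
      have e4 : -(2 * A1 * r) ≤ 2 * Bf s * ρ := by
        calc -(2 * A1 * r) ≤ |2 * A1 * r| := neg_le_abs _
          _ = 2 * |A1| * |r| := by rw [abs_mul, abs_mul, abs_two]
          _ ≤ 2 * Bf s * ρ := by gcongr
      have e5 : -Bf s ^ 2 / s + 2 * (A1 * δ s) * (5 / 4 - s ^ 2 * k) / s - 2 * A1 * r ≤
          2 * Bf s * ((κ - 1) * Bf s / (2 * s) + ρ) := by
        have : 2 * (A1 * δ s) * (5 / 4 - s ^ 2 * k) / s ≤ Bf s ^ 2 * κ / s := by gcongr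
        have e6 : 2 * Bf s * ((κ - 1) * Bf s / (2 * s) + ρ) =
            -Bf s ^ 2 / s + Bf s ^ 2 * κ / s + 2 * Bf s * ρ := by
          field_simp
          ring
        rw [e6]
        linarith
      refine e5.trans_lt ?_
      have e7 : (κ - 1) * Bf s / (2 * s) + ρ < sl := by
        rw [hsl, lt_div_iff₀ hba, add_mul]
        linarith only [hθ1, hsum]
      exact mul_lt_mul_of_pos_left e7 (by positivity))
  constructor
  · intro s hs
    refine (key hs).trans ?_
    have := hBf s hs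
    exact pow_le_pow_left₀ (hmin.le.trans this.1) this.2 2
  · have h1 := key (right_mem_Icc.2 hab.le)
    have h2 : Bf b = m2 := by
      simp only [Bf, hsl]
      field_simp
      ring
    simp only [h2] at h1
    exact h1

/-- the first interval `(0, s0]` -/
theorem first {s0 M K ρ : ℝ} (hM : 0 < M) (hK : 0 ≤ K) (hρ : 0 ≤ ρ)
    {δ ν g : ℝ → ℝ} (hδ0 : Tendsto δ (𝓝[>] 0) (𝓝 0)) (hν0 : Tendsto ν (𝓝[>] 0) (𝓝 0))
    (hδ : ∀ s ∈ Ioc 0 s0, HasDerivAt δ (ν s / s ^ 2) s)
    (hν : ∀ s ∈ Ioc 0 s0, HasDerivAt ν (-(s ^ 2 * g s)) s)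
    (hg : ∀ s ∈ Ioc 0 s0, |δ s| ≤ M → |g s| ≤ K * |δ s| + ρ)
    (hc : (K * M + ρ) * s0 ^ 2 / 6 < M) :
    ∀ s ∈ Ioc 0 s0, |δ s| ≤ M ∧ |ν s| ≤ (K * M + ρ) * s ^ 3 / 3 := by
  set C := K * M + ρ with hC
  have hC0 : 0 ≤ C := by positivity
  have main : ∀ t ∈ Ioc 0 s0, (∀ s ∈ Ioo 0 t, |δ s| ≤ M) →
      |ν t| ≤ C * t ^ 3 / 3 ∧ |δ t| ≤ C * t ^ 2 / 6 := by
    intro t ht hb
    have hgC : ∀ s ∈ Ioo 0 t, |g s| ≤ C := by
      intro s hs
      have h1 := hg s ⟨hs.1, hs.2.le.trans ht.2⟩ (hb s hs)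
      have h2 := hb s hs
      rw [hC]
      calc |g s| ≤ K * |δ s| + ρ := h1
        _ ≤ K * M + ρ := by gcongr
    -- bound for ν
    have hνb : ∀ r ∈ Ioc 0 t, |ν r| ≤ C * r ^ 3 / 3 := by
      intro r hr
      have step : ∀ s ∈ Ioo 0 r, |ν r - ν s| ≤ C * r ^ 3 / 3 := by
        intro s hs
        have hsub : Icc s r ⊆ Ioc 0 s0 := fun x hx => ⟨hs.1.trans_le hx.1, hx.2.trans (hr.2.trans ht.2)⟩
        have m1 : AntitoneOn (fun x => ν x - C * x ^ 3 / 3) (Icc s r) := by
          have hd : ∀ x ∈ Icc s r, HasDerivAt (fun x => ν x - C * x ^ 3 / 3)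
              (-(x ^ 2 * g x) - C * x ^ 2) x := by
            intro x hx
            have e := ((hasDerivAt_pow 3 x).const_mul C).div_const 3
            refine ((hν x (hsub hx)).fun_sub e).congr_deriv ?_
            norm_num
            ring
          apply antitoneOn_of_deriv_nonpos (convex_Icc _ _)
          · intro x hx
            exact (hd x hx).continuousAt.continuousWithinAt
          · intro x hx
            rw [interior_Icc] at hx
            exact (hd x (Ioo_subset_Icc_self hx)).differentiableAt.differentiableWithinAt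
          · intro x hx
            rw [interior_Icc] at hx
            rw [(hd x (Ioo_subset_Icc_self hx)).deriv]
            have := (abs_le.1 (hgC x ⟨hs.1.trans hx.1, hx.2.trans_le hr.2⟩)).1
            nlinarith [sq_nonneg x]
        have m2 : MonotoneOn (fun x => ν x + C * x ^ 3 / 3) (Icc s r) := by
          have hd : ∀ x ∈ Icc s r, HasDerivAt (fun x => ν x + C * x ^ 3 / 3)
              (-(x ^ 2 * g x) + C * x ^ 2) x := by
            intro x hx
            have e := ((hasDerivAt_pow 3 x).const_mul C).div_const 3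
            refine ((hν x (hsub hx)).fun_add e).congr_deriv ?_
            norm_num
            ring
          apply monotoneOn_of_deriv_nonneg (convex_Icc _ _)
          · intro x hx
            exact (hd x hx).continuousAt.continuousWithinAt
          · intro x hx
            rw [interior_Icc] at hx
            exact (hd x (Ioo_subset_Icc_self hx)).differentiableAt.differentiableWithinAt
          · intro x hx
            rw [interior_Icc] at hx
            rw [(hd x (Ioo_subset_Icc_self hx)).deriv]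
            have := (abs_le.1 (hgC x ⟨hs.1.trans hx.1, hx.2.trans_le hr.2⟩)).2
            nlinarith [sq_nonneg x]
        have e1 := m1 (left_mem_Icc.2 hs.2.le) (right_mem_Icc.2 hs.2.le) hs.2.le
        have e2 := m2 (left_mem_Icc.2 hs.2.le) (right_mem_Icc.2 hs.2.le) hs.2.le
        simp only at e1 e2
        have e3 : 0 ≤ C * s ^ 3 / 3 := by have := hs.1; positivity
        rw [abs_le]
        constructor <;> linarith
      have h2 : Tendsto (fun s => |ν r - ν s|) (𝓝[>] 0) (𝓝 |ν r - 0|) :=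
        (tendsto_const_nhds.sub hν0).abs
      rw [sub_zero] at h2
      refine le_of_tendsto h2 ?_
      filter_upwards [Ioo_mem_nhdsGT hr.1] with s hs using step s hs
    refine ⟨hνb t ⟨ht.1, le_rfl⟩, ?_⟩
    have step : ∀ s ∈ Ioo 0 t, |δ t - δ s| ≤ C * t ^ 2 / 6 := by
      intro s hs
      have hsub : Icc s t ⊆ Ioc 0 s0 := fun x hx => ⟨hs.1.trans_le hx.1, hx.2.trans ht.2⟩
      have hq : ∀ x ∈ Icc s t, |ν x / x ^ 2| ≤ C * x / 3 := by
        intro x hx
        have hx0 : 0 < x := hs.1.trans_le hx.1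
        rw [abs_div, abs_of_pos (by positivity : 0 < x ^ 2), div_le_iff₀ (by positivity)]
        calc |ν x| ≤ C * x ^ 3 / 3 := hνb x ⟨hx0, hx.2⟩
          _ = C * x / 3 * x ^ 2 := by ring
      have m1 : AntitoneOn (fun x => δ x - C * x ^ 2 / 6) (Icc s t) := by
        have hd : ∀ x ∈ Icc s t, HasDerivAt (fun x => δ x - C * x ^ 2 / 6)
            (ν x / x ^ 2 - C * x / 3) x := by
          intro x hx
          have e := ((hasDerivAt_pow 2 x).const_mul C).div_const 6
          refine ((hδ x (hsub hx)).fun_sub e).congr_deriv ?_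
          norm_num
          ring
        apply antitoneOn_of_deriv_nonpos (convex_Icc _ _)
        · intro x hx
          exact (hd x hx).continuousAt.continuousWithinAt
        · intro x hx
          rw [interior_Icc] at hx
          exact (hd x (Ioo_subset_Icc_self hx)).differentiableAt.differentiableWithinAt
        · intro x hx
          rw [interior_Icc] at hx
          rw [(hd x (Ioo_subset_Icc_self hx)).deriv]
          have := (abs_le.1 (hq x (Ioo_subset_Icc_self hx))).2
          linarith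
      have m2 : MonotoneOn (fun x => δ x + C * x ^ 2 / 6) (Icc s t) := by
        have hd : ∀ x ∈ Icc s t, HasDerivAt (fun x => δ x + C * x ^ 2 / 6)
            (ν x / x ^ 2 + C * x / 3) x := by
          intro x hx
          have e := ((hasDerivAt_pow 2 x).const_mul C).div_const 6
          refine ((hδ x (hsub hx)).fun_add e).congr_deriv ?_
          norm_num
          ring
        apply monotoneOn_of_deriv_nonneg (convex_Icc _ _)
        · intro x hx
          exact (hd x hx).continuousAt.continuousWithinAt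
        · intro x hx
          rw [interior_Icc] at hx
          exact (hd x (Ioo_subset_Icc_self hx)).differentiableAt.differentiableWithinAt
        · intro x hx
          rw [interior_Icc] at hx
          rw [(hd x (Ioo_subset_Icc_self hx)).deriv]
          have := (abs_le.1 (hq x (Ioo_subset_Icc_self hx))).1
          linarith
      have e1 := m1 (left_mem_Icc.2 hs.2.le) (right_mem_Icc.2 hs.2.le) hs.2.le
      have e2 := m2 (left_mem_Icc.2 hs.2.le) (right_mem_Icc.2 hs.2.le) hs.2.le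
      simp only at e1 e2
      have e3 : 0 ≤ C * s ^ 2 / 6 := by positivity
      rw [abs_le]
      constructor <;> linarith
    have h2 : Tendsto (fun s => |δ t - δ s|) (𝓝[>] 0) (𝓝 |δ t - 0|) :=
      (tendsto_const_nhds.sub hδ0).abs
    rw [sub_zero] at h2
    refine le_of_tendsto h2 ?_
    filter_upwards [Ioo_mem_nhdsGT ht.1] with s hs using step s hs
  -- continuous induction
  have hall : ∀ s ∈ Ioc 0 s0, |δ s| ≤ M := by
    by_contra hcon
    push Not at hcon
    obtain ⟨t, ht, hMt⟩ := hcon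
    -- near zero `|δ| < M`
    have hev : ∀ᶠ s in 𝓝[>] (0:ℝ), |δ s| < M := by
      have h2 : Tendsto (fun s => |δ s|) (𝓝[>] 0) (𝓝 |(0:ℝ)|) := hδ0.abs
      rw [abs_zero] at h2
      exact h2.eventually (gt_mem_nhds hM)
    obtain ⟨u, hu, hu2⟩ := (mem_nhdsGT_iff_exists_Ioo_subset).1 hev
    have hut : u ≤ t := by
      by_contra h
      push Not at h
      exact absurd (hu2 ⟨ht.1, h⟩) (not_lt.2 hMt.le)
    have hu0 : 0 < u := hu
    let S : Set ℝ := {s | s ∈ Icc (u / 2) t ∧ M ≤ |δ s|}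
    have hcont : ContinuousOn (fun s => |δ s|) (Icc (u / 2) t) := by
      intro s hs
      exact (hδ s ⟨by linarith [hs.1], hs.2.trans ht.2⟩).continuousAt.abs.continuousWithinAt
    have hclosed : IsCompact S := by
      have : S = Icc (u / 2) t ∩ (fun s => |δ s|) ⁻¹' Ici M := by
        ext s; simp [S]
      rw [this]
      exact Metric.isCompact_of_isClosed_isBounded
        (hcont.preimage_isClosed_of_isClosed isClosed_Icc isClosed_Ici)
        ((Metric.isBounded_Icc _ _).subset inter_subset_left)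
    have hne : S.Nonempty := ⟨t, ⟨by linarith, le_rfl⟩, hMt.le⟩
    obtain ⟨t1, ht1, hmin⟩ := hclosed.exists_isLeast hne
    have ht10 : 0 < t1 := by linarith [ht1.1.1]
    have hlt : ∀ s ∈ Ioo 0 t1, |δ s| ≤ M := by
      intro s hs
      by_contra h
      push Not at h
      rcases lt_or_ge s (u / 2) with h1 | h1
      · exact absurd (hu2 ⟨hs.1, by linarith⟩) (not_lt.2 h.le)
      · exact absurd (hmin (⟨⟨h1, hs.2.le.trans ht1.1.2⟩, h.le⟩ : s ∈ S)) (not_le.2 hs.2)
    have h3 := (main t1 ⟨ht10, ht1.1.2.trans ht.2⟩ hlt).2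
    have h4 : C * t1 ^ 2 / 6 ≤ C * s0 ^ 2 / 6 := by
      have : t1 ≤ s0 := ht1.1.2.trans ht.2
      gcongr
    linarith [ht1.2]
  intro s hs
  exact ⟨hall s hs, (main s hs (fun r hr => hall r ⟨hr.1, hr.2.le.trans hs.2⟩)).1⟩

end LinNi
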