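import Pool.Agent.Lib.MP_0170ef_an.Alg

/-!
Packed polynomials: evaluation in a commutative ring, derivatives, evaluation in the kernel.
The coefficients are stored in decreasing order, `64` bits each, shifted by `2 ^ 63`.
-/

set_option autoImplicit false

open Finset

namespace LinNi

/-- a coefficient -/
def dig (L t : ℕ) : ℤ := ((L >>> (64 * t)) % 2 ^ 64 : ℕ) - 2 ^ 63

section generic
variable {A : Type*} [CommRing A]

/-- partial sums (Horner) of the `i`-th row -/
def row (L m i : ℕ) (y : A) : ℕ → A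
  | 0 => 0
  | j + 1 => row L m i y j * y + ((dig L (i * (m + 1) + j) : ℤ) : A)

/-- value -/
def hor (L m : ℕ) (x y : A) : ℕ → A
  | 0 => 0
  | k + 1 => hor L m x y k * x + row L m k y (m + 1)

/-- derivative in `x` -/
def dhor (L m : ℕ) (x y : A) : ℕ → A
  | 0 => 0
  | k + 1 => dhor L m x y k * x + hor L m x y k

/-- half the second derivative in `x` -/
def ddhor (L m : ℕ) (x y : A) : ℕ → A
  | 0 => 0
  | k + 1 => ddhor L m x y k * x + dhor L m x y k

variable {B : Type*} [CommRing B] (φ : A →+* B)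

lemma map_row (L m i : ℕ) (y : A) (j : ℕ) : φ (row L m i y j) = row L m i (φ y) j := by
  induction j with
  | zero => simp [row]
  | succ j ih => simp [row, ih]

lemma map_hor (L m : ℕ) (x y : A) (k : ℕ) : φ (hor L m x y k) = hor L m (φ x) (φ y) k := by
  induction k with
  | zero => simp [hor]
  | succ k ih => simp [hor, ih, map_row]

lemma map_dhor (L m : ℕ) (x y : A) (k : ℕ) : φ (dhor L m x y k) = dhor L m (φ x) (φ y) k := by
  induction k with
  | zero => simp [dhor]
  | succ k ih => simp [dhor, ih, map_hor]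

lemma map_ddhor (L m : ℕ) (x y : A) (k : ℕ) : φ (ddhor L m x y k) = ddhor L m (φ x) (φ y) k := by
  induction k with
  | zero => simp [ddhor]
  | succ k ih => simp [ddhor, ih, map_dhor]

end generic

lemma hasDerivAt_hor (L m : ℕ) (x y : ℝ) (k : ℕ) :
    HasDerivAt (fun x => hor L m x y k) (dhor L m x y k) x := by
  induction k with
  | zero => simpa [hor, dhor] using hasDerivAt_const x (0:ℝ)
  | succ k ih =>
    simp only [hor, dhor]
    refine ((ih.fun_mul (hasDerivAt_id' x)).add_const _).congr_deriv ?_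
    ring

lemma hasDerivAt_dhor (L m : ℕ) (x y : ℝ) (k : ℕ) :
    HasDerivAt (fun x => dhor L m x y k) (2 * ddhor L m x y k) x := by
  induction k with
  | zero => simpa [dhor, ddhor] using hasDerivAt_const x (0:ℝ)
  | succ k ih =>
    simp only [dhor, ddhor]
    refine ((ih.fun_mul (hasDerivAt_id' x)).fun_add (hasDerivAt_hor L m x y k)).congr_deriv ?_
    ring

lemma abs_dig_le (L t : ℕ) : |dig L t| ≤ 2 ^ 63 := by
  have h : (L >>> (64 * t)) % 2 ^ 64 < 2 ^ 64 := Nat.mod_lt _ (by positivity)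
  unfold dig
  rw [abs_le]
  omega

lemma Bnd.row (L m i j : ℕ) : Bnd (row L m i PY (j + 1)) 0 j ((j + 1) * 2 ^ 63) := by
  induction j with
  | zero =>
    simp only [LinNi.row, zero_mul, zero_add]
    exact (Bnd.int _).mono le_rfl le_rfl (by have := abs_dig_le L (i * (m + 1) + 0); simpa using this)
  | succ j ih =>
    rw [LinNi.row]
    refine ((ih.mul Bnd.Y).add (Bnd.int _)).mono (by omega) (by omega) ?_
    have := abs_dig_le L (i * (m + 1) + (j + 1))
    push_cast
    linarith

lemma Bnd.hor {x : Pol} {d : ℕ} (hx : Bnd x d 0 1) (L m k : ℕ) :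
    Bnd (hor L m x PY (k + 1)) (k * d) m ((k + 1) * ((m + 1) * 2 ^ 63)) := by
  induction k with
  | zero =>
    simp only [LinNi.hor, zero_mul, zero_add]
    exact (Bnd.row L m 0 m).mono le_rfl le_rfl (by simp)
  | succ k ih =>
    rw [LinNi.hor]
    refine ((ih.mul hx).add (Bnd.row L m _ m)).mono (by rw [add_one_mul]; omega) (by omega) ?_
    push_cast
    linarith

lemma Bnd.dhor {x : Pol} {d : ℕ} (hx : Bnd x d 0 1) (L m k : ℕ) :
    Bnd (dhor L m x PY (k + 1)) (k * d) m ((k + 1) * ((k + 1) * ((m + 1) * 2 ^ 63))) := by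
  induction k with
  | zero =>
    simp only [LinNi.dhor, LinNi.hor, zero_mul, zero_add]
    exact Bnd.zero.mono le_rfl (by omega) (by positivity)
  | succ k ih =>
    rw [LinNi.dhor]
    refine ((ih.mul hx).add (Bnd.hor hx L m k)).mono (by rw [add_one_mul]; omega) (by omega) ?_
    have h0 : (0:ℤ) ≤ (m + 1) * 2 ^ 63 := by positivity
    push_cast
    nlinarith

lemma Bnd.ddhor {x : Pol} {d : ℕ} (hx : Bnd x d 0 1) (L m k : ℕ) :
    Bnd (ddhor L m x PY (k + 1)) (k * d) m
      ((k + 1) * ((k + 1) * ((k + 1) * ((m + 1) * 2 ^ 63)))) := by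
  induction k with
  | zero =>
    simp only [LinNi.ddhor, LinNi.dhor, zero_mul, zero_add]
    exact Bnd.zero.mono le_rfl (by omega) (by positivity)
  | succ k ih =>
    rw [LinNi.ddhor]
    refine ((ih.mul hx).add (Bnd.dhor hx L m k)).mono (by rw [add_one_mul]; omega) (by omega) ?_
    have h0 : (0:ℤ) ≤ (m + 1) * 2 ^ 63 := by positivity
    have hk : (0:ℤ) ≤ k := by positivity
    have h1 : 0 ≤ (k:ℤ) * ((m + 1) * 2 ^ 63) := by positivity
    have h2 : 0 ≤ (k:ℤ) * (k * ((m + 1) * 2 ^ 63)) := by positivity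
    push_cast
    nlinarith

/-! ### kernel versions -/

/-- shifted digit -/
def kdig (L t : ℕ) : ℕ := Nat.mod (Nat.shiftRight L (Nat.mul 64 t)) 18446744073709551616

/-- shifted row -/
def krow (L m i y j : ℕ) : ℕ :=
  Nat.rec 0 (fun j ih => Nat.add (Nat.mul ih y) (kdig L (Nat.add (Nat.mul i (Nat.succ m)) j))) j

/-- the shift of a row -/
def orow (y j : ℕ) : ℕ := Nat.rec 0 (fun _ ih => Nat.add (Nat.mul ih y) 9223372036854775808) j

/-- row -/
def krw (L m i y : ℕ) : ℤ := Int.subNatNat (krow L m i y (Nat.succ m)) (orow y (Nat.succ m))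

/-- value -/
def khor (L m : ℕ) (x : ℤ) (y k : ℕ) : ℤ :=
  Nat.rec (Int.ofNat 0) (fun i ih => Int.add (Int.mul ih x) (krw L m i y)) k

/-- derivative -/
def kdhor (L m : ℕ) (x : ℤ) (y k : ℕ) : ℤ :=
  Nat.rec (Int.ofNat 0) (fun i ih => Int.add (Int.mul ih x) (khor L m x y i)) k

/-- half the second derivative -/
def kddhor (L m : ℕ) (x : ℤ) (y k : ℕ) : ℤ :=
  Nat.rec (Int.ofNat 0) (fun i ih => Int.add (Int.mul ih x) (kdhor L m x y i)) k

lemma kdig_eq (L t : ℕ) : ((kdig L t : ℕ) : ℤ) = dig L t + 2 ^ 63 := by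
  show (((L >>> (64 * t)) % 18446744073709551616 : ℕ) : ℤ) = dig L t + 2 ^ 63
  unfold dig
  norm_num

lemma krow_eq (L m i y j : ℕ) :
    (krow L m i y j : ℤ) = row L m i (y : ℤ) j + (orow y j : ℤ) := by
  induction j with
  | zero => simp [krow, orow, row]
  | succ j ih =>
    have e1 : krow L m i y (j + 1) = krow L m i y j * y + kdig L (i * (m + 1) + j) := rfl
    have e2 : orow y (j + 1) = orow y j * y + 9223372036854775808 := rfl
    rw [e1, e2, row]
    push_cast
    rw [ih, kdig_eq]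
    norm_num
    ring

lemma krw_eq (L m i y : ℕ) : krw L m i y = row L m i (y : ℤ) (m + 1) := by
  unfold krw
  rw [Int.subNatNat_eq_coe]
  have := krow_eq L m i y (m + 1)
  show ((krow L m i y (m + 1) : ℕ) : ℤ) - (orow y (m + 1) : ℕ) = _
  rw [this]
  ring

lemma khor_eq (L m : ℕ) (x : ℤ) (y k : ℕ) : khor L m x y k = hor L m x (y : ℤ) k := by
  induction k with
  | zero => rfl
  | succ k ih =>
    have e1 : khor L m x y (k + 1) = khor L m x y k * x + krw L m k y := rfl
    rw [e1, hor, ih, krw_eq]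

lemma kdhor_eq (L m : ℕ) (x : ℤ) (y k : ℕ) : kdhor L m x y k = dhor L m x (y : ℤ) k := by
  induction k with
  | zero => rfl
  | succ k ih =>
    have e1 : kdhor L m x y (k + 1) = kdhor L m x y k * x + khor L m x y k := rfl
    rw [e1, dhor, ih, khor_eq]

lemma kddhor_eq (L m : ℕ) (x : ℤ) (y k : ℕ) : kddhor L m x y k = ddhor L m x (y : ℤ) k := by
  induction k with
  | zero => rfl
  | succ k ih =>
    have e1 : kddhor L m x y (k + 1) = kddhor L m x y k * x + kdhor L m x y k := rfl
    rw [e1, ddhor, ih, kdhor_eq]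

end LinNi
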