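import Pool.Agent.Lib.MP_0170ef_an.Mono

/-!
First zero `T a` of the physical solution `V 1 a`, and the analytic main statement `MainFact`
from which the frozen statement follows.
-/

set_option autoImplicit false

open Set Filter Topology

namespace LinNi

/-- the solution with initial value `a` vanishes somewhere -/
def Crosses (a : ℝ) : Prop := ∃ t, 0 < t ∧ V 1 a t = 0

open Classical in
/-- the zero of `V 1 a` (junk value `0` if there is none) -/
noncomputable def T (a : ℝ) : ℝ := if h : Crosses a then h.choose else 0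

lemma T_pos {a : ℝ} (h : Crosses a) : 0 < T a := by
  unfold T; rw [dif_pos h]; exact h.choose_spec.1

lemma V_T {a : ℝ} (h : Crosses a) : V 1 a (T a) = 0 := by
  unfold T; rw [dif_pos h]; exact h.choose_spec.2

lemma one_mem : (1:ℝ) ∈ Icc (0:ℝ) 1 := ⟨by norm_num, le_rfl⟩

lemma V_pos_of_lt {a t : ℝ} (ha : 0 < a) (h : Crosses a) (ht0 : 0 ≤ t) (ht : t < T a) :
    0 < V 1 a t := by
  rw [← V_T h]
  exact V_strictAntiOn one_mem ha (mem_Ici.2 ht0) (mem_Ici.2 (T_pos h).le) ht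

lemma V_neg_of_gt {a t : ℝ} (ha : 0 < a) (h : Crosses a) (ht : T a < t) : V 1 a t < 0 := by
  rw [← V_T h]
  exact V_strictAntiOn one_mem ha (mem_Ici.2 (T_pos h).le) (mem_Ici.2 ((T_pos h).le.trans ht.le)) ht

lemma lt_T_iff {a t : ℝ} (ha : 0 < a) (h : Crosses a) (ht0 : 0 ≤ t) : t < T a ↔ 0 < V 1 a t := by
  constructor
  · exact V_pos_of_lt ha h ht0
  · intro h1
    by_contra h2
    push Not at h2
    rcases eq_or_lt_of_le h2 with h3 | h3
    · rw [← h3, V_T h] at h1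
      exact lt_irrefl _ h1
    · linarith [V_neg_of_gt ha h h3]

lemma T_lt_iff {a t : ℝ} (ha : 0 < a) (h : Crosses a) (ht0 : 0 ≤ t) : T a < t ↔ V 1 a t < 0 := by
  constructor
  · exact V_neg_of_gt ha h
  · intro h1
    by_contra h2
    push Not at h2
    rcases eq_or_lt_of_le h2 with h3 | h3
    · rw [h3, V_T h] at h1
      exact lt_irrefl _ h1
    · linarith [V_pos_of_lt ha h ht0 h3]

lemma T_unique {a t : ℝ} (ha : 0 < a) (ht : 0 < t) (hv : V 1 a t = 0) : T a = t := by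
  have h : Crosses a := ⟨t, ht, hv⟩
  by_contra hne
  rcases lt_or_gt_of_ne hne with h1 | h1
  · linarith [V_neg_of_gt ha h h1]
  · linarith [V_pos_of_lt ha h ht.le h1]

/-- local strict quasiconvexity of `T` at `a` -/
def LocQ (a : ℝ) : Prop := ∃ δ > 0, ∀ x ∈ Ioo (a - δ) a, ∀ z ∈ Ioo a (a + δ), T a < max (T x) (T z)

/-- `T` decreases near `a` and increases near `b` for some `a < b` in the interval `(p, q)` -/
def Vee (p q : ℝ) : Prop := ∃ x a b z, p < x ∧ x < a ∧ a < b ∧ b < z ∧ z < q ∧ T a < T x ∧ T b < T z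

/-- the analytic main statement -/
def MainFact : Prop := ∃ α₁ α₂ : ℝ, 0 < α₁ ∧ α₁ < α₂ ∧ α₂ < 2 ∧ ¬ Crosses α₁ ∧ ¬ Crosses α₂ ∧
  (∀ a, 0 < a → a < α₂ → a ≠ α₁ → Crosses a ∧ LocQ a) ∧ Vee 0 α₁ ∧ Vee α₁ α₂

end LinNi
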