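import Pool.Agent.Lib.MP_0170ef_an.Poly
import Pool.Agent.Lib.MP_0170ef_an.Target

/-!
Linear systems satisfied by the divided differences (in the initial value) of the solutions.
-/

set_option autoImplicit false

open Set Filter Topology

namespace LinNi

/-- a solution of `u'' + (2/s) u' + G u = 0` on `(0, N]`, `u(0) = 1`, with `G` close to `f' (v)` -/
structure Lin (c : ℝ) (v : ℝ → ℝ) (N τ : ℝ) (G u μ : ℝ → ℝ) : Prop where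
  du : ∀ s ∈ Ioc 0 N, HasDerivAt u (μ s / s ^ 2) s
  dμ : ∀ s ∈ Ioc 0 N, HasDerivAt μ (-(s ^ 2 * (G s * u s))) s
  u0 : Tendsto u (𝓝[>] 0) (𝓝 1)
  μ0 : Tendsto μ (𝓝[>] 0) (𝓝 0)
  hG : ∀ s ∈ Ioc 0 N, |G s - fp c (v s)| ≤ τ

/-- a solution of `u'' + (2/s) u' + G u + g u₁ u₂ = 0` on `(0, N]`, `u(0) = 0`, with `G` close to
`f' (v)` and `g` close to `f'' (v) / 2` -/
structure Lin2 (c : ℝ) (v : ℝ → ℝ) (N τ : ℝ) (g u₁ u₂ G u μ : ℝ → ℝ) : Prop where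
  du : ∀ s ∈ Ioc 0 N, HasDerivAt u (μ s / s ^ 2) s
  dμ : ∀ s ∈ Ioc 0 N, HasDerivAt μ (-(s ^ 2 * (G s * u s + g s * (u₁ s * u₂ s)))) s
  u0 : Tendsto u (𝓝[>] 0) (𝓝 0)
  μ0 : Tendsto μ (𝓝[>] 0) (𝓝 0)
  hG : ∀ s ∈ Ioc 0 N, |G s - fp c (v s)| ≤ τ
  hg : ∀ s ∈ Ioc 0 N, |g s - hfp c (v s)| ≤ τ

/-- a solution of `u'' + (2/s) u' + G u = 0` on `[a, b]` with `G` close to `f' (v)` -/
structure LinI (c : ℝ) (v : ℝ → ℝ) (a b τ : ℝ) (G u μ : ℝ → ℝ) : Prop where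
  du : ∀ s ∈ Icc a b, HasDerivAt u (μ s / s ^ 2) s
  dμ : ∀ s ∈ Icc a b, HasDerivAt μ (-(s ^ 2 * (G s * u s))) s
  hG : ∀ s ∈ Icc a b, |G s - fp c (v s)| ≤ τ

lemma Lin.linI {c : ℝ} {v : ℝ → ℝ} {N τ a : ℝ} {G u μ : ℝ → ℝ} (h : Lin c v N τ G u μ)
    (ha : 0 < a) : LinI c v a N τ G u μ :=
  ⟨fun s hs => h.du s ⟨ha.trans_le hs.1, hs.2⟩, fun s hs => h.dμ s ⟨ha.trans_le hs.1, hs.2⟩,
    fun s hs => h.hG s ⟨ha.trans_le hs.1, hs.2⟩⟩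

lemma Lin.mono {c : ℝ} {v : ℝ → ℝ} {N N' τ : ℝ} {G u μ : ℝ → ℝ} (h : Lin c v N τ G u μ)
    (hN : N' ≤ N) : Lin c v N' τ G u μ :=
  ⟨fun s hs => h.du s ⟨hs.1, hs.2.trans hN⟩, fun s hs => h.dμ s ⟨hs.1, hs.2.trans hN⟩, h.u0, h.μ0,
    fun s hs => h.hG s ⟨hs.1, hs.2.trans hN⟩⟩

/-- type `L`: `T` decreases near `a` -/
def LocL (a : ℝ) : Prop := Crosses a ∧ ∃ δ > 0, ∀ x ∈ Ioo (a - δ) a, T a < T x
/-- type `R`: `T` increases near `a` -/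
def LocR (a : ℝ) : Prop := Crosses a ∧ ∃ δ > 0, ∀ x ∈ Ioo a (a + δ), T a < T x

lemma LocL.locQ {a : ℝ} (h : LocL a) : Crosses a ∧ LocQ a := by
  obtain ⟨h1, δ, hδ, h2⟩ := h
  exact ⟨h1, δ, hδ, fun x hx z _ => lt_max_of_lt_left (h2 x hx)⟩

lemma LocR.locQ {a : ℝ} (h : LocR a) : Crosses a ∧ LocQ a := by
  obtain ⟨h1, δ, hδ, h2⟩ := h
  exact ⟨h1, δ, hδ, fun x _ z hz => lt_max_of_lt_right (h2 z hz)⟩

lemma vee_of {p q a b : ℝ} (ha : LocL a) (hb : LocR b) (hp : p < a) (hab : a < b) (hq : b < q) :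
    Vee p q := by
  obtain ⟨-, δ, hδ, h2⟩ := ha
  obtain ⟨-, δ', hδ', h2'⟩ := hb
  have e1 : max (a - δ) p < a := max_lt (by linarith) hp
  obtain ⟨x, hx1, hx2⟩ := exists_between e1
  have e2 : b < min (b + δ') q := lt_min (by linarith) hq
  obtain ⟨z, hz1, hz2⟩ := exists_between e2
  exact ⟨x, a, b, z, (le_max_right _ _).trans_lt hx1, hx2, hab, hz1,
    hz2.trans_le (min_le_right _ _), h2 x ⟨(le_max_left _ _).trans_lt hx1, hx2⟩,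
    h2' z ⟨hz1, hz2.trans_le (min_le_left _ _)⟩⟩

end LinNi
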