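import Pool.Agent.Lib.MP_0170ef_an.FirstP

/-!
Soundness of the links between consecutive patches.
-/

set_option autoImplicit false

open Set Filter Topology

namespace LinNi

lemma Bnd.one : Bnd (1 : Pol) 0 0 1 := by simpa using Bnd.int 1

lemma Bnd.negone : Bnd (-1 : Pol) 0 0 1 := Bnd.one.neg

lemma Cfg.one_ok {C : Cfg} (hC : C.Good) : C.one.Ok := by
  refine ⟨hC.ok.1, ?_⟩
  have h1 := hC.ok.2
  have h2 : 1 ≤ C.R := by have := hC.hR; omega
  show 1 * C.S * 2 ^ (C.h + 1) < 2 ^ C.b - 1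
  refine lt_of_le_of_lt ?_ h1
  gcongr

/-- norm of a polynomial in `e` only -/
lemma kn_one {C : Cfg} (hC : C.Good) {p : Pol} {m : ℕ} {B : ℤ} (hp : Bnd p 0 m B)
    (hB : B < 2 ^ C.h) (hm : m < C.S) {z : ℤ} (hz : z = ev (kX C) (kY C : ℤ) p) {r e : ℝ}
    (hr : |r| ≤ 1) (he : |e| ≤ 1) : |ev r e p| ≤ kn C.one z := by
  have h1 := kn_eq (Cfg.one_ok hC) hp (show B < 2 ^ C.one.h from hB) (show 0 < 1 by norm_num)
    (show m < C.one.S from hm) (z := z) hz
  have h2 := abs_ev_le hr he p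
  refine h2.trans ?_
  rw [← h1]
  simp

lemma same_iff {C C' : Cfg} (h : same C C' = true) :
    C.k = C'.k ∧ C.c0 = C'.c0 ∧ C.c1 = C'.c1 ∧ C'.m < C.S := by
  simp only [same, Bool.and_eq_true, Nat.beq_eq, Nat.ble_eq] at h
  exact ⟨h.1.1, h.1.2, h.2.1, h.2.2⟩

lemma same_U {C C' : Cfg} (h : same C C' = true) : C.U = C'.U := by
  unfold Cfg.U; rw [(same_iff h).1]

lemma same_c {C C' : Cfg} (h : same C C' = true) (e : ℝ) : C.c e = C'.c e := by
  unfold Cfg.c; rw [same_U h, (same_iff h).2.1, (same_iff h).2.2.1]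

lemma jmp_real {h m2 m0 l0 l1 : ℕ} {U : ℝ} (hU : 0 < U) (hh : 0 < h)
    (hj : jmp h m2 m0 l0 l1 = true) : (m2:ℝ) / U + ((l1:ℝ) / (h * U) + 3 / 2 * (l0 / U)) ≤ m0 / U := by
  simp only [jmp, Nat.ble_eq] at hj
  have hj' : ((2 * h * m2 + 2 * l1 + 3 * h * l0 : ℕ) : ℝ) ≤ ((2 * h * m0 : ℕ) : ℝ) := by
    exact_mod_cast hj
  push_cast at hj'
  have hhr : (0:ℝ) < h := by exact_mod_cast hh
  have e : (m2:ℝ) / U + ((l1:ℝ) / (h * U) + 3 / 2 * (l0 / U)) =
      (2 * h * m2 + 2 * l1 + 3 * h * l0) / (2 * h * U) := by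
    field_simp
    ring
  rw [e, div_le_div_iff₀ (by positivity) hU]
  calc (2 * (h:ℝ) * m2 + 2 * l1 + 3 * h * l0) * U ≤ (2 * h * m0) * U := by gcongr
    _ = _ := by ring

/-- general form of a link -/
lemma link_gen {u μ s x y x' y' m2 m0 d : ℝ} (hm2 : 0 ≤ m2) (hd : m2 + d ≤ m0) (hs : 0 < s)
    (h : en (u - y) (μ - s ^ 2 * x) s ≤ m2 ^ 2) (hj : |s * x - s * x'| + 3 / 2 * |y - y'| ≤ d) :
    en (u - y') (μ - s ^ 2 * x') s ≤ m0 ^ 2 := by
  have h1 : ((μ - s ^ 2 * x) / s + (u - y) / 2) ^ 2 + (u - y) ^ 2 ≤ m2 ^ 2 := h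
  have h2 := en_jump hm2 h1 hj
  have hd0 : 0 ≤ d := le_trans (by positivity) hj
  unfold en
  have e1 : (μ - s ^ 2 * x') / s = (μ - s ^ 2 * x) / s + (s * x - s * x') := by
    field_simp
    ring
  have e2 : u - y' = (u - y) + (y - y') := by ring
  rw [e1, e2]
  exact h2.trans (pow_le_pow_left₀ (by linarith) hd 2)

/-- bounds for the jumps at a link -/
theorem link_bounds {p q : Patch} (hp : p.Geo) (hq : q.Geo) (h : lnk p q = true) (L L' : ℕ)
    {e : ℝ} (he : |e| ≤ 1) : p.b = q.a ∧ p.C.U = q.C.U ∧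
      |p.apx L e p.b - q.apx L' e p.b| ≤ (lk0 p.C q.C L L' : ℝ) / p.C.U ∧
      |p.b * p.dapx L e p.b - p.b * q.dapx L' e p.b| ≤
        (lk1 p.C q.C ((p.A + p.H) * q.H) ((q.A - q.H) * p.H) L L' : ℝ) /
          (((p.H * q.H : ℕ) : ℝ) * p.C.U) := by
  simp only [lnk, Bool.and_eq_true, Nat.beq_eq, Nat.ble_eq] at h
  obtain ⟨⟨hsame, htime⟩, hb0, hb1⟩ := h
  have hU := p.C.U_pos
  have hH := hp.H
  have hD := hp.D
  have hH' := hq.H
  have hD' := hq.D
  have hUU := same_U hsame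
  have htime' : ((p.A:ℝ) + p.H) * q.D = ((q.A:ℝ) - q.H) * p.D := by
    have h1 : (((p.A + p.H) * q.D : ℕ) : ℝ) = (((q.A - q.H) * p.D : ℕ) : ℝ) := by rw [htime]
    push_cast [Nat.cast_sub hq.hHA.le] at h1
    exact h1
  have hab : p.b = q.a := by
    unfold Patch.b Patch.a
    rw [div_eq_div_iff hD.ne' hD'.ne']
    exact htime'
  have lp : p.loc p.b = 1 := by
    unfold Patch.loc Patch.b
    field_simp
    ring
  have lq : q.loc p.b = -1 := by
    rw [hab]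
    unfold Patch.loc Patch.a
    field_simp
    ring
  have hm' := (same_iff hsame).2.2.2
  have hm : p.C.m < p.C.S := by have := hp.hC.hS; omega
  have hb0' : ((b0 p.C : ℤ) + b0 q.C) < 2 ^ p.C.h := by
    have : ((b0 p.C + b0 q.C : ℕ) : ℤ) < ((2 ^ p.C.h : ℕ) : ℤ) := by exact_mod_cast hb0
    push_cast at this; exact this
  have hb1' : (((p.A + p.H) * q.H * b1 p.C + (q.A - q.H) * p.H * b1 q.C : ℕ) : ℤ) < 2 ^ p.C.h := by
    have : (((p.A + p.H) * q.H * b1 p.C + (q.A - q.H) * p.H * b1 q.C : ℕ) : ℤ) <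
      ((2 ^ p.C.h : ℕ) : ℤ) := by exact_mod_cast hb1
    rw [Nat.cast_pow] at this; exact this
  refine ⟨hab, hUU, ?_, ?_⟩
  · -- value
    have h1 := kn_one hp.hC
      (p := hor L p.C.m (1 : Pol) PY (p.C.n + 1) - hor L' q.C.m (-1 : Pol) PY (q.C.n + 1))
      (m := max p.C.m q.C.m) (B := b0 p.C + b0 q.C)
      (((Bnd.hor Bnd.one L p.C.m p.C.n).sub (Bnd.hor Bnd.negone L' q.C.m q.C.n)).mono
        (by omega) le_rfl (by unfold b0; push_cast; rfl)) hb0' (by omega)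
      (z := Int.sub (khor L p.C.m (Int.ofNat 1) (kY p.C) (Nat.succ p.C.n))
        (khor L' q.C.m (Int.neg (Int.ofNat 1)) (kY p.C) (Nat.succ q.C.n))) (by
        rw [map_sub, map_hor, map_hor, map_one, map_neg, map_one, ev_PY, khor_eq, khor_eq]; rfl)
      (r := 1) (by norm_num) he
    rw [map_sub, map_hor, map_hor, map_one, map_neg, map_one, ev_PY] at h1
    have e1 : p.apx L e p.b - q.apx L' e p.b = (hor L p.C.m (1:ℝ) e (p.C.n + 1) -
        hor L' q.C.m (-1:ℝ) e (q.C.n + 1)) / p.C.U := by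
      unfold Patch.apx; rw [lp, lq, ← hUU]; ring
    rw [e1, abs_div, abs_of_pos hU]
    gcongr
    exact h1
  · -- derivative
    have h1 := kn_one hp.hC
      (p := (((p.A + p.H) * q.H : ℕ) : Pol) * dhor L p.C.m (1 : Pol) PY (p.C.n + 1) -
        (((q.A - q.H) * p.H : ℕ) : Pol) * dhor L' q.C.m (-1 : Pol) PY (q.C.n + 1))
      (m := max p.C.m q.C.m)
      (B := (((p.A + p.H) * q.H * b1 p.C + (q.A - q.H) * p.H * b1 q.C : ℕ) : ℤ))
      ((((Bnd.nat _).mul (Bnd.dhor Bnd.one L p.C.m p.C.n)).sub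
        ((Bnd.nat _).mul (Bnd.dhor Bnd.negone L' q.C.m q.C.n))).mono
        (by omega) (by omega) (by unfold b1 b0; push_cast; rfl)) hb1' (by omega)
      (z := Int.sub (Int.mul (Int.ofNat ((p.A + p.H) * q.H))
          (kdhor L p.C.m (Int.ofNat 1) (kY p.C) (Nat.succ p.C.n)))
        (Int.mul (Int.ofNat ((q.A - q.H) * p.H))
          (kdhor L' q.C.m (Int.neg (Int.ofNat 1)) (kY p.C) (Nat.succ q.C.n)))) (by
        rw [map_sub, map_mul, map_mul, map_natCast, map_natCast, map_dhor, map_dhor, map_one,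
          map_neg, map_one, ev_PY, kdhor_eq, kdhor_eq]; rfl)
      (r := 1) (by norm_num) he
    rw [map_sub, map_mul, map_mul, map_natCast, map_natCast, map_dhor, map_dhor, map_one,
      map_neg, map_one, ev_PY] at h1
    have e1 : p.b * p.dapx L e p.b - p.b * q.dapx L' e p.b =
        ((((p.A + p.H) * q.H : ℕ) : ℝ) * dhor L p.C.m (1:ℝ) e (p.C.n + 1) -
        (((q.A - q.H) * p.H : ℕ) : ℝ) * dhor L' q.C.m (-1:ℝ) e (q.C.n + 1)) /
          (((p.H * q.H : ℕ) : ℝ) * p.C.U) := by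
      unfold Patch.dapx
      rw [lp, lq, ← hUU]
      push_cast [Nat.cast_sub hq.hHA.le]
      have e2 : p.b * (q.D:ℝ) = (q.A:ℝ) - q.H := by
        rw [hab]; unfold Patch.a; field_simp
      have e3 : p.b * (p.D:ℝ) = (p.A:ℝ) + p.H := by
        unfold Patch.b; field_simp
      rw [← e2, ← e3]
      field_simp
    rw [e1, abs_div, abs_of_pos (by push_cast; positivity : 0 < (((p.H * q.H : ℕ) : ℝ) * p.C.U))]
    gcongr
    exact h1

/-- soundness of a link -/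
theorem link_sound {p q : Patch} (hp : p.Geo) (hq : q.Geo) (h : lnk p q = true) {L L' m2 m0 : ℕ}
    (hj : jmp (p.H * q.H) m2 m0 (lk0 p.C q.C L L')
      (lk1 p.C q.C ((p.A + p.H) * q.H) ((q.A - q.H) * p.H) L L') = true)
    {e : ℝ} (he : |e| ≤ 1) {u μ : ℝ → ℝ} (h0 : p.err L e u μ p.b ≤ (m2 / p.C.U) ^ 2) :
    q.err L' e u μ q.a ≤ (m0 / q.C.U) ^ 2 := by
  have hU := p.C.U_pos
  obtain ⟨hab, hUU, c0, c1⟩ := link_bounds hp hq h L L' he
  rw [← hab, ← hUU]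
  have hbp : 0 < p.b := hp.a_pos.trans hp.ab
  refine link_gen (by positivity) (jmp_real hU (Nat.mul_pos hp.hH hq.hH) hj) hbp h0 ?_
  linarith

/-- soundness of the first link -/
theorem linkf_sound {p : First} {q : Patch} (hp : p.Geo) (hq : q.Geo) (h : lnf p q = true)
    {L L' m2 m0 : ℕ} {αz : ℤ} {αP : Pol} {α : ℝ}
    (hj : jmp q.H m2 m0 (lf0 p.C q.C αz L L') (lf1 p.C q.C q.H (q.A - q.H) L L') = true)
    {e : ℝ} (he : |e| ≤ 1) (hαz : αz = ev (kX p.C) (kY p.C : ℤ) αP)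
    (hαP : Bnd αP 0 1 ((p.a0 + p.a1 + 2 ^ p.C.k : ℕ) : ℤ)) (hα : ev (1:ℝ) e αP = α)
    {u μ : ℝ → ℝ} (h0 : p.err α L e u μ p.b ≤ (m2 / p.C.U) ^ 2) :
    q.err L' e u μ q.a ≤ (m0 / q.C.U) ^ 2 := by
  simp only [lnf, Bool.and_eq_true, Nat.beq_eq, Nat.ble_eq] at h
  obtain ⟨⟨hsame, htime⟩, hb0, hb1⟩ := h
  have hU := p.C.U_pos
  have hH := hp.H
  have hD := hp.D
  have hH' := hq.H
  have hD' := hq.D
  have hUU := same_U hsame
  have htime' : (p.H:ℝ) * q.D = ((q.A:ℝ) - q.H) * p.D := by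
    have h1 : ((p.H * q.D : ℕ) : ℝ) = (((q.A - q.H) * p.D : ℕ) : ℝ) := by rw [htime]
    push_cast [Nat.cast_sub hq.hHA.le] at h1
    exact h1
  have hab : p.b = q.a := by
    unfold First.b Patch.a
    rw [div_eq_div_iff hD.ne' hD'.ne']
    exact htime'
  rw [← hab, ← hUU]
  have hbp : 0 < p.b := hp.b_pos
  refine link_gen (by positivity) (jmp_real hU hq.hH hj) hbp h0 ?_
  have lp : p.loc p.b = 1 := by
    unfold First.loc First.b
    field_simp
  have lq : q.loc p.b = -1 := by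
    rw [hab]
    unfold Patch.loc Patch.a
    field_simp
    ring
  have hm' := (same_iff hsame).2.2.2
  have hS := hp.hC.hS
  have hb0' : (((p.a0 + p.a1 + 2 ^ p.C.k) + b0 p.C + b0 q.C : ℕ) : ℤ) < 2 ^ p.C.h := by
    have : (((p.a0 + p.a1 + 2 ^ p.C.k) + b0 p.C + b0 q.C : ℕ) : ℤ) <
      ((2 ^ p.C.h : ℕ) : ℤ) := by exact_mod_cast hb0
    rw [Nat.cast_pow 2 p.C.h] at this; exact this
  have hb1' : ((q.H * (2 * b0 p.C + b1 p.C) + (q.A - q.H) * b1 q.C : ℕ) : ℤ) < 2 ^ p.C.h := by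
    have : ((q.H * (2 * b0 p.C + b1 p.C) + (q.A - q.H) * b1 q.C : ℕ) : ℤ) <
      ((2 ^ p.C.h : ℕ) : ℤ) := by exact_mod_cast hb1
    rw [Nat.cast_pow] at this; exact this
  -- value
  have c0 : |p.apx α L e p.b - q.apx L' e p.b| ≤ (lf0 p.C q.C αz L L' : ℝ) / p.C.U := by
    have h1 := kn_one hp.hC
      (p := (αP + hor L p.C.m (1 : Pol) PY (p.C.n + 1)) - hor L' q.C.m (-1 : Pol) PY (q.C.n + 1))
      (m := max (max 1 p.C.m) q.C.m)
      (B := (((p.a0 + p.a1 + 2 ^ p.C.k) + b0 p.C + b0 q.C : ℕ) : ℤ))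
      (((hαP.add (Bnd.hor Bnd.one L p.C.m p.C.n)).sub (Bnd.hor Bnd.negone L' q.C.m q.C.n)).mono
        (by omega) le_rfl (by unfold b0; push_cast; rfl)) hb0' (by omega)
      (z := Int.sub (Int.add αz (khor L p.C.m (Int.ofNat 1) (kY p.C) (Nat.succ p.C.n)))
        (khor L' q.C.m (Int.neg (Int.ofNat 1)) (kY p.C) (Nat.succ q.C.n))) (by
        rw [map_sub, map_add, map_hor, map_hor, map_one, map_neg, map_one, ev_PY, khor_eq, khor_eq,
          ← hαz]; rfl)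
      (r := 1) (by norm_num) he
    rw [map_sub, map_add, map_hor, map_hor, map_one, map_neg, map_one, ev_PY, hα] at h1
    have e1 : p.apx α L e p.b - q.apx L' e p.b = (α + hor L p.C.m (1:ℝ) e (p.C.n + 1) -
        hor L' q.C.m (-1:ℝ) e (q.C.n + 1)) / p.C.U := by
      unfold Patch.apx First.apx; rw [lp, lq, ← hUU]; ring
    rw [e1, abs_div, abs_of_pos hU]
    gcongr
    exact h1
  have c1 : |p.b * p.dapx L e p.b - p.b * q.dapx L' e p.b| ≤
      (lf1 p.C q.C q.H (q.A - q.H) L L' : ℝ) / ((q.H : ℝ) * p.C.U) := by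
    have h1 := kn_one hp.hC
      (p := ((q.H : ℕ) : Pol) * (((2 : ℕ) : Pol) * hor L p.C.m (1 : Pol) PY (p.C.n + 1) +
          dhor L p.C.m (1 : Pol) PY (p.C.n + 1)) -
        ((q.A - q.H : ℕ) : Pol) * dhor L' q.C.m (-1 : Pol) PY (q.C.n + 1))
      (m := max p.C.m q.C.m)
      (B := ((q.H * (2 * b0 p.C + b1 p.C) + (q.A - q.H) * b1 q.C : ℕ) : ℤ))
      ((((Bnd.nat _).mul (((Bnd.nat 2).mul (Bnd.hor Bnd.one L p.C.m p.C.n)).add
        (Bnd.dhor Bnd.one L p.C.m p.C.n))).sub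
        ((Bnd.nat _).mul (Bnd.dhor Bnd.negone L' q.C.m q.C.n))).mono
        (by omega) (by omega) (by unfold b1 b0; push_cast; rfl)) hb1' (by omega)
      (z := Int.sub (Int.mul (Int.ofNat q.H)
          (Int.add (Int.mul (Int.ofNat 2) (khor L p.C.m (Int.ofNat 1) (kY p.C) (Nat.succ p.C.n)))
          (kdhor L p.C.m (Int.ofNat 1) (kY p.C) (Nat.succ p.C.n))))
        (Int.mul (Int.ofNat (q.A - q.H))
          (kdhor L' q.C.m (Int.neg (Int.ofNat 1)) (kY p.C) (Nat.succ q.C.n)))) (by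
        rw [map_sub, map_mul, map_mul, map_add, map_mul, map_natCast, map_natCast, map_natCast,
          map_hor, map_dhor, map_dhor, map_one,
          map_neg, map_one, ev_PY, kdhor_eq, kdhor_eq, khor_eq]; rfl)
      (r := 1) (by norm_num) he
    rw [map_sub, map_mul, map_mul, map_add, map_mul, map_natCast, map_natCast, map_natCast,
      map_hor, map_dhor, map_dhor, map_one, map_neg, map_one, ev_PY] at h1
    have e1 : p.b * p.dapx L e p.b - p.b * q.dapx L' e p.b =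
        ((q.H : ℝ) * (((2 : ℕ) : ℝ) * hor L p.C.m (1:ℝ) e (p.C.n + 1) +
          dhor L p.C.m (1:ℝ) e (p.C.n + 1)) -
        ((q.A - q.H : ℕ) : ℝ) * dhor L' q.C.m (-1:ℝ) e (q.C.n + 1)) / ((q.H : ℝ) * p.C.U) := by
      unfold Patch.dapx First.dapx
      rw [lp, lq, ← hUU]
      push_cast [Nat.cast_sub hq.hHA.le]
      have e2 : p.b * (q.D:ℝ) = (q.A:ℝ) - q.H := by
        rw [hab]; unfold Patch.a; field_simp
      have e3 : p.b * (p.D:ℝ) = (p.H:ℝ) := by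
        unfold First.b; field_simp
      rw [← e2]
      have e4 : p.b = p.H / p.D := rfl
      rw [e4]
      field_simp
    rw [e1, abs_div, abs_of_pos (by positivity : 0 < ((q.H : ℝ) * p.C.U))]
    gcongr
    exact h1
  linarith

end LinNi
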