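import Pool.Agent.Lib.MP_0170ef_an.Rad

/-!
Monotonicity of radial solutions, Lipschitz dependence on the initial value.
-/

set_option autoImplicit false

open Set Filter Topology

namespace LinNi

lemma F_pos {c v : ℝ} (hc : c ∈ Icc (0:ℝ) 1) (hv : 0 < v) : 0 < F c v := by
  unfold F f
  have h1 : 0 < cl v := by
    unfold cl
    exact lt_max_of_lt_right (lt_min hv (by norm_num))
  have h2 := hc.1
  positivity

lemma M_antitoneOn {c : ℝ} (hc : c ∈ Icc (0:ℝ) 1) (a : ℝ) : Antitone (M c a) := by
  apply antitone_of_deriv_nonpos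
  · intro t; exact (hasDerivAt_M hc a t).differentiableAt
  · intro t
    rw [(hasDerivAt_M hc a t).deriv]
    have := F_nonneg hc (V c a t)
    have : 0 ≤ t ^ 2 * F c (V c a t) := by positivity
    linarith

lemma M_neg {c a t : ℝ} (hc : c ∈ Icc (0:ℝ) 1) (ha : 0 < a) (ht : 0 < t) : M c a t < 0 := by
  have h1 : ∀ᶠ s in 𝓝 (0:ℝ), 0 < V c a s := by
    have := (V_cont hc a).tendsto 0
    rw [V_zero hc a] at this
    exact this.eventually (lt_mem_nhds ha)
  obtain ⟨ε, hε, h2⟩ := Metric.eventually_nhds_iff.1 h1
  set δ := min (ε / 2) t with hδ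
  have hδ0 : 0 < δ := lt_min (by linarith) ht
  have h3 : StrictAntiOn (M c a) (Icc 0 δ) := by
    apply strictAntiOn_of_deriv_neg (convex_Icc _ _)
    · intro s _; exact (hasDerivAt_M hc a s).continuousAt.continuousWithinAt
    · intro s hs
      rw [interior_Icc] at hs
      rw [(hasDerivAt_M hc a s).deriv]
      have h4 : 0 < V c a s := by
        apply h2
        rw [Real.dist_eq, sub_zero, abs_of_pos hs.1]
        have := min_le_left (ε / 2) t
        linarith [hs.2]
      have h5 := F_pos hc h4
      have h6 : 0 < s ^ 2 * F c (V c a s) := by have := hs.1; positivity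
      linarith
  have h7 : M c a δ < M c a 0 := h3 (left_mem_Icc.2 hδ0.le) (right_mem_Icc.2 hδ0.le) hδ0
  rw [M_zero hc a] at h7
  exact (M_antitoneOn hc a (min_le_right _ _)).trans_lt h7

lemma V_strictAntiOn {c a : ℝ} (hc : c ∈ Icc (0:ℝ) 1) (ha : 0 < a) :
    StrictAntiOn (V c a) (Ici 0) := by
  apply strictAntiOn_of_deriv_neg (convex_Ici _)
  · exact (V_cont hc a).continuousOn
  · intro s hs
    rw [interior_Ici] at hs
    have hs' : (0:ℝ) < s := hs
    rw [(solAt_VM hc a hs'.ne').1.deriv]
    exact div_neg_of_neg_of_pos (M_neg hc ha hs') (by positivity)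

lemma V_le {c a t : ℝ} (hc : c ∈ Icc (0:ℝ) 1) (ha : 0 < a) (ht : 0 ≤ t) : V c a t ≤ a := by
  have := (V_strictAntiOn hc ha).antitoneOn (mem_Ici.2 le_rfl) (mem_Ici.2 ht) ht
  rwa [V_zero hc a] at this

/-- Lipschitz dependence of `V` on the initial value -/
lemma V_lip {c a a' N t : ℝ} (hc : c ∈ Icc (0:ℝ) 1) (ht : t ∈ Icc 0 N) :
    |V c a t - V c a' t| ≤ |a - a'| * Real.exp (480 * N) := by
  have hN : 0 ≤ N := ht.1.trans ht.2
  set B := |a - a'| * Real.exp (480 * N) with hB
  have hB0 : 0 ≤ B := by positivity
  have h1 : 1 ≤ Real.exp (480 * N) := Real.one_le_exp (by positivity)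
  rcases eq_or_lt_of_le ht.1 with h0 | h0
  · rw [← h0, V_zero hc, V_zero hc, hB]
    nlinarith [abs_nonneg (a - a')]
  · have hd : ∀ s ∈ Ioc 0 t, HasDerivAt (fun s => s * V c a s - s * V c a' s)
        ((V c a s + M c a s / s) - (V c a' s + M c a' s / s)) s := by
      intro s hs
      have e1 := (hasDerivAt_id' s).fun_mul (solAt_VM hc a hs.1.ne').1
      have e2 := (hasDerivAt_id' s).fun_mul (solAt_VM hc a' hs.1.ne').1
      refine (e1.fun_sub e2).congr_deriv ?_
      have := hs.1.ne'
      field_simp
    have hbd : ∀ s ∈ Ioc 0 t, |(V c a s + M c a s / s) - (V c a' s + M c a' s / s)| ≤ B := by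
      intro s hs
      exact ((radOn_VM hc a N).lip hc (radOn_VM hc a' N) ⟨hs.1, hs.2.trans ht.2⟩).2
    have hcont : ContinuousOn (fun s => s * V c a s - s * V c a' s) (Icc 0 t) := by
      have := V_cont hc a
      have := V_cont hc a'
      fun_prop
    have hmv : |(t * V c a t - t * V c a' t) - (0 * V c a 0 - 0 * V c a' 0)| ≤ B * (t - 0) := by
      have := norm_image_sub_le_of_norm_deriv_right_le_segment (f := fun s => s * V c a s - s * V c a' s)
        (f' := fun s => if s = 0 then (a - a') else (V c a s + M c a s / s) - (V c a' s + M c a' s / s))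
        (a := 0) (b := t) (C := B) hcont ?_ ?_ t (right_mem_Icc.2 h0.le)
      · simpa [Real.norm_eq_abs] using this
      · intro s hs
        rcases eq_or_lt_of_le hs.1 with h | h
        · rw [← h]
          simp only [if_true]
          -- derivative at 0 of s * (V - V')
          have hh : HasDerivAt (fun s => s * (V c a s - V c a' s)) (V c a 0 - V c a' 0) 0 := by
            rw [hasDerivAt_iff_tendsto_slope_zero]
            have hcc : Continuous (fun s => V c a s - V c a' s) := (V_cont hc a).sub (V_cont hc a')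
            have := (hcc.tendsto 0).mono_left (nhdsWithin_le_nhds (s := {0}ᶜ))
            refine this.congr' ?_
            filter_upwards [self_mem_nhdsWithin] with r hr
            have hr' : r ≠ 0 := hr
            simp [hr']
          rw [V_zero hc, V_zero hc] at hh
          have : (fun s => s * V c a s - s * V c a' s) = fun s => s * (V c a s - V c a' s) := by
            funext s; ring
          rw [this]
          exact hh.hasDerivWithinAt
        · simp only [h.ne', if_false]
          exact (hd s ⟨h, hs.2.le⟩).hasDerivWithinAt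
      · intro s hs
        rcases eq_or_lt_of_le hs.1 with h | h
        · rw [← h]
          simp only [if_true, Real.norm_eq_abs]
          rw [hB]
          nlinarith [abs_nonneg (a - a')]
        · simp only [h.ne', if_false]
          exact hbd s ⟨h, hs.2.le⟩
    have h3 : |t * (V c a t - V c a' t)| ≤ B * t := by
      have e : t * V c a t - t * V c a' t - (0 * V c a 0 - 0 * V c a' 0) =
        t * (V c a t - V c a' t) := by ring
      rw [e, sub_zero] at hmv
      exact hmv
    rw [abs_mul, abs_of_pos h0, mul_comm] at h3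
    exact le_of_mul_le_mul_right h3 h0

lemma M_lip {c a a' N t : ℝ} (hc : c ∈ Icc (0:ℝ) 1) (ht : t ∈ Icc 0 N) :
    |M c a t - M c a' t| ≤ 2 * N * (|a - a'| * Real.exp (480 * N)) := by
  have hN : 0 ≤ N := ht.1.trans ht.2
  rcases eq_or_lt_of_le ht.1 with h0 | h0
  · rw [← h0, M_zero hc, M_zero hc]
    simp only [sub_self, abs_zero]
    positivity
  · have h1 := ((radOn_VM hc a N).lip hc (radOn_VM hc a' N) ⟨h0, ht.2⟩).2
    have h2 := V_lip (a := a) (a' := a') hc ht
    have h3 : |M c a t / t - M c a' t / t| ≤ 2 * (|a - a'| * Real.exp (480 * N)) := by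
      have e : M c a t / t - M c a' t / t =
        ((V c a t + M c a t / t) - (V c a' t + M c a' t / t)) - (V c a t - V c a' t) := by ring
      rw [e]
      refine (abs_sub _ _).trans ?_
      linarith
    have h4 : |M c a t - M c a' t| = t * |M c a t / t - M c a' t / t| := by
      rw [← sub_div, abs_div, abs_of_pos h0]
      field_simp
    rw [h4]
    have h5 : 0 ≤ |a - a'| * Real.exp (480 * N) := by positivity
    calc t * |M c a t / t - M c a' t / t| ≤ t * (2 * (|a - a'| * Real.exp (480 * N))) := by gcongr
      _ ≤ N * (2 * (|a - a'| * Real.exp (480 * N))) := by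
          gcongr
          exact ht.2
      _ = _ := by ring

end LinNi
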