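import Pool.Agent.Lib.MP_0170ef_an.Sound
import Pool.Agent.Lib.MP_0170ef_an.Lin

/-!
Soundness of the verification on a patch.
-/

set_option autoImplicit false

open Set Filter Topology

namespace LinNi

namespace Patch
variable (p : Patch)

/-- left end -/
noncomputable def a : ℝ := ((p.A:ℝ) - p.H) / p.D
/-- right end -/
noncomputable def b : ℝ := ((p.A:ℝ) + p.H) / p.D
/-- local variable -/
noncomputable def loc (s : ℝ) : ℝ := (p.D * s - p.A) / p.H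
/-- approximate solution -/
noncomputable def apx (L : ℕ) (e s : ℝ) : ℝ := hor L p.C.m (p.loc s) e (p.C.n + 1) / p.C.U
/-- its derivative -/
noncomputable def dapx (L : ℕ) (e s : ℝ) : ℝ :=
  dhor L p.C.m (p.loc s) e (p.C.n + 1) * (p.D / p.H) / p.C.U
/-- its second derivative -/
noncomputable def ddapx (L : ℕ) (e s : ℝ) : ℝ :=
  2 * ddhor L p.C.m (p.loc s) e (p.C.n + 1) * (p.D / p.H) ^ 2 / p.C.U

variable {p}

lemma hasDerivAt_apx (L : ℕ) (e s : ℝ) : HasDerivAt (p.apx L e) (p.dapx L e s) s := by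
  have h1 : HasDerivAt p.loc ((p.D:ℝ) / p.H) s := by
    have := (((hasDerivAt_id' s).const_mul (p.D:ℝ)).sub_const (p.A:ℝ)).div_const (p.H:ℝ)
    exact this.congr_deriv (by ring)
  have h2 := (hasDerivAt_hor L p.C.m (p.loc s) e (p.C.n + 1)).comp s h1
  exact h2.div_const p.C.U

lemma hasDerivAt_dapx (L : ℕ) (e s : ℝ) : HasDerivAt (p.dapx L e) (p.ddapx L e s) s := by
  have h1 : HasDerivAt p.loc ((p.D:ℝ) / p.H) s := by
    have := (((hasDerivAt_id' s).const_mul (p.D:ℝ)).sub_const (p.A:ℝ)).div_const (p.H:ℝ)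
    exact this.congr_deriv (by ring)
  have h2 := (hasDerivAt_dhor L p.C.m (p.loc s) e (p.C.n + 1)).comp s h1
  refine ((h2.mul_const ((p.D:ℝ) / p.H)).div_const p.C.U).congr_deriv ?_
  unfold ddapx
  ring

/-- geometric facts -/
structure Geo (p : Patch) : Prop where
  hC : p.C.Good
  hH : 0 < p.H
  hHA : p.H < p.A
  hD : 0 < p.D

section geo
variable (hg : p.Geo)
include hg

lemma Geo.H : (0:ℝ) < p.H := by exact_mod_cast hg.hH
lemma Geo.D : (0:ℝ) < p.D := by exact_mod_cast hg.hD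
lemma Geo.HA : (p.H:ℝ) < p.A := by exact_mod_cast hg.hHA
lemma Geo.a_pos : 0 < p.a := by
  have h1 := hg.HA
  have h2 := hg.D
  unfold Patch.a
  apply div_pos (by linarith) h2
lemma Geo.ab : p.a < p.b := by
  have h1 := hg.H
  have h2 := hg.D
  unfold Patch.a Patch.b
  gcongr
  linarith
lemma Geo.ba : p.b - p.a = 2 * p.H / p.D := by
  have h2 := hg.D
  unfold Patch.a Patch.b
  field_simp
  ring
lemma Geo.loc_mem {s : ℝ} (hs : s ∈ Icc p.a p.b) : |p.loc s| ≤ 1 := by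
  have h1 := hg.H
  have h2 := hg.D
  unfold Patch.a Patch.b at hs
  have e1 := (div_le_iff₀ h2).1 hs.1
  have e2 := (le_div_iff₀ h2).1 hs.2
  unfold Patch.loc
  rw [abs_le]
  constructor
  · rw [le_div_iff₀ h1]; linarith
  · rw [div_le_iff₀ h1]; linarith
lemma Geo.s_eq (s : ℝ) : s = ((p.A:ℝ) + p.H * p.loc s) / p.D := by
  have h1 := hg.H
  have h2 := hg.D
  unfold Patch.loc
  field_simp
  ring
lemma Geo.abs_sub {s e : ℝ} (hs : s ∈ Icc p.a p.b) (he : |e| ≤ 1) (L : ℕ) :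
    |p.apx L e s * p.C.U - cen p.C L| ≤ nu p.C L := by
  have h := abs_hor_sub_le hg.hC L (hg.loc_mem hs) he
  unfold Patch.apx
  rw [div_mul_cancel₀ _ p.C.U_pos.ne']
  exact h
lemma Geo.abs_apx {s e : ℝ} (hs : s ∈ Icc p.a p.b) (he : |e| ≤ 1) (L : ℕ) :
    |p.apx L e s| ≤ nN p.C L / p.C.U := by
  have h := abs_hor_le hg.hC L (hg.loc_mem hs) he
  unfold Patch.apx
  rw [abs_div, abs_of_pos p.C.U_pos]
  have := p.C.U_pos
  gcongr
end geo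

/-- the residual identity -/
lemma res_eq (hg : p.Geo) (L : ℕ) (e s F : ℝ) :
    s * p.ddapx L e s + 2 * p.dapx L e s + s * (F / p.C.U ^ 8) =
      gE p.C p.A p.H p.D (p.loc s) (dhor L p.C.m (p.loc s) e (p.C.n + 1))
        (ddhor L p.C.m (p.loc s) e (p.C.n + 1)) F / (p.D * p.H ^ 2 * p.C.U ^ 8) := by
  have h1 := hg.H
  have h2 := hg.D
  have hU := p.C.U_pos
  unfold Patch.ddapx Patch.dapx gE
  push_cast
  rw [pow_succ (2:ℝ) (7 * p.C.k), pow7]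
  set r := p.loc s with hr
  have hs : s = ((p.A:ℝ) + p.H * r) / p.D := hg.s_eq s
  rw [hs]
  field_simp
  ring

/-- range of `v` -/
structure Rng (p : Patch) : Prop where
  ln : 2 * p.ln < 2 ^ p.C.k
  hp : p.hp < 2 * 2 ^ p.C.k
  up : 1024 * ((p.A + p.H) * (p.A + p.H)) * (4 * (p.hp * p.hp * p.hp) * 2 ^ (4 * p.C.k) +
      7 * (p.C.c0 + p.C.c1) * (p.X * p.X * p.X * p.X * p.X * p.X)) ≤
      (1280 + p.κ) * (p.D * p.D) * 2 ^ (7 * p.C.k)
  dn : 1280 * (p.D * p.D) * 2 ^ (3 * p.C.k) +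
        4096 * ((p.A + p.H) * (p.A + p.H)) * (p.ln * p.ln * p.ln) ≤
      p.κ * (p.D * p.D) * 2 ^ (3 * p.C.k) +
        4096 * ((p.A - p.H) * (p.A - p.H)) * (p.lp * p.lp * p.lp)

lemma of_ckV (h : p.ckV = true) : p.Geo ∧ p.Rng ∧
    nbg p.C p.A p.H p.D (nbf p.C (nN p.C p.P)) < 2 ^ p.C.h ∧
    gchk p.A p.H p.κ p.m0 p.m2 p.r1 = true := by
  simp only [ckV, Bool.and_eq_true, Nat.ble_eq] at h
  obtain ⟨⟨h1, ⟨h2, h3⟩, h4⟩, ⟨h5, h6⟩, ⟨h7, h8⟩, h9, h10⟩ := h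
  exact ⟨⟨Cfg.good h1, h2, h3, h4⟩, ⟨h5, h6, h7, h8⟩, h9, h10⟩

lemma lp_ln (p : Patch) : (p.lp = 0 ∨ p.ln = 0) ∧ ((p.lp : ℤ) - p.ln = p.lo) ∧ p.hi ≤ p.hp ∧
    (p.lo ≤ p.hi) := by
  unfold lp ln hp
  have e1 : Int.neg p.lo = - p.lo := rfl
  rw [e1]
  refine ⟨by omega, by omega, by omega, ?_⟩
  unfold lo hi
  show cen p.C p.P - ((nu p.C p.P + p.mm : ℕ) : ℤ) ≤ cen p.C p.P + ((nu p.C p.P + p.mm : ℕ) : ℤ)
  have : (0:ℤ) ≤ ((nu p.C p.P + p.mm : ℕ) : ℤ) := by positivity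
  linarith

section rng
variable (hg : p.Geo) (hr : p.Rng)

/-- both values in the range -/
lemma mem_lohi (hg : p.Geo) {s e v : ℝ} (hs : s ∈ Icc p.a p.b) (he : |e| ≤ 1)
    (hv : |v - p.apx p.P e s| ≤ p.mm / p.C.U) :
    (p.lo / p.C.U ≤ v ∧ v ≤ p.hi / p.C.U) := by
  have hU := p.C.U_pos
  have h1 := abs_le.1 (hg.abs_sub hs he p.P)
  rw [le_div_iff₀ hU] at hv
  have h2 : |v * p.C.U - p.apx p.P e s * p.C.U| ≤ p.mm := by
    rw [← sub_mul, abs_mul, abs_of_pos hU]; exact hv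
  have h3 := abs_le.1 h2
  have e1 : (p.lo : ℝ) = cen p.C p.P - (nu p.C p.P + p.mm) := by
    have : p.lo = cen p.C p.P - ((nu p.C p.P + p.mm : ℕ) : ℤ) := rfl
    rw [this]; push_cast; rfl
  have e2 : (p.hi : ℝ) = cen p.C p.P + (nu p.C p.P + p.mm) := by
    have : p.hi = cen p.C p.P + ((nu p.C p.P + p.mm : ℕ) : ℤ) := rfl
    rw [this]; push_cast; rfl
  constructor
  · rw [div_le_iff₀ hU, e1]; linarith
  · rw [le_div_iff₀ hU, e2]; linarith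

/-- consequences of being in the range -/
lemma range (hr : p.Rng) {v : ℝ} (h : p.lo / p.C.U ≤ v ∧ v ≤ p.hi / p.C.U) :
    v ∈ Icc (-1/2:ℝ) 2 ∧ |v| ≤ p.X / p.C.U ∧ v ≤ p.hp / p.C.U ∧
      (p.lp:ℝ) / p.C.U - p.ln / p.C.U ≤ v := by
  have hU := p.C.U_pos
  obtain ⟨-, h1, h2, -⟩ := p.lp_ln
  have h1r : (p.lo : ℝ) = p.lp - p.ln := by rw [← h1]; push_cast; rfl
  have h2r : (p.hi : ℝ) ≤ p.hp := by exact_mod_cast h2
  have a1 : (p.lp:ℝ) / p.C.U - p.ln / p.C.U ≤ v := by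
    rw [← sub_div, ← h1r]; exact h.1
  have a2 : v ≤ p.hp / p.C.U := h.2.trans (by gcongr)
  have l1 : (2:ℝ) * p.ln < p.C.U := by
    have := hr.ln
    unfold Cfg.U; exact_mod_cast this
  have l2 : (p.hp:ℝ) < 2 * p.C.U := by
    have := hr.hp
    unfold Cfg.U; exact_mod_cast this
  have a3 : (p.ln:ℝ) / p.C.U < 1 / 2 := by
    rw [div_lt_iff₀ hU]; linarith
  have a4 : (p.hp:ℝ) / p.C.U < 2 := by
    rw [div_lt_iff₀ hU]; linarith
  have a5 : (0:ℝ) ≤ p.lp / p.C.U := by positivity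
  refine ⟨⟨by linarith, by linarith⟩, ?_, a2, a1⟩
  have x1 : (p.hp:ℝ) / p.C.U ≤ p.X / p.C.U := by
    unfold Patch.X; push_cast; gcongr; exact le_max_left _ _
  have x2 : (p.ln:ℝ) / p.C.U ≤ p.X / p.C.U := by
    unfold Patch.X; push_cast; gcongr; exact le_max_right _ _
  rw [abs_le]
  constructor <;> linarith

lemma kappa (hg : p.Geo) (hr : p.Rng) {s e x y : ℝ} (hs : s ∈ Icc p.a p.b) (he : |e| ≤ 1)
    (hx : p.lo / p.C.U ≤ x ∧ x ≤ p.hi / p.C.U) (hy : p.lo / p.C.U ≤ y ∧ y ≤ p.hi / p.C.U) :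
    |5 / 4 - s ^ 2 * dd (p.C.c e) x y| ≤ (p.κ:ℝ) / 1024 := by
  have hU := p.C.U_pos
  have hH := hg.H
  have hD := hg.D
  have hHA := hg.HA
  obtain ⟨-, hx1, hx2, hx3⟩ := range hr hx
  obtain ⟨-, hy1, hy2, hy3⟩ := range hr hy
  have hc := hg.hC.c_mem he
  have hc2 := p.C.c_le he
  have hs0 : 0 < s := hg.a_pos.trans_le hs.1
  have hsa : ((p.A:ℝ) - p.H) / p.D ≤ s := hs.1
  have hsb : s ≤ ((p.A:ℝ) + p.H) / p.D := hs.2
  have hAH : 0 < (p.A:ℝ) - p.H := by linarith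
  have u1 := dd_le hc.1 (h := p.hp / p.C.U) (by positivity) hx2 hy2 hx1 hy1
  have l1 := le_dd (p := p.lp / p.C.U) (q := p.ln / p.C.U) hc.1 (by positivity) (by positivity)
    (by
      rcases p.lp_ln.1 with h | h
      · left; rw [h]; simp
      · right; rw [h]; simp) hx3 hy3
  set Y := dd (p.C.c e) x y with hY
  rw [abs_le]
  constructor
  · -- upper bound for `s ^ 2 * Y`
    have hup : ((1024 * ((p.A + p.H) * (p.A + p.H)) * (4 * (p.hp * p.hp * p.hp) * 2 ^ (4 * p.C.k) +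
      7 * (p.C.c0 + p.C.c1) * (p.X * p.X * p.X * p.X * p.X * p.X)) : ℕ) : ℝ) ≤
      (((1280 + p.κ) * (p.D * p.D) * 2 ^ (7 * p.C.k) : ℕ) : ℝ) := by exact_mod_cast hr.up
    push_cast at hup
    rw [pow4, pow7] at hup
    have b1 : Y ≤ 4 * ((p.hp:ℝ) / p.C.U) ^ 3 +
        7 * (((p.C.c0:ℝ) + p.C.c1) / p.C.U) * ((p.X:ℝ) / p.C.U) ^ 6 := by
      refine u1.trans ?_
      gcongr
    set Z := 4 * ((p.hp:ℝ) / p.C.U) ^ 3 +
        7 * (((p.C.c0:ℝ) + p.C.c1) / p.C.U) * ((p.X:ℝ) / p.C.U) ^ 6 with hZ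
    have hZ0 : 0 ≤ Z := by positivity
    have b2 : s ^ 2 * Y ≤ (((p.A:ℝ) + p.H) / p.D) ^ 2 * Z := by
      calc s ^ 2 * Y ≤ s ^ 2 * Z := by gcongr
        _ ≤ (((p.A:ℝ) + p.H) / p.D) ^ 2 * Z := by gcongr
    have b3 : (((p.A:ℝ) + p.H) / p.D) ^ 2 * Z ≤ (1280 + p.κ) / 1024 := by
      have e : (((p.A:ℝ) + p.H) / p.D) ^ 2 * Z = (1024 * (((p.A:ℝ) + p.H) * (p.A + p.H)) *
          (4 * (p.hp * p.hp * p.hp) * p.C.U ^ 4 +
          7 * (p.C.c0 + p.C.c1) * (p.X * p.X * p.X * p.X * p.X * p.X))) /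
            (1024 * (p.D * p.D * p.C.U ^ 7)) := by
        rw [hZ]; field_simp
      rw [e, div_le_div_iff₀ (by positivity) (by norm_num)]
      calc _ ≤ ((1280 + (p.κ:ℝ)) * (p.D * p.D) * p.C.U ^ 7) * 1024 := by gcongr
        _ = _ := by ring
    have : (1280 + (p.κ:ℝ)) / 1024 = 5 / 4 + p.κ / 1024 := by ring
    linarith
  · have hdn : ((1280 * (p.D * p.D) * 2 ^ (3 * p.C.k) +
        4096 * ((p.A + p.H) * (p.A + p.H)) * (p.ln * p.ln * p.ln) : ℕ) : ℝ) ≤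
      ((p.κ * (p.D * p.D) * 2 ^ (3 * p.C.k) +
        4096 * ((p.A - p.H) * (p.A - p.H)) * (p.lp * p.lp * p.lp) : ℕ) : ℝ) := by
      exact_mod_cast hr.dn
    push_cast [Nat.cast_sub hg.hHA.le] at hdn
    rw [pow3] at hdn
    have b1 : s ^ 2 * (4 * (((p.lp:ℝ) / p.C.U) ^ 3 - ((p.ln:ℝ) / p.C.U) ^ 3)) ≤ s ^ 2 * Y := by
      gcongr
    have b2 : (((p.A:ℝ) - p.H) / p.D) ^ 2 * ((p.lp:ℝ) / p.C.U) ^ 3 ≤
        s ^ 2 * ((p.lp:ℝ) / p.C.U) ^ 3 := by gcongr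
    have b3 : s ^ 2 * ((p.ln:ℝ) / p.C.U) ^ 3 ≤
        (((p.A:ℝ) + p.H) / p.D) ^ 2 * ((p.ln:ℝ) / p.C.U) ^ 3 := by gcongr
    have b4 : 5 / 4 - p.κ / 1024 ≤ 4 * ((((p.A:ℝ) - p.H) / p.D) ^ 2 * ((p.lp:ℝ) / p.C.U) ^ 3 -
        (((p.A:ℝ) + p.H) / p.D) ^ 2 * ((p.ln:ℝ) / p.C.U) ^ 3) := by
      have e : 4 * ((((p.A:ℝ) - p.H) / p.D) ^ 2 * ((p.lp:ℝ) / p.C.U) ^ 3 -
        (((p.A:ℝ) + p.H) / p.D) ^ 2 * ((p.ln:ℝ) / p.C.U) ^ 3) - (5 / 4 - p.κ / 1024) =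
          ((p.κ * (p.D * p.D) * p.C.U ^ 3 +
        4096 * (((p.A:ℝ) - p.H) * (p.A - p.H)) * (p.lp * p.lp * p.lp)) -
        (1280 * (p.D * p.D) * p.C.U ^ 3 +
        4096 * ((p.A + p.H) * (p.A + p.H)) * (p.ln * p.ln * p.ln))) /
            (1024 * (p.D * p.D * p.C.U ^ 3)) := by
        field_simp
        ring
      have : 0 ≤ ((p.κ * (p.D * p.D) * p.C.U ^ 3 +
        4096 * (((p.A:ℝ) - p.H) * (p.A - p.H)) * (p.lp * p.lp * p.lp)) -
        (1280 * (p.D * p.D) * p.C.U ^ 3 +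
        4096 * ((p.A + p.H) * (p.A + p.H)) * (p.ln * p.ln * p.ln))) /
            (1024 * (p.D * p.D * p.C.U ^ 3)) := by
        apply div_nonneg (by linarith) (by positivity)
      linarith
    linarith
end rng

/-- energy of the error -/
noncomputable def err (p : Patch) (L : ℕ) (e : ℝ) (u μ : ℝ → ℝ) (s : ℝ) : ℝ :=
  en (u s - p.apx L e s) (μ s - s ^ 2 * p.dapx L e s) s

/-- general form of a step -/
theorem step_gen (hg : p.Geo) {κ m0 m2 r L : ℕ} {e : ℝ} {u μ φ : ℝ → ℝ} {ρ : ℝ}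
    (hck : gchk p.A p.H κ m0 m2 r = true)
    (hu : ∀ s ∈ Icc p.a p.b, HasDerivAt u (μ s / s ^ 2) s)
    (hμ : ∀ s ∈ Icc p.a p.b, HasDerivAt μ (-(s ^ 2 * φ s)) s)
    (hk : ∀ s ∈ Icc p.a p.b, |u s - p.apx L e s| ≤ (max m0 m2 : ℕ) / p.C.U →
      ∃ k x : ℝ, φ s = k * (u s - p.apx L e s) + x ∧ |5 / 4 - s ^ 2 * k| ≤ (κ:ℝ) / 1024 ∧
        |s * p.ddapx L e s + 2 * p.dapx L e s + s * x| ≤ ρ)
    (hρ : ρ * (2 * p.H / p.D) ≤ r / p.C.U)
    (h0 : p.err L e u μ p.a ≤ (m0 / p.C.U) ^ 2) :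
    (∀ s ∈ Icc p.a p.b, p.err L e u μ s ≤ ((max m0 m2 : ℕ) / p.C.U) ^ 2) ∧
      p.err L e u μ p.b ≤ (m2 / p.C.U) ^ 2 := by
  have hst := step (δ := fun s => u s - p.apx L e s) (ν := fun s => μ s - s ^ 2 * p.dapx L e s)
    (g := fun s => φ s + 2 * p.dapx L e s / s + p.ddapx L e s) (a := p.a) (b := p.b)
    p.C.U_pos hg.hH hg.hHA hg.hD hck rfl rfl (fun s hs => by
      have hs0 : s ≠ 0 := (hg.a_pos.trans_le hs.1).ne'
      refine ((hu s hs).fun_sub (hasDerivAt_apx L e s)).congr_deriv ?_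
      field_simp) (fun s hs => by
      have hs0 : s ≠ 0 := (hg.a_pos.trans_le hs.1).ne'
      refine ((hμ s hs).fun_sub ((hasDerivAt_pow 2 s).fun_mul (hasDerivAt_dapx L e s))).congr_deriv ?_
      field_simp
      norm_num
      ring) (fun s hs hd => by
      have hs0 : s ≠ 0 := (hg.a_pos.trans_le hs.1).ne'
      obtain ⟨k, x, h1, h2, h3⟩ := hk s hs hd
      refine ⟨k, s * p.ddapx L e s + 2 * p.dapx L e s + s * x, ?_, h2, h3⟩
      rw [h1]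
      field_simp
      ring) hρ h0
  exact hst

lemma nat_div_real {n d : ℕ} (hd : 0 < d) : (n:ℝ) / d ≤ ((n / d + 1 : ℕ) : ℝ) := by
  rw [div_le_iff₀ (by exact_mod_cast hd)]
  have h := Nat.div_add_mod n d
  have h2 := Nat.mod_lt n hd
  have : n ≤ (n / d + 1) * d := by
    rw [add_one_mul, mul_comm (n / d) d]; omega
  exact_mod_cast this

lemma den_pos (hg : p.Geo) : 0 < p.den := by
  have h1 := hg.hH
  have h2 := hg.hD
  unfold den
  positivity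

lemma den_eq (p : Patch) : (p.den : ℝ) = p.D * p.D * p.H * p.C.U ^ 7 := by
  unfold den; push_cast; rw [pow7]

/-- the step for `v` -/
theorem stepV (h : p.ckV = true) {e : ℝ} (he : |e| ≤ 1) {v m : ℝ → ℝ}
    (hs : ∀ s ∈ Icc p.a p.b, SolAt (p.C.c e) v m s)
    (h0 : p.err p.P e v m p.a ≤ (p.m0 / p.C.U) ^ 2) :
    (∀ s ∈ Icc p.a p.b, p.err p.P e v m s ≤ (p.mm / p.C.U) ^ 2) ∧
      p.err p.P e v m p.b ≤ (p.m2 / p.C.U) ^ 2 := by
  obtain ⟨hg, hr, hB, hck⟩ := of_ckV h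
  have hU := p.C.U_pos
  have hH := hg.H
  have hD := hg.D
  refine step_gen hg (L := p.P) (e := e) (φ := fun s => F (p.C.c e) (v s)) hck
    (fun s hs' => (hs s hs').1) (fun s hs' => (hs s hs').2) (ρ := p.N1 / (p.D * p.H ^ 2 * p.C.U ^ 8))
    (fun s hs' hd => ?_) ?_ h0
  · have hv := mem_lohi hg hs' he hd
    have hP : p.lo / p.C.U ≤ p.apx p.P e s ∧ p.apx p.P e s ≤ p.hi / p.C.U := by
      apply mem_lohi hg hs' he
      rw [sub_self, abs_zero]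
      positivity
    refine ⟨dd (p.C.c e) (v s) (p.apx p.P e s), f (p.C.c e) (p.apx p.P e s), ?_, ?_, ?_⟩
    · have := F_eq_dd (c := p.C.c e) (range hr hv).1 (range hr hP).1
      rw [F_of_mem (range hr hP).1] at this
      linarith
    · exact kappa hg hr hs' he hv hP
    · have e1 : f (p.C.c e) (p.apx p.P e s) =
          fE p.C e (hor p.P p.C.m (p.loc s) e (p.C.n + 1)) / p.C.U ^ 8 := by
        unfold f fE cc Cfg.c Patch.apx
        push_cast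
        rw [pow4]
        field_simp
      rw [e1, res_eq hg]
      have hq := (Bnd.fE p.C (bnd_nN hg.hC p.P))
      have h1 := abs_gE_le hg.hC p.A p.H p.D p.P (q := fE p.C PY (pl p.C p.P))
        (Bf := nbf p.C (nN p.C p.P)) (by rw [nbf_eq]; exact hq) hB
        (z := kfE p.C (kY p.C) (v0 p.C p.P)) (by
          rw [kfE_eq, map_fE, ev_PY, v0_eq]) (hg.loc_mem hs') he
      rw [map_fE, ev_PY, ev_pl] at h1
      rw [abs_div, abs_of_pos (by positivity : 0 < (p.D:ℝ) * p.H ^ 2 * p.C.U ^ 8)]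
      gcongr
      exact h1
  · have h1 := nat_div_real (n := 2 * p.N1) (den_pos hg)
    have h2 : (p.r1 : ℝ) = ((2 * p.N1 / p.den + 1 : ℕ) : ℝ) := rfl
    rw [h2]
    have h3 : (p.N1:ℝ) / (p.D * p.H ^ 2 * p.C.U ^ 8) * (2 * p.H / p.D) =
        (((2 * p.N1 : ℕ) : ℝ) / p.den) / p.C.U := by
      rw [den_eq]
      push_cast
      field_simp
    rw [h3]
    gcongr

/-- bounds for `v` on the patch -/
lemma v_bounds (h : p.ckV = true) {e : ℝ} (he : |e| ≤ 1) {v m : ℝ → ℝ} {s : ℝ}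
    (hs : s ∈ Icc p.a p.b) (h0 : p.err p.P e v m s ≤ (p.mm / p.C.U) ^ 2) :
    |v s - p.apx p.P e s| ≤ p.mm / p.C.U ∧ (p.lo / p.C.U ≤ v s ∧ v s ≤ p.hi / p.C.U) := by
  obtain ⟨hg, hr, hB, hck⟩ := of_ckV h
  have hU := p.C.U_pos
  have h1 := abs_le_of_en (m := p.mm / p.C.U) (by positivity) h0
  exact ⟨h1, mem_lohi hg hs he h1⟩

end Patch

end LinNi
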