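import Pool.Agent.Lib.MP_0170ef_an.PatchV

/-!
Soundness of the verification on a patch: first and second variations.
-/

set_option autoImplicit false

open Set Filter Topology

namespace LinNi

/-- second variation on `[a, b]` -/
structure Lin2I (c : ℝ) (v : ℝ → ℝ) (a b τ : ℝ) (g u₁ u₂ G u μ : ℝ → ℝ) : Prop where
  du : ∀ s ∈ Icc a b, HasDerivAt u (μ s / s ^ 2) s
  dμ : ∀ s ∈ Icc a b, HasDerivAt μ (-(s ^ 2 * (G s * u s + g s * (u₁ s * u₂ s)))) s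
  hG : ∀ s ∈ Icc a b, |G s - fp c (v s)| ≤ τ
  hg : ∀ s ∈ Icc a b, |g s - hfp c (v s)| ≤ τ

lemma tau_mul {x : ℕ} (h : x ≤ tt) : (x:ℝ) * tau ≤ 1 := by
  unfold tau
  have h1 : (0:ℝ) < (tt : ℝ) := by exact_mod_cast tt_pos
  rw [mul_one_div, div_le_one h1]
  exact_mod_cast h

namespace Patch
variable {p : Patch}

lemma F2_eq (p : Patch) : (p.F2 : ℝ) / p.C.U ^ 6 =
    12 * ((p.X:ℝ) / p.C.U) ^ 2 + 42 * (((p.C.c0:ℝ) + p.C.c1) / p.C.U) * ((p.X:ℝ) / p.C.U) ^ 5 := by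
  have hU := p.C.U_pos
  unfold F2
  push_cast
  rw [pow4]
  field_simp

lemma F3_eq (p : Patch) : (p.F3 : ℝ) / p.C.U ^ 5 / 2 =
    12 * ((p.X:ℝ) / p.C.U) + 105 * (((p.C.c0:ℝ) + p.C.c1) / p.C.U) * ((p.X:ℝ) / p.C.U) ^ 4 := by
  have hU := p.C.U_pos
  unfold F3
  push_cast
  rw [pow4]
  field_simp
  ring

lemma s_le {s : ℝ} (hs : s ∈ Icc p.a p.b) : s ≤ ((p.A:ℝ) + p.H) / p.D := hs.2

lemma s_le' (hg : p.Geo) {s : ℝ} (hs : s ∈ Icc p.a p.b) : s ≤ (p.A:ℝ) + p.H := by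
  refine (s_le hs).trans ?_
  have h1 : (1:ℝ) ≤ p.D := by exact_mod_cast hg.hD
  have h2 : (0:ℝ) ≤ (p.A:ℝ) + p.H := by positivity
  exact div_le_self h2 h1

/-- `G` is close to `f' (P)` -/
lemma G_sub (hg : p.Geo) (hr : p.Rng) {e s v G τ : ℝ} (hs : s ∈ Icc p.a p.b) (he : |e| ≤ 1)
    (hv : |v - p.apx p.P e s| ≤ p.mm / p.C.U) (hG : |G - fp (p.C.c e) v| ≤ τ) :
    |G - fp (p.C.c e) (p.apx p.P e s)| ≤ τ + p.F2 / p.C.U ^ 6 * (p.mm / p.C.U) := by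
  have hU := p.C.U_pos
  have hc := hg.hC.c_mem he
  have hv' := mem_lohi hg hs he hv
  have hP : p.lo / p.C.U ≤ p.apx p.P e s ∧ p.apx p.P e s ≤ p.hi / p.C.U := by
    apply mem_lohi hg hs he
    rw [sub_self, abs_zero]
    positivity
  have h1 := abs_fp_sub_le hc.1 (range hr hv').2.1 (range hr hP).2.1
  have h2 : (12 * ((p.X:ℝ) / p.C.U) ^ 2 + 42 * p.C.c e * ((p.X:ℝ) / p.C.U) ^ 5) *
      |v - p.apx p.P e s| ≤ p.F2 / p.C.U ^ 6 * (p.mm / p.C.U) := by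
    rw [F2_eq]
    have := p.C.c_le he
    gcongr
  calc |G - fp (p.C.c e) (p.apx p.P e s)| = |(G - fp (p.C.c e) v) +
        (fp (p.C.c e) v - fp (p.C.c e) (p.apx p.P e s))| := by ring_nf
    _ ≤ |G - fp (p.C.c e) v| + |fp (p.C.c e) v - fp (p.C.c e) (p.apx p.P e s)| := abs_add_le _ _
    _ ≤ _ := by linarith

lemma kappa' (hg : p.Geo) (hr : p.Rng) {e s v G : ℝ} (hs : s ∈ Icc p.a p.b) (he : |e| ≤ 1)
    (hv : |v - p.apx p.P e s| ≤ p.mm / p.C.U) (hG : |G - fp (p.C.c e) v| ≤ tau)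
    (hsl : 2 * ((p.A + p.H) * (p.A + p.H)) * (nN p.C p.Q + 1024) ≤ tt) :
    |5 / 4 - s ^ 2 * G| ≤ ((p.κ + 1 : ℕ) : ℝ) / 1024 := by
  have hv' := mem_lohi hg hs he hv
  have h1 := kappa hg hr hs he hv' hv'
  rw [dd_self] at h1
  have h2 : ((p.A:ℝ) + p.H) ^ 2 * 1024 * tau ≤ 1 := by
    have h3 : (p.A + p.H) * (p.A + p.H) * 1024 ≤ tt := by
      refine le_trans ?_ hsl
      nlinarith [Nat.zero_le ((p.A + p.H) * (p.A + p.H)), Nat.zero_le (nN p.C p.Q),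
        Nat.zero_le ((p.A + p.H) * (p.A + p.H) * nN p.C p.Q)]
    have := tau_mul h3
    push_cast at this
    nlinarith
  have hs0 : 0 < s := hg.a_pos.trans_le hs.1
  have h4 : s ^ 2 ≤ ((p.A:ℝ) + p.H) ^ 2 := pow_le_pow_left₀ hs0.le (s_le' hg hs) 2
  have h5 : |s ^ 2 * (fp (p.C.c e) v - G)| ≤ 1 / 1024 := by
    rw [abs_mul, abs_of_nonneg (by positivity : 0 ≤ s ^ 2), abs_sub_comm]
    calc s ^ 2 * |G - fp (p.C.c e) v| ≤ ((p.A:ℝ) + p.H) ^ 2 * tau := by gcongr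
      _ ≤ 1 / 1024 := by linarith
  push_cast
  calc |5 / 4 - s ^ 2 * G| = |(5 / 4 - s ^ 2 * fp (p.C.c e) v) + s ^ 2 * (fp (p.C.c e) v - G)| := by
        ring_nf
    _ ≤ |5 / 4 - s ^ 2 * fp (p.C.c e) v| + |s ^ 2 * (fp (p.C.c e) v - G)| := abs_add_le _ _
    _ ≤ (p.κ:ℝ) / 1024 + 1 / 1024 := by linarith
    _ = _ := by ring

/-- the step for the first variation -/
theorem stepW (h : p.ckV = true) (hW : p.ckW = true) {e : ℝ} (he : |e| ≤ 1) {v : ℝ → ℝ}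
    (hv : ∀ s ∈ Icc p.a p.b, |v s - p.apx p.P e s| ≤ p.mm / p.C.U) {G u μ : ℝ → ℝ}
    (hl : LinI (p.C.c e) v p.a p.b tau G u μ) (h0 : p.err p.Q e u μ p.a ≤ (p.w0 / p.C.U) ^ 2) :
    (∀ s ∈ Icc p.a p.b, p.err p.Q e u μ s ≤ (p.ww / p.C.U) ^ 2) ∧
      p.err p.Q e u μ p.b ≤ (p.w2 / p.C.U) ^ 2 := by
  obtain ⟨hg, hr, -, -⟩ := of_ckV h
  simp only [ckW, Bool.and_eq_true, Nat.ble_eq] at hW
  obtain ⟨⟨hB, hck⟩, hsl⟩ := hW
  have hU := p.C.U_pos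
  have hH := hg.H
  have hD := hg.D
  set nq : ℕ := nN p.C p.Q with hnq
  set ρ : ℝ := p.N2 / (p.D * p.H ^ 2 * p.C.U ^ 8) +
    (((p.A:ℝ) + p.H) / p.D) * (tau + p.F2 / p.C.U ^ 6 * (p.mm / p.C.U)) * (nq / p.C.U) with hρ
  refine step_gen hg (L := p.Q) (e := e) (φ := fun s => G s * u s) hck
    hl.du hl.dμ (ρ := ρ) (fun s hs' _ => ?_) ?_ h0
  · refine ⟨G s, G s * p.apx p.Q e s, by ring, kappa' hg hr hs' he (hv s hs') (hl.hG s hs') hsl, ?_⟩
    have e1 : fp (p.C.c e) (p.apx p.P e s) * p.apx p.Q e s =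
        (fpE p.C e (hor p.P p.C.m (p.loc s) e (p.C.n + 1)) *
          hor p.Q p.C.m (p.loc s) e (p.C.n + 1)) / p.C.U ^ 8 := by
      unfold fp fpE cc Cfg.c Patch.apx
      push_cast
      rw [pow4]
      field_simp
    have e2 : s * p.ddapx p.Q e s + 2 * p.dapx p.Q e s + s * (G s * p.apx p.Q e s) =
        (s * p.ddapx p.Q e s + 2 * p.dapx p.Q e s +
          s * (fp (p.C.c e) (p.apx p.P e s) * p.apx p.Q e s)) +
        s * (G s - fp (p.C.c e) (p.apx p.P e s)) * p.apx p.Q e s := by ring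
    rw [e2, e1, res_eq hg]
    have hq := (Bnd.fpE p.C (bnd_nN hg.hC p.P)).mul (bnd_nN hg.hC p.Q)
    have h1 := abs_gE_le hg.hC p.A p.H p.D p.Q (q := fpE p.C PY (pl p.C p.P) * pl p.C p.Q)
      (Bf := nbfp p.C (nN p.C p.P) * nN p.C p.Q) (by
        refine hq.mono (by omega) (by omega) ?_
        push_cast; rw [nbfp_eq]) hB
      (z := Int.mul (kfpE p.C (kY p.C) (v0 p.C p.P)) (v0 p.C p.Q)) (by
        rw [kfpE_eq, map_mul, map_fpE, ev_PY, v0_eq, v0_eq]; rfl) (hg.loc_mem hs') he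
    rw [map_mul, map_fpE, ev_PY, ev_pl, ev_pl] at h1
    have hs0 : 0 < s := hg.a_pos.trans_le hs'.1
    have h2 := G_sub hg hr hs' he (hv s hs') (hl.hG s hs')
    have h3 := hg.abs_apx hs' he p.Q
    have h4 := s_le hs'
    rw [hρ]
    refine (abs_add_le _ _).trans (add_le_add ?_ ?_)
    · rw [abs_div, abs_of_pos (by positivity : 0 < (p.D:ℝ) * p.H ^ 2 * p.C.U ^ 8)]
      gcongr
      exact h1
    · rw [abs_mul, abs_mul, abs_of_pos hs0]
      have ht := tau_pos.le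
      have hb0 : 0 ≤ ((p.A:ℝ) + p.H) / p.D * (tau + p.F2 / p.C.U ^ 6 * (p.mm / p.C.U)) := by
        positivity
      gcongr
  · have h1 := nat_div_real (n := 2 * p.N2 + 2 * (p.H * p.H) * (p.A + p.H) * p.F2 * p.mm * nq)
      (den_pos hg)
    have h2 : (p.r2 : ℝ) = (((2 * p.N2 + 2 * (p.H * p.H) * (p.A + p.H) * p.F2 * p.mm * nq) / p.den +
      1 : ℕ) : ℝ) + 1 := by
      unfold r2; push_cast; ring
    have h3 : 2 * (((p.A:ℝ) + p.H) ^ 2) * nq * tau ≤ 1 := by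
      have h5 : 2 * ((p.A + p.H) * (p.A + p.H)) * nq ≤ tt := by
        refine le_trans ?_ hsl
        gcongr
        omega
      have := tau_mul h5
      push_cast at this
      nlinarith
    have h4 : (((p.A:ℝ) + p.H) / p.D) * tau * (nq / p.C.U) * (2 * p.H / p.D) ≤ 1 / p.C.U := by
      have hD1 : (1:ℝ) ≤ p.D := by exact_mod_cast hg.hD
      have e : (((p.A:ℝ) + p.H) / p.D) * tau * (nq / p.C.U) * (2 * p.H / p.D) =
          (2 * ((p.A:ℝ) + p.H) * p.H * nq * tau / (p.D ^ 2)) / p.C.U := by field_simp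
      rw [e]
      have e2 : 2 * ((p.A:ℝ) + p.H) * p.H * nq * tau ≤ 1 := by
        refine le_trans ?_ h3
        have : (p.H:ℝ) ≤ p.A + p.H := by
          have : (0:ℝ) ≤ p.A := by positivity
          linarith
        have ht := tau_pos.le
        calc 2 * ((p.A:ℝ) + p.H) * p.H * nq * tau ≤ 2 * ((p.A:ℝ) + p.H) * (p.A + p.H) * nq * tau := by
              gcongr
          _ = _ := by ring
      have e3 : (1:ℝ) ≤ (p.D:ℝ) ^ 2 := one_le_pow₀ hD1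
      gcongr
      rw [div_le_one (by positivity)]
      linarith
    have h6 : ρ * (2 * p.H / p.D) =
        ((((2 * p.N2 + 2 * (p.H * p.H) * (p.A + p.H) * p.F2 * p.mm * nq : ℕ) : ℝ)) / p.den) / p.C.U +
        (((p.A:ℝ) + p.H) / p.D) * tau * (nq / p.C.U) * (2 * p.H / p.D) := by
      rw [den_eq, hρ]
      push_cast
      field_simp
      ring
    rw [h6, h2, add_div _ (1:ℝ)]
    exact add_le_add (div_le_div_of_nonneg_right h1 hU.le) h4

/-- the step for the second variation -/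
theorem stepY (h : p.ckV = true) (hW : p.ckW = true) (hY : p.ckY = true) {e : ℝ} (he : |e| ≤ 1)
    {v : ℝ → ℝ} (hv : ∀ s ∈ Icc p.a p.b, |v s - p.apx p.P e s| ≤ p.mm / p.C.U)
    {g u₁ u₂ G u μ : ℝ → ℝ}
    (h1 : ∀ s ∈ Icc p.a p.b, |u₁ s - p.apx p.Q e s| ≤ p.ww / p.C.U)
    (h2 : ∀ s ∈ Icc p.a p.b, |u₂ s - p.apx p.Q e s| ≤ p.ww / p.C.U)
    (hl : Lin2I (p.C.c e) v p.a p.b tau g u₁ u₂ G u μ)
    (h0 : p.err p.Y e u μ p.a ≤ (p.y0 / p.C.U) ^ 2) :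
    (∀ s ∈ Icc p.a p.b, p.err p.Y e u μ s ≤ (p.yy / p.C.U) ^ 2) ∧
      p.err p.Y e u μ p.b ≤ (p.y2 / p.C.U) ^ 2 := by
  obtain ⟨hg, hr, -, -⟩ := of_ckV h
  simp only [ckW, Bool.and_eq_true, Nat.ble_eq] at hW
  obtain ⟨-, hsl⟩ := hW
  simp only [ckY, Bool.and_eq_true, Nat.ble_eq] at hY
  obtain ⟨⟨hB, hck⟩, hsl2⟩ := hY
  have hU := p.C.U_pos
  have hH := hg.H
  have hD := hg.D
  have hc := hg.hC
  set nq : ℕ := nN p.C p.Q with hnq
  set ny : ℕ := nN p.C p.Y with hny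
  set ρ : ℝ := p.N3 / (p.D * p.H ^ 2 * p.C.U ^ 8) +
    (((p.A:ℝ) + p.H) / p.D) * ((tau + p.F2 / p.C.U ^ 6 * (p.mm / p.C.U)) * (ny / p.C.U) +
      ((tau + p.F3 / p.C.U ^ 5 / 2 * (p.mm / p.C.U)) * (((nq:ℝ) + p.ww) / p.C.U) ^ 2 +
      p.F2 / p.C.U ^ 6 / 2 * ((2 * nq + p.ww) * p.ww / p.C.U ^ 2))) with hρ
  refine step_gen hg (L := p.Y) (e := e) (φ := fun s => G s * u s + g s * (u₁ s * u₂ s)) hck
    hl.du hl.dμ (ρ := ρ) (fun s hs' _ => ?_) ?_ h0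
  · refine ⟨G s, G s * p.apx p.Y e s + g s * (u₁ s * u₂ s), by ring,
      kappa' hg hr hs' he (hv s hs') (hl.hG s hs') hsl, ?_⟩
    have e1 : fp (p.C.c e) (p.apx p.P e s) * p.apx p.Y e s +
        hfp (p.C.c e) (p.apx p.P e s) * (p.apx p.Q e s * p.apx p.Q e s) =
        (fpE p.C e (hor p.P p.C.m (p.loc s) e (p.C.n + 1)) *
          hor p.Y p.C.m (p.loc s) e (p.C.n + 1) +
        hfE p.C e (hor p.P p.C.m (p.loc s) e (p.C.n + 1)) *
          (hor p.Q p.C.m (p.loc s) e (p.C.n + 1) * hor p.Q p.C.m (p.loc s) e (p.C.n + 1))) /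
          p.C.U ^ 8 := by
      unfold fp fpE hfp hfE cc Cfg.c Patch.apx
      push_cast
      rw [pow4]
      field_simp
    have e2 : s * p.ddapx p.Y e s + 2 * p.dapx p.Y e s +
        s * (G s * p.apx p.Y e s + g s * (u₁ s * u₂ s)) =
        (s * p.ddapx p.Y e s + 2 * p.dapx p.Y e s +
          s * (fp (p.C.c e) (p.apx p.P e s) * p.apx p.Y e s +
          hfp (p.C.c e) (p.apx p.P e s) * (p.apx p.Q e s * p.apx p.Q e s))) +
        s * ((G s - fp (p.C.c e) (p.apx p.P e s)) * p.apx p.Y e s +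
          ((g s - hfp (p.C.c e) (p.apx p.P e s)) * (u₁ s * u₂ s) +
          hfp (p.C.c e) (p.apx p.P e s) * (u₁ s * u₂ s - p.apx p.Q e s * p.apx p.Q e s))) := by
      ring
    rw [e2, e1, res_eq hg]
    have hq := ((Bnd.fpE p.C (bnd_nN hg.hC p.P)).mul (bnd_nN hg.hC p.Y)).add
      ((Bnd.hfE p.C (bnd_nN hg.hC p.P)).mul ((bnd_nN hg.hC p.Q).mul (bnd_nN hg.hC p.Q)))
    have h3 := abs_gE_le hg.hC p.A p.H p.D p.Y (q := fpE p.C PY (pl p.C p.P) * pl p.C p.Y +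
        hfE p.C PY (pl p.C p.P) * (pl p.C p.Q * pl p.C p.Q))
      (Bf := nbfp p.C (nN p.C p.P) * nN p.C p.Y + nbhf p.C (nN p.C p.P) * (nN p.C p.Q * nN p.C p.Q))
      (by
        refine hq.mono (by omega) (by omega) ?_
        push_cast; rw [nbfp_eq, nbhf_eq]) hB
      (z := Int.add (Int.mul (kfpE p.C (kY p.C) (v0 p.C p.P)) (v0 p.C p.Y))
        (Int.mul (khfE p.C (kY p.C) (v0 p.C p.P)) (Int.mul (v0 p.C p.Q) (v0 p.C p.Q)))) (by
        rw [kfpE_eq, khfE_eq, map_add, map_mul, map_mul, map_mul, map_fpE, map_hfE, ev_PY, v0_eq,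
          v0_eq, v0_eq]; rfl) (hg.loc_mem hs') he
    rw [map_add, map_mul, map_mul, map_mul, map_fpE, map_hfE, ev_PY, ev_pl, ev_pl, ev_pl] at h3
    have hs0 : 0 < s := hg.a_pos.trans_le hs'.1
    have h4 := G_sub hg hr hs' he (hv s hs') (hl.hG s hs')
    have h5 := hg.abs_apx hs' he p.Y
    have h5q := hg.abs_apx hs' he p.Q
    have h6 := s_le hs'
    -- bounds for `f''`
    have hv' := mem_lohi hg hs' he (hv s hs')
    have hP : p.lo / p.C.U ≤ p.apx p.P e s ∧ p.apx p.P e s ≤ p.hi / p.C.U := by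
      apply mem_lohi hg hs' he
      rw [sub_self, abs_zero]
      positivity
    have hce := hg.hC.c_mem he
    have hcl := p.C.c_le he
    have h7 : |hfp (p.C.c e) (p.apx p.P e s)| ≤ p.F2 / p.C.U ^ 6 / 2 := by
      refine (abs_hfp_le hce.1 (range hr hP).2.1).trans ?_
      rw [F2_eq]
      have : 21 * p.C.c e * ((p.X:ℝ) / p.C.U) ^ 5 ≤
          21 * (((p.C.c0:ℝ) + p.C.c1) / p.C.U) * ((p.X:ℝ) / p.C.U) ^ 5 := by gcongr
      linarith
    have h8 : |g s - hfp (p.C.c e) (p.apx p.P e s)| ≤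
        tau + p.F3 / p.C.U ^ 5 / 2 * (p.mm / p.C.U) := by
      have a1 := abs_hfp_sub_le hce.1 (range hr hv').2.1 (range hr hP).2.1
      have a2 : (12 * ((p.X:ℝ) / p.C.U) + 105 * p.C.c e * ((p.X:ℝ) / p.C.U) ^ 4) *
          |v s - p.apx p.P e s| ≤ p.F3 / p.C.U ^ 5 / 2 * (p.mm / p.C.U) := by
        rw [F3_eq]
        have := hv s hs'
        gcongr
      calc |g s - hfp (p.C.c e) (p.apx p.P e s)| = |(g s - hfp (p.C.c e) (v s)) +
            (hfp (p.C.c e) (v s) - hfp (p.C.c e) (p.apx p.P e s))| := by ring_nf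
        _ ≤ |g s - hfp (p.C.c e) (v s)| + |hfp (p.C.c e) (v s) - hfp (p.C.c e) (p.apx p.P e s)| :=
          abs_add_le _ _
        _ ≤ _ := by linarith [hl.hg s hs']
    have b1 : |u₁ s| ≤ ((nq:ℝ) + p.ww) / p.C.U := by
      calc |u₁ s| = |p.apx p.Q e s + (u₁ s - p.apx p.Q e s)| := by ring_nf
        _ ≤ |p.apx p.Q e s| + |u₁ s - p.apx p.Q e s| := abs_add_le _ _
        _ ≤ nq / p.C.U + p.ww / p.C.U := add_le_add h5q (h1 s hs')
        _ = _ := by ring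
    have b2 : |u₂ s| ≤ ((nq:ℝ) + p.ww) / p.C.U := by
      calc |u₂ s| = |p.apx p.Q e s + (u₂ s - p.apx p.Q e s)| := by ring_nf
        _ ≤ |p.apx p.Q e s| + |u₂ s - p.apx p.Q e s| := abs_add_le _ _
        _ ≤ nq / p.C.U + p.ww / p.C.U := add_le_add h5q (h2 s hs')
        _ = _ := by ring
    have b3 : |u₁ s * u₂ s| ≤ (((nq:ℝ) + p.ww) / p.C.U) ^ 2 := by
      rw [abs_mul, sq]
      gcongr
    have b4 : |u₁ s * u₂ s - p.apx p.Q e s * p.apx p.Q e s| ≤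
        (2 * nq + p.ww) * p.ww / p.C.U ^ 2 := by
      calc |u₁ s * u₂ s - p.apx p.Q e s * p.apx p.Q e s| =
            |u₁ s * (u₂ s - p.apx p.Q e s) + (u₁ s - p.apx p.Q e s) * p.apx p.Q e s| := by ring_nf
        _ ≤ |u₁ s * (u₂ s - p.apx p.Q e s)| + |(u₁ s - p.apx p.Q e s) * p.apx p.Q e s| :=
          abs_add_le _ _
        _ = |u₁ s| * |u₂ s - p.apx p.Q e s| + |u₁ s - p.apx p.Q e s| * |p.apx p.Q e s| := by
          rw [abs_mul, abs_mul]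
        _ ≤ (((nq:ℝ) + p.ww) / p.C.U) * (p.ww / p.C.U) + (p.ww / p.C.U) * (nq / p.C.U) := by
          have := h1 s hs'
          have := h2 s hs'
          gcongr
        _ = _ := by field_simp; ring
    rw [hρ]
    refine (abs_add_le _ _).trans (add_le_add ?_ ?_)
    · rw [abs_div, abs_of_pos (by positivity : 0 < (p.D:ℝ) * p.H ^ 2 * p.C.U ^ 8)]
      gcongr
      exact h3
    · rw [abs_mul, abs_of_pos hs0]
      have ht := tau_pos.le
      have key : |(G s - fp (p.C.c e) (p.apx p.P e s)) * p.apx p.Y e s +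
          ((g s - hfp (p.C.c e) (p.apx p.P e s)) * (u₁ s * u₂ s) +
          hfp (p.C.c e) (p.apx p.P e s) * (u₁ s * u₂ s - p.apx p.Q e s * p.apx p.Q e s))| ≤
          ((tau + p.F2 / p.C.U ^ 6 * (p.mm / p.C.U)) * (ny / p.C.U) +
      ((tau + p.F3 / p.C.U ^ 5 / 2 * (p.mm / p.C.U)) * (((nq:ℝ) + p.ww) / p.C.U) ^ 2 +
      p.F2 / p.C.U ^ 6 / 2 * ((2 * nq + p.ww) * p.ww / p.C.U ^ 2))) := by
        refine (abs_add_le _ _).trans (add_le_add ?_ ((abs_add_le _ _).trans (add_le_add ?_ ?_)))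
        · rw [abs_mul]; gcongr
        · rw [abs_mul]; gcongr
        · rw [abs_mul]; gcongr
      gcongr
  · have h1 := nat_div_real (n := 2 * p.N3 + 2 * (p.H * p.H) * (p.A + p.H) * p.F2 * p.mm * ny +
      (p.H * p.H) * (p.A + p.H) * (p.F3 * p.mm * ((nq + p.ww) * (nq + p.ww)) +
        p.F2 * (2 * nq + p.ww) * p.ww)) (den_pos hg)
    have h2 : (p.r3 : ℝ) = (((2 * p.N3 + 2 * (p.H * p.H) * (p.A + p.H) * p.F2 * p.mm * ny +
      (p.H * p.H) * (p.A + p.H) * (p.F3 * p.mm * ((nq + p.ww) * (nq + p.ww)) +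
        p.F2 * (2 * nq + p.ww) * p.ww)) / p.den + 1 : ℕ) : ℝ) + 1 := by
      unfold r3; push_cast; ring
    have h3 : 2 * (((p.A:ℝ) + p.H) ^ 2) * (ny + (nq + p.ww) ^ 2) * tau ≤ 1 := by
      have := tau_mul hsl2
      push_cast at this
      have e : 2 * (((p.A:ℝ) + p.H) ^ 2) * (ny + (nq + p.ww) ^ 2) * tau =
        2 * (((p.A:ℝ) + p.H) * (p.A + p.H)) * (ny + (nq + p.ww) * (nq + p.ww)) * tau := by ring
      rw [e]
      exact this
    have hU1 : 1 ≤ p.C.U := by unfold Cfg.U; exact one_le_pow₀ (by norm_num)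
    have h4 : (((p.A:ℝ) + p.H) / p.D) * (tau * (ny / p.C.U) + tau * (((nq:ℝ) + p.ww) / p.C.U) ^ 2) *
        (2 * p.H / p.D) ≤ 1 / p.C.U := by
      have hD1 : (1:ℝ) ≤ p.D := by exact_mod_cast hg.hD
      have e : (((p.A:ℝ) + p.H) / p.D) * (tau * (ny / p.C.U) + tau * (((nq:ℝ) + p.ww) / p.C.U) ^ 2) *
        (2 * p.H / p.D) =
          (2 * ((p.A:ℝ) + p.H) * p.H * (ny + ((nq:ℝ) + p.ww) ^ 2 / p.C.U) * tau / (p.D ^ 2)) /
            p.C.U := by field_simp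
      rw [e]
      have e2 : 2 * ((p.A:ℝ) + p.H) * p.H * (ny + ((nq:ℝ) + p.ww) ^ 2 / p.C.U) * tau ≤ 1 := by
        refine le_trans ?_ h3
        have : (p.H:ℝ) ≤ p.A + p.H := by
          have : (0:ℝ) ≤ p.A := by positivity
          linarith
        have ht := tau_pos.le
        have e4 : ((nq:ℝ) + p.ww) ^ 2 / p.C.U ≤ ((nq:ℝ) + p.ww) ^ 2 :=
          div_le_self (by positivity) hU1
        calc 2 * ((p.A:ℝ) + p.H) * p.H * (ny + ((nq:ℝ) + p.ww) ^ 2 / p.C.U) * tau ≤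
            2 * ((p.A:ℝ) + p.H) * (p.A + p.H) * (ny + ((nq:ℝ) + p.ww) ^ 2) * tau := by
              gcongr
          _ = _ := by ring
      have e3 : (1:ℝ) ≤ (p.D:ℝ) ^ 2 := one_le_pow₀ hD1
      gcongr
      rw [div_le_one (by positivity)]
      linarith
    have h6 : ρ * (2 * p.H / p.D) =
        ((((2 * p.N3 + 2 * (p.H * p.H) * (p.A + p.H) * p.F2 * p.mm * ny +
      (p.H * p.H) * (p.A + p.H) * (p.F3 * p.mm * ((nq + p.ww) * (nq + p.ww)) +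
        p.F2 * (2 * nq + p.ww) * p.ww) : ℕ) : ℝ)) / p.den) / p.C.U +
        (((p.A:ℝ) + p.H) / p.D) * (tau * (ny / p.C.U) + tau * (((nq:ℝ) + p.ww) / p.C.U) ^ 2) *
        (2 * p.H / p.D) := by
      rw [den_eq, hρ]
      push_cast
      field_simp
      ring
    rw [h6, h2, add_div _ (1:ℝ)]
    exact add_le_add (div_le_div_of_nonneg_right h1 hU.le) h4

end Patch

end LinNi
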