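import Pool.Agent.Lib.MP_0170ef_an.Basic

/-!
Divided differences of `f c v = v ^ 4 + c * v ^ 7`.
-/

set_option autoImplicit false

open Set Filter Topology

namespace LinNi

/-- first divided difference -/
def dd (c x y : ℝ) : ℝ :=
  (x + y) * (x ^ 2 + y ^ 2) +
    c * (x ^ 6 + x ^ 5 * y + x ^ 4 * y ^ 2 + x ^ 3 * y ^ 3 + x ^ 2 * y ^ 4 + x * y ^ 5 + y ^ 6)

/-- the derivative of `f c` -/
def fp (c v : ℝ) : ℝ := 4 * v ^ 3 + 7 * c * v ^ 6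

/-- half the second derivative of `f c` -/
def hfp (c v : ℝ) : ℝ := 6 * v ^ 2 + 21 * c * v ^ 5

/-- homogeneous symmetric polynomial of degree 5 -/
def h5 (x y z : ℝ) : ℝ :=
  (x ^ 5 + x ^ 4 * y + x ^ 3 * y ^ 2 + x ^ 2 * y ^ 3 + x * y ^ 4 + y ^ 5) +
  (x ^ 4 + x ^ 3 * y + x ^ 2 * y ^ 2 + x * y ^ 3 + y ^ 4) * z +
  (x ^ 3 + x ^ 2 * y + x * y ^ 2 + y ^ 3) * z ^ 2 + (x ^ 2 + x * y + y ^ 2) * z ^ 3 +
  (x + y) * z ^ 4 + z ^ 5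

/-- second divided difference -/
def ddd (c x y z : ℝ) : ℝ := (x ^ 2 + y ^ 2 + z ^ 2 + x * y + y * z + z * x) + c * h5 x y z

lemma f_sub' (c x y : ℝ) : f c x - f c y = dd c x y * (x - y) := by
  unfold f dd; ring

lemma dd_sub (c x y z : ℝ) : dd c x z - dd c y z = ddd c x y z * (x - y) := by
  unfold dd ddd h5; ring

lemma dd_comm (c x y : ℝ) : dd c x y = dd c y x := by unfold dd; ring

lemma dd_self (c x : ℝ) : dd c x x = fp c x := by unfold dd fp; ring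

lemma ddd_self (c x : ℝ) : ddd c x x x = hfp c x := by unfold ddd hfp h5; ring

/-- `x ^ 6 + x ^ 5 y + ... + y ^ 6` -/
lemma g6_nonneg (x y : ℝ) :
    0 ≤ x ^ 6 + x ^ 5 * y + x ^ 4 * y ^ 2 + x ^ 3 * y ^ 3 + x ^ 2 * y ^ 4 + x * y ^ 5 + y ^ 6 := by
  have e : x ^ 6 + x ^ 5 * y + x ^ 4 * y ^ 2 + x ^ 3 * y ^ 3 + x ^ 2 * y ^ 4 + x * y ^ 5 + y ^ 6 =
      (x ^ 4 + y ^ 4) * (x ^ 2 + x * y + y ^ 2) + (x * y) ^ 3 := by ring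
  rw [e]
  have h1 : 2 * (x * y) ^ 2 ≤ x ^ 4 + y ^ 4 := by nlinarith [sq_nonneg (x ^ 2 - y ^ 2)]
  have h2 : |x * y| ≤ x ^ 2 + x * y + y ^ 2 := by
    rw [abs_le]
    constructor <;> nlinarith [sq_nonneg (x + y), sq_nonneg x, sq_nonneg y]
  have h3 : 2 * (x * y) ^ 2 * |x * y| ≤ (x ^ 4 + y ^ 4) * (x ^ 2 + x * y + y ^ 2) := by gcongr
  have h4 : (x * y) ^ 2 * |x * y| = |(x * y) ^ 3| := by
    rw [abs_pow, ← sq_abs (x * y)]; ring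
  have h5 := neg_abs_le ((x * y) ^ 3)
  have h6 : 0 ≤ |(x * y) ^ 3| := abs_nonneg _
  nlinarith

lemma abs_g6_le {x y X : ℝ} (hx : |x| ≤ X) (hy : |y| ≤ X) :
    x ^ 6 + x ^ 5 * y + x ^ 4 * y ^ 2 + x ^ 3 * y ^ 3 + x ^ 2 * y ^ 4 + x * y ^ 5 + y ^ 6 ≤
      7 * X ^ 6 := by
  have hX : 0 ≤ X := (abs_nonneg x).trans hx
  have key : ∀ i j : ℕ, x ^ i * y ^ j ≤ X ^ (i + j) := by
    intro i j
    calc x ^ i * y ^ j ≤ |x ^ i * y ^ j| := le_abs_self _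
      _ = |x| ^ i * |y| ^ j := by rw [abs_mul, abs_pow, abs_pow]
      _ ≤ X ^ i * X ^ j := by gcongr
      _ = X ^ (i + j) := by rw [pow_add]
  have h0 := key 6 0
  have h1 := key 5 1
  have h2 := key 4 2
  have h3 := key 3 3
  have h4 := key 2 4
  have h5 := key 1 5
  have h6 := key 0 6
  norm_num at h0 h1 h2 h3 h4 h5 h6
  linarith

lemma g3_le {x y h : ℝ} (h0 : 0 ≤ h) (hx : x ≤ h) (hy : y ≤ h) :
    (x + y) * (x ^ 2 + y ^ 2) ≤ 4 * h ^ 3 := by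
  rcases le_or_gt (x + y) 0 with h1 | h1
  · have : (x + y) * (x ^ 2 + y ^ 2) ≤ 0 := mul_nonpos_of_nonpos_of_nonneg h1 (by positivity)
    have : 0 ≤ 4 * h ^ 3 := by positivity
    linarith
  · have hx2 : x ^ 2 ≤ h ^ 2 := sq_le_sq' (by linarith) hx
    have hy2 : y ^ 2 ≤ h ^ 2 := sq_le_sq' (by linarith) hy
    calc (x + y) * (x ^ 2 + y ^ 2) ≤ (h + h) * (h ^ 2 + h ^ 2) := by gcongr
      _ = 4 * h ^ 3 := by ring

/-- upper bound for the divided difference -/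
lemma dd_le {c x y h X : ℝ} (hc : 0 ≤ c) (h0 : 0 ≤ h) (hx : x ≤ h) (hy : y ≤ h) (hx' : |x| ≤ X)
    (hy' : |y| ≤ X) : dd c x y ≤ 4 * h ^ 3 + 7 * c * X ^ 6 := by
  unfold dd
  have h1 := g3_le h0 hx hy
  have h2 := abs_g6_le hx' hy'
  have h3 := mul_le_mul_of_nonneg_left h2 hc
  linarith

/-- lower bound for the divided difference -/
lemma le_dd {c x y p q : ℝ} (hc : 0 ≤ c) (hp : 0 ≤ p) (hq : 0 ≤ q) (h : p = 0 ∨ q = 0)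
    (hx : p - q ≤ x) (hy : p - q ≤ y) : 4 * (p ^ 3 - q ^ 3) ≤ dd c x y := by
  unfold dd
  have h2 := mul_nonneg hc (g6_nonneg x y)
  suffices 4 * (p ^ 3 - q ^ 3) ≤ (x + y) * (x ^ 2 + y ^ 2) by linarith
  rcases h with rfl | rfl
  · have := g3_le (x := -x) (y := -y) hq (by linarith) (by linarith)
    nlinarith
  · have hx2 : p ^ 2 ≤ x ^ 2 := pow_le_pow_left₀ hp (by linarith) 2
    have hy2 : p ^ 2 ≤ y ^ 2 := pow_le_pow_left₀ hp (by linarith) 2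
    calc 4 * (p ^ 3 - 0 ^ 3) = (p + p) * (p ^ 2 + p ^ 2) := by ring
      _ ≤ (x + y) * (x ^ 2 + y ^ 2) := by
        gcongr <;> linarith

/-- absolute bound for the divided difference -/
lemma abs_dd_le {c x y X : ℝ} (hc : 0 ≤ c) (hx : |x| ≤ X) (hy : |y| ≤ X) :
    |dd c x y| ≤ 4 * X ^ 3 + 7 * c * X ^ 6 := by
  have hX : 0 ≤ X := (abs_nonneg x).trans hx
  rw [abs_le]
  constructor
  · have h1 := le_dd (p := 0) (q := X) hc le_rfl hX (Or.inl rfl)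
      (x := x) (y := y) (by linarith [(abs_le.1 hx).1]) (by linarith [(abs_le.1 hy).1])
    have h2 : 0 ≤ 7 * c * X ^ 6 := by positivity
    have h3 : (0:ℝ) ^ 3 = 0 := by norm_num
    rw [h3] at h1
    linarith
  · exact dd_le hc hX (abs_le.1 hx).2 (abs_le.1 hy).2 hx hy

lemma abs_fp_sub_le {c x y X : ℝ} (hc : 0 ≤ c) (hx : |x| ≤ X) (hy : |y| ≤ X) :
    |fp c x - fp c y| ≤ (12 * X ^ 2 + 42 * c * X ^ 5) * |x - y| := by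
  have hX : 0 ≤ X := (abs_nonneg x).trans hx
  have key : ∀ i j : ℕ, |x ^ i * y ^ j| ≤ X ^ (i + j) := by
    intro i j
    calc |x ^ i * y ^ j| = |x| ^ i * |y| ^ j := by rw [abs_mul, abs_pow, abs_pow]
      _ ≤ X ^ i * X ^ j := by gcongr
      _ = X ^ (i + j) := by rw [pow_add]
  have e : fp c x - fp c y = (4 * (x ^ 2 * y ^ 0 + x ^ 1 * y ^ 1 + x ^ 0 * y ^ 2) +
      7 * c * (x ^ 5 * y ^ 0 + x ^ 4 * y ^ 1 + x ^ 3 * y ^ 2 + x ^ 2 * y ^ 3 + x ^ 1 * y ^ 4 +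
        x ^ 0 * y ^ 5)) * (x - y) := by
    unfold fp; ring
  rw [e, abs_mul]
  gcongr
  have a1 := abs_le.1 (key 2 0)
  have a2 := abs_le.1 (key 1 1)
  have a3 := abs_le.1 (key 0 2)
  have b1 := abs_le.1 (key 5 0)
  have b2 := abs_le.1 (key 4 1)
  have b3 := abs_le.1 (key 3 2)
  have b4 := abs_le.1 (key 2 3)
  have b5 := abs_le.1 (key 1 4)
  have b6 := abs_le.1 (key 0 5)
  have s1 : |x ^ 2 * y ^ 0 + x ^ 1 * y ^ 1 + x ^ 0 * y ^ 2| ≤ 3 * X ^ 2 := by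
    rw [abs_le]
    constructor
    · simp only [Nat.reduceAdd] at a1 a2 a3; linarith
    · simp only [Nat.reduceAdd] at a1 a2 a3; linarith
  have s2 : |x ^ 5 * y ^ 0 + x ^ 4 * y ^ 1 + x ^ 3 * y ^ 2 + x ^ 2 * y ^ 3 + x ^ 1 * y ^ 4 +
        x ^ 0 * y ^ 5| ≤ 6 * X ^ 5 := by
    simp only [Nat.reduceAdd] at b1 b2 b3 b4 b5 b6
    rw [abs_le]
    constructor <;> linarith
  calc |4 * (x ^ 2 * y ^ 0 + x ^ 1 * y ^ 1 + x ^ 0 * y ^ 2) +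
      7 * c * (x ^ 5 * y ^ 0 + x ^ 4 * y ^ 1 + x ^ 3 * y ^ 2 + x ^ 2 * y ^ 3 + x ^ 1 * y ^ 4 +
        x ^ 0 * y ^ 5)| ≤ |4 * (x ^ 2 * y ^ 0 + x ^ 1 * y ^ 1 + x ^ 0 * y ^ 2)| +
      |7 * c * (x ^ 5 * y ^ 0 + x ^ 4 * y ^ 1 + x ^ 3 * y ^ 2 + x ^ 2 * y ^ 3 + x ^ 1 * y ^ 4 +
        x ^ 0 * y ^ 5)| := abs_add_le _ _
    _ = 4 * |x ^ 2 * y ^ 0 + x ^ 1 * y ^ 1 + x ^ 0 * y ^ 2| +
      7 * c * |x ^ 5 * y ^ 0 + x ^ 4 * y ^ 1 + x ^ 3 * y ^ 2 + x ^ 2 * y ^ 3 + x ^ 1 * y ^ 4 +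
        x ^ 0 * y ^ 5| := by
        rw [abs_mul, abs_mul (7 * c), abs_of_nonneg (by positivity : 0 ≤ 7 * c)]
        norm_num
    _ ≤ 4 * (3 * X ^ 2) + 7 * c * (6 * X ^ 5) := by gcongr
    _ = 12 * X ^ 2 + 42 * c * X ^ 5 := by ring

lemma abs_hfp_le {c x X : ℝ} (hc : 0 ≤ c) (hx : |x| ≤ X) :
    |hfp c x| ≤ 6 * X ^ 2 + 21 * c * X ^ 5 := by
  unfold hfp
  calc |6 * x ^ 2 + 21 * c * x ^ 5| ≤ |6 * x ^ 2| + |21 * c * x ^ 5| := abs_add_le _ _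
    _ = 6 * |x| ^ 2 + 21 * c * |x| ^ 5 := by
      rw [abs_mul, abs_mul (21 * c), abs_of_nonneg (by positivity : 0 ≤ 21 * c), abs_pow, abs_pow]
      norm_num
    _ ≤ 6 * X ^ 2 + 21 * c * X ^ 5 := by gcongr

lemma abs_hfp_sub_le {c x y X : ℝ} (hc : 0 ≤ c) (hx : |x| ≤ X) (hy : |y| ≤ X) :
    |hfp c x - hfp c y| ≤ (12 * X + 105 * c * X ^ 4) * |x - y| := by
  have hX : 0 ≤ X := (abs_nonneg x).trans hx
  have key : ∀ i j : ℕ, |x ^ i * y ^ j| ≤ X ^ (i + j) := by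
    intro i j
    calc |x ^ i * y ^ j| = |x| ^ i * |y| ^ j := by rw [abs_mul, abs_pow, abs_pow]
      _ ≤ X ^ i * X ^ j := by gcongr
      _ = X ^ (i + j) := by rw [pow_add]
  have e : hfp c x - hfp c y = (6 * (x ^ 1 * y ^ 0 + x ^ 0 * y ^ 1) +
      21 * c * (x ^ 4 * y ^ 0 + x ^ 3 * y ^ 1 + x ^ 2 * y ^ 2 + x ^ 1 * y ^ 3 +
        x ^ 0 * y ^ 4)) * (x - y) := by
    unfold hfp; ring
  rw [e, abs_mul]
  gcongr
  have a1 := abs_le.1 (key 1 0)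
  have a2 := abs_le.1 (key 0 1)
  have b1 := abs_le.1 (key 4 0)
  have b2 := abs_le.1 (key 3 1)
  have b3 := abs_le.1 (key 2 2)
  have b4 := abs_le.1 (key 1 3)
  have b5 := abs_le.1 (key 0 4)
  have s1 : |x ^ 1 * y ^ 0 + x ^ 0 * y ^ 1| ≤ 2 * X := by
    simp only [add_zero, zero_add, pow_one X] at a1 a2
    rw [abs_le]
    constructor <;> linarith
  have s2 : |x ^ 4 * y ^ 0 + x ^ 3 * y ^ 1 + x ^ 2 * y ^ 2 + x ^ 1 * y ^ 3 + x ^ 0 * y ^ 4| ≤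
      5 * X ^ 4 := by
    simp only [Nat.reduceAdd] at b1 b2 b3 b4 b5
    rw [abs_le]
    constructor <;> linarith
  calc |6 * (x ^ 1 * y ^ 0 + x ^ 0 * y ^ 1) +
      21 * c * (x ^ 4 * y ^ 0 + x ^ 3 * y ^ 1 + x ^ 2 * y ^ 2 + x ^ 1 * y ^ 3 +
        x ^ 0 * y ^ 4)| ≤ |6 * (x ^ 1 * y ^ 0 + x ^ 0 * y ^ 1)| +
      |21 * c * (x ^ 4 * y ^ 0 + x ^ 3 * y ^ 1 + x ^ 2 * y ^ 2 + x ^ 1 * y ^ 3 +
        x ^ 0 * y ^ 4)| := abs_add_le _ _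
    _ = 6 * |x ^ 1 * y ^ 0 + x ^ 0 * y ^ 1| +
      21 * c * |x ^ 4 * y ^ 0 + x ^ 3 * y ^ 1 + x ^ 2 * y ^ 2 + x ^ 1 * y ^ 3 + x ^ 0 * y ^ 4| := by
        rw [abs_mul, abs_mul (21 * c), abs_of_nonneg (by positivity : 0 ≤ 21 * c)]
        norm_num
    _ ≤ 6 * (2 * X) + 21 * c * (5 * X ^ 4) := by gcongr
    _ = 12 * X + 105 * c * X ^ 4 := by ring

lemma F_eq_dd {c x y : ℝ} (hx : x ∈ Icc (-1/2:ℝ) 2) (hy : y ∈ Icc (-1/2:ℝ) 2) :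
    F c x - F c y = dd c x y * (x - y) := by
  rw [F_of_mem hx, F_of_mem hy, f_sub']

end LinNi
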