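import Pool.Agent.Lib.MP_0170ef_an.Exist

/-!
The radial solutions `V c a` with `V 0 = a` of `v'' + (2/t) v' + F c v = 0`, and
`M c a t = t ^ 2 * V' t`.
-/

set_option autoImplicit false

open Set Filter Topology

namespace LinNi

/-- `v, m` solve the equation (`m = t ^ 2 v'`) at `t` -/
def SolAt (c : ℝ) (v m : ℝ → ℝ) (t : ℝ) : Prop :=
  HasDerivAt v (m t / t ^ 2) t ∧ HasDerivAt m (-(t ^ 2 * F c (v t))) t

lemma exists_rad {c : ℝ} (hc : c ∈ Icc (0:ℝ) 1) (a : ℝ) :
    ∃ v m : ℝ → ℝ, v 0 = a ∧ m 0 = 0 ∧ Continuous v ∧ (∀ t, t ≠ 0 → SolAt c v m t) ∧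
      (∀ t, HasDerivAt m (-(t ^ 2 * F c (v t))) t) := by
  obtain ⟨z, p, hz0, hp0, h⟩ := exists_global hc a
  have hm : ∀ t, HasDerivAt (fun t => t * p t - z t)
      (-(t ^ 2 * F c (if t = 0 then a else z t / t))) t := by
    intro t
    have h1 := ((hasDerivAt_id' t).fun_mul (h t).2).fun_sub (h t).1
    refine h1.congr_deriv ?_
    rcases eq_or_ne t 0 with rfl | ht
    · simp
    · simp only [ht, if_false, g]
      ring
  have hv : ∀ t, t ≠ 0 → HasDerivAt (fun t => if t = 0 then a else z t / t)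
      ((t * p t - z t) / t ^ 2) t := by
    intro t ht
    have h1 : HasDerivAt (fun t => z t / t) ((p t * t - z t * 1) / t ^ 2) t :=
      (h t).1.fun_div (hasDerivAt_id' t) ht
    have h2 : HasDerivAt (fun t => if t = 0 then a else z t / t) ((p t * t - z t * 1) / t ^ 2) t := by
      refine h1.congr_of_eventuallyEq ?_
      filter_upwards [isOpen_ne.mem_nhds ht] with s hs
      simp [show s ≠ 0 from hs]
    exact h2.congr_deriv (by ring)
  refine ⟨fun t => if t = 0 then a else z t / t, fun t => t * p t - z t, by simp, by simp [hz0],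
    ?_, fun t ht => ⟨hv t ht, hm t⟩, hm⟩
  rw [continuous_iff_continuousAt]
  intro t
  rcases eq_or_ne t 0 with rfl | ht
  · have h1 := (h 0).1
    rw [hasDerivAt_iff_tendsto_slope_zero] at h1
    rw [← continuousWithinAt_compl_self]
    unfold ContinuousWithinAt
    simp only [if_true]
    rw [hp0] at h1
    have h2 : Tendsto (fun t : ℝ => t⁻¹ • (z (0 + t) - z 0)) (𝓝[≠] 0) (𝓝 a) := h1
    refine h2.congr' ?_
    filter_upwards [self_mem_nhdsWithin] with s hs
    have hs' : s ≠ 0 := hs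
    simp [hs', hz0, div_eq_inv_mul]
  · exact (hv t ht).continuousAt

open Classical in
/-- the radial solution with initial value `a` -/
noncomputable def V (c a : ℝ) : ℝ → ℝ :=
  if hc : c ∈ Icc (0:ℝ) 1 then (exists_rad hc a).choose else 0

open Classical in
/-- `t ^ 2` times the derivative of the radial solution -/
noncomputable def M (c a : ℝ) : ℝ → ℝ :=
  if hc : c ∈ Icc (0:ℝ) 1 then (exists_rad hc a).choose_spec.choose else 0

section
variable {c : ℝ} (hc : c ∈ Icc (0:ℝ) 1) (a : ℝ)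
include hc

lemma VM_spec : V c a 0 = a ∧ M c a 0 = 0 ∧ Continuous (V c a) ∧
    (∀ t, t ≠ 0 → SolAt c (V c a) (M c a) t) ∧
      (∀ t, HasDerivAt (M c a) (-(t ^ 2 * F c (V c a t))) t) := by
  unfold V M
  rw [dif_pos hc, dif_pos hc]
  exact (exists_rad hc a).choose_spec.choose_spec

lemma V_zero : V c a 0 = a := (VM_spec hc a).1
lemma M_zero : M c a 0 = 0 := (VM_spec hc a).2.1
lemma V_cont : Continuous (V c a) := (VM_spec hc a).2.2.1
lemma solAt_VM {t : ℝ} (ht : t ≠ 0) : SolAt c (V c a) (M c a) t := (VM_spec hc a).2.2.2.1 t ht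
lemma hasDerivAt_M (t : ℝ) : HasDerivAt (M c a) (-(t ^ 2 * F c (V c a t))) t :=
  (VM_spec hc a).2.2.2.2 t
end

lemma V_of_pos {c a t : ℝ} (hc : c ∈ Icc (0:ℝ) 1) (ht : t ≠ 0) :
    HasDerivAt (V c a) (M c a t / t ^ 2) t := (solAt_VM hc a ht).1

/-- the basic stability estimate -/
lemma stab {c : ℝ} (hc : c ∈ Icc (0:ℝ) 1) {v m v' m' : ℝ → ℝ} {s N : ℝ} (hs : 0 < s)
    (h : ∀ t ∈ Icc s N, SolAt c v m t) (h' : ∀ t ∈ Icc s N, SolAt c v' m' t) :
    ∀ t ∈ Icc s N,
      |t * v t - t * v' t| ≤ max |s * v s - s * v' s| |(v s + m s / s) - (v' s + m' s / s)| *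
        Real.exp (480 * (t - s)) ∧
      |(v t + m t / t) - (v' t + m' t / t)| ≤
        max |s * v s - s * v' s| |(v s + m s / s) - (v' s + m' s / s)| *
        Real.exp (480 * (t - s)) := by
  have conv : ∀ (v m : ℝ → ℝ) (t : ℝ), 0 < t → SolAt c v m t →
      HasDerivAt (fun t => (t * v t, v t + m t / t)) (G c t (t * v t, v t + m t / t)) t := by
    intro v m t ht h
    have ht' : t ≠ 0 := ht.ne'
    refine HasDerivAt.prodMk ?_ ?_
    · have := (hasDerivAt_id' t).fun_mul h.1
      refine this.congr_deriv ?_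
      field_simp
    · have := h.1.fun_add (h.2.fun_div (hasDerivAt_id' t) ht')
      refine this.congr_deriv ?_
      have e : t * v t / t = v t := by field_simp
      simp only [g, e]
      field_simp
      ring
  have key := dist_le_of_trajectories_ODE (v := G c) (K := 480)
    (f := fun t => (t * v t, v t + m t / t))
    (g := fun t => (t * v' t, v' t + m' t / t)) (a := s) (b := N)
    (δ := max |s * v s - s * v' s| |(v s + m s / s) - (v' s + m' s / s)|)
    (fun t => lipschitz_G hc t)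
    (fun t ht => (conv v m t (by linarith [ht.1]) (h t ht)).continuousAt.continuousWithinAt)
    (fun t ht => (conv v m t (by linarith [ht.1]) (h t (Ico_subset_Icc_self ht))).hasDerivWithinAt)
    (fun t ht => (conv v' m' t (by linarith [ht.1]) (h' t ht)).continuousAt.continuousWithinAt)
    (fun t ht => (conv v' m' t (by linarith [ht.1]) (h' t (Ico_subset_Icc_self ht))).hasDerivWithinAt)
    (by rw [Prod.dist_eq]; simp [Real.dist_eq])
  intro t ht
  have h1 := key t ht
  have e : ((480 : NNReal) : ℝ) = 480 := by norm_num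
  rw [Prod.dist_eq, e] at h1
  simp only [Real.dist_eq] at h1
  exact ⟨(le_max_left _ _).trans h1, (le_max_right _ _).trans h1⟩

/-- a solution on `(0, N]` starting at `a` -/
structure RadOn (c a N : ℝ) (v m : ℝ → ℝ) : Prop where
  sol : ∀ t ∈ Ioc 0 N, SolAt c v m t
  v0 : Tendsto v (𝓝[>] 0) (𝓝 a)
  m0 : Tendsto m (𝓝[>] 0) (𝓝 0)

lemma radOn_VM {c : ℝ} (hc : c ∈ Icc (0:ℝ) 1) (a N : ℝ) : RadOn c a N (V c a) (M c a) where
  sol t ht := solAt_VM hc a ht.1.ne'
  v0 := by
    have := (V_cont hc a).tendsto 0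
    rw [V_zero hc a] at this
    exact this.mono_left nhdsWithin_le_nhds
  m0 := by
    have := (hasDerivAt_M hc a 0).continuousAt.tendsto
    rw [M_zero hc a] at this
    exact this.mono_left nhdsWithin_le_nhds

/-- `m = O(t^3)` -/
lemma RadOn.abs_m_le {c a N : ℝ} {v m : ℝ → ℝ} (hc : c ∈ Icc (0:ℝ) 1) (h : RadOn c a N v m)
    {t : ℝ} (ht : t ∈ Ioc 0 N) : |m t| ≤ 48 * t ^ 3 := by
  have h1 : ∀ s ∈ Ioo 0 t, |m t - m s| ≤ 48 * t ^ 3 := by
    intro s hs
    have hmono : AntitoneOn m (Icc s t) := by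
      apply antitoneOn_of_deriv_nonpos (convex_Icc _ _)
      · intro r hr
        exact (h.sol r ⟨by linarith [hs.1, hr.1], hr.2.trans ht.2⟩).2.continuousAt.continuousWithinAt
      · intro r hr
        rw [interior_Icc] at hr
        exact (h.sol r ⟨by linarith [hs.1, hr.1], hr.2.le.trans ht.2⟩).2.differentiableAt.differentiableWithinAt
      · intro r hr
        rw [interior_Icc] at hr
        rw [(h.sol r ⟨by linarith [hs.1, hr.1], hr.2.le.trans ht.2⟩).2.deriv]
        have := F_nonneg hc (v r)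
        have h2 : 0 ≤ r ^ 2 * F c (v r) := by positivity
        linarith
    have hmono2 : MonotoneOn (fun r => m r + 48 * r ^ 3) (Icc s t) := by
      have hd : ∀ r ∈ Icc s t, HasDerivAt (fun r => m r + 48 * r ^ 3)
          (-(r ^ 2 * F c (v r)) + 48 * (3 * r ^ 2)) r := by
        intro r hr
        have e1 := (h.sol r ⟨by linarith [hs.1, hr.1], hr.2.trans ht.2⟩).2
        have e2 := (hasDerivAt_pow 3 r).const_mul 48
        refine (e1.fun_add e2).congr_deriv ?_
        norm_num
      apply monotoneOn_of_deriv_nonneg (convex_Icc _ _)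
      · intro r hr
        exact (hd r hr).continuousAt.continuousWithinAt
      · intro r hr
        rw [interior_Icc] at hr
        exact (hd r (Ioo_subset_Icc_self hr)).differentiableAt.differentiableWithinAt
      · intro r hr
        rw [interior_Icc] at hr
        rw [(hd r (Ioo_subset_Icc_self hr)).deriv]
        have := F_le hc (v r)
        nlinarith [sq_nonneg r]
    have e1 := hmono (left_mem_Icc.2 hs.2.le) (right_mem_Icc.2 hs.2.le) hs.2.le
    have e2 := hmono2 (left_mem_Icc.2 hs.2.le) (right_mem_Icc.2 hs.2.le) hs.2.le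
    simp only at e2
    have e3 : 0 ≤ s ^ 3 := by have := hs.1; positivity
    rw [abs_of_nonpos (by linarith)]
    linarith
  have h2 : Tendsto (fun s => |m t - m s|) (𝓝[>] 0) (𝓝 |m t - 0|) :=
    (tendsto_const_nhds.sub h.m0).abs
  rw [sub_zero] at h2
  refine le_of_tendsto h2 ?_
  filter_upwards [Ioo_mem_nhdsGT ht.1] with s hs using h1 s hs

/-- Lipschitz dependence on the initial value -/
theorem RadOn.lip {c a a' N : ℝ} {v m v' m' : ℝ → ℝ} (hc : c ∈ Icc (0:ℝ) 1)
    (h : RadOn c a N v m) (h' : RadOn c a' N v' m') {t : ℝ} (ht : t ∈ Ioc 0 N) :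
    |t * v t - t * v' t| ≤ |a - a'| * Real.exp (480 * N) ∧
    |(v t + m t / t) - (v' t + m' t / t)| ≤ |a - a'| * Real.exp (480 * N) := by
  have hlim : ∀ {b : ℝ} {w n : ℝ → ℝ}, RadOn c b N w n →
      Tendsto (fun s => n s / s) (𝓝[>] 0) (𝓝 0) := by
    intro b w n hr
    apply squeeze_zero_norm' (a := fun s => 48 * s ^ 2)
    · filter_upwards [Ioo_mem_nhdsGT (ht.1.trans_le ht.2)] with s hs
      have h1 := hr.abs_m_le hc ⟨hs.1, hs.2.le⟩
      rw [Real.norm_eq_abs, abs_div, abs_of_pos hs.1, div_le_iff₀ hs.1]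
      linarith [h1, show 48 * s ^ 2 * s = 48 * s ^ 3 by ring]
    · have : Continuous (fun s : ℝ => 48 * s ^ 2) := by fun_prop
      have h2 := this.tendsto 0
      simp only [ne_eq, OfNat.ofNat_ne_zero, not_false_eq_true, zero_pow, mul_zero] at h2
      exact h2.mono_left nhdsWithin_le_nhds
  have hB : Tendsto (fun s => max |s * v s - s * v' s| |(v s + m s / s) - (v' s + m' s / s)| *
        Real.exp (480 * (t - s))) (𝓝[>] 0) (𝓝 (max |0 * a - 0 * a'| |(a + 0) - (a' + 0)| *
          Real.exp (480 * (t - 0)))) := by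
    have hs : Tendsto (fun s : ℝ => s) (𝓝[>] 0) (𝓝 0) := tendsto_id.mono_left nhdsWithin_le_nhds
    have e1 : Tendsto (fun s => |s * v s - s * v' s|) (𝓝[>] 0) (𝓝 |0 * a - 0 * a'|) :=
      ((hs.mul h.v0).sub (hs.mul h'.v0)).abs
    have e2 : Tendsto (fun s => |(v s + m s / s) - (v' s + m' s / s)|) (𝓝[>] 0)
        (𝓝 |(a + 0) - (a' + 0)|) :=
      ((h.v0.add (hlim h)).sub (h'.v0.add (hlim h'))).abs
    have e3 : Tendsto (fun s : ℝ => Real.exp (480 * (t - s))) (𝓝[>] 0)
        (𝓝 (Real.exp (480 * (t - 0)))) := by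
      have : Continuous (fun s : ℝ => Real.exp (480 * (t - s))) := by fun_prop
      exact (this.tendsto 0).mono_left nhdsWithin_le_nhds
    exact (e1.max e2).mul e3
  have hfin : max |0 * a - 0 * a'| |(a + 0) - (a' + 0)| * Real.exp (480 * (t - 0)) ≤
      |a - a'| * Real.exp (480 * N) := by
    have : max |0 * a - 0 * a'| |(a + 0) - (a' + 0)| = |a - a'| := by
      simp
    rw [this]
    gcongr
    linarith [ht.2]
  have hev : ∀ᶠ s in 𝓝[>] (0:ℝ), s ∈ Ioo 0 t := Ioo_mem_nhdsGT ht.1
  have hst : ∀ s ∈ Ioo 0 t, _ := fun s hs => stab hc (v := v) (m := m) (v' := v') (m' := m') (N := N) hs.1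
      (fun r hr => h.sol r ⟨hs.1.trans_le hr.1, hr.2⟩)
      (fun r hr => h'.sol r ⟨hs.1.trans_le hr.1, hr.2⟩) t ⟨hs.2.le, ht.2⟩
  constructor
  · refine le_trans ?_ hfin
    refine ge_of_tendsto hB ?_
    filter_upwards [hev] with s hs using (hst s hs).1
  · refine le_trans ?_ hfin
    refine ge_of_tendsto hB ?_
    filter_upwards [hev] with s hs using (hst s hs).2

/-- uniqueness -/
theorem RadOn.unique {c a N : ℝ} {v m : ℝ → ℝ} (hc : c ∈ Icc (0:ℝ) 1)
    (h : RadOn c a N v m) {t : ℝ} (ht : t ∈ Ioc 0 N) : v t = V c a t ∧ m t = M c a t := by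
  have h1 := h.lip hc (radOn_VM hc a N) ht
  rw [sub_self, abs_zero, zero_mul] at h1
  have ht0 : t ≠ 0 := ht.1.ne'
  have e1 : t * v t - t * V c a t = 0 := abs_eq_zero.1 (le_antisymm h1.1 (abs_nonneg _))
  have e2 : (v t + m t / t) - (V c a t + M c a t / t) = 0 :=
    abs_eq_zero.1 (le_antisymm h1.2 (abs_nonneg _))
  have e3 : v t = V c a t := by
    have : t * (v t - V c a t) = 0 := by linarith
    rcases mul_eq_zero.1 this with h | h
    · exact absurd h ht0
    · linarith
  refine ⟨e3, ?_⟩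
  rw [e3] at e2
  have : m t / t = M c a t / t := by linarith
  field_simp at this
  exact this

end LinNi
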