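import Mathlib

/-!
Computing the `ℓ¹` norm of a polynomial from its value at a power of two, with a constant number
of operations on natural numbers.
-/

set_option autoImplicit false

open Finset

namespace LinNi

/-- base `2 ^ b` encoding of digits -/
def enc (b : ℕ) (d : ℕ → ℕ) (n : ℕ) : ℕ := ∑ k ∈ range n, d k * 2 ^ (b * k)

lemma enc_succ (b : ℕ) (d : ℕ → ℕ) (n : ℕ) :
    enc b d (n + 1) = 2 ^ b * enc b (fun k => d (k + 1)) n + d 0 := by
  unfold enc
  rw [sum_range_succ', mul_sum]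
  simp only [mul_zero, pow_zero, mul_one]
  congr 1
  apply sum_congr rfl
  intro k _
  rw [show b * (k + 1) = b + b * k by ring, pow_add]
  ring

lemma enc_congr {b : ℕ} {d d' : ℕ → ℕ} {n : ℕ} (h : ∀ k < n, d k = d' k) :
    enc b d n = enc b d' n := by
  unfold enc
  apply sum_congr rfl
  intro k hk
  rw [h k (mem_range.1 hk)]

lemma testBit_enc {b : ℕ} (hb : 0 < b) (n : ℕ) : ∀ (d : ℕ → ℕ), (∀ k, d k < 2 ^ b) → ∀ i : ℕ,
    (enc b d n).testBit i = (decide (i / b < n) && (d (i / b)).testBit (i % b)) := by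
  induction n with
  | zero => intro d _ i; simp [enc]
  | succ n ih =>
    intro d hd i
    rw [enc_succ, Nat.testBit_two_pow_mul_add _ (hd 0)]
    split_ifs with h
    · rw [Nat.div_eq_of_lt h, Nat.mod_eq_of_lt h]
      simp
    · push Not at h
      rw [ih _ (fun k => hd (k + 1))]
      obtain ⟨j, rfl⟩ := Nat.exists_eq_add_of_le h
      rw [Nat.add_sub_cancel_left, Nat.add_div_left _ hb, Nat.add_mod_left]
      simp

lemma testBit_top {h d : ℕ} (hd : d < 2 ^ (h + 1)) : d.testBit h = decide (2 ^ h ≤ d) := by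
  by_cases h1 : 2 ^ h ≤ d
  · have : d = 2 ^ h * 1 + (d - 2 ^ h) := by omega
    rw [this, Nat.testBit_two_pow_mul_add _ (by rw [pow_succ] at hd; omega)]
    simp
  · push Not at h1
    rw [Nat.testBit_lt_two_pow h1]
    simp [h1]

lemma enc_mask {b h n : ℕ} (hb : h < b) {d : ℕ → ℕ} (hd : ∀ k, d k < 2 ^ (h + 1)) :
    (enc b d n >>> h) &&& enc b (fun _ => 1) n = enc b (fun k => if 2 ^ h ≤ d k then 1 else 0) n := by
  have hb0 : 0 < b := by omega
  have h1 : 1 < 2 ^ b := Nat.one_lt_two_pow hb0.ne'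
  have hdb : ∀ k, d k < 2 ^ b := fun k =>
    (hd k).trans_le (Nat.pow_le_pow_right (by norm_num) (by omega))
  apply Nat.eq_of_testBit_eq
  intro i
  rw [Nat.testBit_and, Nat.testBit_shiftRight, testBit_enc hb0 n _ hdb,
    testBit_enc hb0 n _ (fun _ => h1), testBit_enc hb0 n _ (fun k => by split_ifs <;> omega)]
  by_cases h2 : i % b = 0
  · obtain ⟨k, rfl⟩ := Nat.dvd_of_mod_eq_zero h2
    have e1 : (h + b * k) / b = k := by
      rw [Nat.add_mul_div_left _ _ hb0, Nat.div_eq_of_lt hb, zero_add]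
    have e2 : (h + b * k) % b = h := by
      rw [Nat.add_mul_mod_self_left, Nat.mod_eq_of_lt hb]
    rw [e1, e2, Nat.mul_div_cancel_left _ hb0, Nat.mul_mod_right, testBit_top (hd k)]
    by_cases h3 : 2 ^ h ≤ d k <;> simp [h3]
  · have e1 : (1:ℕ).testBit (i % b) = false := by
      rw [Bool.eq_false_iff]
      intro h3
      exact h2 (Nat.testBit_one_eq_true_iff_self_eq_zero.1 h3)
    have e2 : (if 2 ^ h ≤ d (i / b) then 1 else 0 : ℕ).testBit (i % b) = false := by
      split_ifs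
      · exact e1
      · simp
    rw [e1, e2]
    simp

lemma enc_mul (b : ℕ) (d : ℕ → ℕ) (n c : ℕ) : enc b d n * c = enc b (fun k => d k * c) n := by
  unfold enc
  rw [sum_mul]
  apply sum_congr rfl
  intro k _
  ring

lemma enc_and {b n : ℕ} (hb : 0 < b) {d : ℕ → ℕ} (hd : ∀ k, d k < 2 ^ b) (p : ℕ → Prop)
    [DecidablePred p] :
    enc b d n &&& enc b (fun k => if p k then 2 ^ b - 1 else 0) n =
      enc b (fun k => if p k then d k else 0) n := by
  have hb1 : 0 < 2 ^ b := by positivity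
  apply Nat.eq_of_testBit_eq
  intro i
  rw [Nat.testBit_and, testBit_enc hb n _ hd, testBit_enc hb n _ (fun k => by split_ifs <;> omega),
    testBit_enc hb n _ (fun k => by split_ifs <;> [exact hd k; exact hb1])]
  by_cases h3 : p (i / b)
  · simp only [h3, if_true, Nat.testBit_two_pow_sub_one, Nat.mod_lt _ hb, decide_true,
      Bool.and_true]
    cases decide (i / b < n) <;> simp
  · simp [h3]

lemma enc_mod {b n : ℕ} {d : ℕ → ℕ} (h : ∑ k ∈ range n, d k < 2 ^ b - 1) :
    enc b d n % (2 ^ b - 1) = ∑ k ∈ range n, d k := by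
  have h1 : enc b d n ≡ ∑ k ∈ range n, d k [MOD (2 ^ b - 1)] := by
    unfold enc
    apply Nat.ModEq.sum
    intro k _
    have h2 : 2 ^ b ≡ 1 [MOD (2 ^ b - 1)] := by
      have : 2 ^ b = 1 + (2 ^ b - 1) := by
        have : 0 < 2 ^ b := by positivity
        omega
      conv_lhs => rw [this]
      simp [Nat.ModEq]
    have h3 : 2 ^ (b * k) ≡ 1 [MOD (2 ^ b - 1)] := by
      rw [pow_mul]
      simpa using h2.pow k
    simpa using (Nat.ModEq.refl (d k)).mul h3
  rw [h1]
  exact Nat.mod_eq_of_lt h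

/-- the `ℓ¹` norm of the digits, from the shifted encoding `N` (all digits shifted by `2 ^ h`) -/
def simd (b h n N : ℕ) : ℕ :=
  let B1 := 2 ^ b - 1
  let ones := (2 ^ (b * n) - 1) / B1
  let s := (N >>> h) &&& ones
  let A := N &&& (s * B1)
  (2 * (A % B1) + 2 ^ h * n) - (N % B1 + 2 ^ (h + 1) * (s % B1))

lemma enc_ones (b n : ℕ) (hb : 0 < b) : (2 ^ (b * n) - 1) / (2 ^ b - 1) = enc b (fun _ => 1) n := by
  have h1 : 0 < 2 ^ b - 1 := by
    have := Nat.one_lt_two_pow hb.ne'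
    omega
  have h2 : enc b (fun _ => 1) n * (2 ^ b - 1) = 2 ^ (b * n) - 1 := by
    unfold enc
    simp only [one_mul, pow_mul]
    have := Nat.geomSum_eq (m := 2 ^ b) (by have := Nat.one_lt_two_pow hb.ne'; omega) n
    rw [this]
    exact Nat.div_mul_cancel (Nat.sub_one_dvd_pow_sub_one _ _)
  rw [← h2, Nat.mul_div_cancel _ h1]

theorem simd_enc {b h n : ℕ} (hbn : n * 2 ^ (h + 1) < 2 ^ b - 1) {g : ℕ → ℤ}
    (hg : ∀ k < n, |g k| < 2 ^ h) :
    (simd b h n (∑ k ∈ range n, g k * 2 ^ (b * k) + 2 ^ h * ∑ k ∈ range n, 2 ^ (b * k)).toNat : ℤ)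
      = ∑ k ∈ range n, |g k| := by
  rcases Nat.eq_zero_or_pos n with rfl | hn
  · simp [simd]
  have hh : h < b := by
    by_contra hcon
    push Not at hcon
    have h1 : 2 ^ b ≤ 2 ^ (h + 1) := Nat.pow_le_pow_right (by norm_num) (by omega)
    have h2 : 2 ^ (h + 1) ≤ n * 2 ^ (h + 1) := Nat.le_mul_of_pos_left _ hn
    omega
  have hb : 0 < b := by omega
  let d : ℕ → ℕ := fun k => if k < n then (g k + 2 ^ h).toNat else 0
  have hd0 : ∀ k < n, (d k : ℤ) = g k + 2 ^ h := by
    intro k hk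
    simp only [d, hk, if_true]
    apply Int.toNat_of_nonneg
    have := abs_lt.1 (hg k hk)
    linarith [this.1]
  have hd : ∀ k, d k < 2 ^ (h + 1) := by
    intro k
    by_cases hk : k < n
    · have h1 := hd0 k hk
      have h2 := abs_lt.1 (hg k hk)
      have h3 : (d k : ℤ) < 2 ^ (h + 1) := by
        rw [h1, pow_succ]; linarith [h2.2]
      exact_mod_cast h3
    · simp only [d, hk, if_false]
      positivity
  have hdb : ∀ k, d k < 2 ^ b := fun k =>
    (hd k).trans_le (Nat.pow_le_pow_right (by norm_num) (by omega))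
  have hN : (∑ k ∈ range n, g k * 2 ^ (b * k) + 2 ^ h * ∑ k ∈ range n, 2 ^ (b * k)).toNat =
      enc b d n := by
    have : (∑ k ∈ range n, g k * 2 ^ (b * k) + 2 ^ h * ∑ k ∈ range n, 2 ^ (b * k) : ℤ) =
        ((enc b d n : ℕ) : ℤ) := by
      unfold enc
      rw [mul_sum, ← sum_add_distrib]
      push_cast
      apply sum_congr rfl
      intro k hk
      rw [hd0 k (mem_range.1 hk)]
      ring
    rw [this]
    simp
  rw [hN]
  have hsum : ∑ k ∈ range n, d k < 2 ^ b - 1 := by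
    refine lt_of_le_of_lt ?_ hbn
    calc ∑ k ∈ range n, d k ≤ ∑ k ∈ range n, 2 ^ (h + 1) := sum_le_sum (fun k _ => (hd k).le)
      _ = n * 2 ^ (h + 1) := by simp
  have hmask : (enc b d n >>> h) &&& ((2 ^ (b * n) - 1) / (2 ^ b - 1)) =
      enc b (fun k => if 2 ^ h ≤ d k then 1 else 0) n := by
    rw [enc_ones b n hb]
    exact enc_mask hh hd
  have hA : enc b d n &&& (enc b (fun k => if 2 ^ h ≤ d k then 1 else 0) n * (2 ^ b - 1)) =
      enc b (fun k => if 2 ^ h ≤ d k then d k else 0) n := by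
    rw [enc_mul]
    have : enc b (fun k => (if 2 ^ h ≤ d k then 1 else 0) * (2 ^ b - 1)) n =
        enc b (fun k => if 2 ^ h ≤ d k then 2 ^ b - 1 else 0) n := by
      apply enc_congr
      intro k _
      split_ifs <;> simp
    rw [this]
    exact enc_and hb hdb _
  have m1 : enc b d n % (2 ^ b - 1) = ∑ k ∈ range n, d k := enc_mod hsum
  have m2 : enc b (fun k => if 2 ^ h ≤ d k then d k else 0) n % (2 ^ b - 1) =
      ∑ k ∈ range n, if 2 ^ h ≤ d k then d k else 0 := by
    apply enc_mod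
    refine lt_of_le_of_lt (sum_le_sum (fun k _ => ?_)) hsum
    split_ifs <;> simp
  have m3 : enc b (fun k => if 2 ^ h ≤ d k then 1 else 0) n % (2 ^ b - 1) =
      ∑ k ∈ range n, if 2 ^ h ≤ d k then 1 else 0 := by
    apply enc_mod
    refine lt_of_le_of_lt ?_ hbn
    calc (∑ k ∈ range n, if 2 ^ h ≤ d k then 1 else 0) ≤ ∑ k ∈ range n, 2 ^ (h + 1) := by
          apply sum_le_sum
          intro k _
          have : 1 ≤ 2 ^ (h + 1) := Nat.one_le_two_pow
          split_ifs <;> omega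
      _ = n * 2 ^ (h + 1) := by simp
  have key : ((2 * (∑ k ∈ range n, if 2 ^ h ≤ d k then d k else 0) + 2 ^ h * n : ℕ) : ℤ) =
      ((∑ k ∈ range n, d k + 2 ^ (h + 1) * (∑ k ∈ range n, if 2 ^ h ≤ d k then 1 else 0) : ℕ) : ℤ) +
      ∑ k ∈ range n, |g k| := by
    push_cast
    rw [mul_sum, mul_sum]
    have e : (2 ^ h * n : ℤ) = ∑ k ∈ range n, (2 ^ h : ℤ) := by simp; ring
    rw [e, ← sum_add_distrib, ← sum_add_distrib, ← sum_add_distrib]
    apply sum_congr rfl
    intro k hk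
    have h1 := hd0 k (mem_range.1 hk)
    have hiff : 2 ^ h ≤ d k ↔ 0 ≤ g k := by
      have : ((2 ^ h : ℕ) : ℤ) ≤ (d k : ℤ) ↔ 0 ≤ g k := by
        rw [h1]; push_cast; constructor <;> intro h <;> linarith
      rw [← this]
      exact Nat.cast_le.symm
    by_cases h2 : 0 ≤ g k
    · simp only [hiff.2 h2, if_true, abs_of_nonneg h2, h1, pow_succ]
      push_cast
      ring
    · have h3 : ¬ 2 ^ h ≤ d k := fun h => h2 (hiff.1 h)
      push Not at h2
      simp only [h3, if_false, abs_of_neg h2, h1]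
      push_cast
      ring
  unfold simd
  simp only
  rw [hmask, hA, m1, m2, m3]
  have hle : ∑ k ∈ range n, d k + 2 ^ (h + 1) * (∑ k ∈ range n, if 2 ^ h ≤ d k then 1 else 0) ≤
      2 * (∑ k ∈ range n, if 2 ^ h ≤ d k then d k else 0) + 2 ^ h * n := by
    have h0 : (0:ℤ) ≤ ∑ k ∈ range n, |g k| := sum_nonneg (fun _ _ => abs_nonneg _)
    have : ((∑ k ∈ range n, d k + 2 ^ (h + 1) * (∑ k ∈ range n, if 2 ^ h ≤ d k then 1 else 0) : ℕ) : ℤ) ≤
      ((2 * (∑ k ∈ range n, if 2 ^ h ≤ d k then d k else 0) + 2 ^ h * n : ℕ) : ℤ) := by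
      linarith
    exact_mod_cast this
  rw [Nat.cast_sub hle]
  linarith

end LinNi
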