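import Pool.Agent.Lib.MP_0170ef_an.Check
import Pool.Agent.Lib.MP_0170ef_an.Poly
import Pool.Agent.Lib.MP_0170ef_an.Rad

/-!
Soundness of the numerical verification: norms.
-/

set_option autoImplicit false

open Set Filter Topology

namespace LinNi

/-- tolerance for divided differences -/
noncomputable def tau : ℝ := 1 / (tt : ℝ)

lemma tt_pos : 0 < tt := by
  unfold tt
  exact Nat.pow_pos (by norm_num)

lemma tau_pos : 0 < tau := by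
  unfold tau
  have : (0:ℝ) < (tt : ℝ) := by exact_mod_cast tt_pos
  positivity

/-- the scale -/
noncomputable def Cfg.U (C : Cfg) : ℝ := 2 ^ C.k

lemma Cfg.U_pos (C : Cfg) : 0 < C.U := by unfold Cfg.U; positivity

/-- the parameter `c` -/
noncomputable def Cfg.c (C : Cfg) (e : ℝ) : ℝ := (C.c0 + C.c1 * e) / C.U

lemma pow4 (C : Cfg) : (2:ℝ) ^ (4 * C.k) = C.U ^ 4 := by
  unfold Cfg.U; rw [← pow_mul]; ring_nf
lemma pow7 (C : Cfg) : (2:ℝ) ^ (7 * C.k) = C.U ^ 7 := by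
  unfold Cfg.U; rw [← pow_mul]; ring_nf
lemma pow3 (C : Cfg) : (2:ℝ) ^ (3 * C.k) = C.U ^ 3 := by
  unfold Cfg.U; rw [← pow_mul]; ring_nf

/-- conclusions of the configuration check -/
structure Cfg.Good (C : Cfg) : Prop where
  ok : C.Ok
  hR : 7 * C.n + 1 < C.R
  hS : 7 * C.m + 1 < C.S
  hb : b2 C + 2 ^ 64 < 2 ^ C.h
  hc : C.c0 + C.c1 ≤ 2 ^ C.k
  hc1 : C.c1 ≤ C.c0

lemma Cfg.good {C : Cfg} (h : C.chk = true) : C.Good := by
  simp only [Cfg.chk, Bool.and_eq_true, Nat.ble_eq] at h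
  obtain ⟨⟨h1, h2⟩, ⟨h3, h4⟩, ⟨h5, h6⟩, h7⟩ := h
  exact ⟨⟨h1, by omega⟩, by omega, by omega, by omega, h6, h7⟩

section
variable {C : Cfg} (hC : C.Good)
include hC

lemma Cfg.Good.c_mem {e : ℝ} (he : |e| ≤ 1) : C.c e ∈ Icc (0:ℝ) 1 := by
  have h1 : ((C.c0:ℝ) + C.c1) ≤ C.U := by
    unfold Cfg.U; exact_mod_cast hC.hc
  have h2 : (C.c1:ℝ) ≤ C.c0 := by exact_mod_cast hC.hc1
  have h3 : (0:ℝ) ≤ C.c1 := by positivity
  rw [abs_le] at he
  unfold Cfg.c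
  constructor
  · apply div_nonneg _ C.U_pos.le
    nlinarith
  · rw [div_le_one C.U_pos]
    nlinarith

omit hC in
lemma Cfg.c_le {e : ℝ} (he : |e| ≤ 1) : C.c e ≤ ((C.c0:ℝ) + C.c1) / C.U := by
  have h3 : (0:ℝ) ≤ C.c1 := by positivity
  rw [abs_le] at he
  unfold Cfg.c
  have := C.U_pos
  gcongr
  nlinarith
end

/-- the polynomial of a packed list -/
noncomputable def pl (C : Cfg) (L : ℕ) : Pol := hor L C.m PX PY (C.n + 1)
/-- its derivative -/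
noncomputable def pl1 (C : Cfg) (L : ℕ) : Pol := dhor L C.m PX PY (C.n + 1)
/-- half its second derivative -/
noncomputable def pl2 (C : Cfg) (L : ℕ) : Pol := ddhor L C.m PX PY (C.n + 1)

lemma ev_pl {A : Type*} [CommRing A] (C : Cfg) (L : ℕ) (x y : A) :
    ev x y (pl C L) = hor L C.m x y (C.n + 1) := by
  unfold pl; rw [map_hor, ev_PX, ev_PY]
lemma ev_pl1 {A : Type*} [CommRing A] (C : Cfg) (L : ℕ) (x y : A) :
    ev x y (pl1 C L) = dhor L C.m x y (C.n + 1) := by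
  unfold pl1; rw [map_dhor, ev_PX, ev_PY]
lemma ev_pl2 {A : Type*} [CommRing A] (C : Cfg) (L : ℕ) (x y : A) :
    ev x y (pl2 C L) = ddhor L C.m x y (C.n + 1) := by
  unfold pl2; rw [map_ddhor, ev_PX, ev_PY]

lemma v0_eq (C : Cfg) (L : ℕ) : v0 C L = ev (kX C) (kY C : ℤ) (pl C L) := by
  rw [ev_pl]; exact khor_eq _ _ _ _ _
lemma v1_eq (C : Cfg) (L : ℕ) : v1 C L = ev (kX C) (kY C : ℤ) (pl1 C L) := by
  rw [ev_pl1]; exact kdhor_eq _ _ _ _ _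
lemma v2_eq (C : Cfg) (L : ℕ) : v2 C L = ev (kX C) (kY C : ℤ) (pl2 C L) := by
  rw [ev_pl2]; exact kddhor_eq _ _ _ _ _

lemma bnd_pl (C : Cfg) (L : ℕ) : Bnd (pl C L) C.n C.m (b0 C) := by
  refine (Bnd.hor Bnd.X L C.m C.n).mono (by omega) le_rfl ?_
  unfold b0; push_cast; rfl
lemma bnd_pl1 (C : Cfg) (L : ℕ) : Bnd (pl1 C L) C.n C.m (b1 C) := by
  refine (Bnd.dhor Bnd.X L C.m C.n).mono (by omega) le_rfl ?_
  unfold b1 b0; push_cast; rfl
lemma bnd_pl2 (C : Cfg) (L : ℕ) : Bnd (pl2 C L) C.n C.m (b2 C) := by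
  refine (Bnd.ddhor Bnd.X L C.m C.n).mono (by omega) le_rfl ?_
  unfold b2 b1 b0; push_cast; rfl

lemma b0_le (C : Cfg) : b0 C ≤ b2 C := by
  unfold b2 b1
  have h1 : b0 C ≤ (C.n + 1) * b0 C := Nat.le_mul_of_pos_left _ (by omega)
  have h2 : (C.n + 1) * b0 C ≤ (C.n + 1) * ((C.n + 1) * b0 C) := Nat.le_mul_of_pos_left _ (by omega)
  exact h1.trans h2

lemma abs_cen_le (C : Cfg) (L : ℕ) : |cen C L| ≤ 2 ^ 63 := by
  unfold cen
  rw [Int.subNatNat_eq_coe, kdig_eq]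
  have := abs_dig_le L (Nat.add (Nat.mul C.n (Nat.succ C.m)) C.m)
  have e : (((9223372036854775808 : ℕ)) : ℤ) = 2 ^ 63 := by norm_num
  rw [e]
  simpa using this

section
variable {C : Cfg} (hC : C.Good) (L : ℕ)
include hC

lemma kn_small {p : Pol} {n m : ℕ} {B : ℤ} (hp : Bnd p n m B) (hB : B ≤ b2 C + 2 ^ 63) (hn : n ≤ C.n)
    (hm : m ≤ C.m) {z : ℤ} (hz : z = ev (kX C) (kY C : ℤ) p) : (kn C z : ℤ) = nrm p := by
  have h1 := hC.hb
  have h2 := hC.hR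
  have h3 := hC.hS
  refine kn_eq hC.ok hp ?_ (by omega) (by omega) hz
  have h4 : ((b2 C + 2 ^ 64 : ℕ) : ℤ) < ((2 ^ C.h : ℕ) : ℤ) := by exact_mod_cast h1
  push_cast at h4
  linarith

lemma nu_eq : (nu C L : ℤ) = nrm (pl C L - ((cen C L : ℤ) : Pol)) := by
  unfold nu
  refine kn_small hC ((bnd_pl C L).sub (Bnd.int _)) ?_ (by omega) (by omega) ?_
  · have h1 := abs_cen_le C L
    have h2 := b0_le C
    have h3 : (b0 C : ℤ) ≤ b2 C := by exact_mod_cast h2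
    linarith
  · rw [map_sub, ← v0_eq]
    simp only [map_intCast, Int.cast_id]
    rfl

lemma bnd_nN : Bnd (pl C L) C.n C.m (nN C L) := by
  refine ⟨(bnd_pl C L).1, ?_⟩
  have h1 : nrm (pl C L) ≤ nrm (pl C L - ((cen C L : ℤ) : Pol)) + nrm ((cen C L : ℤ) : Pol) := by
    have := nrm_add (pl C L - ((cen C L : ℤ) : Pol)) ((cen C L : ℤ) : Pol)
    simpa using this
  have h2 := (Bnd.int (cen C L)).2
  rw [← nu_eq hC L] at h1
  unfold nN
  push_cast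
  linarith

lemma bnd_kn : Bnd (pl C L) C.n C.m (kn C (v0 C L)) := by
  refine ⟨(bnd_pl C L).1, ?_⟩
  rw [kn_small hC (bnd_pl C L) ?_ le_rfl le_rfl (v0_eq C L)]
  have h2 := b0_le C
  have h3 : (b0 C : ℤ) ≤ b2 C := by exact_mod_cast h2
  linarith

lemma abs_hor_sub_le {r e : ℝ} (hr : |r| ≤ 1) (he : |e| ≤ 1) :
    |hor L C.m r e (C.n + 1) - cen C L| ≤ nu C L := by
  have h1 := abs_ev_le hr he (pl C L - ((cen C L : ℤ) : Pol))
  rw [← nu_eq hC L, map_sub, ev_pl] at h1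
  simpa using h1

lemma abs_hor_le {r e : ℝ} (hr : |r| ≤ 1) (he : |e| ≤ 1) :
    |hor L C.m r e (C.n + 1)| ≤ nN C L := by
  have h1 := abs_ev_le hr he (pl C L)
  rw [ev_pl] at h1
  refine h1.trans ?_
  exact_mod_cast (bnd_nN hC L).2

lemma abs_hor_le' {r e : ℝ} (hr : |r| ≤ 1) (he : |e| ≤ 1) :
    |hor L C.m r e (C.n + 1)| ≤ kn C (v0 C L) := by
  have h1 := abs_ev_le hr he (pl C L)
  rw [ev_pl] at h1
  refine h1.trans ?_
  exact_mod_cast (bnd_kn hC L).2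
end

/-! ### the residuals -/

lemma nbf_eq (C : Cfg) (B : ℕ) : ((nbf C B : ℕ) : ℤ) = bf C B := by unfold nbf bf; push_cast; rfl
lemma nbfp_eq (C : Cfg) (B : ℕ) : ((nbfp C B : ℕ) : ℤ) = bfp C B := by
  unfold nbfp bfp; push_cast; rfl
lemma nbhf_eq (C : Cfg) (B : ℕ) : ((nbhf C B : ℕ) : ℤ) = bhf C B := by
  unfold nbhf bhf; push_cast; rfl
lemma nbg_eq (C : Cfg) (a h d Bf : ℕ) :
    ((nbg C a h d Bf : ℕ) : ℤ) = bg C a h d (b1 C) (b2 C) Bf := by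
  unfold nbg bg; push_cast; rfl
lemma nbz_eq (C : Cfg) (h d Bf : ℕ) :
    ((nbz C h d Bf : ℕ) : ℤ) = bz C h d (b0 C) (b1 C) (b2 C) Bf := by
  unfold nbz bz; push_cast; rfl

lemma abs_gE_le {C : Cfg} (hC : C.Good) (a h d L : ℕ) {q : Pol} {Bf : ℕ}
    (hq : Bnd q (7 * C.n) (7 * C.m + 1) Bf) (hB : nbg C a h d Bf < 2 ^ C.h) {z : ℤ}
    (hz : z = ev (kX C) (kY C : ℤ) q) {r e : ℝ} (hr : |r| ≤ 1) (he : |e| ≤ 1) :
    |gE C a h d r (dhor L C.m r e (C.n + 1)) (ddhor L C.m r e (C.n + 1)) (ev r e q)| ≤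
      kn C (kgE C a h d (kX C) (v1 C L) (v2 C L) z) := by
  have hb := Bnd.gE C a h d (bnd_pl1 C L) (bnd_pl2 C L) hq (N := 7 * C.n + 1) (M := 7 * C.m + 1)
    (by omega) (by omega) (by omega) (by omega) (by omega) (by omega)
  have hB' : bg C a h d (b1 C) (b2 C) Bf < 2 ^ C.h := by
    rw [← nbg_eq]; exact_mod_cast hB
  have h1 := kn_eq hC.ok hb hB' hC.hR hC.hS
    (z := kgE C a h d (kX C) (v1 C L) (v2 C L) z) (by
      rw [kgE_eq, map_gE, ev_PX, ← v1_eq, ← v2_eq, hz])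
  have h2 := abs_ev_le hr he (gE C a h d PX (pl1 C L) (pl2 C L) q)
  rw [map_gE, ev_PX, ev_pl1, ev_pl2] at h2
  refine h2.trans ?_
  rw [← h1]
  simp

lemma abs_zE_le {C : Cfg} (hC : C.Good) (hR : 7 * C.n + 15 < C.R) (h d L : ℕ) {q : Pol} {Bf : ℕ}
    (hq : Bnd q (7 * C.n + 15) (7 * C.m + 1) Bf) (hB : nbz C h d Bf < 2 ^ C.h) {z : ℤ}
    (hz : z = ev (kX C) (kY C : ℤ) q) {r e : ℝ} (hr : |r| ≤ 1) (he : |e| ≤ 1) :
    |zE C h d r (hor L C.m r e (C.n + 1)) (dhor L C.m r e (C.n + 1)) (ddhor L C.m r e (C.n + 1))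
      (ev r e q)| ≤
      kn C (kzE C h d (kX C) (v0 C L) (v1 C L) (v2 C L) z) := by
  have hb := Bnd.zE C h d (bnd_pl C L) (bnd_pl1 C L) (bnd_pl2 C L) hq (N := 7 * C.n + 15)
    (M := 7 * C.m + 1)
    (by omega) (by omega) (by omega) (by omega) (by omega) (by omega) (by omega) (by omega)
  have hB' : bz C h d (b0 C) (b1 C) (b2 C) Bf < 2 ^ C.h := by
    rw [← nbz_eq]; exact_mod_cast hB
  have h1 := kn_eq hC.ok hb hB' hR hC.hS
    (z := kzE C h d (kX C) (v0 C L) (v1 C L) (v2 C L) z) (by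
      rw [kzE_eq, map_zE, ev_PX, ← v0_eq, ← v1_eq, ← v2_eq, hz])
  have h2 := abs_ev_le hr he (zE C h d PX (pl C L) (pl1 C L) (pl2 C L) q)
  rw [map_zE, ev_PX, ev_pl, ev_pl1, ev_pl2] at h2
  refine h2.trans ?_
  rw [← h1]
  simp

end LinNi
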