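import Pool.Agent.Lib.MP_0170ef_an.CheckC
import Pool.Agent.Lib.MP_0170ef_an.EF
import Pool.Agent.Lib.MP_0170ef_an_helper93.Local

/-!
Windows: conclusions of verified chains for all initial values in an interval.
-/

set_option autoImplicit false

open Set Filter Topology

namespace LinNi

open H93

section chains
variable {kind : ℕ} {E : Patch → Bool} {p : Patch} {l : List Patch}

lemma okP_V (h : okP kind p = true) : p.ckV = true := by
  simp only [okP, Bool.and_eq_true] at h; exact h.1.1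
lemma okP_W (h : okP kind p = true) : p.ckW = true := by
  simp only [okP, Bool.and_eq_true] at h; exact h.1.2
lemma okP_L (h : okP 1 p = true) : (p.fpos || p.fL) = true := by
  simp only [okP, Bool.and_eq_true] at h
  have h2 := h.2
  have e0 : Nat.beq 1 0 = false := rfl
  have e1 : Nat.beq 1 1 = true := rfl
  have e2 : Nat.beq 1 2 = false := rfl
  have e3 : Nat.beq 1 3 = false := rfl
  rw [e0, e1, e2, e3] at h2
  simpa using h2
lemma okP_R (h : okP 2 p = true) : (p.fpos || p.fR) = true := by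
  simp only [okP, Bool.and_eq_true] at h
  have h2 := h.2
  have e0 : Nat.beq 2 0 = false := rfl
  have e1 : Nat.beq 2 1 = false := rfl
  have e2 : Nat.beq 2 2 = true := rfl
  have e3 : Nat.beq 2 3 = false := rfl
  rw [e0, e1, e2, e3] at h2
  simpa using h2
lemma okP_Y (h : okP 3 p = true) : p.ckY = true ∧ (p.fpos || p.fY) = true := by
  simp only [okP, Bool.and_eq_true] at h
  have h2 := h.2
  have e0 : Nat.beq 3 0 = false := rfl
  have e1 : Nat.beq 3 1 = false := rfl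
  have e2 : Nat.beq 3 2 = false := rfl
  have e3 : Nat.beq 3 3 = true := rfl
  rw [e0, e1, e2, e3] at h2
  simpa using h2

lemma Chn.chV (h : Chn kind E p l) : ChV p l := by
  induction h with
  | nil h _ => exact okP_V h
  | cons h1 h2 _ ih =>
    simp only [okL, Bool.and_eq_true] at h2
    exact ⟨okP_V h1, ⟨h2.1.1, h2.1.2.1⟩, ih⟩

lemma Chn.chW (h : Chn kind E p l) : ChW p l := by
  induction h with
  | nil h _ => exact okP_W h
  | cons h1 h2 _ ih =>
    simp only [okL, Bool.and_eq_true] at h2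
    exact ⟨okP_W h1, h2.1.2.2, ih⟩

lemma Chn.chY (h : Chn 3 E p l) : ChY p l := by
  induction h with
  | nil h _ => exact (okP_Y h).1
  | cons h1 h2 _ ih =>
    simp only [okL, Bool.and_eq_true] at h2
    refine ⟨(okP_Y h1).1, ?_, ih⟩
    have e1 : Nat.ble 3 2 = false := rfl
    have h3 := h2.2
    rw [e1, Bool.false_or] at h3
    exact h3

lemma Chn.last (h : Chn kind E p l) : E (lastP p l) = true := by
  induction h with
  | nil _ h => exact h
  | cons _ _ _ ih => exact ih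

lemma Chn.all (h : Chn kind E p l) : ∀ q ∈ p :: l, okP kind q = true := by
  induction h with
  | nil h _ =>
    intro q hq
    rw [List.mem_singleton] at hq
    rw [hq]; exact h
  | cons h1 h2 _ ih =>
    intro q hq
    rcases List.mem_cons.1 hq with rfl | hq
    · exact h1
    · exact ih q hq

variable {F : First}

lemma okF_V (hF : okF kind F p = true) (h : Chn kind E p l) : ValidV F p l := by
  simp only [okF, Bool.and_eq_true, Nat.ble_eq] at hF
  obtain ⟨⟨⟨h1, h2⟩, h3, h4, h5⟩, h6, h7⟩ := hF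
  exact ⟨h1, h6, h3, h4, h.chV⟩

lemma okF_W (hF : okF kind F p = true) (h : Chn kind E p l) : ValidW F p l := by
  simp only [okF, Bool.and_eq_true, Nat.ble_eq] at hF
  obtain ⟨⟨⟨h1, h2⟩, h3, h4, h5⟩, h6, h7⟩ := hF
  exact ⟨h2, h5, h.chW⟩

lemma okF_Y (hF : okF 3 F p = true) (h : Chn 3 E p l) : ValidY F p l := by
  simp only [okF, Bool.and_eq_true] at hF
  obtain ⟨-, -, h7⟩ := hF
  have e1 : Nat.ble 3 2 = false := rfl
  rw [e1, Bool.false_or, Bool.and_eq_true] at h7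
  exact ⟨h7.1, h7.2, h.chY⟩

end chains

section windows
variable {F : First} {p : Patch} {l : List Patch} {n m : ℕ}

lemma cov_iff (h : cov F n m = true) : F.C.c0 = 2 ^ F.C.k ∧ F.C.c1 = 0 ∧ 0 < F.a1 ∧ F.a1 < F.a0 ∧
    (F.a0 - F.a1) * 10 ^ 4 ≤ n * 2 ^ F.C.k ∧ m * 2 ^ F.C.k ≤ (F.a0 + F.a1) * 10 ^ 4 ∧
    F.a0 + F.a1 < 2 * 2 ^ F.C.k := by
  simp only [cov, Bool.and_eq_true, Nat.beq_eq, Nat.ble_eq] at h
  obtain ⟨⟨⟨h1, h2⟩, h3, h4⟩, ⟨h5, h6⟩, h7⟩ := h
  exact ⟨h1, h2, h3, h4, h5, h6, h7⟩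

lemma cov_c (h : cov F n m = true) (e : ℝ) : F.C.c e = 1 := by
  obtain ⟨h1, h2, -⟩ := cov_iff h
  have hU := F.C.U_pos
  have e1 : (F.C.c0 : ℝ) = F.C.U := by rw [h1]; unfold Cfg.U; push_cast; rfl
  unfold Cfg.c
  rw [e1, h2]
  field_simp
  simp

lemma ini_eq (F : First) (e : ℝ) : F.ini e = ((F.a0:ℝ) + F.a1 * e) / F.C.U := rfl

/-- left end of a window -/
noncomputable def First.wl (F : First) : ℝ := F.ini (-1)
/-- right end of a window -/
noncomputable def First.wr (F : First) : ℝ := F.ini 1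

lemma wl_pos (h : cov F n m = true) : 0 < F.wl := by
  obtain ⟨-, -, h3, h4, -⟩ := cov_iff h
  have hU := F.C.U_pos
  unfold First.wl
  rw [ini_eq]
  have : (F.a1:ℝ) < F.a0 := by exact_mod_cast h4
  apply div_pos (by linarith) hU

lemma wl_lt_wr (h : cov F n m = true) : F.wl < F.wr := by
  obtain ⟨-, -, h3, h4, -⟩ := cov_iff h
  have hU := F.C.U_pos
  unfold First.wl First.wr
  rw [ini_eq, ini_eq]
  have : (0:ℝ) < F.a1 := by exact_mod_cast h3
  gcongr
  linarith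

lemma wr_lt (h : cov F n m = true) : F.wr < 2 := by
  obtain ⟨-, -, -, -, -, -, h7⟩ := cov_iff h
  have hU := F.C.U_pos
  unfold First.wr
  rw [ini_eq, div_lt_iff₀ hU]
  have : ((F.a0 + F.a1 : ℕ) : ℝ) < ((2 * 2 ^ F.C.k : ℕ) : ℝ) := by exact_mod_cast h7
  push_cast at this
  unfold Cfg.U
  linarith

lemma wl_le (h : cov F n m = true) : F.wl ≤ n / 10 ^ 4 := by
  obtain ⟨-, -, h3, h4, h5, h6, h7⟩ := cov_iff h
  have hU := F.C.U_pos
  unfold First.wl
  rw [ini_eq, div_le_div_iff₀ hU (by positivity)]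
  have : (((F.a0 - F.a1) * 10 ^ 4 : ℕ) : ℝ) ≤ ((n * 2 ^ F.C.k : ℕ) : ℝ) := by exact_mod_cast h5
  push_cast [Nat.cast_sub h4.le] at this
  unfold Cfg.U
  linarith

lemma le_wr (h : cov F n m = true) : (m:ℝ) / 10 ^ 4 ≤ F.wr := by
  obtain ⟨-, -, h3, h4, h5, h6, h7⟩ := cov_iff h
  have hU := F.C.U_pos
  unfold First.wr
  rw [ini_eq, div_le_div_iff₀ (by positivity) hU]
  have : ((m * 2 ^ F.C.k : ℕ) : ℝ) ≤ (((F.a0 + F.a1) * 10 ^ 4 : ℕ) : ℝ) := by exact_mod_cast h6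
  push_cast at this
  unfold Cfg.U
  linarith

/-- parameter of an initial value -/
lemma exists_e (h : cov F n m = true) {a : ℝ} (ha : a ∈ Icc F.wl F.wr) :
    ∃ e : ℝ, |e| ≤ 1 ∧ F.ini e = a := by
  obtain ⟨-, -, h3, h4, -⟩ := cov_iff h
  have hU := F.C.U_pos
  have ha1 : (0:ℝ) < F.a1 := by exact_mod_cast h3
  refine ⟨(a * F.C.U - F.a0) / F.a1, ?_, ?_⟩
  · unfold First.wl First.wr at ha
    rw [ini_eq, ini_eq] at ha
    have h1 := (div_le_iff₀ hU).1 ha.1
    have h2 := (le_div_iff₀ hU).1 ha.2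
    rw [abs_le]
    constructor
    · rw [le_div_iff₀ ha1]; linarith
    · rw [div_le_iff₀ ha1]; linarith
  · rw [ini_eq]
    field_simp
    ring

lemma mem_w (h : cov F n m = true) {a : ℝ} (h1 : (n:ℝ) / 10 ^ 4 ≤ a) (h2 : a ≤ m / 10 ^ 4) :
    a ∈ Icc F.wl F.wr := ⟨(wl_le h).trans h1, h2.trans (le_wr h)⟩

/-- window of type `L` -/
theorem win_L (hF : okF 1 F p = true) (h : Chn 1 Patch.fneg p l) (hc : cov F n m = true) {a : ℝ}
    (h1 : (n:ℝ) / 10 ^ 4 ≤ a) (h2 : a ≤ m / 10 ^ 4) : LocL a := by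
  have hm := mem_w hc h1 h2
  obtain ⟨e, he, rfl⟩ := exists_e hc hm
  have h0 : 0 < F.ini e := (wl_pos hc).trans_le hm.1
  obtain ⟨T', hT0, hT1, hT2, hT3, hT4⟩ := (okF_V hF h).critL (okF_W hF h) h.last
    (fun q hq => okP_L (h.all q hq)) he h0
  rw [cov_c hc] at hT2 hT3 hT4
  have hTe := T_unique h0 hT0 hT2
  refine loc_L (N := lastB p l) (τ := tau) h0 (hm.2.trans_lt (wr_lt hc)) tau_pos ⟨T', hT0, hT2⟩
    (by rw [hTe]; exact hT1) (by norm_num at hT3 ⊢; linarith) (by rw [hTe]; exact hT4)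

/-- window of type `R` -/
theorem win_R (hF : okF 2 F p = true) (h : Chn 2 Patch.fneg p l) (hc : cov F n m = true) {a : ℝ}
    (h1 : (n:ℝ) / 10 ^ 4 ≤ a) (h2 : a ≤ m / 10 ^ 4) : LocR a := by
  have hm := mem_w hc h1 h2
  obtain ⟨e, he, rfl⟩ := exists_e hc hm
  have h0 : 0 < F.ini e := (wl_pos hc).trans_le hm.1
  obtain ⟨T', hT0, hT1, hT2, hT3, hT4⟩ := (okF_V hF h).critR (okF_W hF h) h.last
    (fun q hq => okP_R (h.all q hq)) he h0
  rw [cov_c hc] at hT2 hT3 hT4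
  have hTe := T_unique h0 hT0 hT2
  refine loc_R (N := lastB p l) (τ := tau) h0 (hm.2.trans_lt (wr_lt hc)) tau_pos ⟨T', hT0, hT2⟩
    (by rw [hTe]; exact hT1) (by norm_num at hT3 ⊢; linarith) (by rw [hTe]; exact hT4)

/-- window with positive second variation -/
theorem win_W (hF : okF 3 F p = true) (h : Chn 3 Patch.fneg p l) (hc : cov F n m = true) {a : ℝ}
    (h1 : (n:ℝ) / 10 ^ 4 ≤ a) (h2 : a ≤ m / 10 ^ 4) : Crosses a ∧ LocQ a := by
  have hm := mem_w hc h1 h2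
  obtain ⟨e, he, rfl⟩ := exists_e hc hm
  have h0 : 0 < F.ini e := (wl_pos hc).trans_le hm.1
  obtain ⟨T', hT0, hT1, hT2, hT3, hT4⟩ := (okF_V hF h).critY (okF_W hF h) (okF_Y hF h) h.last
    (fun q hq => (okP_Y (h.all q hq)).2) he h0
  rw [cov_c hc] at hT2 hT3 hT4
  have hTe := T_unique h0 hT0 hT2
  refine loc_W (N := lastB p l) (τ := tau) h0 (hm.2.trans_lt (wr_lt hc)) tau_pos ⟨T', hT0, hT2⟩
    (by rw [hTe]; exact hT1) (by norm_num at hT3 ⊢; linarith) ?_
  intro g u₁ u₂ G u μ G₁ μ₁ G₂ μ₂ a1 a2 a3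
  rw [hTe]
  exact hT4 g u₁ u₂ G u μ G₁ μ₁ G₂ μ₂ a1 a2 a3

/-- window of normalized solutions -/
theorem win_A (hF : okF 1 F p = true) (h : Chn 1 Patch.fneg p l) (hc : covA F n m = true) {α : ℝ}
    (hα : 0 < α) (h1 : (n:ℝ) / 10 ^ 4 ≤ α ^ 3) (h2 : α ^ 3 ≤ m / 10 ^ 4) : LocL α := by
  simp only [covA, Bool.and_eq_true, Nat.beq_eq, Nat.ble_eq] at hc
  obtain ⟨⟨⟨c1, c2⟩, c3, c4⟩, ⟨c5, c6⟩, c7⟩ := hc
  have hU := F.C.U_pos
  have hUk : ((2 ^ F.C.k : ℕ) : ℝ) = F.C.U := by unfold Cfg.U; push_cast; rfl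
  have hc1 : (0:ℝ) < F.C.c1 := by exact_mod_cast c3
  -- the parameter
  have b1 : ((F.C.c0:ℝ) - F.C.c1) ≤ α ^ 3 * F.C.U := by
    have h3 : (((F.C.c0 - F.C.c1) * 10 ^ 4 : ℕ) : ℝ) ≤ ((n * 2 ^ F.C.k : ℕ) : ℝ) := by
      exact_mod_cast c5
    push_cast [Nat.cast_sub c4] at h3
    have h4 : (n:ℝ) * F.C.U ≤ α ^ 3 * 10 ^ 4 * F.C.U := by
      gcongr
      rw [div_le_iff₀ (by positivity)] at h1
      exact h1
    unfold Cfg.U at *
    linarith
  have b2 : α ^ 3 * F.C.U ≤ (F.C.c0:ℝ) + F.C.c1 := by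
    have h3 : ((m * 2 ^ F.C.k : ℕ) : ℝ) ≤ (((F.C.c0 + F.C.c1) * 10 ^ 4 : ℕ) : ℝ) := by
      exact_mod_cast c6
    push_cast at h3
    have h4 : α ^ 3 * 10 ^ 4 * F.C.U ≤ (m:ℝ) * F.C.U := by
      gcongr
      rw [le_div_iff₀ (by positivity)] at h2
      exact h2
    unfold Cfg.U at *
    linarith
  set e : ℝ := (α ^ 3 * F.C.U - F.C.c0) / F.C.c1 with hedef
  have he : |e| ≤ 1 := by
    rw [abs_le]
    constructor
    · rw [le_div_iff₀ hc1]; linarith
    · rw [div_le_iff₀ hc1]; linarith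
  have hce : F.C.c e = α ^ 3 := by
    unfold Cfg.c
    rw [hedef]
    field_simp
    ring
  have hini : F.ini e = 1 := by
    rw [ini_eq, c1, c2, hUk]
    field_simp
    simp
  have hα1 : α ≤ 1 := by
    by_contra hcon
    push Not at hcon
    have h5 : 1 < α ^ 3 := one_lt_pow₀ hcon (by norm_num)
    have h6 : (m:ℝ) ≤ 10 ^ 4 := by exact_mod_cast c7
    have h7 : (m:ℝ) / 10 ^ 4 ≤ 1 := by
      rw [div_le_one (by positivity)]; exact h6
    linarith
  obtain ⟨T', hT0, hT1, hT2, hT3, hT4⟩ := (okF_V hF h).critL (okF_W hF h) h.last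
    (fun q hq => okP_L (h.all q hq)) he (by rw [hini]; norm_num)
  rw [hce, hini] at hT2 hT3 hT4
  exact locL_norm hα hα1 hT0 hT1 tau_pos hT2 (by norm_num at hT3 ⊢; linarith) hT4

end windows

/-! ### the limiting equation -/

lemma okPE_iff {tv tw : ℕ} {p : Patch} (h : okPE tv tw p = true) :
    (p.ckV = true ∧ p.ckVE tv tw = true ∧ p.ckWE tw = true ∧ p.sw.ckWE tw = true) ∧
      p.fEE = true := by
  simp only [okPE, Bool.and_eq_true] at h
  exact ⟨⟨h.1.1, h.1.2, h.2.1.1, h.2.1.2⟩, h.2.2⟩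

lemma ChnE.chE {tv tw : ℕ} {p : Patch} {l : List Patch} (h : ChnE tv tw p l) : ChE tv tw p l := by
  induction h with
  | nil h _ => exact (okPE_iff h).1
  | cons h1 h2 _ ih =>
    simp only [okLE, Bool.and_eq_true] at h2
    exact ⟨(okPE_iff h1).1, ⟨h2.1.1, h2.1.2, h2.2.1, h2.2.2⟩, ih⟩

lemma ChnE.last {tv tw : ℕ} {p : Patch} {l : List Patch} (h : ChnE tv tw p l) :
    (lastP p l).fneg = true := by
  induction h with
  | nil _ h => exact h
  | cons _ _ _ ih => exact ih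

lemma ChnE.all {tv tw : ℕ} {p : Patch} {l : List Patch} (h : ChnE tv tw p l) :
    ∀ q ∈ p :: l, q.fEE = true := by
  induction h with
  | nil h _ =>
    intro q hq
    rw [List.mem_singleton] at hq
    rw [hq]; exact (okPE_iff h).2
  | cons h1 h2 _ ih =>
    intro q hq
    rcases List.mem_cons.1 hq with rfl | hq
    · exact (okPE_iff h1).2
    · exact ih q hq

theorem ChnE.valid {tv tw : ℕ} {p : Patch} {l : List Patch} (h : ChnE tv tw p l)
    (hF : okFE p = true) : ValidE tv tw p l := by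
  simp only [okFE, Bool.and_eq_true] at hF
  exact ⟨h.chE, hF.1, hF.2.1, hF.2.2, h.last, h.all⟩

end LinNi
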